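import Pool.Agent.WX.NvZ
import Pool.Agent.PV.FNval

/-!
# Plan X: the value of the function without legs, loop weight `ζ + ζ⁻¹` (helper96)

* **`FNz_val`**: `FNz ζ N = W0 N * ZZ (ζ + ζ⁻¹) N / bulk N`, every `N`, every `ζ ≠ 0`;
* `FNz_ZP`: the same with the polynomial `ZP N` (nonnegative coefficients) at `n' = 2 cos (π d)`;
* `FNz_one`: `FNz 1 N = PV.FN N`; `FNz_le`: `‖FNz (zt d) N‖ ≤ ‖FN N‖`; `FNz_neg`; `fVt_val`.
-/

set_option autoImplicit false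
set_option linter.unusedSectionVars false

noncomputable section

open Complex Filter Topology Polynomial

namespace WX

open NUP1 (l lpos)
open PBX (DZ)
open PBR (rh)
open Pool.Agent.PB (cn Rws_zero)
open PV (nv PfV DZ_self const_V LV)
open WND (zt zt_ne zt_neg zt_zero)

/-- **the unknown of plan X** -/
def FNz (ζ : ℂ) (N : ℕ) : ℂ := fVz ζ N 0 / rh 0 ^ 2

theorem FNz_one (N : ℕ) : FNz 1 N = PV.FN N := by
  unfold FNz PV.FN
  rw [fVz_one]

/-- the function without legs is the disc function at loop weight `ζ + ζ⁻¹`, relative to the bulk -/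
theorem FNz_Wd {ζ : ℂ} (hζ : ζ ≠ 0) (N : ℕ) : FNz ζ N =
    (Pool.Agent.NUF.near_WW (ζ + ζ⁻¹)).Wd (List.replicate N 1) (List.replicate N 1) /
      (Pool.Agent.NUF.bulk N : ℂ) := by
  have hb : (Pool.Agent.NUF.bulk N : ℂ) ≠ 0 := by
    exact_mod_cast (Pool.Agent.NUF.bulk_pos N).ne'
  rw [eq_div_iff hb, PVN.Wd_DZ hζ, NUP1.ExM.A0_sq (by rw [← NUP1.Mu.four_sin_sq]; ring), ← const_V]
  have h1 : fVz ζ N 0 = nvz ζ 0 0 (fun _ : Fin N => (0 : ℂ)) (fun _ : Fin N => (0 : ℂ)) := by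
    unfold fVz xz
    simp
  unfold FNz
  rw [h1]
  unfold nvz nvn
  rw [Finset.sum_congr rfl fun n _ => by
    rw [DZ_self (Rws_zero N) (Rws_zero N) (cn N) (cn N) n, mul_left_comm], ← Finset.mul_sum]
  ring

/-- **the value** -/
theorem FNz_val {ζ : ℂ} (hζ : ζ ≠ 0) (N : ℕ) : FNz ζ N =
    (NUI.W0 N : ℂ) * Pool.Agent.NUF.ZZ (ζ + ζ⁻¹) N / (Pool.Agent.NUF.bulk N : ℂ) := by
  have h0 : ∃ w : ℝ, 0 ≤ w ∧ (Pool.Agent.NUF.near_WW 0).Wd (List.replicate N 1)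
      (List.replicate N 1) = (w : ℂ) := ⟨_, by positivity, Pool.Agent.NUQ.Wd0_val N⟩
  obtain ⟨w, hw, h0⟩ := h0
  have hW : NUI.W0 N = w := by
    unfold NUI.W0
    rw [h0, Complex.norm_real, Real.norm_eq_abs, abs_of_nonneg hw]
  have hw0 : (w : ℂ) ≠ 0 := by
    have := (NUI.W0_pos N).ne'
    rw [hW] at this
    exact_mod_cast this
  have h3 : (Pool.Agent.NUF.near_WW (ζ + ζ⁻¹)).Wd (List.replicate N 1) (List.replicate N 1) =
      (w : ℂ) * Pool.Agent.NUF.ZZ (ζ + ζ⁻¹) N := by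
    unfold Pool.Agent.NUF.ZZ
    rw [h0]
    field_simp
  rw [FNz_Wd hζ, h3, hW]

/-- `ζ + ζ⁻¹` for `ζ = exp (i π d)` -/
theorem zt_add_inv (d : ℝ) : zt d + (zt d)⁻¹ = ((2 * Real.cos (Real.pi * d) : ℝ) : ℂ) := by
  unfold WND.zt
  rw [← Complex.exp_neg]
  push_cast
  rw [Complex.cos]
  ring_nf

/-- **the value, loop weight `n' = 2 cos (π d)`** -/
theorem FNz_ZP (d : ℝ) (N : ℕ) : FNz (zt d) N =
    ((NUI.W0 N * (NUI.ZP N).eval (2 * Real.cos (Real.pi * d)) / Pool.Agent.NUF.bulk N : ℝ) : ℂ) := by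
  rw [FNz_val (zt_ne d), zt_add_inv, NUI.ZP_eq]
  have h3 : aeval ((2 * Real.cos (Real.pi * d) : ℝ) : ℂ) (NUI.ZP N) =
      (((NUI.ZP N).eval (2 * Real.cos (Real.pi * d)) : ℝ) : ℂ) := by
    exact Polynomial.aeval_algebraMap_apply ℂ (2 * Real.cos (Real.pi * d)) (NUI.ZP N)
  rw [h3]
  push_cast
  rfl

/-- the polynomial at a loop weight of modulus at most `2` -/
theorem ZP_abs_le {n' : ℝ} (hn : |n'| ≤ 2) (N : ℕ) :
    |(NUI.ZP N).eval n'| ≤ (NUI.ZP N).eval 2 := by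
  rw [Polynomial.eval_eq_sum_range, Polynomial.eval_eq_sum_range]
  refine (Finset.abs_sum_le_sum_abs _ _).trans (Finset.sum_le_sum fun i _ => ?_)
  rw [abs_mul, abs_pow, abs_of_nonneg (NUI.ZP_nonneg N i)]
  exact mul_le_mul_of_nonneg_left (pow_le_pow_left₀ (abs_nonneg _) hn i) (NUI.ZP_nonneg N i)

/-- **never larger than the value at loop weight `2`** -/
theorem FNz_le (d : ℝ) (N : ℕ) : ‖FNz (zt d) N‖ ≤ ‖PV.FN N‖ := by
  have hb := Pool.Agent.NUF.bulk_pos N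
  have hW := NUI.W0_pos N
  have hc : |2 * Real.cos (Real.pi * d)| ≤ 2 := by
    rw [abs_mul, abs_two]
    have := Real.abs_cos_le_one (Real.pi * d)
    linarith
  have h1 := ZP_abs_le hc N
  have h2 : PV.FN N = ((NUI.W0 N * (NUI.ZP N).eval 2 / Pool.Agent.NUF.bulk N : ℝ) : ℂ) := by
    rw [PV.FN_val, PVA.ZZ_real, Complex.ofReal_re]
  rw [FNz_ZP, h2, Complex.norm_real, Complex.norm_real, Real.norm_eq_abs, Real.norm_eq_abs,
    abs_div, abs_div, abs_mul, abs_mul, abs_of_pos hW, abs_of_pos hb,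
    abs_of_nonneg (PVA.ZP_pos N)]
  gcongr

/-- even in `d` -/
theorem FNz_neg (d : ℝ) (N : ℕ) : FNz (zt (-d : ℝ)) N = FNz (zt d) N := by
  rw [FNz_ZP, FNz_ZP]
  congr 5
  rw [mul_neg, Real.cos_neg]

/-- nonnegative loop weight: nonnegative value -/
theorem FNz_pos {d : ℝ} (hd : |d| ≤ 1 / 2) (N : ℕ) : 0 ≤ (FNz (zt d) N).re := by
  rw [FNz_ZP, Complex.ofReal_re]
  refine div_nonneg (mul_nonneg (NUI.W0_pos N).le ?_) (Pool.Agent.NUF.bulk_pos N).le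
  rw [Polynomial.eval_eq_sum_range]
  refine Finset.sum_nonneg fun i _ => mul_nonneg (NUI.ZP_nonneg N i) (pow_nonneg ?_ i)
  have hp := Real.pi_pos
  obtain ⟨h1, h2⟩ := abs_le.1 hd
  have := Real.cos_nonneg_of_mem_Icc (x := Real.pi * d) ⟨by nlinarith, by nlinarith⟩
  linarith

/-- the value in terms of the function with twist -/
theorem fVt_val (d : ℝ) (N : ℕ) : fVt d N 0 = rh 0 ^ 2 *
    ((NUI.W0 N * (NUI.ZP N).eval (2 * Real.cos (Real.pi * d)) / Pool.Agent.NUF.bulk N : ℝ) : ℂ) := by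
  have hR : rh 0 ≠ 0 := PBR.rh_ne_zero (by have := lpos; simp; linarith)
  rw [← FNz_ZP, fVt_at0]
  unfold FNz
  field_simp

end WX

end
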