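import Pool.Agent.PV.CloseEV
import Pool.Agent.WND.Nrm

/-!
# Plan X: `(E_V)` with an arbitrary coefficient (helper91)

Weight `PVLX.wG (PVX.ZFV ep) cf e1 J j s t` with the one body functions of plan V (`PV.ZFV ep`), coefficient
`cf j s t n`.

* `mainX`: the form of `PBEM.E2V_of`;
* `HDX`, `OneX`, `ZLX`, `LVX`: the four inputs (first Ward identity, mass, derivatives in the height of
  the legs, identities of level two);
* **`closeXG`**: `PVF.E2V p Psi`, `1 / 10 ≤ p ≤ 1`;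
* `cX zz`: the coefficient `ζ ^ (m - n)` times the prefactor of plan V, `m = j + 1`, `ζ = zz j`.
-/

set_option autoImplicit false
set_option linter.unusedSectionVars false

noncomputable section

open Complex MeasureTheory Filter Topology Set
open scoped ENNReal

namespace WX

open NUO NUP1S NUP1S.Ab NUP1S.AbC NUGC PBF PBFunc PBU PBWP PBLX PVLX PV PVL
open NUP1 hiding Kd
open PBEI (rowS y1 y2 Apl Ami Bch)
open PBV (wm)
open WND (tw norm_tw_mul)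

attribute [local instance] NUSea.seaP

/-- the weight of plan V with the coefficient `cf` -/
abbrev wX (ep : ℝ) (cf : ℕ → ℝ → ℝ → ℕ → ℂ) (e1 J : ℝ) (j : ℕ) (s t : ℝ) :
    CfN (2 * (j + 1)) → ℂ := wG (PVX.ZFV ep) cf e1 J j s t

theorem wX_cFV (ep e1 J : ℝ) : wX ep PVX.cFV e1 J = PVX.wSV ep e1 J := rfl

/-- **the main term**, coefficient `cf` -/
def mainX (cf : ℕ → ℝ → ℝ → ℕ → ℂ) (ep e1 J : ℝ) (j : ℕ) (s t : ℝ) : ℂ :=
  (∫ q, F (mN (2 * (j + 1))) (wX ep cf e1 J j s t) (fun ω =>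
      Vp (rh0 j s) (eC e1 J j) (Apl (rowS j s) 0 q) ω * Vp (rh0 j s) (eC e1 J j) (Bch q) ω) ∂wm) +
    ((∫ q, F (mN (2 * (j + 1))) (wX ep cf e1 J j s t) (fun ω =>
        Vm (eC e1 J j) (Ami (rowS j s) 0 q) ω * Vm (eC e1 J j) (Bch q) ω) ∂wm) +
      2 * F (mN (2 * (j + 1))) (wX ep cf e1 J j s t) (fun ω =>
        Vm (eC e1 J j) (PBEI.uF (rowS j s) 0) ω * SN (NUSea.O.par0 (j + 1)) (eC e1 J j) ω) -
      ((PBV.rP j s : ℂ) - (PBV.rM j s : ℂ)) / 2 * F (mN (2 * (j + 1))) (wX ep cf e1 J j s t)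
        (fun ω => SN (NUSea.O.par0 (j + 1)) (eC e1 J j) ω *
          SN (NUSea.O.par0 (j + 1)) (eC e1 J j) ω)) +
    F (mN (2 * (j + 1))) (wX ep cf e1 J j s t)
      (Vp (rh0 j s) (eC e1 J j) (fun z => PBEI.qF (rowS j s) 0 t z - PBEI.qF (rowS j s) 0 0 z))

/-- **input 1**: the first Ward identity -/
def HDX (Psi : ℕ → ℂ → ℂ → ℂ) (cf : ℕ → ℝ → ℝ → ℕ → ℂ) (p : ℝ) : Prop :=
  ∃ a0 : ℝ, 0 < a0 ∧ ∀ ep e1 J : ℝ, SmallP a0 ep e1 J → ∃ C : ℝ, 0 ≤ C ∧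
    ∀ᶠ j : ℕ in atTop, ∀ s ∈ Icc (0 : ℝ) 1, ∀ t ∈ Icc (0 : ℝ) 1, ∃ D : ℂ,
      HasDerivAt (fun s : ℝ => Psi j (I * t) (I * s)) D s ∧
      ‖((j + 1 : ℝ) : ℂ) * D - mainX cf ep e1 J j s t‖ ≤ C * (j : ℝ) ^ p

/-- **input 2**: the mass of the family is the function -/
def OneX (Psi : ℕ → ℂ → ℂ → ℂ) (cf : ℕ → ℝ → ℝ → ℕ → ℂ) : Prop :=
  ∃ a0 : ℝ, 0 < a0 ∧ ∀ ep e1 J : ℝ, SmallP a0 ep e1 J →
    ∀ᶠ j : ℕ in atTop, ∀ s ∈ Icc (0 : ℝ) 1, ∀ t ∈ Icc (0 : ℝ) 1,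
      F (mN (2 * (j + 1))) (wX ep cf e1 J j s t) (fun _ => 1) = Psi j (I * t) (I * s)

/-- **input 3**: the derivatives in the height of the legs -/
def ZLX (Psi : ℕ → ℂ → ℂ → ℂ) (cf : ℕ → ℝ → ℝ → ℕ → ℂ) (p : ℝ) : Prop :=
  ∃ a0 : ℝ, 0 < a0 ∧ ∀ ep e1 J : ℝ, SmallP a0 ep e1 J → ∃ C : ℝ, 0 ≤ C ∧
    ∀ᶠ j : ℕ in atTop, ∀ s ∈ Icc (0 : ℝ) 1, ∀ t ∈ Icc (0 : ℝ) 1,
      ‖F (mN (2 * (j + 1))) (wX ep cf e1 J j s t) (Vp (rh0 j s) (eC e1 J j) (PBEI.h0T t)) +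
        (I * deriv (fun z => Psi j z (I * s)) (I * t) -
          PVLg.p0V t * Psi j (I * t) (I * s))‖ ≤ C * (j : ℝ) ^ p ∧
      ‖F (mN (2 * (j + 1))) (wX ep cf e1 J j s t) (fun ω =>
          Vp (rh0 j s) (eC e1 J j) (PBEI.h0T t) ω * Vp (rh0 j s) (eC e1 J j) (PBEI.h0T t) ω) +
        F (mN (2 * (j + 1))) (wX ep cf e1 J j s t) (Vp (rh0 j s) (eC e1 J j) (PBEI.g2T t)) -
        (-deriv (deriv fun z => Psi j z (I * s)) (I * t) -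
          2 * PVLg.p0V t * (I * deriv (fun z => Psi j z (I * s)) (I * t)) +
          (PVLg.p0V t ^ 2 - PVLg.p1V t) * Psi j (I * t) (I * s))‖ ≤ C * (j : ℝ) ^ p

/-- **input 4**: the identities of level two -/
def LVX (cf : ℕ → ℝ → ℝ → ℕ → ℂ) : Prop :=
  ∃ a0 : ℝ, 0 < a0 ∧ ∀ ep e1 J : ℝ, SmallP a0 ep e1 J →
      ∃ (K th dp : ℕ → ℝ) (C : ℝ), 0 ≤ C ∧
        (∀ᶠ j : ℕ in atTop, ∀ s ∈ Icc (0 : ℝ) 1, ∀ t ∈ Icc (0 : ℝ) 1,
          PBEM.LevD y1 y2 (19 / 10) (mN (2 * (j + 1))) (wX ep cf e1 J j s t)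
            (Vp (rh0 j s) (eC e1 J j)) (Vm (eC e1 J j)) (SN (NUSea.O.par0 (j + 1)) (eC e1 J j))
            (K j) (th j) (dp j) (fun u => PBEI.mfL t u - PBEI.mfL 0 u) PBEI.sg' wm
            (Apl (rowS j s) 0) (Ami (rowS j s) 0) Bch) ∧
        ∀ e : ℝ, 1 / 10 ≤ e → e ≤ 1 → ∀ j : ℕ, 1 ≤ j →
          2 * K j * th j ≤ C * (j : ℝ) ^ e ∧ dp j ≤ C * (j : ℝ) ^ e

/-- **`(E_V)`, arbitrary coefficient** -/
theorem closeXG {Psi : ℕ → ℂ → ℂ → ℂ} {cf : ℕ → ℝ → ℝ → ℕ → ℂ} {p : ℝ} (hp : 1 / 10 ≤ p)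
    (hp1 : p ≤ 1) (hL : LVX cf) (hD : HDX Psi cf p) (hO : OneX Psi cf) (hZ : ZLX Psi cf p) :
    PVF.E2V p Psi := by
  obtain ⟨a1, ha1, H1⟩ := hL
  obtain ⟨a2, ha2, H2⟩ := hD
  obtain ⟨a3, ha3, H3⟩ := hZ
  obtain ⟨a4, ha4, H4⟩ := hO
  obtain ⟨a0, h0⟩ : ∃ a0 : ℝ, a0 = min (min a1 a2) (min (min a3 a4) (1 / 10)) := ⟨_, rfl⟩
  have ha0 : 0 < a0 := by
    rw [h0]
    exact lt_min (lt_min ha1 ha2) (lt_min (lt_min ha3 ha4) (by norm_num))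
  have e1' : a0 ≤ a1 := by rw [h0]; exact (min_le_left _ _).trans (min_le_left _ _)
  have e2' : a0 ≤ a2 := by rw [h0]; exact (min_le_left _ _).trans (min_le_right _ _)
  have e3' : a0 ≤ a3 := by
    rw [h0]; exact (min_le_right _ _).trans ((min_le_left _ _).trans (min_le_left _ _))
  have e5' : a0 ≤ a4 := by
    rw [h0]; exact (min_le_right _ _).trans ((min_le_left _ _).trans (min_le_right _ _))
  have e4' : a0 ≤ 1 / 10 := by rw [h0]; exact (min_le_right _ _).trans (min_le_right _ _)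
  obtain ⟨J, hJ0, hJ⟩ : ∃ J : ℝ, 0 ≤ J ∧ Real.exp (-(2 * Real.pi * J)) ≤ a0 / 10 := by
    have h1 : Tendsto (fun J : ℝ => Real.exp (-(2 * Real.pi * J))) atTop (𝓝 0) := by
      refine Real.tendsto_exp_atBot.comp ?_
      exact (tendsto_neg_atTop_atBot).comp (tendsto_id.const_mul_atTop (by positivity))
    have h2 := h1.eventually (Iic_mem_nhds (show (0 : ℝ) < a0 / 10 by positivity))
    obtain ⟨J, h3, h4⟩ := (h2.and (eventually_ge_atTop (0 : ℝ))).exists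
    exact ⟨J, h4, h3⟩
  have hP : SmallP a0 (a0 / 10) (a0 / 10) J :=
    ⟨by positivity, by linarith, by positivity, by linarith, hJ0, by linarith⟩
  obtain ⟨K, th, dp, C1, hC1, hL, hs⟩ := H1 _ _ _ (hP.mono e1')
  obtain ⟨C2, hC2, hD⟩ := H2 _ _ _ (hP.mono e2')
  obtain ⟨C3, hC3, hZ⟩ := H3 _ _ _ (hP.mono e3')
  have h1' := H4 _ _ _ (hP.mono e5')
  refine PBEM.E2V_of (a' := 19 / 10) (C := C1 + C2 + C3) (by norm_num) (by norm_num)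
    (Ω := fun j => CfN (2 * (j + 1))) (μ := fun j => mN (2 * (j + 1)))
    (w := fun j s t => wX (a0 / 10) cf (a0 / 10) J j s t)
    (V := fun j s _ => Vp (rh0 j s) (eC (a0 / 10) J j))
    (Vm := fun j _ _ => Vm (eC (a0 / 10) J j))
    (S := fun j _ _ => SN (NUSea.O.par0 (j + 1)) (eC (a0 / 10) J j))
    (K := K) (th := th) (δp := dp) (δ0 := fun j => C2 * (j : ℝ) ^ p)
    (δ1 := fun j => C3 * (j : ℝ) ^ p) (p0 := PVLg.p0V) (p1 := PVLg.p1V)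
    (fun t _ => PV.mV_h0 t) (fun t _ => PV.mV_g2_deriv t) hL ?_ ?_ ?_ ?_
  · filter_upwards [hD] with j h s hs t ht
    obtain ⟨D, h1, h2⟩ := h s hs t ht
    exact ⟨D, h1, h2⟩
  · filter_upwards [h1'] with j h s hs t ht
    have e := h s hs t ht
    have e' : F (mN (2 * (j + 1))) (wX (a0 / 10) cf (a0 / 10) J j s t) (fun _ => 1) -
        Psi j (I * t) (I * s) = 0 := sub_eq_zero.2 e
    show ‖F (mN (2 * (j + 1))) (wX (a0 / 10) cf (a0 / 10) J j s t) (fun _ => 1) -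
        Psi j (I * t) (I * s)‖ ≤ _
    rw [e', norm_zero]
    positivity
  · filter_upwards [hZ] with j h s hs t ht
    exact h s hs t ht
  · filter_upwards [eventually_ge_atTop 1] with j hj
    obtain ⟨h1, h2⟩ := hs p hp hp1 j hj
    have hx : (0 : ℝ) ≤ (j : ℝ) ^ p := by positivity
    refine ⟨?_, ?_, ?_, ?_, ?_⟩
    · exact mul_le_mul_of_nonneg_right (by linarith) hx
    · exact h1.trans (mul_le_mul_of_nonneg_right (by linarith) hx)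
    · exact h2.trans (mul_le_mul_of_nonneg_right (by linarith) hx)
    · exact mul_nonneg hC3 hx
    · exact mul_le_mul_of_nonneg_right (by linarith) hx

/-! ### the sector weight -/

/-- the coefficient `ζ ^ (m - n)` times the prefactor of plan V, `m = j + 1`, `ζ = zz j` -/
def cX (zz : ℕ → ℂ) (j : ℕ) (s t : ℝ) (n : ℕ) : ℂ :=
  tw (zz j) (j + 1) n * PfV (I * t) 0 (rowS j s) (rowS j s)

theorem norm_cX {zz : ℕ → ℂ} (h : ∀ j, ‖zz j‖ = 1) (j : ℕ) (s t : ℝ) (n : ℕ) :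
    ‖cX zz j s t n‖ = ‖PVX.cFV j s t n‖ := norm_tw_mul (h j) _ _ _

end WX

end
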