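import Pool.Agent.WX.NvG
import Pool.Agent.PV.XvE
import Pool.Agent.WND.NzZ

/-!
# Plan X: the function with legs and anti-legs, weight `ζ ^ (m - n)` (helper96)

`nvz ζ z z' x y = ∑ n ≤ 2 m, ζ ^ (m - n) * nvn n z z' x y`; `xz ζ mu z` (rows `mu` in both groups,
anti-legs at `0`, all `|Re z| < 43 l / 10`); **`vt d mu z = ga d z * xz (zt d) mu z`** (`WND.ga`,
`WND.zt d = exp (i π d)`).

* `nvz_one`, `nvz_tendsto` (joint in `ζ`, legs, rows), `nvz_diff`, `nvz_perm`; **`nvz_leg`** (factor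
  `ζ`), **`nvz_neg`** (`ζ → ζ⁻¹`);
* `xz_one`, `xz_right`, `xz_left`, `xz_even`, `xz_diff`, `xz_perm`, `xz_tendsto`, `xz_leg`, `xz_leg'`;
* `vt_zero` (`d = 0`: the function `xN` of plan V), `vt_even`, `vt_diff`, `vt_perm`, `vt_tendsto`,
  **`vt_leg`**, **`vt_leg'`**, **`vt_zeros`**: literally the relations of `xN`;
* `fVz`, `fVxz`, `fVt`, `fVxt`: rows `0`, one moved row: `fVt_diff`, `fVxt_diff`, `fVxt_zero`,
  `fVxt_leg`, `fVxt_leg'`, `fVt_even`, `fVt_zeros`, `fVxt_zeros`.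
-/

set_option autoImplicit false
set_option linter.unusedSectionVars false

noncomputable section

open Complex Filter Topology

namespace WX

open NUP1 (l lpos)
open PBX (Rws pull pull_re pull_Rws pull_tendsto)
open Pool.Agent.PB (LS LS_open Hgt mem_LS mem_LS3 mem_LS_neg pull_Hgt neg_cons cons_swap GS
  mem_closure_GS zero_rowsW Rws_zero Rws_cons)
open PV (nv xN fV fVx z0_lt)
open WND (ga zt zt_ne zt_neg zt_zero ga_add ga_sub ga_neg ga_diff sub3_re)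

variable {m : ℕ}

/-! ### all rows, the strip `LS` -/

/-- **the function with weight `ζ`** -/
def nvz (ζ z z' : ℂ) (x y : Fin m → ℂ) : ℂ :=
  ∑ n ∈ Finset.range (2 * m + 1), ζ ^ ((m : ℤ) - n) * nvn n z z' x y

theorem nvz_one (z z' : ℂ) (x y : Fin m → ℂ) : nvz 1 z z' x y = nv z z' x y := by
  unfold nvz
  rw [← sum_nvn]
  exact Finset.sum_congr rfl fun n _ => by rw [one_zpow, one_mul]

/-- joint continuity -/
theorem nvz_tendsto {E : Type*} {F : Filter E} [F.IsCountablyGenerated] {ζ z : E → ℂ}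
    {x y : E → Fin m → ℂ} {ζ0 z0 z' : ℂ} {x0 y0 : Fin m → ℂ} (tζ : Tendsto ζ F (𝓝 ζ0))
    (hζ : ζ0 ≠ 0) (tz : Tendsto z F (𝓝 z0))
    (tx : ∀ i, Tendsto (fun e => x e i) F (𝓝 (x0 i)))
    (ty : ∀ i, Tendsto (fun e => y e i) F (𝓝 (y0 i))) (hx : ∀ᶠ e in F, Rws (x e))
    (hy : ∀ᶠ e in F, Rws (y e)) (hx0 : Rws x0) (hy0 : Rws y0) (hz : z0 ∈ LS)
    (hz' : |z'.re| < 7 / 10 * l) :
    Tendsto (fun e => nvz (ζ e) (z e) z' (x e) (y e)) F (𝓝 (nvz ζ0 z0 z' x0 y0)) := by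
  unfold nvz
  exact tendsto_finsetSum _ fun n _ => (tζ.zpow₀ _ (Or.inl hζ)).mul
    (nvn_tendsto n tz tx ty hx hy hx0 hy0 hz hz')

/-- **analyticity in the legs** -/
theorem nvz_diff (ζ : ℂ) {z' : ℂ} (hz' : |z'.re| < 7 / 10 * l) {x y : Fin m → ℂ} (hx : Rws x)
    (hy : Rws y) : DifferentiableOn ℂ (fun z => nvz ζ z z' x y) LS := by
  unfold nvz
  exact DifferentiableOn.fun_sum fun n _ => (nvn_diff n hz' hx hy).const_mul _

theorem nvz_perm (ζ z z' : ℂ) (x : Fin m → ℂ) (σ : Equiv.Perm (Fin m)) :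
    nvz ζ z z' (fun i => x (σ i)) (fun i => x (σ i)) = nvz ζ z z' x x := by
  unfold nvz
  exact Finset.sum_congr rfl fun n _ => by rw [nvn_perm]

/-- **(A1)** -/
theorem nvz_leg {ζ : ℂ} (hζ : ζ ≠ 0) {x0 z' : ℂ} {x y : Fin m → ℂ} (hz' : |z'.re| < 7 / 10 * l)
    (h0 : |x0.re| ≤ l / 2) (hx : Rws x) (hy : Rws y) :
    nvz ζ (x0 + 3 * l) z' (Fin.cons x0 x : Fin (m + 1) → ℂ) (Fin.cons x0 y : Fin (m + 1) → ℂ) =
      ζ * nvz ζ x0 z' x y := by
  unfold nvz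
  have e : ∀ n ∈ Finset.range (2 * (m + 1) + 1), ζ ^ (((m + 1 : ℕ) : ℤ) - n) *
      nvn n (x0 + 3 * l) z' (Fin.cons x0 x : Fin (m + 1) → ℂ) (Fin.cons x0 y : Fin (m + 1) → ℂ) =
      ζ * (ζ ^ ((m : ℤ) - n) * nvn n x0 z' x y) := by
    intro n _
    rw [nvn_leg n hz' h0 hx hy, show ((m + 1 : ℕ) : ℤ) - n = 1 + ((m : ℤ) - n) by push_cast; ring,
      zpow_add₀ hζ, zpow_one, mul_assoc]
  rw [Finset.sum_congr rfl e, ← Finset.mul_sum]
  congr 1
  symm
  refine Finset.sum_subset (Finset.range_mono (by omega)) fun n _ hn => ?_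
  rw [Finset.mem_range] at hn
  rw [nvn_big (by omega) (mem_LS h0) hz' hx hy, mul_zero]

/-- **(A2)** -/
theorem nvz_neg (ζ : ℂ) {z z' : ℂ} (hz : |z.re| < 7 / 5 * l) (hz' : |z'.re| < 7 / 10 * l)
    {x y : Fin m → ℂ} (hx : Rws x)
    (hy : Rws y) : nvz ζ⁻¹ (-z) (-z') (-x) (-y) = nvz ζ z z' x y := by
  unfold nvz
  refine (Finset.sum_range_reflect _ (2 * m + 1)).symm.trans ?_
  refine Finset.sum_congr rfl fun n hn => ?_
  rw [Finset.mem_range] at hn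
  have h2 : 2 * m + 1 - 1 - n = 2 * m - n := by omega
  rw [h2, nvn_neg (by omega) hz hz' hx hy, inv_zpow, ← zpow_neg]
  congr 2
  push_cast [show n ≤ 2 * m by omega]
  ring

theorem nvz_neg0 (ζ : ℂ) {z : ℂ} (hz : |z.re| < 7 / 5 * l) {x y : Fin m → ℂ} (hx : Rws x)
    (hy : Rws y) : nvz ζ⁻¹ (-z) 0 (-x) (-y) = nvz ζ z 0 x y := by
  have h := nvz_neg ζ (z' := 0) hz z0_lt hx hy
  rwa [neg_zero] at h

/-! ### rows `mu` in both groups, anti-legs at `0`, the whole strip -/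

/-- **legs at `z`, anti-legs at `0`, rows `mu` in both groups, weight `ζ`** -/
def xz (ζ : ℂ) (mu : Fin m → ℂ) (z : ℂ) : ℂ :=
  if 0 ≤ z.re then nvz ζ z 0 mu mu else nvz ζ⁻¹ (-z) 0 (-mu) (-mu)

theorem xz_one (mu : Fin m → ℂ) (z : ℂ) : xz 1 mu z = xN mu z := by
  unfold xz PV.xN
  rw [inv_one, nvz_one, nvz_one]

theorem xz_right (ζ : ℂ) {mu : Fin m → ℂ} (hmu : Rws mu) {z : ℂ} (hz : z ∈ LS) :
    xz ζ mu z = nvz ζ z 0 mu mu := by
  unfold xz
  split_ifs with h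
  · rfl
  · have hl := lpos
    obtain ⟨h1, h2⟩ := hz
    rw [not_le] at h
    exact nvz_neg0 ζ (by rw [abs_lt]; constructor <;> linarith) hmu hmu

theorem xz_left (ζ : ℂ) {mu : Fin m → ℂ} (hmu : Rws mu) {z : ℂ} (hz : -z ∈ LS) :
    xz ζ mu z = nvz ζ⁻¹ (-z) 0 (-mu) (-mu) := by
  unfold xz
  split_ifs with h
  · have hl := lpos
    obtain ⟨h1, h2⟩ := hz
    have h3 : -(7 / 5 * l) < (-z).re := h1
    rw [neg_re] at h3
    exact (nvz_neg0 ζ (by rw [abs_lt]; constructor <;> linarith) hmu hmu).symm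
  · rfl

/-- **(A2)** -/
theorem xz_even (ζ : ℂ) {mu : Fin m → ℂ} (hmu : Rws mu) {z : ℂ} (hz : |z.re| < 43 / 10 * l) :
    xz ζ⁻¹ (-mu) (-z) = xz ζ mu z := by
  have hl := lpos
  obtain ⟨h1, h2⟩ := abs_lt.1 hz
  rcases le_or_gt 0 z.re with h | h
  · rw [xz_right ζ hmu (z := z) ⟨by linarith, h2⟩, xz_left ζ⁻¹ (Pool.Agent.PB.Rws.neg hmu) (z := -z)
      (by rw [neg_neg]; exact ⟨by linarith, h2⟩), neg_neg, neg_neg, inv_inv]
  · have h3 : -z ∈ LS := ⟨by rw [neg_re]; linarith, by rw [neg_re]; linarith⟩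
    rw [xz_left ζ hmu h3, xz_right ζ⁻¹ (Pool.Agent.PB.Rws.neg hmu) h3]

/-- **analyticity** -/
theorem xz_diff (ζ : ℂ) {mu : Fin m → ℂ} (hmu : Rws mu) :
    DifferentiableOn ℂ (xz ζ mu) {z | |z.re| < 43 / 10 * l} := by
  have hl := lpos
  intro z hz
  obtain ⟨h1, h2⟩ := abs_lt.1 (show |z.re| < 43 / 10 * l from hz)
  refine DifferentiableAt.differentiableWithinAt ?_
  rcases le_or_gt 0 z.re with h | h
  · have hL : z ∈ LS := ⟨by linarith, h2⟩
    have d := (nvz_diff ζ z0_lt hmu hmu).differentiableAt (LS_open.mem_nhds hL)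
    refine d.congr_of_eventuallyEq ?_
    filter_upwards [LS_open.mem_nhds hL] with w hw
    exact xz_right ζ hmu hw
  · have hL : -z ∈ LS := ⟨by rw [neg_re]; linarith, by rw [neg_re]; linarith⟩
    have d := (nvz_diff ζ⁻¹ z0_lt (Pool.Agent.PB.Rws.neg hmu)
      (Pool.Agent.PB.Rws.neg hmu)).differentiableAt (LS_open.mem_nhds hL)
    have d2 : DifferentiableAt ℂ ((fun w : ℂ => nvz ζ⁻¹ w 0 (-mu) (-mu)) ∘ fun w => -w) z :=
      DifferentiableAt.comp z d differentiableAt_id.neg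
    refine d2.congr_of_eventuallyEq ?_
    have hop : IsOpen {w : ℂ | -w ∈ LS} := LS_open.preimage continuous_neg
    filter_upwards [hop.mem_nhds hL] with w hw
    exact xz_left ζ hmu hw

theorem xz_perm (ζ : ℂ) (mu : Fin m → ℂ) (σ : Equiv.Perm (Fin m)) (z : ℂ) :
    xz ζ (fun i => mu (σ i)) z = xz ζ mu z := by
  unfold xz
  rw [nvz_perm ζ z 0 mu σ]
  split_ifs
  · rfl
  · exact nvz_perm ζ⁻¹ (-z) 0 (-mu) σ

/-- joint continuity -/
theorem xz_tendsto {E : Type*} {F : Filter E} [F.IsCountablyGenerated] {ζ z : E → ℂ}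
    {x : E → Fin m → ℂ} {ζ0 z0 : ℂ} {x0 : Fin m → ℂ} (tζ : Tendsto ζ F (𝓝 ζ0)) (hζ : ζ0 ≠ 0)
    (tz : Tendsto z F (𝓝 z0)) (tx : ∀ i, Tendsto (fun e => x e i) F (𝓝 (x0 i)))
    (hx : ∀ᶠ e in F, Rws (x e)) (hx0 : Rws x0) (hz : |z0.re| < 43 / 10 * l) :
    Tendsto (fun e => xz (ζ e) (x e) (z e)) F (𝓝 (xz ζ0 x0 z0)) := by
  have hl := lpos
  obtain ⟨h1, h2⟩ := abs_lt.1 hz
  rcases le_or_gt 0 z0.re with h | h
  · have hL : z0 ∈ LS := ⟨by linarith, h2⟩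
    rw [xz_right ζ0 hx0 hL]
    refine (nvz_tendsto tζ hζ tz tx tx hx hx hx0 hx0 hL z0_lt).congr' ?_
    filter_upwards [hx, tz.eventually (LS_open.mem_nhds hL)] with e he hze
    exact (xz_right (ζ e) he hze).symm
  · have hL : -z0 ∈ LS := ⟨by rw [neg_re]; linarith, by rw [neg_re]; linarith⟩
    rw [xz_left ζ0 hx0 hL]
    refine (nvz_tendsto (ζ := fun e => (ζ e)⁻¹) (z := fun e => -z e) (x := fun e => -x e)
      (y := fun e => -x e) (tζ.inv₀ hζ) (inv_ne_zero hζ) tz.neg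
      (fun i => (tx i).neg) (fun i => (tx i).neg)
      (hx.mono fun e he => Pool.Agent.PB.Rws.neg he)
      (hx.mono fun e he => Pool.Agent.PB.Rws.neg he) (Pool.Agent.PB.Rws.neg hx0)
      (Pool.Agent.PB.Rws.neg hx0) hL z0_lt).congr' ?_
    filter_upwards [hx, tz.neg.eventually (LS_open.mem_nhds hL)] with e he hze
    exact (xz_left (ζ e) he hze).symm

/-- **(A1), legs to the right** -/
theorem xz_leg {ζ : ℂ} (hζ : ζ ≠ 0) {x0 : ℂ} {mu : Fin m → ℂ} (h0 : |x0.re| ≤ l / 2)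
    (hmu : Rws mu) :
    xz ζ (Fin.cons x0 mu : Fin (m + 1) → ℂ) (x0 + 3 * l) = ζ * xz ζ mu x0 := by
  rw [xz_right ζ (Pool.Agent.PB.Rws.cons h0 hmu) (mem_LS3 h0), xz_right ζ hmu (mem_LS h0),
    nvz_leg hζ z0_lt h0 hmu hmu]

/-- **(A1), legs to the left** -/
theorem xz_leg' {ζ : ℂ} (hζ : ζ ≠ 0) {x0 : ℂ} {mu : Fin m → ℂ} (h0 : |x0.re| ≤ l / 2)
    (hmu : Rws mu) :
    xz ζ (Fin.cons x0 mu : Fin (m + 1) → ℂ) (x0 - 3 * l) = ζ⁻¹ * xz ζ mu x0 := by
  have hl := lpos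
  have h0' : |(-x0).re| ≤ l / 2 := by rwa [neg_re, abs_neg]
  have e : -(x0 - 3 * (l : ℂ)) = -x0 + 3 * l := by ring
  have hx : |x0.re| < 43 / 10 * l := by linarith
  rw [← xz_even ζ (Pool.Agent.PB.Rws.cons h0 hmu) (sub3_re h0), neg_cons, e,
    xz_leg (inv_ne_zero hζ) h0' (Pool.Agent.PB.Rws.neg hmu), xz_even ζ hmu hx]

/-! ### the function without the monodromy -/

/-- **the function with twist `d`, without the monodromy** -/
def vt (d : ℂ) (mu : Fin m → ℂ) (z : ℂ) : ℂ := ga d z * xz (zt d) mu z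

theorem vt_zero (mu : Fin m → ℂ) (z : ℂ) : vt 0 mu z = xN mu z := by
  unfold vt WND.ga
  rw [zt_zero, xz_one]
  simp

theorem vt_even (d : ℂ) {mu : Fin m → ℂ} (hmu : Rws mu) {z : ℂ} (hz : |z.re| < 43 / 10 * l) :
    vt (-d) (-mu) (-z) = vt d mu z := by
  unfold vt
  rw [ga_neg, zt_neg, xz_even (zt d) hmu hz]

theorem vt_diff (d : ℂ) {mu : Fin m → ℂ} (hmu : Rws mu) :
    DifferentiableOn ℂ (vt d mu) {z | |z.re| < 43 / 10 * l} :=
  (ga_diff d).differentiableOn.mul (xz_diff (zt d) hmu)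

theorem vt_perm (d : ℂ) (mu : Fin m → ℂ) (σ : Equiv.Perm (Fin m)) (z : ℂ) :
    vt d (fun i => mu (σ i)) z = vt d mu z := by
  unfold vt
  rw [xz_perm]

/-- joint continuity -/
theorem vt_tendsto {E : Type*} {F : Filter E} [F.IsCountablyGenerated] {d z : E → ℂ}
    {x : E → Fin m → ℂ} {d0 z0 : ℂ} {x0 : Fin m → ℂ} (td : Tendsto d F (𝓝 d0))
    (tz : Tendsto z F (𝓝 z0)) (tx : ∀ i, Tendsto (fun e => x e i) F (𝓝 (x0 i)))
    (hx : ∀ᶠ e in F, Rws (x e)) (hx0 : Rws x0) (hz : |z0.re| < 43 / 10 * l) :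
    Tendsto (fun e => vt (d e) (x e) (z e)) F (𝓝 (vt d0 x0 z0)) := by
  unfold vt
  refine Tendsto.mul ?_ (xz_tendsto ?_ (zt_ne d0) tz tx hx hx0 hz)
  · unfold WND.ga
    exact (Complex.continuous_exp.tendsto _).comp ((td.const_mul _).mul tz)
  · unfold WND.zt
    exact (Complex.continuous_exp.tendsto _).comp ((td.const_mul _).mul_const _)

/-- **(A1), legs to the right** -/
theorem vt_leg (d : ℂ) {x0 : ℂ} {mu : Fin m → ℂ} (h0 : |x0.re| ≤ l / 2) (hmu : Rws mu) :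
    vt d (Fin.cons x0 mu : Fin (m + 1) → ℂ) (x0 + 3 * l) = vt d mu x0 := by
  unfold vt
  rw [ga_add, xz_leg (zt_ne d) h0 hmu]
  have := zt_ne d
  field_simp

/-- **(A1), legs to the left** -/
theorem vt_leg' (d : ℂ) {x0 : ℂ} {mu : Fin m → ℂ} (h0 : |x0.re| ≤ l / 2) (hmu : Rws mu) :
    vt d (Fin.cons x0 mu : Fin (m + 1) → ℂ) (x0 - 3 * l) = vt d mu x0 := by
  unfold vt
  rw [ga_sub, xz_leg' (zt_ne d) h0 hmu]
  have := zt_ne d
  field_simp

/-- the difference vanishes at the rows -/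
theorem vt_node (d : ℂ) {x : Fin (m + 1) → ℂ} (hx : Rws x) (j : Fin (m + 1)) :
    vt d x (x j + 3 * l) - vt d x (x j - 3 * l) = 0 := by
  have hx' : Rws fun i : Fin m => x (Equiv.swap 0 j i.succ) := fun i => hx _
  rw [← vt_perm d x (Equiv.swap 0 j) (x j + 3 * l), ← vt_perm d x (Equiv.swap 0 j) (x j - 3 * l),
    cons_swap, vt_leg d (hx j) hx', vt_leg' d (hx j) hx', sub_self]

theorem vt_node' (d : ℂ) {x : Fin m → ℂ} (hx : Rws x) (j : Fin m) :
    vt d x (x j + 3 * l) - vt d x (x j - 3 * l) = 0 := by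
  rcases m with _ | m
  · exact j.elim0
  · exact vt_node d hx j

/-- **the zeros of the difference** -/
theorem vt_zeros (d : ℂ) {mu : Fin m → ℂ} (hmu : Rws mu) :
    ∃ Q : ℂ → ℂ, DifferentiableOn ℂ Q {z | |z.re| < 13 / 10 * l} ∧
      ∀ z, vt d mu (z + 3 * l) - vt d mu (z - 3 * l) = (∏ j, (z - mu j)) * Q z := by
  have hl := lpos
  set Ω : Set ℂ := {z | |z.re| < 13 / 10 * l} with hΩ
  have hop : IsOpen Ω := isOpen_lt (continuous_abs.comp Complex.continuous_re) continuous_const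
  set R : ℝ := ∑ j, |(mu j).im| + 1 with hR
  set U : Set ℂ := {z | |z.re| < l ∧ |z.im| < R} with hU
  have hUo : IsOpen U := (isOpen_lt (continuous_abs.comp Complex.continuous_re)
    continuous_const).inter (isOpen_lt (continuous_abs.comp Complex.continuous_im) continuous_const)
  have hUb : Bornology.IsBounded U := by
    refine (Metric.isBounded_iff_subset_closedBall (0 : ℂ)).2 ⟨l + R, fun z hz => ?_⟩
    rw [Metric.mem_closedBall, dist_zero_right]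
    have := Complex.norm_le_abs_re_add_abs_im z
    linarith [hz.1, hz.2]
  have hUc : closure U ⊆ Ω := by
    have h1 : closure U ⊆ {z : ℂ | |z.re| ≤ l} := by
      refine closure_minimal (fun z hz => hz.1.le) ?_
      exact isClosed_le (continuous_abs.comp Complex.continuous_re) continuous_const
    intro z hz
    have h2 : |z.re| ≤ l := h1 hz
    show |z.re| < 13 / 10 * l
    linarith
  have e1 : ∀ z : ℂ, (z + 3 * (l : ℂ)).re = z.re + 3 * l := fun z => by simp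
  have e2 : ∀ z : ℂ, (z - 3 * (l : ℂ)).re = z.re - 3 * l := fun z => by simp
  have k1 : ∀ z ∈ Ω, |(z + 3 * (l : ℂ)).re| < 43 / 10 * l := by
    intro z hz
    obtain ⟨h1, h2⟩ := abs_lt.1 (show |z.re| < 13 / 10 * l from hz)
    rw [e1, abs_lt]
    constructor <;> linarith
  have k2 : ∀ z ∈ Ω, |(z - 3 * (l : ℂ)).re| < 43 / 10 * l := by
    intro z hz
    obtain ⟨h1, h2⟩ := abs_lt.1 (show |z.re| < 13 / 10 * l from hz)
    rw [e2, abs_lt]
    constructor <;> linarith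
  have hdom : IsOpen {z : ℂ | |z.re| < 43 / 10 * l} :=
    isOpen_lt (continuous_abs.comp Complex.continuous_re) continuous_const
  obtain ⟨-, Q, hQ, hfQ⟩ := zero_rowsW (ι := Fin m) hop hUo hUb hUc (c := mu) (S := GS m)
    (D := fun z y => vt d y (z + 3 * l) - vt d y (z - 3 * l))
    (fun j => by
      have h1 := hmu j
      have h2 := PBX.im_le mu j
      exact ⟨by linarith, by linarith⟩)
    (mem_closure_GS hmu)
    (fun y hy i j hij => by
      by_contra hne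
      exact hy.2 i j hne (by rw [hij]))
    (fun y hy z hz => by
      have d1 : DifferentiableAt ℂ (fun z : ℂ => vt d y (z + 3 * l)) z :=
        DifferentiableAt.comp z ((vt_diff d hy.1).differentiableAt (hdom.mem_nhds (k1 z hz)))
          (differentiableAt_id.add_const _)
      have d2 : DifferentiableAt ℂ (fun z : ℂ => vt d y (z - 3 * l)) z :=
        DifferentiableAt.comp z ((vt_diff d hy.1).differentiableAt (hdom.mem_nhds (k2 z hz)))
          (differentiableAt_id.sub_const _)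
      exact (d1.sub d2).differentiableWithinAt)
    (fun z hz => by
      have tr : ∀ i, Tendsto (fun p : ℂ × (Fin m → ℂ) => p.2 i) (𝓝 z ×ˢ 𝓝[GS m] mu)
          (𝓝 (mu i)) := fun i =>
        (((continuous_apply i).tendsto mu).mono_left nhdsWithin_le_nhds).comp tendsto_snd
      have hrw : ∀ᶠ p : ℂ × (Fin m → ℂ) in 𝓝 z ×ˢ 𝓝[GS m] mu, Rws p.2 := by
        have h1 : ∀ᶠ y in 𝓝[GS m] mu, Rws y := by
          filter_upwards [self_mem_nhdsWithin] with y hy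
          exact hy.1
        exact tendsto_snd.eventually h1
      exact (vt_tendsto (F := 𝓝 z ×ˢ 𝓝[GS m] mu) (d := fun _ => d) (z := fun p => p.1 + 3 * l)
        (x := fun p => p.2) tendsto_const_nhds
        (tendsto_fst.add_const _) tr hrw hmu (k1 z hz)).sub
        (vt_tendsto (F := 𝓝 z ×ˢ 𝓝[GS m] mu) (d := fun _ => d) (z := fun p => p.1 - 3 * l)
        (x := fun p => p.2) tendsto_const_nhds
        (tendsto_fst.sub_const _) tr hrw hmu (k2 z hz)))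
    (by
      filter_upwards [self_mem_nhdsWithin] with y hy j
      exact vt_node' d hy.1 j)
  exact ⟨Q, hQ, hfQ⟩

/-! ### the rows `0` and one moved row -/

/-- `N` rows at `0`, weight `ζ` -/
def fVz (ζ : ℂ) (N : ℕ) (z : ℂ) : ℂ := xz ζ (fun _ : Fin N => (0 : ℂ)) z

/-- one row at `x`, `N` rows at `0`, weight `ζ` -/
def fVxz (ζ : ℂ) (N : ℕ) (x z : ℂ) : ℂ :=
  xz ζ (Fin.cons x (fun _ : Fin N => (0 : ℂ)) : Fin (N + 1) → ℂ) z

/-- `N` rows at `0` -/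
def fVt (d : ℂ) (N : ℕ) (z : ℂ) : ℂ := vt d (fun _ : Fin N => (0 : ℂ)) z

/-- one row at `x`, `N` rows at `0` -/
def fVxt (d : ℂ) (N : ℕ) (x z : ℂ) : ℂ :=
  vt d (Fin.cons x (fun _ : Fin N => (0 : ℂ)) : Fin (N + 1) → ℂ) z

theorem fVt_ga (d : ℂ) (N : ℕ) (z : ℂ) : fVt d N z = ga d z * fVz (zt d) N z := rfl

theorem fVxt_ga (d : ℂ) (N : ℕ) (x z : ℂ) : fVxt d N x z = ga d z * fVxz (zt d) N x z := rfl

theorem fVt_at0 (d : ℂ) (N : ℕ) : fVt d N 0 = fVz (zt d) N 0 := by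
  rw [fVt_ga]
  unfold WND.ga
  simp

theorem fVz_one (N : ℕ) (z : ℂ) : fVz 1 N z = fV N z := xz_one _ z

theorem fVxz_one (N : ℕ) (x z : ℂ) : fVxz 1 N x z = fVx N x z := xz_one _ z

theorem fVt_d0 (N : ℕ) (z : ℂ) : fVt 0 N z = fV N z := vt_zero _ z

theorem fVxt_d0 (N : ℕ) (x z : ℂ) : fVxt 0 N x z = fVx N x z := vt_zero _ z

theorem fVt_diff (d : ℂ) (N : ℕ) : DifferentiableOn ℂ (fVt d N) {z | |z.re| < 43 / 10 * l} :=
  vt_diff d (Rws_zero N)

theorem fVxt_diff (d : ℂ) (N : ℕ) {x : ℂ} (h : |x.re| ≤ l / 2) :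
    DifferentiableOn ℂ (fVxt d N x) {z | |z.re| < 43 / 10 * l} := vt_diff d (Rws_cons h)

theorem fVxt_zero (d : ℂ) (N : ℕ) (z : ℂ) : fVxt d N 0 z = fVt d (N + 1) z := by
  unfold fVxt fVt
  congr 1
  funext i
  refine Fin.cases ?_ (fun j => ?_) i
  · simp
  · simp

/-- **(A1)** -/
theorem fVxt_leg (d : ℂ) (N : ℕ) {x : ℂ} (h : |x.re| ≤ l / 2) :
    fVxt d N x (x + 3 * l) = fVt d N x :=
  vt_leg d h (Rws_zero N)

theorem fVxt_leg' (d : ℂ) (N : ℕ) {x : ℂ} (h : |x.re| ≤ l / 2) :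
    fVxt d N x (x - 3 * l) = fVt d N x :=
  vt_leg' d h (Rws_zero N)

theorem fVt_even (d : ℂ) (N : ℕ) {z : ℂ} (hz : |z.re| < 43 / 10 * l) :
    fVt (-d) N (-z) = fVt d N z := by
  have h := vt_even d (Rws_zero N) hz
  have e : -(fun _ : Fin N => (0 : ℂ)) = fun _ : Fin N => (0 : ℂ) := by
    funext i
    simp
  rw [e] at h
  exact h

/-- the zeros of the difference, rows `0` -/
theorem fVt_zeros (d : ℂ) (N : ℕ) : ∃ Q : ℂ → ℂ, DifferentiableOn ℂ Q {z | |z.re| < 13 / 10 * l} ∧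
    ∀ z, fVt d N (z + 3 * l) - fVt d N (z - 3 * l) = z ^ N * Q z := by
  obtain ⟨Q, hQ, h⟩ := vt_zeros d (Rws_zero N)
  refine ⟨Q, hQ, fun z => ?_⟩
  have := h z
  simp only [sub_zero, Finset.prod_const, Finset.card_univ, Fintype.card_fin] at this
  exact this

/-- the zeros of the difference, one moved row -/
theorem fVxt_zeros (d : ℂ) (N : ℕ) {x : ℂ} (hx : |x.re| ≤ l / 2) :
    ∃ Q : ℂ → ℂ, DifferentiableOn ℂ Q {z | |z.re| < 13 / 10 * l} ∧
      ∀ z, fVxt d N x (z + 3 * l) - fVxt d N x (z - 3 * l) = (z - x) * z ^ N * Q z := by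
  obtain ⟨Q, hQ, h⟩ := vt_zeros d (Rws_cons (N := N) hx)
  refine ⟨Q, hQ, fun z => ?_⟩
  have := h z
  rw [Fin.prod_univ_succ] at this
  simp only [Fin.cons_zero, Fin.cons_succ, sub_zero, Finset.prod_const, Finset.card_univ,
    Fintype.card_fin] at this
  exact this

end WX

end
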