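import Pool.Agent.WND.HDVZ
import Pool.Agent.WX.CloseX
import Pool.Agent.WX.NvZ

/-!
# Plan X: input 1 of `closeXG` (helper5)

* `fVxz_SV`: 96's `fVxz ζ j x z` on the imaginary axis is `WNDH.SV ζ j z x`;
* **`hdX`**: `HDX (fun j z x => fVxz (zz j) j x z) (cX zz) p` for `1 / 10 ≤ p`;
* `hdX_unif`: the same, one constant for all weights.
-/

set_option autoImplicit false
set_option linter.unusedSectionVars false

noncomputable section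

open Complex MeasureTheory Filter Topology Set

namespace WX

attribute [local instance] NUSea.seaP

open PBX (DZ)
open PV (PfV LV)

theorem mainX_mainGV (cf : ℕ → ℝ → ℝ → ℕ → ℂ) (ep e1 J : ℝ) (j : ℕ) (s t : ℝ) :
    mainX cf ep e1 J j s t = WNDH.mainGV e1 J j s t (wX ep cf e1 J j s t) := rfl

/-- the function on the imaginary axis -/
theorem fVxz_SV (ζ : ℂ) (j : ℕ) (s t : ℝ) :
    fVxz ζ j (I * s) (I * t) = WNDH.SV ζ j (I * t) (I * s) := by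
  have hre : (0 : ℝ) ≤ (I * (t : ℂ)).re := by simp
  show xz ζ (Fin.cons (I * (s : ℂ)) (fun _ : Fin j => (0 : ℂ)) : Fin (j + 1) → ℂ) (I * t) = _
  unfold xz
  rw [if_pos hre]
  unfold nvz nvn WNDH.SV
  rw [Finset.mul_sum]
  refine Finset.sum_congr rfl fun n _ => ?_
  show WND.tw ζ (j + 1) n * (PfV (I * (t : ℂ)) 0
      (Fin.cons (I * (s : ℂ)) (fun _ : Fin j => (0 : ℂ)) : Fin (j + 1) → ℂ)
      (Fin.cons (I * (s : ℂ)) (fun _ : Fin j => (0 : ℂ)) : Fin (j + 1) → ℂ) *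
    DZ (NUP1.Leg.cc (j + 1)) (NUP1.Leg.cc (j + 1)) (LV (I * t) 0) (LV (I * t) 0)
      (Fin.cons (I * (s : ℂ)) (fun _ : Fin j => (0 : ℂ)) : Fin (j + 1) → ℂ)
      (Fin.cons (I * (s : ℂ)) (fun _ : Fin j => (0 : ℂ)) : Fin (j + 1) → ℂ) n) = _
  ring

/-- **input 1 of `closeXG`**, one constant for all weights -/
theorem hdX_unif {p : ℝ} (hp : 1 / 10 ≤ p) :
    ∃ a0 : ℝ, 0 < a0 ∧ ∀ ep e1 J : ℝ, PBLX.SmallP a0 ep e1 J → ∃ C : ℝ, 0 ≤ C ∧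
      ∀ᶠ j : ℕ in atTop, ∀ s ∈ Icc (0 : ℝ) 1, ∀ t ∈ Icc (0 : ℝ) 1, ∀ ζ : ℂ, ‖ζ‖ = 1 → ∃ D : ℂ,
        HasDerivAt (fun s : ℝ => fVxz ζ j (I * s) (I * t)) D s ∧
        ‖((j + 1 : ℝ) : ℂ) * D - mainX (fun j s t n => WND.tw ζ (j + 1) n * PVX.cFV j s t n)
          ep e1 J j s t‖ ≤ C * (j : ℝ) ^ p := by
  obtain ⟨a0, ha0, H⟩ := WNDH.hD_unifV hp
  refine ⟨a0, ha0, fun ep e1 J hP => ?_⟩
  obtain ⟨C, hC, h⟩ := H ep e1 J hP
  refine ⟨C, hC, ?_⟩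
  filter_upwards [h] with j hj s hs t ht ζ hζ
  obtain ⟨D, h1, h2⟩ := hj s hs t ht ζ hζ
  refine ⟨D, ?_, h2⟩
  have e : (fun s : ℝ => fVxz ζ j (I * s) (I * t)) =
      fun s : ℝ => WNDH.SV ζ j (I * t) (I * s) := funext fun s => fVxz_SV ζ j s t
  rw [e]
  exact h1

/-- **input 1 of `closeXG`** -/
theorem hdX {zz : ℕ → ℂ} (hz : ∀ j, ‖zz j‖ = 1) {p : ℝ} (hp : 1 / 10 ≤ p) :
    HDX (fun j z x => fVxz (zz j) j x z) (cX zz) p := by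
  obtain ⟨a0, ha0, H⟩ := hdX_unif hp
  refine ⟨a0, ha0, fun ep e1 J hP => ?_⟩
  obtain ⟨C, hC, h⟩ := H ep e1 J hP
  refine ⟨C, hC, ?_⟩
  filter_upwards [h] with j hj s hs t ht
  exact hj s hs t ht (zz j) (hz j)

end WX

end
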