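import Pool.Agent.WND.ZLegVX
import Pool.Agent.WX.NvZ
import Pool.Agent.WX.CloseX

/-!
# Plan X: the inputs `ZLX` and `OneX` of `closeXG` (helper61)

* `fVxz_NvU`: `fVxz ζ j (i s) (i τ)` is `NvU (ζ ^ (j + 1 - n))` of `WND/ZLegVX`;
* `zlX_of`, `oneX_of`: coefficient `cX zz`, `‖zz j‖ = 1`, any function with the same values on the
  imaginary axis, analytic near it;
* **`zlX`**: `ZLX (fun j z x => fVxz (zz j) j x z) (cX zz) p`, `1 / 10 ≤ p`;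
* **`oneX`**: `OneX (fun j z x => fVxz (zz j) j x z) (cX zz)`.
-/

set_option autoImplicit false
set_option linter.unusedSectionVars false

noncomputable section

open Complex MeasureTheory Filter Topology Set

namespace WX

open NUO NUP1S NUP1S.Ab NUP1S.AbC NUGC PBF PBFunc PBU PBWP PBLX PVLX PV PVL PVX PVLg
open PBEI (rowS)
open PBL (mu1)
open WND (tw norm_tw)

attribute [local instance] NUSea.seaP

/-- **input `ZLX`** -/
theorem zlX_of {zz : ℕ → ℂ} (hz : ∀ j, ‖zz j‖ = 1) {Psi : ℕ → ℂ → ℂ → ℂ}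
    (hf : ∀ (j : ℕ) (s τ : ℝ), |s| ≤ 1 → Psi j (I * τ) (I * s) =
      NvU (tw (zz j) (j + 1)) (I * τ) (mu1 j (I * s))) {S : Set ℂ} (hS : IsOpen S)
    (hmem : ∀ τ : ℝ, I * (τ : ℂ) ∈ S)
    (hfd : ∀ (j : ℕ) (s : ℝ), |s| ≤ 1 → DifferentiableOn ℂ (fun z => Psi j z (I * s)) S)
    {p : ℝ} (hp : 1 / 10 ≤ p) : ZLX Psi (cX zz) p := by
  obtain ⟨a3, ha3, H3⟩ := uxV 2 6 (1 / 100) (by norm_num)
  refine ⟨a3, ha3, fun ep e1 J hP => ?_⟩
  have hU : UB famV ep e1 J 2 6 (1 / 100) := H3 _ _ _ hP.ep0 hP.e0 hP.J0 hP.sm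
  obtain ⟨C3, hC3, hZ⟩ := zlegVX hz hU (by norm_num) le_rfl hP.ep0 hP.ep1 hP.e0 hP.e1' hP.J0
    (c := p) (by have := hP.e1'; linarith) (f := fun j x z => Psi j z x) hf hS hmem hfd
  have er : ∀ (j : ℕ) (s : ℝ), PBLg.rhS (PBLg.hS j s) = rh0 j s := fun j s =>
    (funext (PBLg.rhoR_hS j s)).symm
  refine ⟨C3, hC3.le, ?_⟩
  filter_upwards [hZ] with j h s hs t ht
  have h1 := h s t (abs_le.2 ⟨by linarith [hs.1], hs.2⟩) (abs_le.2 ⟨by linarith [ht.1], ht.2⟩)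
  rw [er] at h1
  exact h1

/-- **input `OneX`** -/
theorem oneX_of {zz : ℕ → ℂ} (hz : ∀ j, ‖zz j‖ = 1) {Psi : ℕ → ℂ → ℂ → ℂ}
    (hf : ∀ (j : ℕ) (s τ : ℝ), |s| ≤ 1 → Psi j (I * τ) (I * s) =
      NvU (tw (zz j) (j + 1)) (I * τ) (mu1 j (I * s))) : OneX Psi (cX zz) := by
  obtain ⟨a3, ha3, H3⟩ := uxV 2 6 (1 / 100) (by norm_num)
  refine ⟨a3, ha3, fun ep e1 J hP => ?_⟩
  have hU : UB famV ep e1 J 2 6 (1 / 100) := H3 _ _ _ hP.ep0 hP.e0 hP.J0 hP.sm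
  filter_upwards [F_oneVX hz hU (by norm_num) hP.ep0 hP.ep1 hP.e0 hP.e1' hP.J0]
    with j h s hs t ht
  have hs' : |s| ≤ 1 := abs_le.2 ⟨by linarith [hs.1], hs.2⟩
  rw [hf j s t hs']
  exact h s t hs'

/-! ### the function -/

theorem fVxz_NvU (ζ : ℂ) (j : ℕ) (s τ : ℝ) :
    fVxz ζ j (I * s) (I * τ) = NvU (tw ζ (j + 1)) (I * τ) (mu1 j (I * s)) := by
  have e0 : fVxz ζ j (I * s) (I * τ) = nvz ζ (I * τ) 0 (mu1 j (I * s)) (mu1 j (I * s)) := by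
    unfold fVxz xz
    rw [if_pos (by rw [re_It])]
    rfl
  rw [e0]
  unfold nvz nvn NvU tw
  rw [Finset.mul_sum]
  exact Finset.sum_congr rfl fun n _ => by ring

/-- **input `ZLX`** of `closeXG` -/
theorem zlX {zz : ℕ → ℂ} (hz : ∀ j, ‖zz j‖ = 1) {p : ℝ} (hp : 1 / 10 ≤ p) :
    ZLX (fun j z x => fVxz (zz j) j x z) (cX zz) p := by
  have hl := NUP1.Bd.l_pos
  refine zlX_of hz (fun j s τ _ => fVxz_NvU (zz j) j s τ)
    (S := {z : ℂ | |z.re| < 43 / 10 * NUP1.l})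
    (isOpen_lt (continuous_abs.comp Complex.continuous_re) continuous_const) (fun τ => ?_)
    (fun j s _ => xz_diff (zz j) (Pool.Agent.PB.Rws_cons (by rw [re_It, abs_zero]; positivity))) hp
  show |(I * (τ : ℂ)).re| < 43 / 10 * NUP1.l
  rw [re_It, abs_zero]
  positivity

/-- **input `OneX`** of `closeXG` -/
theorem oneX {zz : ℕ → ℂ} (hz : ∀ j, ‖zz j‖ = 1) :
    OneX (fun j z x => fVxz (zz j) j x z) (cX zz) :=
  oneX_of hz fun j s τ _ => fVxz_NvU (zz j) j s τ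

end WX

end

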