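import Pool.Agent.WX.LvX
import Pool.Agent.WX.ZLX
import Pool.Agent.WX.HDX
import Pool.Agent.WND.Seq

/-!
# Plan X: `(E_V)` with the sector weight, no hypothesis (helper91)

* **`e2X`**: `PVF.E2V p` of `fVxz (zz j) j` for every sequence `zz` on the unit circle,
  `1 / 10 ≤ p ≤ 1`;
* **`e2XU`**: the same with one constant for all weights on the unit circle.
-/

set_option autoImplicit false

noncomputable section

open Complex Filter Topology Set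

namespace WX

/-- **`(E_V)` with the sector weight** -/
theorem e2X {zz : ℕ → ℂ} (h : ∀ j, ‖zz j‖ = 1) {p : ℝ} (hp : 1 / 10 ≤ p) (hp1 : p ≤ 1) :
    PVF.E2V p fun j z x => fVxz (zz j) j x z :=
  e2x_of h hp hp1 (hdX h hp) (oneX h) (zlX h hp)

/-- **`(E_V)`, one constant for all weights on the unit circle** -/
theorem e2XU {p : ℝ} (hp : 1 / 10 ≤ p) (hp1 : p ≤ 1) : ∃ C' : ℝ, ∀ᶠ j : ℕ in atTop,
    ∀ ζ : ℂ, ‖ζ‖ = 1 → ∀ s ∈ Icc (0 : ℝ) 1, ∀ t ∈ Icc (0 : ℝ) 1, ∃ D : ℂ,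
    HasDerivAt (fun s : ℝ => fVxz ζ j (I * s) (I * t)) D s ∧
    ‖((j + 1 : ℝ) : ℂ) * D -
      ((((PBV.rP j s - PBV.rM j s) / 2 : ℝ) : ℂ) * fVxz ζ j (I * s) (I * t) +
      (((PBV.rP j s - PBV.rM j s) / 8 : ℝ) : ℂ) *
        deriv (deriv fun z => fVxz ζ j (I * s) z) (I * t))‖ ≤ C' * (j : ℝ) ^ p := by
  obtain ⟨C, hC⟩ := WNDS.unif_of_seq (D := {ζ : ℂ // ‖ζ‖ = 1})
    (P := fun j ζ C' => ∀ s ∈ Icc (0 : ℝ) 1, ∀ t ∈ Icc (0 : ℝ) 1, ∃ D : ℂ,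
      HasDerivAt (fun s : ℝ => fVxz ζ j (I * s) (I * t)) D s ∧
      ‖((j + 1 : ℝ) : ℂ) * D -
        ((((PBV.rP j s - PBV.rM j s) / 2 : ℝ) : ℂ) * fVxz ζ j (I * s) (I * t) +
        (((PBV.rP j s - PBV.rM j s) / 8 : ℝ) : ℂ) *
          deriv (deriv fun z => fVxz ζ j (I * s) z) (I * t))‖ ≤ C' * (j : ℝ) ^ p)
    (fun j ζ C C' hCC h s hs t ht => by
      obtain ⟨D, h1, h2⟩ := h s hs t ht
      exact ⟨D, h1, h2.trans (mul_le_mul_of_nonneg_right hCC (by positivity))⟩)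
    (fun zz => by
      obtain ⟨C, hC⟩ := e2X (zz := fun j => (zz j : ℂ)) (fun j => (zz j).2) hp hp1
      exact ⟨C, hC⟩)
  exact ⟨C, hC.mono fun j hj ζ hζ => hj ⟨ζ, hζ⟩⟩

end WX

end
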