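import Pool.Agent.WX.NvZ
import Pool.Agent.PV.U1V
import Pool.Agent.PV.UXVfin

/-!
# Plan X: bounds of the functions with weight `ζ` (helper96)

`‖ζ‖ = 1` everywhere; the constants do not depend on `ζ`.

* `nvn_FF`: the part with `n` quanta is the `n`-th term of the functional of `famV`;
* `nvz_le`, **`fVxz_le`**, **`fVz_le`**: `(k + 1) ^ (3/4 + δ) exp (4 |Im z|)`, `|Re z| < 37/10 l`;
* `V0X`, `V1X` and `v0x : V0X 2`, `v1x : V1X`: the bounds of plan V, uniform in `ζ`.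
-/

set_option autoImplicit false
set_option linter.unusedSectionVars false

noncomputable section

open Complex MeasureTheory Set Filter Topology
open scoped ENNReal

namespace WX

open NUP1 (l)
open PBL (mu1)
open PV (nv nv_FL LV PfV famV log_succ_mono uxV)
open Pool.Agent.PB (Rws_cons cn)
open PBX (DZ)

attribute [local instance] NUSea.seaP

/-- the part with `n` quanta is the `n`-th term of the functional of `famV` -/
theorem nvn_FF {ep e1 J : ℝ} (hep0 : 0 < ep) (hep : ep ≤ 1 / 100) {k : ℕ} {x z : ℂ}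
    (hx : |x.re| ≤ l / 10) (h1 : -(9 / 10 * l) ≤ z.re) (h2 : z.re < 37 / 10 * l)
    (hcur : ∀ (r : ℕ) (O : Fin r → NUO.Xo), NUCR.CurB ep (PBU.cr e1 J (k + 1) r O)
      (PBU.cr' e1 J (k + 1) r O)) (n : ℕ) :
    nvn n z 0 (mu1 k x) (mu1 k x) = famV.Pf (k + 1) (x, z) *
      PBF.FF (famV.Z ep (k + 1) (x, z)) (NUSea.O.par0 (k + 1)) n n (PBU.cr e1 J (k + 1))
        (PBU.cr' e1 J (k + 1)) (fun _ _ _ _ _ => 1) := by
  have hl := NUP1.lpos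
  have e : PVS.ZV (4 / 3 * (1 - ep)) (mu1 k x) [I, -I] [] z 0 = famV.Z ep (k + 1) (x, z) := by
    have : PVS.ZV (4 / 3 * (1 - ep)) (mu1 k x) [I, -I] [] z 0 =
        PV.ZV (4 / 3 * (1 - ep)) (mu1 k x) [I, -I] [] z 0 := by
      unfold PV.ZV PVS.ZV
      rw [show LV z 0 = PVS.LgV z 0 from funext fun u => (PVS.LgV_eq z 0 u).symm]
    rw [this]
    rfl
  rw [← e]
  unfold nvn
  have hLV : LV z 0 = PVS.LgV z 0 := funext fun u => (PVS.LgV_eq z 0 u).symm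
  rw [hLV]
  change PfV z 0 (mu1 k x) (mu1 k x) * _ = PfV z 0 (mu1 k x) (mu1 k x) * _
  congr 1
  exact PVS.DZ_ZV (P := NUSea.O.par0 (k + 1)) (ep := ep) (β := 4 / 3 * (1 - ep))
    (PBX.ParC_par0 (k + 1)) (PBX.rad_low (k + 1)) hep0 hep (by linarith) (by linarith)
    (x := mu1 k x) (PBT.rws_mu1 k (by linarith)) (ex := [I, -I]) (ex0 := [])
    (by
      intro w hw
      rw [List.mem_cons, List.mem_singleton] at hw
      rcases hw with rfl | rfl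
      · rw [Complex.I_re, abs_zero]
        positivity
      · rw [Complex.neg_re, Complex.I_re, neg_zero, abs_zero]
        positivity) (by simp) (z := z) (z' := 0) h1 h2 (by rw [Complex.zero_re, abs_zero]; positivity)
    (n := n) (η := PBU.cr e1 J (k + 1)) (η' := PBU.cr' e1 J (k + 1))
    (fun r _ => Filter.Eventually.of_forall fun O => hcur r O)

theorem enorm_zpow {ζ : ℂ} (hζ : ‖ζ‖ = 1) (k : ℤ) : ‖ζ ^ k‖ₑ = 1 := by
  rw [← ofReal_norm, norm_zpow, hζ, one_zpow, ENNReal.ofReal_one]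

/-- **the bound for `Re z ≥ -9/10 l`** -/
theorem nvz_le (hX : PBU.UX famV) {δ : ℝ} (hδ : 0 < δ) : ∃ m0 : ℕ, ∀ k : ℕ, m0 ≤ k →
    ∀ ζ : ℂ, ‖ζ‖ = 1 → ∀ x z : ℂ,
    |x.re| ≤ l / 10 → |x.im| ≤ 2 → -(9 / 10 * l) ≤ z.re → z.re < 37 / 10 * l →
    |z.im| ≤ 3 / 20 * Real.log (k + 1 : ℕ) + 2 →
    ‖nvz ζ z 0 (mu1 k x) (mu1 k x)‖ ≤ ((k + 1 : ℕ) : ℝ) ^ (3 / 4 + δ) * Real.exp (4 * |z.im|) := by
  obtain ⟨ep, e1, J, h1, h2, h3, h4, h5, hU⟩ := hX.pick 0 1 (ε := δ) (a := 1 / 100) hδ (by norm_num)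
  obtain ⟨m1, H1⟩ := hU.mass le_rfl
  obtain ⟨mc, -, Hcur⟩ := PBF.curZ_crs h3 h4 h5 h1
  refine ⟨max m1 mc, fun k hk ζ hζ x z hx hx' z1 z2 z3 => ?_⟩
  have k1 : m1 ≤ k + 1 := ((le_max_left _ _).trans hk).trans (Nat.le_succ k)
  have k2 : mc ≤ k + 1 := ((le_max_right _ _).trans hk).trans (Nat.le_succ k)
  have e0 : nvz ζ z 0 (mu1 k x) (mu1 k x) = ∑ n ∈ Finset.range (2 * (k + 1) + 1),
      ζ ^ (((k + 1 : ℕ) : ℤ) - n) * (famV.Pf (k + 1) (x, z) *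
      PBF.FF (famV.Z ep (k + 1) (x, z)) (NUSea.O.par0 (k + 1)) n n (PBU.cr e1 J (k + 1))
        (PBU.cr' e1 J (k + 1)) (fun _ _ _ _ _ => 1)) := by
    unfold nvz
    exact Finset.sum_congr rfl fun n _ => by
      rw [nvn_FF h1 h2 hx z1 z2 fun r O => Hcur (k + 1) k2 r O]
  have key : ‖nvz ζ z 0 (mu1 k x) (mu1 k x)‖ₑ ≤ PBU.FS famV ep e1 J (k + 1) (x, z) (fun _ => 1)
      (fun _ _ _ _ _ => 1) := by
    rw [e0]
    have ht : famV.top (k + 1) = 2 * (k + 1) := rfl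
    unfold PBU.FS
    rw [ht]
    refine (enorm_sum_le _ _).trans (Finset.sum_le_sum fun n _ => ?_)
    rw [enorm_mul, enorm_zpow hζ, one_mul, enorm_mul, one_mul]
    refine mul_le_mul' le_rfl ?_
    refine (PBF.FF_le _).trans (le_of_eq ?_)
    rw [PBF.FA_eq_FE]
    simp only [enorm_one]
  have h6 := key.trans (H1 (k + 1) k1 (x, z) ⟨hx, hx', z1, z2, z3⟩)
  rw [← ofReal_norm] at h6
  have hk0 : (0 : ℝ) < ((k + 1 : ℕ) : ℝ) := by positivity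
  have h7 : famV.bd (k + 1) (x, z) = ((k + 1 : ℕ) : ℝ) ^ (3 / 4 : ℝ) * Real.exp (4 * |z.im|) := rfl
  rw [h7, ENNReal.ofReal_le_ofReal_iff (by positivity)] at h6
  refine h6.trans (le_of_eq ?_)
  rw [← mul_assoc, ← Real.rpow_add hk0]
  congr 2
  ring

/-- **the bound of the function with one moved row** -/
theorem fVxz_le (hX : PBU.UX famV) {δ : ℝ} (hδ : 0 < δ) : ∃ m0 : ℕ, ∀ k : ℕ, m0 ≤ k →
    ∀ ζ : ℂ, ‖ζ‖ = 1 → ∀ x z : ℂ,
    |x.re| ≤ l / 10 → |x.im| ≤ 2 → |z.re| < 37 / 10 * l →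
    |z.im| ≤ 3 / 20 * Real.log (k + 1 : ℕ) + 2 →
    ‖fVxz ζ k x z‖ ≤ ((k + 1 : ℕ) : ℝ) ^ (3 / 4 + δ) * Real.exp (4 * |z.im|) := by
  obtain ⟨m0, H⟩ := nvz_le hX hδ
  refine ⟨m0, fun k hk ζ hζ x z hx hx' hz hz' => ?_⟩
  have hl := NUP1.lpos
  obtain ⟨z1, z2⟩ := abs_lt.1 hz
  unfold fVxz xz
  split_ifs with h
  · exact H k hk ζ hζ x z hx hx' (by linarith) z2 hz'
  · rw [not_le] at h
    have e : -(Fin.cons x (fun _ : Fin k => (0 : ℂ)) : Fin (k + 1) → ℂ) = mu1 k (-x) := by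
      unfold PBL.mu1
      funext i
      refine Fin.cases ?_ (fun j => ?_) i
      · simp
      · simp
    rw [e]
    have := H k hk ζ⁻¹ (by rw [norm_inv, hζ, inv_one]) (-x) (-z) (by rwa [neg_re, abs_neg])
      (by rwa [neg_im, abs_neg])
      (by rw [neg_re]; linarith) (by rw [neg_re]; linarith) (by rwa [neg_im, abs_neg])
    rwa [neg_im, abs_neg] at this

/-- `N + 1` rows at `0` -/
theorem fVxz_zero (ζ : ℂ) (N : ℕ) (z : ℂ) : fVxz ζ N 0 z = fVz ζ (N + 1) z := by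
  unfold fVxz fVz
  congr 1
  funext i
  refine Fin.cases ?_ (fun j => ?_) i
  · simp
  · simp

/-- **the bound of the function at the rows `0`** -/
theorem fVz_le (hX : PBU.UX famV) {δ : ℝ} (hδ : 0 < δ) : ∃ m0 : ℕ, ∀ j : ℕ, m0 ≤ j →
    ∀ ζ : ℂ, ‖ζ‖ = 1 → ∀ z : ℂ,
    |z.re| < 37 / 10 * l → |z.im| ≤ 3 / 20 * Real.log j + 2 →
    ‖fVz ζ j z‖ ≤ (j : ℝ) ^ (3 / 4 + δ) * Real.exp (4 * |z.im|) := by
  obtain ⟨m0, H⟩ := fVxz_le hX hδ
  refine ⟨m0 + 1, fun j hj ζ hζ z hz hz' => ?_⟩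
  have hl := NUP1.lpos
  obtain ⟨k, rfl⟩ : ∃ k, j = k + 1 := ⟨j - 1, by omega⟩
  rw [← fVxz_zero]
  exact H k (by omega) ζ hζ 0 z (by simp; positivity) (by simp) hz hz'

/-! ### the bounds in the words of the function side -/

/-- crude bound, all weights -/
def V0X (C : ℝ) : Prop :=
  (∀ᶠ j : ℕ in atTop, ∀ w : ℂ, ‖w‖ = 1 → ∀ z : ℂ, |z.re| ≤ 18 / 5 * l →
    |z.im| ≤ 3 / 20 * Real.log j + 1 → ‖fVz w j z‖ ≤ (j : ℝ) ^ C) ∧
  ∀ᶠ j : ℕ in atTop, ∀ w : ℂ, ‖w‖ = 1 → ∀ s ∈ Icc (0 : ℝ) 1, ∀ z : ℂ, |z.re| ≤ 18 / 5 * l →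
    |z.im| ≤ 3 / 20 * Real.log j + 1 → ‖fVxz w j (I * s) z‖ ≤ (j : ℝ) ^ C

/-- the bound at height `O(1)`, all weights -/
def V1X : Prop := ∀ ε : ℝ, 0 < ε → ∀ᶠ j : ℕ in atTop, ∀ w : ℂ, ‖w‖ = 1 →
  ∀ s ∈ Icc (0 : ℝ) 1, ∀ t ∈ Icc (0 : ℝ) 1, ‖fVxz w j (I * s) (I * t)‖ ≤ (j : ℝ) ^ (3 / 4 + ε)

/-- **(V1)** -/
theorem v1x_of (hX : PBU.UX famV) : V1X := by
  intro ε hε
  obtain ⟨m1, H1⟩ := fVxz_le hX (show 0 < min (ε / 2) (1 / 4) by positivity)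
  have hl := NUP1.lpos
  set δ : ℝ := min (ε / 2) (1 / 4) with hδ
  have hδ0 : 0 < δ := by positivity
  have hδ1 : δ ≤ 1 / 4 := min_le_right _ _
  have hδ2 : δ ≤ ε / 2 := min_le_left _ _
  filter_upwards [eventually_ge_atTop m1, eventually_ge_atTop 1,
    PBV.ev_pow (2 * Real.exp 4) (show 3 / 4 + δ < 3 / 4 + ε by linarith)]
    with j h1 h2 h3 w hw s hs t ht
  have hj : (1 : ℝ) ≤ j := by exact_mod_cast h2
  have hlog : 0 ≤ Real.log (j + 1 : ℕ) := Real.log_nonneg (by push_cast; linarith)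
  have k1 := H1 j h1 w hw (I * s) (I * t) (by simp; positivity)
    (by simp [abs_of_nonneg hs.1]; linarith [hs.2]) (by simp; positivity)
    (by simp [abs_of_nonneg ht.1]; push_cast at hlog; linarith [ht.2])
  refine k1.trans (le_trans ?_ h3)
  have e1 : (I * (t : ℂ)).im = t := by simp
  rw [e1, abs_of_nonneg ht.1]
  calc ((j + 1 : ℕ) : ℝ) ^ (3 / 4 + δ) * Real.exp (4 * t) ≤ (2 * (j : ℝ) ^ (3 / 4 + δ)) * Real.exp 4 := by
        refine mul_le_mul (PBV.succ_pow (by linarith) (by linarith) h2)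
          (Real.exp_le_exp.2 (by linarith [ht.2])) (Real.exp_pos _).le (by positivity)
    _ = _ := by ring

/-- **(V0)** -/
theorem v0x_of (hX : PBU.UX famV) : V0X 2 := by
  obtain ⟨m0, H0⟩ := fVz_le hX (show (0 : ℝ) < 1 / 10 by norm_num)
  obtain ⟨m1, H1⟩ := fVxz_le hX (show (0 : ℝ) < 1 / 10 by norm_num)
  have hl := NUP1.lpos
  have key : ∀ j : ℕ, 1 ≤ j → ∀ y : ℝ, |y| ≤ 3 / 20 * Real.log j + 1 →
      (j : ℝ) ^ (3 / 4 + 1 / 10 : ℝ) * Real.exp (4 * |y|) ≤ Real.exp 4 * (j : ℝ) ^ (3 / 2 : ℝ) := by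
    intro j hj y hy
    have hj' : (0 : ℝ) < j := by exact_mod_cast hj
    have hj1 : (1 : ℝ) ≤ j := by exact_mod_cast hj
    have e1 : (j : ℝ) ^ (3 / 4 + 1 / 10 : ℝ) * (j : ℝ) ^ (3 / 5 : ℝ) ≤ (j : ℝ) ^ (3 / 2 : ℝ) := by
      rw [← Real.rpow_add hj']
      exact Real.rpow_le_rpow_of_exponent_le hj1 (by norm_num)
    have e2 : Real.exp (4 * |y|) ≤ Real.exp 4 * (j : ℝ) ^ (3 / 5 : ℝ) := by
      rw [Real.rpow_def_of_pos hj', ← Real.exp_add]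
      refine Real.exp_le_exp.2 ?_
      linarith
    calc (j : ℝ) ^ (3 / 4 + 1 / 10 : ℝ) * Real.exp (4 * |y|) ≤
        (j : ℝ) ^ (3 / 4 + 1 / 10 : ℝ) * (Real.exp 4 * (j : ℝ) ^ (3 / 5 : ℝ)) :=
          mul_le_mul_of_nonneg_left e2 (by positivity)
      _ = Real.exp 4 * ((j : ℝ) ^ (3 / 4 + 1 / 10 : ℝ) * (j : ℝ) ^ (3 / 5 : ℝ)) := by ring
      _ ≤ _ := mul_le_mul_of_nonneg_left e1 (Real.exp_pos _).le
  constructor
  · filter_upwards [eventually_ge_atTop m0, eventually_ge_atTop 1,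
      PBV.ev_pow (Real.exp 4) (show (3 / 2 : ℝ) < 2 by norm_num)] with j h1 h2 h3 w hw z hz hz'
    exact (H0 j h1 w hw z (by linarith) (by linarith)).trans ((key j h2 _ hz').trans h3)
  · filter_upwards [eventually_ge_atTop m1, eventually_ge_atTop 1,
      PBV.ev_pow (2 * Real.exp 4) (show (3 / 2 : ℝ) < 2 by norm_num)]
      with j h1 h2 h3 w hw s hs z hz hz'
    have hj : (1 : ℝ) ≤ j := by exact_mod_cast h2
    have hlog := log_succ_mono j h2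
    have k1 := H1 j h1 w hw (I * s) z (by simp; positivity)
      (by simp [abs_of_nonneg hs.1]; linarith [hs.2]) (by linarith) (by linarith)
    refine k1.trans (le_trans ?_ h3)
    calc ((j + 1 : ℕ) : ℝ) ^ (3 / 4 + 1 / 10 : ℝ) * Real.exp (4 * |z.im|) ≤
        (2 * (j : ℝ) ^ (3 / 4 + 1 / 10 : ℝ)) * Real.exp (4 * |z.im|) :=
          mul_le_mul_of_nonneg_right (PBV.succ_pow (by norm_num) (by norm_num) h2) (Real.exp_pos _).le
      _ = 2 * ((j : ℝ) ^ (3 / 4 + 1 / 10 : ℝ) * Real.exp (4 * |z.im|)) := by ring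
      _ ≤ 2 * (Real.exp 4 * (j : ℝ) ^ (3 / 2 : ℝ)) :=
          mul_le_mul_of_nonneg_left (key j h2 _ hz') (by norm_num)
      _ = _ := by ring

/-- **no hypothesis** -/
theorem v1x : V1X := v1x_of uxV

/-- **no hypothesis** -/
theorem v0x : V0X 2 := v0x_of uxV

end WX

end
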