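import Pool.Agent.WX.FunX
import Pool.Agent.WX.U01
import Pool.Agent.WX.E2x
import Pool.Agent.WND.FunWI

/-!
# Plan X: the function side of plan V with a twist, literal, no hypothesis (helper12)

`fVt d N z = ga d z * fVz (zt d) N z` (helper96); inputs `WX.v0x`, `WX.v1x` (helper96), `WX.e2XU` (helper91).

* `OpX_ga`: the twisted operator on `ga d * F`; `eprV_point`: (E_V) at one point;
* `funHX_fVt`, `eprX_fVt`; **`funX`**: the output of `FunHX.out` for `fVt (d i)`, any index type,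
  `|d i| ≤ 1`, `1/10 ≤ p ≤ 1`.
-/

set_option autoImplicit false

noncomputable section

open Complex MeasureTheory Set Filter Topology
open Pool.Agent.PB.Rec (seg EL)
open PBV (FD aL σL aL_pos σL_pos σL_lt two_σL log_ev bK aK pow_ev rP rM field_diff aL_eq σL_eq
  strip_open seg_Is FD_zero FD_cons ball_box)
open WND (ga zt)
open WX (fVz fVxz fVt fVxt)
open NUP1 (l lpos)
open WNDF (ga_leib norm_ga_le norm_ga_inv_le ga_ne ga_strip)

namespace WXF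

variable {ι : Type*}

/-- **the twisted operator on `ga d * F`** -/
theorem OpX_ga {F : ℂ → ℂ} {U : Set ℂ} (hU : IsOpen U) (hF : DifferentiableOn ℂ F U) (d γ α : ℝ)
    (y : ℂ) {z : ℂ} (hz : z ∈ U) :
    OpX (8 / 3) γ α d (fun z => ga d z * F z) y z =
      ga d z * ((y⁻¹ - y) * (γ * F z + α * deriv (deriv F) z)) := by
  obtain ⟨-, h2⟩ := ga_leib hU hF (d : ℂ) hz
  unfold OpX
  push_cast
  rw [h2]
  ring

/-- **(E_V) at one point: from the gas form to the first order form** -/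
theorem eprV_point {j : ℕ} (hj : 1 ≤ j) {p C1 M s : ℝ} (hs : s ∈ Icc (0 : ℝ) 1) {D g0 g2 : ℂ}
    (d0 : ‖g0‖ ≤ M) (d2 : ‖g2‖ ≤ M)
    (hD1 : ‖((j + 1 : ℝ) : ℂ) * D - ((((rP j s - rM j s) / 2 : ℝ) : ℂ) * g0 +
      (((rP j s - rM j s) / 8 : ℝ) : ℂ) * g2)‖ ≤ C1 * (j : ℝ) ^ p) :
    ‖D - ((1 / j : ℝ) : ℂ) * (((exp (I * (8 / 3 : ℝ) * (I * s)))⁻¹ - exp (I * (8 / 3 : ℝ) * (I * s))) *
        (((1 / 2 : ℝ) : ℂ) * g0 + ((1 / 8 : ℝ) : ℂ) * g2))‖ ≤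
      |C1| * (j : ℝ) ^ (p - 1) + 2 * Real.exp (8 / 3) ^ 2 * (M / (j : ℝ) ^ 2) := by
  set Y : ℝ := Real.exp (8 / 3) with hY
  have hY1 : 1 ≤ Y := Real.one_le_exp (by norm_num)
  have hM0 : 0 ≤ M := (norm_nonneg _).trans d0
  have hj1 : (1 : ℝ) ≤ j := by exact_mod_cast hj
  have hj0 : (0 : ℝ) < j := by linarith
  set E : ℝ := Real.exp (8 / 3 * s) with hEd
  have hE0 : 0 < E := Real.exp_pos _
  have hEY : E ≤ Y := Real.exp_le_exp.2 (by linarith [hs.2])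
  have hE0' : 0 < E⁻¹ := by positivity
  have hE1 : 1 ≤ E := Real.one_le_exp (by linarith [hs.1])
  have hEY' : E⁻¹ ≤ Y := (inv_le_one_of_one_le₀ hE1).trans hY1
  have hEm : Real.exp (-(8 / 3 * s)) = E⁻¹ := by rw [hEd, Real.exp_neg]
  -- y
  have hy : exp (I * (8 / 3 : ℝ) * (I * s)) = ((E⁻¹ : ℝ) : ℂ) := by
    rw [← hEm, ofReal_exp]
    congr 1
    push_cast
    linear_combination (8 / 3 * s : ℂ) * I_sq
  have hy' : (exp (I * (8 / 3 : ℝ) * (I * s)))⁻¹ = ((E : ℝ) : ℂ) := by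
    rw [hy, ofReal_inv, inv_inv]
  rw [hy', hy]
  -- the two fields
  set A : ℝ := E / (j + E) with hA
  set B : ℝ := E⁻¹ / (j + E⁻¹) with hB
  have hrP : rP j s = (j + 1) * A := by
    unfold rP
    rw [← hEd, hA, mul_div_assoc]
  have hrM : rM j s = (j + 1) * B := by
    unfold rM
    rw [hEm, hB, mul_div_assoc]
  have hA1 := field_diff hj1 hE0 hEY
  have hB1 := field_diff hj1 hE0' hEY'
  rw [← hA] at hA1
  rw [← hB] at hB1
  have pw : (j : ℝ) ^ p = (j : ℝ) * (j : ℝ) ^ (p - 1) := by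
    rw [Real.rpow_sub hj0, Real.rpow_one]
    field_simp
  -- first part
  have p1 : ‖D - ((((A - B) / 2 : ℝ) : ℂ) * g0 + (((A - B) / 8 : ℝ) : ℂ) * g2)‖ ≤
      |C1| * (j : ℝ) ^ (p - 1) := by
    have e1 : ((j + 1 : ℝ) : ℂ) * D - ((((rP j s - rM j s) / 2 : ℝ) : ℂ) * g0 +
        (((rP j s - rM j s) / 8 : ℝ) : ℂ) * g2) = ((j + 1 : ℝ) : ℂ) *
        (D - ((((A - B) / 2 : ℝ) : ℂ) * g0 + (((A - B) / 8 : ℝ) : ℂ) * g2)) := by
      rw [hrP, hrM]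
      push_cast
      ring
    rw [e1, norm_mul, norm_real, Real.norm_of_nonneg (by linarith)] at hD1
    have e3 : (j : ℝ) * ‖D - ((((A - B) / 2 : ℝ) : ℂ) * g0 + (((A - B) / 8 : ℝ) : ℂ) * g2)‖ ≤
        (j : ℝ) * (|C1| * (j : ℝ) ^ (p - 1)) := by
      have e4 : 0 ≤ (j : ℝ) ^ p := by positivity
      calc _ ≤ ((j : ℝ) + 1) * ‖D - ((((A - B) / 2 : ℝ) : ℂ) * g0 + (((A - B) / 8 : ℝ) : ℂ) * g2)‖ := by
            have := norm_nonneg (D - ((((A - B) / 2 : ℝ) : ℂ) * g0 + (((A - B) / 8 : ℝ) : ℂ) * g2))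
            nlinarith
        _ ≤ C1 * (j : ℝ) ^ p := hD1
        _ ≤ |C1| * (j : ℝ) ^ p := by
            gcongr
            exact le_abs_self _
        _ = _ := by rw [pw]; ring
    exact le_of_mul_le_mul_left e3 hj0
  -- second part
  have p2 : ‖((((A - B) / 2 : ℝ) : ℂ) * g0 + (((A - B) / 8 : ℝ) : ℂ) * g2) -
      ((1 / j : ℝ) : ℂ) * ((((E : ℝ) : ℂ) - ((E⁻¹ : ℝ) : ℂ)) * (((1 / 2 : ℝ) : ℂ) * g0 +
        ((1 / 8 : ℝ) : ℂ) * g2))‖ ≤ 2 * Y ^ 2 * (M / (j : ℝ) ^ 2) := by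
    have e1 : ((((A - B) / 2 : ℝ) : ℂ) * g0 + (((A - B) / 8 : ℝ) : ℂ) * g2) -
      ((1 / j : ℝ) : ℂ) * ((((E : ℝ) : ℂ) - ((E⁻¹ : ℝ) : ℂ)) * (((1 / 2 : ℝ) : ℂ) * g0 +
        ((1 / 8 : ℝ) : ℂ) * g2)) =
      (((A - E / j) - (B - E⁻¹ / j) : ℝ) : ℂ) * (1 / 2 * g0 + 1 / 8 * g2) := by
      push_cast
      ring
    have hQ : ‖(((A - E / j) - (B - E⁻¹ / j) : ℝ) : ℂ)‖ ≤ 2 * (Y ^ 2 / j ^ 2) := by
      rw [norm_real, Real.norm_eq_abs]
      exact (abs_sub _ _).trans (by linarith)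
    have hn : ‖(1 / 2 * g0 + 1 / 8 * g2 : ℂ)‖ ≤ M := by
      refine (norm_add_le _ _).trans ?_
      rw [norm_mul, norm_mul]
      have c1 : ‖(1 / 2 : ℂ)‖ = 1 / 2 := by norm_num
      have c2 : ‖(1 / 8 : ℂ)‖ = 1 / 8 := by norm_num
      rw [c1, c2]
      linarith
    rw [e1, norm_mul]
    calc _ ≤ 2 * (Y ^ 2 / j ^ 2) * M := mul_le_mul hQ hn (norm_nonneg _) (by positivity)
      _ = _ := by ring
  have e5 : D - ((1 / j : ℝ) : ℂ) * ((((E : ℝ) : ℂ) - ((E⁻¹ : ℝ) : ℂ)) * (((1 / 2 : ℝ) : ℂ) * g0 +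
        ((1 / 8 : ℝ) : ℂ) * g2)) =
      (D - ((((A - B) / 2 : ℝ) : ℂ) * g0 + (((A - B) / 8 : ℝ) : ℂ) * g2)) +
      (((((A - B) / 2 : ℝ) : ℂ) * g0 + (((A - B) / 8 : ℝ) : ℂ) * g2) -
      ((1 / j : ℝ) : ℂ) * ((((E : ℝ) : ℂ) - ((E⁻¹ : ℝ) : ℂ)) * (((1 / 2 : ℝ) : ℂ) * g0 +
        ((1 / 8 : ℝ) : ℂ) * g2))) := by ring
  rw [e5]
  exact (norm_add_le _ _).trans (add_le_add p1 p2)

/-- **the hypotheses of the function side** -/
theorem funHX_fVt {d : ι → ℝ} (hd : ∀ i, |d i| ≤ 1) :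
    FunHX d (1 + 2) (fun i => fVt (d i : ℂ)) (fun i j z x => fVxt (d i : ℂ) j x z) := by
  have hl := lpos
  have hs : aL + σL = 18 / 5 * l := by
    rw [aL_eq, σL_eq]
    ring
  have hr : aL + σL < 43 / 10 * l := by
    rw [hs]
    linarith
  have hr' : σL < 13 / 10 * l := by
    rw [σL_eq]
    linarith
  have ha : ((aL : ℝ) : ℂ) = 3 * l := by
    rw [aL_eq]
    push_cast
    ring
  refine ⟨hd, ?_, ?_, ?_, ?_, ?_⟩
  · filter_upwards [WX.v0x.1, ga_strip (Dd := 1) le_rfl, eventually_ge_atTop 1] with j hj hg hj1 i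
    have hj0 : (0 : ℝ) < j := by exact_mod_cast hj1
    obtain ⟨Q, hQ, hz⟩ := WX.fVt_zeros (d i : ℂ) j
    refine FD_zero hr hr' (fun z h => (WX.fVt_diff (d i : ℂ) j).differentiableAt ((strip_open _).mem_nhds h))
      (fun z h => hQ.differentiableAt ((strip_open _).mem_nhds h)) (fun z _ => ?_) ?_
    · rw [ha]
      exact hz z
    · intro z h1 h2
      rw [two_σL] at h2
      rw [hs] at h1
      rw [WX.fVt_ga, norm_mul, Real.rpow_add hj0]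
      exact mul_le_mul (hg _ (hd i) z h2) (hj _ (WND.norm_zt _) z h1 h2) (norm_nonneg _) (by positivity)
  · filter_upwards [WX.v0x.2, ga_strip (Dd := 1) le_rfl, eventually_ge_atTop 1] with j hj hg hj1 i x hx
    have hj0 : (0 : ℝ) < j := by exact_mod_cast hj1
    obtain ⟨s, hs1, rfl⟩ := seg_Is hx
    have hx0 : |(I * (s : ℂ)).re| ≤ l / 2 := by
      simp
      linarith
    obtain ⟨Q, hQ, hz⟩ := WX.fVxt_zeros (d i : ℂ) j hx0
    refine FD_cons hj1 (x := I * s) (by simp) (by simp [abs_of_nonneg hs1.1, hs1.2]) hr hr'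
      (fun z h => (WX.fVxt_diff (d i : ℂ) j hx0).differentiableAt ((strip_open _).mem_nhds h))
      (fun z h => hQ.differentiableAt ((strip_open _).mem_nhds h)) (fun z _ => ?_) ?_
    · rw [ha]
      exact hz z
    · intro z h1 h2
      rw [two_σL] at h2
      rw [hs] at h1
      rw [WX.fVxt_ga, norm_mul, Real.rpow_add hj0]
      exact mul_le_mul (hg _ (hd i) z h2) (hj _ (WND.norm_zt _) s hs1 z h1 h2) (norm_nonneg _) (by positivity)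
  · exact Filter.Eventually.of_forall fun j i z => WX.fVxt_zero (d i : ℂ) j z
  · refine Filter.Eventually.of_forall fun j i x hx => ?_
    obtain ⟨s, hs1, rfl⟩ := seg_Is hx
    have hx0 : |(I * (s : ℂ)).re| ≤ l / 2 := by
      simp
      linarith
    have := WX.fVxt_leg (d i : ℂ) j hx0
    rw [ha]
    exact this
  · intro ε hε
    filter_upwards [WX.v1x (ε / 2) (by positivity),
      pow_ev (show 0 < ε / 2 by positivity) (Real.exp (8 / 3 * 1)), eventually_ge_atTop 1]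
      with j hj hE hj1 i x hx t ht
    have hj0 : (0 : ℝ) < j := by exact_mod_cast hj1
    obtain ⟨s, hs1, rfl⟩ := seg_Is hx
    show ‖fVxt (d i : ℂ) j (I * s) (I * t)‖ ≤ (j : ℝ) ^ (3 / 4 + ε)
    rw [WX.fVxt_ga, norm_mul]
    have e1 := hj _ (WND.norm_zt (d i)) s hs1 t ht
    have e2 : ‖ga (d i : ℂ) (I * t)‖ ≤ Real.exp (8 / 3 * 1) := by
      refine (norm_ga_le (hd i) _).trans ?_
      apply Real.exp_le_exp.2
      have e3 : |(I * (t : ℂ)).im| ≤ 1 := by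
        simp [abs_of_nonneg ht.1, ht.2]
      nlinarith
    calc ‖ga (d i : ℂ) (I * t)‖ * ‖fVxz (zt (d i)) j (I * s) (I * t)‖
        ≤ (j : ℝ) ^ (ε / 2) * (j : ℝ) ^ (3 / 4 + ε / 2) :=
          mul_le_mul (e2.trans hE) e1 (norm_nonneg _) (by positivity)
      _ = (j : ℝ) ^ (3 / 4 + ε) := by
        rw [← Real.rpow_add hj0]
        congr 1
        ring

/-- **the first order identity with a twist** -/
theorem eprX_fVt {d : ι → ℝ} (hd : ∀ i, |d i| ≤ 1) {p : ℝ} (hp : 1 / 10 ≤ p) (hp1 : p ≤ 1) :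
    EPrX p d (fun i j z x => fVxt (d i : ℂ) j x z) := by
  have hl := lpos
  obtain ⟨C1, hE⟩ := WX.e2XU hp hp1
  have hH := funHX_fVt hd
  set Y : ℝ := Real.exp (8 / 3) with hY
  have hY1 : 1 ≤ Y := Real.one_le_exp (by norm_num)
  refine ⟨Y * (|C1| + 2 * Y ^ 2 * (Y * 16)), ?_⟩
  filter_upwards [hE, hH.dbd (show (0 : ℝ) < 1 / 4 by norm_num), eventually_ge_atTop 1]
    with j a1 a2 a3 i s hs t ht
  have hj1 : (1 : ℝ) ≤ j := by exact_mod_cast a3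
  have hj0 : (0 : ℝ) < j := by linarith
  obtain ⟨D, hD1, hD2⟩ := a1 _ (WND.norm_zt (d i)) s hs t ht
  have hx : I * (s : ℂ) ∈ seg 0 := ⟨s, hs, by simp⟩
  have hx0 : |(I * (s : ℂ)).re| ≤ l / 2 := by
    simp
    linarith
  obtain ⟨b0, b1, b2⟩ := a2 i _ hx t ht
  rw [show (3 / 4 : ℝ) + 1 / 4 = 1 by norm_num, Real.rpow_one] at b0 b1 b2
  set F : ℂ → ℂ := fVxz (zt (d i)) j (I * s) with hF
  set U : Set ℂ := {z | |z.re| < 43 / 10 * l} with hU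
  have hUo : IsOpen U := strip_open _
  have hFd : DifferentiableOn ℂ F U := WX.xz_diff (zt (d i)) (Pool.Agent.PB.Rws_cons hx0)
  have hzU : I * (t : ℂ) ∈ U := by
    show |(I * (t : ℂ)).re| < 43 / 10 * l
    simp
    linarith
  have hfun : (fun z => fVxt (d i : ℂ) j (I * s) z) = fun z => ga (d i : ℂ) z * F z := by
    funext z
    rw [WX.fVxt_ga]
  have hgt : |(I * (t : ℂ)).im| ≤ 1 := by simp [abs_of_nonneg ht.1, ht.2]
  have hga : ‖ga (d i : ℂ) (I * t)‖ ≤ Y := by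
    refine (norm_ga_le (hd i) _).trans ?_
    rw [hY]
    apply Real.exp_le_exp.2
    nlinarith
  have hga' : ‖(ga (d i : ℂ) (I * t))⁻¹‖ ≤ Y := by
    refine (norm_ga_inv_le (hd i) _).trans ?_
    rw [hY]
    apply Real.exp_le_exp.2
    nlinarith
  have hgne := ga_ne (d i : ℂ) (I * t)
  -- the values of F
  obtain ⟨-, l2⟩ := ga_leib hUo hFd (d i : ℂ) hzU
  rw [← hfun] at l2
  have hn : ‖I * (8 / 3) * ((d i : ℝ) : ℂ)‖ ≤ 8 / 3 := by
    rw [norm_mul, norm_mul, norm_I, one_mul, norm_real, Real.norm_eq_abs]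
    have e1 : ‖(8 / 3 : ℂ)‖ = 8 / 3 := by norm_num
    rw [e1]
    exact mul_le_of_le_one_right (by norm_num) (hd i)
  have e0 : ga (d i : ℂ) (I * t) * F (I * t) = fVxt (d i : ℂ) j (I * s) (I * t) := by rw [WX.fVxt_ga]
  rw [e0] at l2
  have m0 : ‖F (I * t)‖ ≤ Y * 16 * (j : ℝ) := by
    have e1 : F (I * t) = (ga (d i : ℂ) (I * t))⁻¹ * fVxt (d i : ℂ) j (I * s) (I * t) := by
      rw [← e0, inv_mul_cancel_left₀ hgne]
    rw [e1, norm_mul]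
    calc _ ≤ Y * (j : ℝ) := mul_le_mul hga' b0 (norm_nonneg _) (by positivity)
      _ ≤ _ := by nlinarith
  have m2 : ‖deriv (deriv F) (I * t)‖ ≤ Y * 16 * (j : ℝ) := by
    have e1 : deriv (deriv F) (I * t) = (ga (d i : ℂ) (I * t))⁻¹ *
        (deriv (deriv fun z => fVxt (d i : ℂ) j (I * s) z) (I * t) +
          2 * (I * (8 / 3) * (d i : ℝ)) * deriv (fun z => fVxt (d i : ℂ) j (I * s) z) (I * t) +
          (I * (8 / 3) * (d i : ℝ)) ^ 2 * fVxt (d i : ℂ) j (I * s) (I * t)) := by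
      rw [l2, inv_mul_cancel_left₀ hgne]
    rw [e1, norm_mul]
    have e2 : ‖deriv (deriv fun z => fVxt (d i : ℂ) j (I * s) z) (I * t) +
          2 * (I * (8 / 3) * (d i : ℝ)) * deriv (fun z => fVxt (d i : ℂ) j (I * s) z) (I * t) +
          (I * (8 / 3) * (d i : ℝ)) ^ 2 * fVxt (d i : ℂ) j (I * s) (I * t)‖ ≤ 16 * (j : ℝ) := by
      refine (norm_add_le _ _).trans ((add_le_add (norm_add_le _ _) le_rfl).trans ?_)
      rw [norm_mul (2 * (I * (8 / 3) * ((d i : ℝ) : ℂ))), norm_mul (2 : ℂ),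
        norm_mul ((I * (8 / 3) * ((d i : ℝ) : ℂ)) ^ 2), norm_pow]
      have e4 : ‖(2 : ℂ)‖ = 2 := by norm_num
      rw [e4]
      have e5 : ‖I * (8 / 3) * ((d i : ℝ) : ℂ)‖ ^ 2 ≤ (8 / 3 : ℝ) ^ 2 := by gcongr
      have e6 := mul_le_mul e5 b0 (norm_nonneg _) (by norm_num : (0 : ℝ) ≤ (8 / 3) ^ 2)
      have e7 := mul_le_mul hn b1 (norm_nonneg _) (by norm_num : (0 : ℝ) ≤ 8 / 3)
      linarith
    calc _ ≤ Y * (16 * (j : ℝ)) := mul_le_mul hga' e2 (norm_nonneg _) (by positivity)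
      _ = _ := by ring
  have key := eprV_point a3 hs m0 m2 hD2
  refine ⟨ga (d i : ℂ) (I * t) * D, ?_, ?_⟩
  · have h2 := hD1.const_mul (ga (d i : ℂ) (I * t))
    refine h2.congr_of_eventuallyEq (Eventually.of_forall fun s' => ?_)
    show fVxt (d i : ℂ) j (I * s') (I * t) = _
    rw [WX.fVxt_ga]
  · rw [hfun, OpX_ga hUo hFd (d i) (1 / 2) (1 / 8) _ hzU]
    have e2 : ga (d i : ℂ) (I * t) * D - ((1 / j : ℝ) : ℂ) * (ga (d i : ℂ) (I * t) *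
        (((exp (I * (8 / 3 : ℝ) * (I * s)))⁻¹ - exp (I * (8 / 3 : ℝ) * (I * s))) *
          (((1 / 2 : ℝ) : ℂ) * F (I * t) + ((1 / 8 : ℝ) : ℂ) * deriv (deriv F) (I * t)))) =
        ga (d i : ℂ) (I * t) * (D - ((1 / j : ℝ) : ℂ) *
        (((exp (I * (8 / 3 : ℝ) * (I * s)))⁻¹ - exp (I * (8 / 3 : ℝ) * (I * s))) *
          (((1 / 2 : ℝ) : ℂ) * F (I * t) + ((1 / 8 : ℝ) : ℂ) * deriv (deriv F) (I * t)))) := by ring
    rw [e2, norm_mul]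
    refine (mul_le_mul hga key (norm_nonneg _) (by positivity)).trans ?_
    have e3 : Y * 16 * (j : ℝ) / (j : ℝ) ^ 2 ≤ Y * 16 * (j : ℝ) ^ (p - 1) := by
      rw [mul_div_assoc]
      refine mul_le_mul_of_nonneg_left ?_ (by positivity)
      have e4 : (j : ℝ) / (j : ℝ) ^ 2 = (j : ℝ) ^ (-1 : ℝ) := by
        rw [Real.rpow_neg_one]
        field_simp
      rw [e4]
      exact Real.rpow_le_rpow_of_exponent_le hj1 (by linarith)
    have e5 : 2 * Real.exp (8 / 3) ^ 2 * (Y * 16 * (j : ℝ) / (j : ℝ) ^ 2) ≤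
        2 * Y ^ 2 * (Y * 16 * (j : ℝ) ^ (p - 1)) := by
      rw [← hY]
      gcongr
    calc Y * (|C1| * (j : ℝ) ^ (p - 1) + 2 * Real.exp (8 / 3) ^ 2 * (Y * 16 * (j : ℝ) / (j : ℝ) ^ 2))
        ≤ Y * (|C1| * (j : ℝ) ^ (p - 1) + 2 * Y ^ 2 * (Y * 16 * (j : ℝ) ^ (p - 1))) := by gcongr
      _ = _ := by ring

/-- **THE FUNCTION SIDE OF PLAN V WITH A TWIST, LITERAL, NO HYPOTHESIS** -/
theorem funX {d : ι → ℝ} (hd : ∀ i, |d i| ≤ 1) {p : ℝ} (hp : 1 / 10 ≤ p) (hp1 : p ≤ 1) :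
    ∃ (K : ℕ) (C' : ℝ), 0 ≤ C' ∧
      (∀ᶠ j : ℕ in atTop, ∀ i, ∀ k ∈ Finset.Icc (-(K : ℤ)) K,
        ‖bK (fVt (d i : ℂ)) (j + 2) k * (1 - ((2 * nuX (k + d i) / j : ℝ) : ℂ)) -
          bK (fVt (d i : ℂ)) j k‖ ≤ C' * (j : ℝ) ^ (p - 1)) ∧
      (∀ᶠ j : ℕ in atTop, ∀ i, ∀ k ∈ Finset.Icc (-(K : ℤ)) K,
        ‖bK (fVt (d i : ℂ)) (j + 1) k - (-1) ^ k * bK (fVt (d i : ℂ)) j k‖ ≤ C') ∧
      (∀ᶠ j : ℕ in atTop, ∀ i, ∀ k ∈ Finset.Icc (-(K : ℤ)) K,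
        ‖bK (fVt (d i : ℂ)) j k‖ ≤ C' * (j : ℝ) ^ (1 : ℝ)) ∧
      ∀ᶠ j : ℕ in atTop, ∀ i, ∀ z : ℂ, |z.re| ≤ aL → |z.im| ≤ 2 →
        ‖fVt (d i : ℂ) j z - EL (8 / 3) K (bK (fVt (d i : ℂ)) j) z‖ ≤ (j : ℝ) ^ (-(1 : ℝ)) :=
  (funHX_fVt hd).out (by linarith) hp1 (eprX_fVt hd hp hp1)

end WXF
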