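import Pool.Agent.WX.AsmX
import Pool.Agent.WX.FunXI
import Pool.Agent.WX.FNz

/-!
# Plan X: the laws at fixed loop weight `2 cos (π d)`, no hypothesis (helper31)

`FX d N = W0 N * (ZP N).eval (2 cos (π d)) / bulk N`.

* `chX`: the output of the function side (helper12) at the rows `0`;
* **`TwoX`** (`twoX`): `2/5 ≤ d ≤ 3/5`, every `N ≥ 1`:
  `|FX d N - (G d N^(nuX d) + (-1)^N H d N^(nuX (1 - d)))| ≤ C N^(1/10)`;
* **`OneModeX`** (`oneModeX`): `|d| ≤ 2/5`, every `N ≥ 1`: `|FX d N - G d N^(nuX d)| ≤ C N^(3/20)`.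
-/

set_option autoImplicit false

noncomputable section

open Filter Topology Set

namespace WX

open WXF (nuX)

/-- the unknown of plan X at the twist `d` -/
def FX (d : ℝ) (N : ℕ) : ℝ :=
  NUI.W0 N * (NUI.ZP N).eval (2 * Real.cos (Real.pi * d)) / Pool.Agent.NUF.bulk N

theorem fVt_FX (d : ℝ) (N : ℕ) : fVt (d : ℂ) N 0 = ((PV.κV * FX d N : ℝ) : ℂ) := by
  rw [fVt_val, PV.rh0_sq, FX]
  push_cast
  ring

/-- the coefficients of the function with twist -/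
def bX (i : {d : ℝ // |d| ≤ 3 / 5}) (j : ℕ) (k : ℤ) : ℂ := PBV.bK (fVt (i.1 : ℂ)) j k

/-- **the output of the function side at the rows `0`** -/
theorem chX : ∃ (K : ℕ) (C : ℝ), ChX (1 / 10) (fun i : {d : ℝ // |d| ≤ 3 / 5} => i.1) bX
    (fun i j => ((PV.κV * FX i.1 j : ℝ) : ℂ)) K C := by
  obtain ⟨K, C, hC, h1, h2, h3, h4⟩ := WXF.funX (d := fun i : {d : ℝ // |d| ≤ 3 / 5} => i.1)
    (fun i => i.2.trans (by norm_num)) (p := 1 / 10) le_rfl (by norm_num)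
  refine ⟨K, C + 1, by linarith, ?_, ?_, ?_, ?_⟩
  · filter_upwards [h1] with j hj i k hk
    refine (hj i k hk).trans (mul_le_mul_of_nonneg_right (by linarith) (by positivity))
  · filter_upwards [h2] with j hj i k hk
    exact (hj i k hk).trans (by linarith)
  · filter_upwards [h3] with j hj i k hk
    exact (hj i k hk).trans (mul_le_mul_of_nonneg_right (by linarith) (by positivity))
  · filter_upwards [h4, eventually_ge_atTop 1] with j hj hj1 i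
    have hj1' : (1 : ℝ) ≤ j := by exact_mod_cast hj1
    have e1 := hj i 0 (by simp [PBV.aL_pos.le]) (by simp)
    have e2 : Pool.Agent.PB.Rec.EL (8 / 3) K (PBV.bK (fVt (i.1 : ℂ)) j) 0 =
        ∑ k ∈ Finset.Icc (-(K : ℤ)) K, bX i j k := by
      unfold Pool.Agent.PB.Rec.EL bX
      simp
    rw [e2, fVt_FX] at e1
    refine e1.trans ?_
    have : (j : ℝ) ^ (-(1 : ℝ)) ≤ 1 := Real.rpow_le_one_of_one_le_of_nonpos hj1' (by norm_num)
    linarith

/-- the values at one size are bounded -/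
theorem FX_bdd (N : ℕ) : ∃ B : ℝ, ∀ d : ℝ, |FX d N| ≤ B := by
  refine ⟨NUI.W0 N * (NUI.ZP N).eval 2 / Pool.Agent.NUF.bulk N, fun d => ?_⟩
  have hb := Pool.Agent.NUF.bulk_pos N
  have hW := NUI.W0_pos N
  have hc : |2 * Real.cos (Real.pi * d)| ≤ 2 := by
    rw [abs_mul, abs_two]
    have := Real.abs_cos_le_one (Real.pi * d)
    linarith
  unfold FX
  rw [abs_div, abs_mul, abs_of_pos hW, abs_of_pos hb]
  have := ZP_abs_le hc N
  gcongr

/-- **two modes** -/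
def TwoX : Prop := ∃ (G H : ℝ → ℝ) (C : ℝ), 0 ≤ C ∧ ∀ N : ℕ, 1 ≤ N → ∀ d ∈ Icc (2 / 5 : ℝ) (3 / 5),
  |NUI.W0 N * (NUI.ZP N).eval (2 * Real.cos (Real.pi * d)) / Pool.Agent.NUF.bulk N -
    (G d * (N : ℝ) ^ nuX d + (-1) ^ N * H d * (N : ℝ) ^ nuX (1 - d))| ≤ C * (N : ℝ) ^ (1 / 10 : ℝ)

/-- **one mode** -/
def OneModeX : Prop := ∃ (G : ℝ → ℝ) (C : ℝ), 0 ≤ C ∧ ∀ N : ℕ, 1 ≤ N → ∀ d : ℝ, |d| ≤ 2 / 5 →
  |NUI.W0 N * (NUI.ZP N).eval (2 * Real.cos (Real.pi * d)) / Pool.Agent.NUF.bulk N -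
    G d * (N : ℝ) ^ nuX d| ≤ C * (N : ℝ) ^ (3 / 20 : ℝ)

theorem twoX : TwoX := by
  obtain ⟨K, C, h⟩ := chX
  exact two_real PV.κV_pos h fun N _ => FX_bdd N

theorem oneModeX : OneModeX := by
  obtain ⟨K, C, h⟩ := chX
  exact one_real PV.κV_pos h fun N _ => FX_bdd N

end WX

end

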