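import Pool.Agent.WX.ZLawA
import Pool.Agent.WX.TwoXof
import Pool.Agent.PB.SBC
import Pool.Agent.PB.SB3

/-!
# Plan X: the laws of the partition functions of the sphere lattice, no hypothesis (helper71)

`P_N = NUI.ZP N`, `ZZ n' N = P_N(n')`:
* **`sLawX`** : `(ZP N).coeff 1 = log N / (3π) + a + (-1)^N b + O(N^(-13/480))`;
* **`zLawX`** : the law with two modes at every loop weight `2 cos (π d)`, `0 ≤ d ≤ 1/2`, amplitude continuous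
  and positive, and two-sided bounds with one constant.
-/

set_option autoImplicit false

noncomputable section

open Filter Topology Set Polynomial

namespace WX

theorem ZP_eval_zero (N : ℕ) : (NUI.ZP N).eval 0 = 1 := by
  have h1 := NUI.ZP_eq 0 N
  have h2 : Pool.Agent.NUF.ZZ 0 N = 1 := div_self (Pool.Agent.NUF.Wd_ne N)
  rw [h2] at h1
  have h3 : Polynomial.aeval (0 : ℂ) (NUI.ZP N) = (((NUI.ZP N).eval 0 : ℝ) : ℂ) := by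
    simpa using (Polynomial.aeval_algebraMap_apply ℂ (0 : ℝ) (NUI.ZP N))
  rw [h3] at h1
  exact_mod_cast h1.symm

/-- all the laws -/
theorem lawsX : (∃ a b K : ℝ, 0 ≤ K ∧ ∀ N : ℕ, 1 ≤ N →
      |(NUI.ZP N).coeff 1 - (1 / (3 * Real.pi) * Real.log N + a + (-1) ^ N * b)| ≤
        K * (N : ℝ) ^ (-(13 / 120 / 4) : ℝ)) ∧
    ∃ (g h : ℝ → ℝ) (K : ℝ), 0 ≤ K ∧ ContinuousOn g (Icc 0 (1 / 2)) ∧
      (∀ d ∈ Icc (0 : ℝ) (1 / 2), 0 < g d) ∧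
      (∀ N : ℕ, 1 ≤ N → ∀ d ∈ Icc (0 : ℝ) (1 / 2), |(NUI.ZP N).eval (2 * Real.cos (Real.pi * d)) -
        (g d * (N : ℝ) ^ (1 / 6 - 2 / 3 * d ^ 2) +
          (-1) ^ N * h d * (N : ℝ) ^ (1 / 6 - 2 / 3 * (1 - d) ^ 2))| ≤
        K * (N : ℝ) ^ (1 / 6 - 2 / 3 * d ^ 2 - 7 / 120)) ∧
      ∃ c0 C0 : ℝ, 0 < c0 ∧ 0 < C0 ∧ ∀ N : ℕ, 1 ≤ N → ∀ d ∈ Icc (0 : ℝ) (1 / 2),
        c0 * (N : ℝ) ^ (1 / 6 - 2 / 3 * d ^ 2) ≤ (NUI.ZP N).eval (2 * Real.cos (Real.pi * d)) ∧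
        (NUI.ZP N).eval (2 * Real.cos (Real.pi * d)) ≤ C0 * (N : ℝ) ^ (1 / 6 - 2 / 3 * d ^ 2) := by
  obtain ⟨L, C, hL, hC, hW⟩ := SB.Wd_sharp SB.quot_main
  have e : ∀ (N : ℕ) (x : ℝ), NUI.W0 N * x / Pool.Agent.NUF.bulk N =
      NUI.W0 N / Pool.Agent.NUF.bulk N * x := fun N x => by ring
  refine laws (W := fun N => NUI.W0 N / Pool.Agent.NUF.bulk N) hL hC
    (fun N => div_pos (NUI.W0_pos N) (Pool.Agent.NUF.bulk_pos N)) ?_ NUI.ZP_nonneg ZP_eval_zero ?_ ?_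
  · intro N hN
    have h1 := hW N hN
    rw [div_div]
    exact h1
  · obtain ⟨G, H, C', hC', h⟩ := twoX
    refine ⟨G, H, C', hC', fun N hN d hd => ?_⟩
    have h1 := h N hN d hd
    rw [e] at h1
    exact h1
  · obtain ⟨G, C', hC', h⟩ := oneModeX
    refine ⟨G, C', hC', fun N hN d hd => ?_⟩
    have h1 := h N hN d hd
    rw [e] at h1
    exact h1

/-- **the mass of the separating polygons** -/
theorem sLawX : ∃ a b K : ℝ, 0 ≤ K ∧ ∀ N : ℕ, 1 ≤ N →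
      |(NUI.ZP N).coeff 1 - (1 / (3 * Real.pi) * Real.log N + a + (-1) ^ N * b)| ≤
        K * (N : ℝ) ^ (-(13 / 120 / 4) : ℝ) := lawsX.1

/-- **the sharp law at every loop weight in `(0, 2]`** -/
theorem zSharp {d : ℝ} (hd0 : 0 ≤ d) (hd : d < 1 / 2) : ∃ a c K : ℝ, 0 < a ∧ 0 < c ∧ ∀ N : ℕ, 1 ≤ N →
    |(NUI.ZP N).eval (2 * Real.cos (Real.pi * d)) / (N : ℝ) ^ (1 / 6 - 2 / 3 * d ^ 2) - a| ≤
      K * (N : ℝ) ^ (-c) := by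
  obtain ⟨g, h, K, hK, -, hg, hL, -⟩ := lawsX.2
  obtain ⟨c, K', hc, h1⟩ := sharp_at hK hd0 hd fun N hN => hL N hN d ⟨hd0, hd.le⟩
  exact ⟨g d, c, K', hg d ⟨hd0, hd.le⟩, hc, h1⟩

end WX

end

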