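import Pool.Agent.WX.AreaLog
import Pool.Agent.WX.ZLaw

/-!
# Plan X: the mass of the separating polygons up to a constant (helper46)
-/

set_option autoImplicit false

namespace WX

theorem sLog : ∃ C : ℝ, ∀ N : ℕ, 1 ≤ N →
    |(NUI.ZP N).coeff 1 - 1 / (3 * Real.pi) * Real.log N| ≤ C := by
  obtain ⟨a, b, K, hK, h⟩ := sLawX
  refine ⟨K + |a| + |b|, fun N hN => ?_⟩
  have h1 := h N hN
  have hN1 : (1 : ℝ) ≤ N := by exact_mod_cast hN
  have h2 : (N : ℝ) ^ (-(13 / 120 / 4) : ℝ) ≤ 1 :=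
    Real.rpow_le_one_of_one_le_of_nonpos hN1 (by norm_num)
  have h3 : K * (N : ℝ) ^ (-(13 / 120 / 4) : ℝ) ≤ K := by
    have := mul_le_mul_of_nonneg_left h2 hK
    rwa [mul_one] at this
  have h4 : |(-1 : ℝ) ^ N * b| = |b| := by
    rw [abs_mul, abs_pow, abs_neg, abs_one, one_pow, one_mul]
  have e : (NUI.ZP N).coeff 1 - 1 / (3 * Real.pi) * Real.log N =
      ((NUI.ZP N).coeff 1 - (1 / (3 * Real.pi) * Real.log N + a + (-1) ^ N * b)) + a + (-1) ^ N * b := by ring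
  rw [e]
  refine (abs_add_le _ _).trans ?_
  refine (add_le_add (abs_add_le _ _) le_rfl).trans ?_
  rw [h4]
  linarith

/-- **the area of the polygons of at most `T` rows** -/
theorem areaLogX : (∀ T : ℕ, NUA.A T ≠ ⊤) ∧
    ∃ C : ℝ, ∀ T : ℕ, 1 ≤ T → |(NUA.A T).toReal - Real.log T / (6 * Real.pi)| ≤ C :=
  NUA.area_log sLog

end WX

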