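import Pool.Agent.WX.LogLim

/-!
# Sharp logarithmic sums and power changes of the index (helper61)

**`sums_sharp`**: `A T` = sum of the weights with `row ≤ T`, `|A T - a log T| ≤ K`, and the masses of
the atypical lengths at every scale `2 ^ i ≤ row < 2 ^ (i + 1)`: `len > λ 2 ^ (i / p)` and
`len ≤ λ⁻¹ 2 ^ (i / p)` are at most `C λ ^ (-δ)`. Then `B n` = sum of the weights with `len ≤ n` is
`p a log n + O(1)`.
-/

set_option autoImplicit false

open Filter Topology ENNReal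

namespace WX

variable {ι : Type*} {w : ι → ℝ≥0∞} {len row : ι → ℕ}

/-- the long ones at every scale -/
def HLong (w : ι → ℝ≥0∞) (len row : ι → ℕ) (p δ C : ℝ) : Prop := ∀ (i : ℕ) (l : ℝ), 1 ≤ l →
  ∑' x : {x // 2 ^ i ≤ row x ∧ row x < 2 ^ (i + 1) ∧ l * (2 : ℝ) ^ ((i : ℝ) / p) < len x}, w x ≤
    ENNReal.ofReal (C * l ^ (-δ))

/-- the short ones at every scale -/
def HShort (w : ι → ℝ≥0∞) (len row : ι → ℕ) (p δ C : ℝ) : Prop := ∀ (i : ℕ) (l : ℝ), 1 ≤ l →
  ∑' x : {x // 2 ^ i ≤ row x ∧ row x < 2 ^ (i + 1) ∧ (len x : ℝ) ≤ l⁻¹ * (2 : ℝ) ^ ((i : ℝ) / p)}, w x ≤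
    ENNReal.ofReal (C * l ^ (-δ))

lemma tsum_iUnion_scale {P : ι → Prop} {Q : ℕ → ι → Prop} (h : ∀ x, P x → ∃ i, Q i x) :
    ∑' x : {x // P x}, w x ≤ ∑' i : ℕ, ∑' x : {x // Q i x}, w x := by
  have h1 : ∑' x : ({x | P x} : Set ι), w x ≤ ∑' x : (⋃ i, {x | Q i x} : Set ι), w x :=
    ENNReal.tsum_mono_subtype w fun x hx => by
      obtain ⟨i, hi⟩ := h x hx
      exact Set.mem_iUnion.2 ⟨i, hi⟩
  exact h1.trans (ENNReal.tsum_iUnion_le_tsum w fun i => {x | Q i x})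

/-- a geometric sum from a scale on -/
lemma geo_up {C θ : ℝ} (hC : 0 ≤ C) (hθ : 0 ≤ θ) (hθ1 : θ < 1) :
    ∑' i : ℕ, ENNReal.ofReal (C * θ ^ i) = ENNReal.ofReal (C * (1 - θ)⁻¹) := by
  rw [← ENNReal.ofReal_tsum_of_nonneg (fun i => by positivity)
    ((summable_geometric_of_lt_one hθ hθ1).mul_left C), tsum_mul_left, tsum_geometric_of_lt_one hθ hθ1]

/-- the difference of the two sums is bounded -/
theorem cmp_sharp {p δ C : ℝ} (hp : 0 < p) (hδ : 0 < δ) (hC : 0 ≤ C) (hr : ∀ x, 1 ≤ row x)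
    (hl : HLong w len row p δ C) (hs : HShort w len row p δ C) :
    ∃ K : ℝ, 0 ≤ K ∧ ∀ n T : ℕ, 1 ≤ n → (T : ℝ) ≤ (n : ℝ) ^ p → (n : ℝ) ^ p < T + 1 →
      ∑' x : {x // len x ≤ n}, w x ≤ ∑' x : {x // row x ≤ T}, w x + ENNReal.ofReal K ∧
      ∑' x : {x // row x ≤ T}, w x ≤ ∑' x : {x // len x ≤ n}, w x + ENNReal.ofReal K := by
  have cmp : ∀ {P Q R : ι → Prop}, (∀ i, P i → Q i ∨ R i) → ∑' i : {i // P i}, w i ≤
      ∑' i : {i // Q i}, w i + ∑' i : {i // R i}, w i := by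
    intro P Q R h
    have h1 : ∑' i : ({i | P i} : Set ι), w i ≤ ∑' i : ({i | Q i} ∪ {i | R i} : Set ι), w i :=
      ENNReal.tsum_mono_subtype w fun i hi => h i hi
    exact h1.trans (ENNReal.tsum_union_le w {i | Q i} {i | R i})
  have h2 : (0 : ℝ) < 2 := two_pos
  -- the ratio
  set θ : ℝ := (2 : ℝ) ^ (-(δ / p)) with hθd
  have hθ0 : 0 < θ := Real.rpow_pos_of_pos h2 _
  have hθ1 : θ < 1 := Real.rpow_lt_one_of_one_lt_of_neg one_lt_two (by
    have : 0 < δ / p := div_pos hδ hp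
    linarith)
  have hg : 0 < 1 - θ := by linarith
  set G : ℝ := (1 - θ)⁻¹ with hG
  have hG0 : 0 < G := by positivity
  have hθi : ∀ k : ℕ, θ ^ k = (2 : ℝ) ^ (-(k * δ / p)) := by
    intro k
    rw [hθd, ← Real.rpow_natCast, ← Real.rpow_mul h2.le]
    congr 1
    ring
  refine ⟨C * (2 * G + 2 + 2 * θ⁻¹ * G), by positivity, fun n T hn hT1 hT2 => ?_⟩
  have hnR : (1 : ℝ) ≤ n := by exact_mod_cast hn
  have hn0 : (0 : ℝ) < n := by linarith
  have hnp : 1 ≤ (n : ℝ) ^ p := Real.one_le_rpow hnR hp.le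
  -- the scale of n
  obtain ⟨i0, hi0, hi1⟩ : ∃ i0 : ℕ, (2 : ℝ) ^ i0 ≤ (n : ℝ) ^ p ∧ (n : ℝ) ^ p < 2 ^ (i0 + 1) := by
    obtain ⟨k, hk1, hk2⟩ := exists_nat_pow_near hnp one_lt_two
    exact ⟨k, hk1, hk2⟩
  have hinv : (n : ℝ) = ((n : ℝ) ^ p) ^ (1 / p) := by
    rw [← Real.rpow_mul hn0.le, mul_one_div_cancel hp.ne', Real.rpow_one]
  have hpow : ∀ k : ℕ, (2 : ℝ) ^ ((k : ℝ) / p) = ((2 : ℝ) ^ k) ^ (1 / p) := by
    intro k
    rw [← Real.rpow_natCast, ← Real.rpow_mul h2.le, mul_one_div]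
  have hp1 : 0 < 1 / p := by positivity
  constructor
  · -- short and high
    have h1 := cmp (P := fun x => len x ≤ n) (Q := fun x => row x ≤ T)
      (R := fun x => len x ≤ n ∧ T < row x) fun x hx => by
        rcases Nat.lt_or_ge T (row x) with h | h
        · exact Or.inr ⟨hx, h⟩
        · exact Or.inl h
    refine h1.trans (add_le_add le_rfl ?_)
    -- the scales
    have h3 : ∑' x : {x // len x ≤ n ∧ T < row x}, w x ≤
        ∑' k : ℕ, ∑' x : {x // 2 ^ (i0 + k) ≤ row x ∧ row x < 2 ^ (i0 + k + 1) ∧ len x ≤ n}, w x := by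
      refine tsum_iUnion_scale fun x hx => ?_
      have hrow : (n : ℝ) ^ p < row x := by
        have : ((T + 1 : ℕ) : ℝ) ≤ row x := by exact_mod_cast hx.2
        push_cast at this
        linarith
      obtain ⟨k, hk1, hk2⟩ : ∃ k : ℕ, 2 ^ k ≤ row x ∧ row x < 2 ^ (k + 1) :=
        ⟨Nat.log 2 (row x), Nat.pow_log_le_self 2 (by have := hr x; omega),
          Nat.lt_pow_succ_log_self (by norm_num) _⟩
      have hik : i0 ≤ k := by
        by_contra hc
        have h4 : k + 1 ≤ i0 := by omega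
        have h5 : (2 : ℝ) ^ (k + 1) ≤ 2 ^ i0 := pow_le_pow_right₀ one_le_two h4
        have h6 : (row x : ℝ) < 2 ^ (k + 1) := by exact_mod_cast hk2
        linarith
      obtain ⟨m, rfl⟩ : ∃ m, k = i0 + m := ⟨k - i0, by omega⟩
      exact ⟨m, hk1, hk2, hx.1⟩
    refine h3.trans ?_
    have h4 : ∀ k : ℕ, ∑' x : {x // 2 ^ (i0 + k) ≤ row x ∧ row x < 2 ^ (i0 + k + 1) ∧ len x ≤ n}, w x ≤
        ENNReal.ofReal ((2 * C + C * θ⁻¹) * θ ^ k) := by
      intro k
      rcases Nat.eq_zero_or_pos k with rfl | hk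
      · have h5 := cmp (P := fun x => 2 ^ (i0 + 0) ≤ row x ∧ row x < 2 ^ (i0 + 0 + 1) ∧ len x ≤ n)
          (Q := fun x => 2 ^ i0 ≤ row x ∧ row x < 2 ^ (i0 + 1) ∧ 1 * (2 : ℝ) ^ ((i0 : ℝ) / p) < len x)
          (R := fun x => 2 ^ i0 ≤ row x ∧ row x < 2 ^ (i0 + 1) ∧
            (len x : ℝ) ≤ 1⁻¹ * (2 : ℝ) ^ ((i0 : ℝ) / p)) fun x hx => by
            rw [inv_one]
            rcases lt_or_ge (1 * (2 : ℝ) ^ ((i0 : ℝ) / p)) (len x : ℝ) with h | h
            · exact Or.inl ⟨hx.1, hx.2.1, h⟩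
            · exact Or.inr ⟨hx.1, hx.2.1, h⟩
        refine h5.trans ((add_le_add (hl i0 1 le_rfl) (hs i0 1 le_rfl)).trans ?_)
        rw [← ENNReal.ofReal_add (by positivity) (by positivity)]
        refine ENNReal.ofReal_le_ofReal ?_
        rw [Real.one_rpow, pow_zero, mul_one, mul_one]
        have : 0 ≤ C * θ⁻¹ := by positivity
        linarith
      · -- l = 2 ^ ((i0 + k) / p) / n
        set l : ℝ := (2 : ℝ) ^ (((i0 + k : ℕ) : ℝ) / p) / n with hld
        have h6 : (2 : ℝ) ^ (((k - 1 : ℕ) : ℝ) / p) ≤ l := by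
          rw [hld, le_div_iff₀ hn0]
          have h7 : (n : ℝ) ≤ (2 : ℝ) ^ (((i0 + 1 : ℕ) : ℝ) / p) := by
            rw [hpow, hinv]
            exact Real.rpow_le_rpow (by positivity) hi1.le hp1.le
          refine (mul_le_mul_of_nonneg_left h7 (by positivity)).trans (le_of_eq ?_)
          rw [← Real.rpow_add h2]
          congr 1
          rw [← add_div]
          congr 1
          have : ((k - 1 : ℕ) : ℝ) = (k : ℝ) - 1 := by
            rw [Nat.cast_sub hk]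
            norm_num
          rw [this]
          push_cast
          ring
        have h8 : 1 ≤ l := le_trans (Real.one_le_rpow one_le_two (by positivity)) h6
        have h9 := hs (i0 + k) l h8
        refine le_trans ?_ (h9.trans (ENNReal.ofReal_le_ofReal ?_))
        · refine ENNReal.tsum_mono_subtype w fun x hx => ⟨hx.1, hx.2.1, ?_⟩
          have h10 : l⁻¹ * (2 : ℝ) ^ (((i0 + k : ℕ) : ℝ) / p) = n := by
            rw [hld]
            field_simp
          rw [h10]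
          exact_mod_cast hx.2.2
        · have h10 : l ^ (-δ) ≤ θ⁻¹ * θ ^ k := by
            have h11 : l ^ (-δ) ≤ ((2 : ℝ) ^ (((k - 1 : ℕ) : ℝ) / p)) ^ (-δ) :=
              Real.rpow_le_rpow_of_nonpos (by positivity) h6 (by linarith)
            refine h11.trans (le_of_eq ?_)
            obtain ⟨m, rfl⟩ : ∃ m, k = m + 1 := ⟨k - 1, by omega⟩
            rw [pow_succ', ← mul_assoc, inv_mul_cancel₀ hθ0.ne', one_mul, hθi,
              ← Real.rpow_mul h2.le]
            congr 1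
            simp only [Nat.add_sub_cancel]
            ring
          have h12 : 0 ≤ θ⁻¹ * θ ^ k := by positivity
          calc C * l ^ (-δ) ≤ C * (θ⁻¹ * θ ^ k) := mul_le_mul_of_nonneg_left h10 hC
            _ = (C * θ⁻¹) * θ ^ k := by ring
            _ ≤ (2 * C + C * θ⁻¹) * θ ^ k :=
              mul_le_mul_of_nonneg_right (by linarith) (by positivity)
    refine (ENNReal.tsum_le_tsum h4).trans ?_
    rw [geo_up (by positivity) hθ0.le hθ1, ← hG]
    refine ENNReal.ofReal_le_ofReal ?_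
    have e : (2 * C + C * θ⁻¹) * G = C * (2 * G + θ⁻¹ * G) := by ring
    rw [e]
    refine mul_le_mul_of_nonneg_left ?_ hC
    have : 0 < θ⁻¹ * G := by positivity
    linarith
  · -- long and low
    have h1 := cmp (P := fun x => row x ≤ T) (Q := fun x => len x ≤ n)
      (R := fun x => row x ≤ T ∧ n < len x) fun x hx => by
        rcases Nat.lt_or_ge n (len x) with h | h
        · exact Or.inr ⟨hx, h⟩
        · exact Or.inl h
    refine h1.trans (add_le_add le_rfl ?_)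
    have h3 : ∑' x : {x // row x ≤ T ∧ n < len x}, w x ≤
        ∑' k : ℕ, ∑' x : {x // k ≤ i0 ∧ 2 ^ (i0 - k) ≤ row x ∧ row x < 2 ^ (i0 - k + 1) ∧ n < len x},
          w x := by
      refine tsum_iUnion_scale fun x hx => ?_
      obtain ⟨k, hk1, hk2⟩ : ∃ k : ℕ, 2 ^ k ≤ row x ∧ row x < 2 ^ (k + 1) :=
        ⟨Nat.log 2 (row x), Nat.pow_log_le_self 2 (by have := hr x; omega),
          Nat.lt_pow_succ_log_self (by norm_num) _⟩
      have hik : k ≤ i0 := by
        by_contra hc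
        have h4 : i0 + 1 ≤ k := by omega
        have h5 : (2 : ℝ) ^ (i0 + 1) ≤ 2 ^ k := pow_le_pow_right₀ one_le_two h4
        have h6 : (2 : ℝ) ^ k ≤ row x := by exact_mod_cast hk1
        have h7 : (row x : ℝ) ≤ T := by exact_mod_cast hx.1
        linarith
      refine ⟨i0 - k, by omega, ?_⟩
      have e : i0 - (i0 - k) = k := by omega
      rw [e]
      exact ⟨hk1, hk2, hx.2⟩
    refine h3.trans ?_
    have h4 : ∀ k : ℕ, ∑' x : {x // k ≤ i0 ∧ 2 ^ (i0 - k) ≤ row x ∧ row x < 2 ^ (i0 - k + 1) ∧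
        n < len x}, w x ≤ ENNReal.ofReal (C * θ ^ k) := by
      intro k
      rcases Nat.lt_or_ge i0 k with hk | hk
      · have : IsEmpty {x // k ≤ i0 ∧ 2 ^ (i0 - k) ≤ row x ∧ row x < 2 ^ (i0 - k + 1) ∧ n < len x} :=
          ⟨fun x => by have := x.2.1; omega⟩
        rw [tsum_empty]
        exact zero_le
      · set l : ℝ := n / (2 : ℝ) ^ (((i0 - k : ℕ) : ℝ) / p) with hld
        have hq : 0 < (2 : ℝ) ^ (((i0 - k : ℕ) : ℝ) / p) := Real.rpow_pos_of_pos h2 _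
        have h6 : (2 : ℝ) ^ ((k : ℝ) / p) ≤ l := by
          rw [hld, le_div_iff₀ hq, ← Real.rpow_add h2, ← add_div]
          have h7 : (2 : ℝ) ^ (((i0 : ℕ) : ℝ) / p) ≤ n := by
            rw [hpow, hinv]
            exact Real.rpow_le_rpow (by positivity) hi0 hp1.le
          refine le_trans (le_of_eq ?_) h7
          congr 2
          rw [Nat.cast_sub hk]
          ring
        have h8 : 1 ≤ l := le_trans (Real.one_le_rpow one_le_two (by positivity)) h6
        have h9 := hl (i0 - k) l h8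
        refine le_trans ?_ (h9.trans (ENNReal.ofReal_le_ofReal ?_))
        · refine ENNReal.tsum_mono_subtype w fun x hx => ⟨hx.2.1, hx.2.2.1, ?_⟩
          have h10 : l * (2 : ℝ) ^ (((i0 - k : ℕ) : ℝ) / p) = n := by
            rw [hld]
            field_simp
          rw [h10]
          exact_mod_cast hx.2.2.2
        · refine mul_le_mul_of_nonneg_left ?_ hC
          have h11 : l ^ (-δ) ≤ ((2 : ℝ) ^ ((k : ℝ) / p)) ^ (-δ) :=
            Real.rpow_le_rpow_of_nonpos (by positivity) h6 (by linarith)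
          refine h11.trans (le_of_eq ?_)
          rw [hθi, ← Real.rpow_mul h2.le]
          congr 1
          ring
    refine (ENNReal.tsum_le_tsum h4).trans ?_
    rw [geo_up hC hθ0.le hθ1, ← hG]
    refine ENNReal.ofReal_le_ofReal (mul_le_mul_of_nonneg_left ?_ hC)
    have : 0 < θ⁻¹ * G := by positivity
    linarith

/-- **sharp power change of the index** -/
theorem sums_sharp {a p δ C : ℝ} (ha : 0 ≤ a) (hp : 0 < p) (hδ : 0 < δ) (hC : 0 ≤ C)
    (hr : ∀ x, 1 ≤ row x) (hl : HLong w len row p δ C) (hs : HShort w len row p δ C)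
    (hA0 : ∀ T : ℕ, ∑' i : {i // row i ≤ T}, w i ≠ ∞)
    (hA : ∃ K : ℝ, ∀ T : ℕ, 1 ≤ T → |(∑' i : {i // row i ≤ T}, w i).toReal - a * Real.log T| ≤ K) :
    (∀ n : ℕ, 1 ≤ n → ∑' i : {i // len i ≤ n}, w i ≠ ∞) ∧
    ∃ K : ℝ, ∀ n : ℕ, 1 ≤ n →
      |(∑' i : {i // len i ≤ n}, w i).toReal - p * a * Real.log n| ≤ K := by
  obtain ⟨K, hK, h⟩ := cmp_sharp hp hδ hC hr hl hs
  obtain ⟨K', hA⟩ := hA
  -- the index T
  have hT : ∀ n : ℕ, 1 ≤ n → ∃ T : ℕ, 1 ≤ T ∧ (T : ℝ) ≤ (n : ℝ) ^ p ∧ (n : ℝ) ^ p < T + 1 := by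
    intro n hn
    have hnp : 1 ≤ (n : ℝ) ^ p := Real.one_le_rpow (by exact_mod_cast hn) hp.le
    exact ⟨⌊(n : ℝ) ^ p⌋₊, Nat.le_floor (by exact_mod_cast hnp),
      Nat.floor_le (by positivity), Nat.lt_floor_add_one _⟩
  have hfin : ∀ n : ℕ, 1 ≤ n → ∑' i : {i // len i ≤ n}, w i ≠ ∞ := by
    intro n hn
    obtain ⟨T, hT1, hT2, hT3⟩ := hT n hn
    exact ne_top_of_le_ne_top (ENNReal.add_ne_top.2 ⟨hA0 T, ENNReal.ofReal_ne_top⟩)
      (h n T hn hT2 hT3).1
  refine ⟨hfin, K + K' + a * Real.log 2, fun n hn => ?_⟩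
  obtain ⟨T, hT1, hT2, hT3⟩ := hT n hn
  obtain ⟨u1, u2⟩ := h n T hn hT2 hT3
  have v1 := ENNReal.toReal_mono (ENNReal.add_ne_top.2 ⟨hA0 T, ENNReal.ofReal_ne_top⟩) u1
  have v2 := ENNReal.toReal_mono (ENNReal.add_ne_top.2 ⟨hfin n hn, ENNReal.ofReal_ne_top⟩) u2
  rw [ENNReal.toReal_add (hA0 T) ENNReal.ofReal_ne_top, ENNReal.toReal_ofReal hK] at v1
  rw [ENNReal.toReal_add (hfin n hn) ENNReal.ofReal_ne_top, ENNReal.toReal_ofReal hK] at v2
  have v3 := abs_le.1 (hA T hT1)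
  have hn0 : (0 : ℝ) < n := by exact_mod_cast (by omega : 0 < n)
  have hT0 : (0 : ℝ) < T := by exact_mod_cast (by omega : 0 < T)
  have l1 : Real.log T ≤ p * Real.log n := by
    have := Real.log_le_log hT0 hT2
    rwa [Real.log_rpow hn0] at this
  have l2 : p * Real.log n ≤ Real.log T + Real.log 2 := by
    have h3 : (n : ℝ) ^ p ≤ T * 2 := by
      have : (1 : ℝ) ≤ T := by exact_mod_cast hT1
      linarith
    have := Real.log_le_log (Real.rpow_pos_of_pos hn0 _) h3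
    rwa [Real.log_rpow hn0, Real.log_mul hT0.ne' two_pos.ne'] at this
  have m1 := mul_le_mul_of_nonneg_left l1 ha
  have m2 := mul_le_mul_of_nonneg_left l2 ha
  have e : p * a * Real.log n = a * (p * Real.log n) := by ring
  rw [abs_le, e]
  rw [mul_add] at m2
  have hlog2 : 0 ≤ a * Real.log 2 := mul_nonneg ha (Real.log_nonneg one_le_two)
  constructor <;> linarith [v3.1, v3.2]

end WX
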