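import Pool.Agent.NUA.AreaF

/-!
# Polygons around a face and polygons modulo translations, any invariant predicate (helper61)

* **`tsum_faceG`**: for a predicate `Q` on oriented polygons, invariant under the translations of
  class `0` and the reversal, and any weight `g` of the length: the sum over the oriented polygons
  around `f0` is twice the sum over the polygons modulo translations (lists of sites `L`, public
  words of `Held46/AreaAmplitude`) of `g L.length` times the area (shoelace formula);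
* **`tsum_len`**: `Q E = (|E| ≤ n)`: lists of at most `n` sites.
-/

set_option autoImplicit false

namespace HexObs

namespace TH

open LP Finset ENNReal

/-- translations of class `0` -/
def TInv (Q : Finset (Pt × Pt) → Prop) : Prop := ∀ (z : Pt) (E : Finset (Pt × Pt)), cl z = 0 → Q E → Q (TE z E)

/-- reversal -/
def OInv (Q : Finset (Pt × Pt) → Prop) : Prop := ∀ (σ : Bool) (E : Finset (Pt × Pt)), IsPoly E → Q E → Q (oE σ E)

variable {Q : Finset (Pt × Pt) → Prop}

/-- the indices -/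
abbrev IXG (Q : Finset (Pt × Pt) → Prop) : Type :=
  Σ L : {L : List (ℤ × ℤ) // HexPolygon.Polygon L ∧ Q (eL L)}, Bool × {g // g ∈ Fi (eL L.1)}

/-- the polygons around the face with the property `Q` -/
abbrev PXG (Q : Finset (Pt × Pt) → Prop) : Type := {E : Finset (Pt × Pt) // IsPoly E ∧ Nw E f0 ≠ 0 ∧ Q E}

lemma mapG_ok (ht : TInv Q) (ho : OInv Q) (a : IXG Q) : IsPoly (TE (f0 - a.2.2.1) (oE a.2.1 (eL a.1.1))) ∧
    Nw (TE (f0 - a.2.2.1) (oE a.2.1 (eL a.1.1))) f0 ≠ 0 ∧ Q (TE (f0 - a.2.2.1) (oE a.2.1 (eL a.1.1))) := by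
  obtain ⟨⟨L, hL, hT⟩, σ, ⟨g, hg⟩⟩ := a
  have hE := eL_poly hL
  obtain ⟨hg1, hg2⟩ := (mem_Fi hE).1 hg
  have hz : cl (f0 - g) = 0 := cl_sub_Fc Fc_f0 hg1
  refine ⟨isPoly_TE hz (isPoly_oE σ hE), ?_, ht _ _ hz (ho σ _ hE hT)⟩
  show Nw (TE (f0 - g) (oE σ (eL L))) f0 ≠ 0
  have e : f0 = g + (f0 - g) := by abel
  have h1 := Nw_TE (f0 - g) g (oE σ (eL L))
  rw [← e] at h1
  rw [h1]
  exact Nw_oE σ hE hg2

/-- the map -/
noncomputable def mapG (ht : TInv Q) (ho : OInv Q) (a : IXG Q) : PXG Q :=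
  ⟨TE (f0 - a.2.2.1) (oE a.2.1 (eL a.1.1)), mapG_ok ht ho a⟩

theorem mapG_inj (ht : TInv Q) (ho : OInv Q) : Function.Injective (mapG ht ho) := by
  rintro ⟨⟨L, hL, hT⟩, σ, ⟨g, hg⟩⟩ ⟨⟨L', hL', hT'⟩, σ', ⟨g', hg'⟩⟩ h
  have h0 : TE (f0 - g) (oE σ (eL L)) = TE (f0 - g') (oE σ' (eL L')) := congrArg Subtype.val h
  have hE := eL_poly hL
  have hE' := eL_poly hL'
  have hz : cl (f0 - g) = 0 := cl_sub_Fc Fc_f0 ((mem_Fi hE).1 hg).1
  have hz' : cl (f0 - g') = 0 := cl_sub_Fc Fc_f0 ((mem_Fi hE').1 hg').1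
  have hP := isPoly_TE hz (isPoly_oE σ hE)
  have r1 := root_TE hz (root_oE hE (eL_root hL) σ)
  have r2 := root_TE hz' (root_oE hE' (eL_root hL') σ')
  rw [← h0] at r2
  have h1 := root_unique hP r1 r2
  have h2 : f0 - g = f0 - g' := add_left_cancel h1
  have h3 : g = g' := sub_right_injective h2
  subst h3
  have h4 := TE_inj _ h0
  have h5 : σ = σ' := by
    by_contra hne
    have h6 : oE σ (eL L) = rE (oE σ (eL L')) := by
      rw [h4]
      unfold oE
      cases σ <;> cases σ' <;> simp_all [rE_rE]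
    have h7 : eL L = rE (eL L') := by
      have := congrArg (oE σ) h6
      rw [oE_oE] at this
      rw [this]
      unfold oE
      cases σ
      · simp [rE_rE]
      · simp
    have h8 := eL_first hL
    rw [h7, mem_rE] at h8
    exact isPoly_rv hE' (eL_first hL') h8
  subst h5
  have h6 : eL L = eL L' := by
    have := congrArg (oE σ) h4
    rwa [oE_oE, oE_oE] at this
  have h7 : L = L' := by
    have := eL_RL hL
    rw [h6] at this
    exact RL_unique this (eL_RL hL')
  subst h7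
  rfl

theorem mapG_surj (ht : TInv Q) (ho : OInv Q) : Function.Surjective (mapG ht ho) := by
  rintro ⟨E, hE, hN, hR⟩
  obtain ⟨b, σ, L, hb, hz, hL⟩ := exists_nf hE
  have hr := root_nf hE hb hz σ
  have hPL := RL_Polygon hL hr
  have he := RL_eL hL hr
  have hT : Q (eL L) := by
    rw [← he]
    exact ht _ _ hz (ho σ _ hE hR)
  have hg : f0 + (r0 - b) ∈ Fi (eL L) := by
    rw [mem_Fi (eL_poly hPL)]
    constructor
    · rw [tr_Fc hz]
      exact Fc_f0
    · rw [← he, Nw_TE]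
      exact Nw_oE σ hE hN
  refine ⟨⟨⟨L, hPL, hT⟩, σ, ⟨f0 + (r0 - b), hg⟩⟩, ?_⟩
  apply Subtype.ext
  show TE (f0 - (f0 + (r0 - b))) (oE σ (eL L)) = E
  rw [← he, ← TE_oE, oE_oE, TE_add]
  have e : r0 - b + (f0 - (f0 + (r0 - b))) = 0 := by abel
  rw [e]
  unfold TE
  have : (Te 0 : Pt × Pt → Pt × Pt) = id := by
    funext p
    unfold Te
    simp
  rw [this, Finset.image_id]

/-- **The polygons around a face and the polygons modulo translations.** -/
theorem tsum_faceG (ht : TInv Q) (ho : OInv Q) (g : ℕ → ℝ≥0∞) : ∑' E : PXG Q, g E.1.card =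
    2 * ∑' L : {L : List (ℤ × ℤ) // HexPolygon.Polygon L ∧ Q (eL L)}, g L.1.length * (area L.1 : ℝ≥0∞) := by
  rw [← (Equiv.ofBijective (mapG ht ho) ⟨mapG_inj ht ho, mapG_surj ht ho⟩).tsum_eq, ENNReal.tsum_sigma',
    ← ENNReal.tsum_mul_left]
  refine tsum_congr fun L => ?_
  have h1 : ∀ b : Bool × {g // g ∈ Fi (eL L.1)},
      g ((Equiv.ofBijective (mapG ht ho) ⟨mapG_inj ht ho, mapG_surj ht ho⟩) ⟨L, b⟩).1.card = g L.1.length := by
    intro b
    show g (TE (f0 - b.2.1) (oE b.1 (eL L.1))).card = g L.1.length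
    rw [card_TE, card_oE, ← RL_length (eL_RL L.2.1)]
  simp only [h1]
  rw [tsum_fintype, Finset.sum_const, Finset.card_univ, Fintype.card_prod, Fintype.card_bool, Fintype.card_coe,
    nsmul_eq_mul, area_eq L.2.1]
  push_cast
  ring

/-! ### by length -/

/-- the oriented polygons around `f0` with at most `n` sites -/
abbrev PXn (n : ℕ) : Type := {E : Finset (Pt × Pt) // IsPoly E ∧ Nw E f0 ≠ 0 ∧ E.card ≤ n}

lemma tinv_card (n : ℕ) : TInv fun E => E.card ≤ n := fun z E _ h => (card_TE z E).le.trans h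

lemma oinv_card (n : ℕ) : OInv fun E => E.card ≤ n := fun σ E _ h => (card_oE σ E).le.trans h

/-- **By length**: the oriented polygons around `f0` with at most `n` sites. -/
theorem tsum_len (n : ℕ) : ∑' E : PXn n, ENNReal.ofReal (xc ^ E.1.card) =
    2 * ∑' L : {L : List (ℤ × ℤ) // HexPolygon.Polygon L ∧ L.length ≤ n},
      HexPolygon.wt L.1 * (area L.1 : ℝ≥0∞) := by
  have h := tsum_faceG (tinv_card n) (oinv_card n) fun k => ENNReal.ofReal (xc ^ k)
  refine h.trans ?_
  congr 1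
  have e : ∀ L : List (ℤ × ℤ), (HexPolygon.Polygon L ∧ (eL L).card ≤ n) ↔ (HexPolygon.Polygon L ∧ L.length ≤ n) :=
    fun L => and_congr_right fun hL => by rw [← RL_length (eL_RL hL)]
  rw [← (Equiv.subtypeEquivRight e).tsum_eq]
  refine tsum_congr fun L => ?_
  show _ = HexPolygon.wt L.1 * (area L.1 : ℝ≥0∞)
  unfold HexPolygon.wt
  rw [HexPolygon.x_eq]

end TH

end HexObs
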