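import Mathlib

/-!
# Plan X: from the law of the function side to the amplitude (helper96)

`P N` : polynomials with nonnegative coefficients, `P N (0) = 1`; `u N = L N^q (1 + O(N^-r))`;
`u N * P N (2 sin (π η)) = G0 η N^(q + 2/3 (η - η²)) + (-1)^N G1 η N^(q - 2/3 (η + η²)) + O(N^p)`, `p < q`, uniformly in
`0 ≤ η ≤ η1` (no continuity of `G0`, `G1`).

**`amp`**: the coefficient of the first power is `log N / (3 π) + A + (-1)^N B + O(N^-c)`.
-/

set_option autoImplicit false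

noncomputable section

open Filter Topology Polynomial Set

namespace WXA

/-! ### a limit with a rate from dyadic blocks -/

theorem dyad {b : ℕ → ℝ} {n0 : ℕ} {K c : ℝ} (hc : 0 < c) (hK : 0 ≤ K)
    (h : ∀ n : ℕ, n0 ≤ n → ∀ m : ℕ, n ≤ m → m ≤ 2 * n → |b m - b n| ≤ K * (n : ℝ) ^ (-c)) :
    ∃ l K' : ℝ, 0 ≤ K' ∧ ∀ n : ℕ, n0 ≤ n → 1 ≤ n → |b n - l| ≤ K' * (n : ℝ) ^ (-c) := by
  set t : ℝ := (2 : ℝ) ^ (-c) with ht
  have ht1 : t < 1 := Real.rpow_lt_one_of_one_lt_of_neg (by norm_num) (by linarith)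
  have ht0 : 0 < t := by positivity
  obtain ⟨K', hK'⟩ : ∃ K', K' = K / (1 - t) := ⟨_, rfl⟩
  have h1t : 0 < 1 - t := by linarith
  have hK0 : 0 ≤ K' := by rw [hK']; positivity
  have hKt : K' * t + K = K' := by
    rw [hK']
    field_simp
    ring
  have hKK : K ≤ K' := by
    have : 0 ≤ K' * t := by positivity
    linarith
  have key : ∀ k : ℕ, ∀ n : ℕ, n0 ≤ n → 1 ≤ n → ∀ m : ℕ, n ≤ m → m ≤ n + k →
      |b m - b n| ≤ K' * (n : ℝ) ^ (-c) := by
    intro k
    induction k with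
    | zero =>
      intro n h1 h2 m h3 h4
      obtain rfl : m = n := by omega
      rw [sub_self, abs_zero]
      positivity
    | succ k ih =>
      intro n h1 h2 m h3 h4
      have hn0 : (0 : ℝ) < n := by exact_mod_cast h2
      rcases le_or_gt m (2 * n) with h5 | h5
      · exact (h n h1 m h3 h5).trans (mul_le_mul_of_nonneg_right hKK (by positivity))
      · have e1 := ih (2 * n) (by omega) (by omega) m h5.le (by omega)
        have e2 := h n h1 (2 * n) (by omega) le_rfl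
        have e3 : ((2 * n : ℕ) : ℝ) ^ (-c) = t * (n : ℝ) ^ (-c) := by
          rw [Nat.cast_mul, Nat.cast_ofNat, Real.mul_rpow (by norm_num) hn0.le]
        rw [e3] at e1
        calc |b m - b n| = |(b m - b (2 * n)) + (b (2 * n) - b n)| := by congr 1; ring
          _ ≤ |b m - b (2 * n)| + |b (2 * n) - b n| := abs_add_le _ _
          _ ≤ K' * (t * (n : ℝ) ^ (-c)) + K * (n : ℝ) ^ (-c) := add_le_add e1 e2
          _ = (K' * t + K) * (n : ℝ) ^ (-c) := by ring
          _ = _ := by rw [hKt]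
  have key2 : ∀ n : ℕ, n0 ≤ n → 1 ≤ n → ∀ m : ℕ, n ≤ m → |b m - b n| ≤ K' * (n : ℝ) ^ (-c) :=
    fun n h1 h2 m h3 => key (m - n) n h1 h2 m h3 (by omega)
  have t0 : Tendsto (fun n : ℕ => 2 * (K' * (n : ℝ) ^ (-c))) atTop (𝓝 0) := by
    have := (((tendsto_rpow_neg_atTop hc).comp tendsto_natCast_atTop_atTop).const_mul K').const_mul 2
    simpa using this
  have hC : CauchySeq b := by
    rw [Metric.cauchySeq_iff']
    intro ε hε
    obtain ⟨n, h1, h2, h3⟩ := ((t0.eventually (gt_mem_nhds hε)).and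
      ((eventually_ge_atTop n0).and (eventually_ge_atTop 1))).exists
    refine ⟨n, fun m hm => ?_⟩
    rw [Real.dist_eq]
    have := key2 n h2 h3 m hm
    have h5 : 0 ≤ K' * (n : ℝ) ^ (-c) := by positivity
    linarith
  obtain ⟨l, hl⟩ := cauchySeq_tendsto_of_complete hC
  refine ⟨l, K', hK0, fun n h1 h2 => ?_⟩
  have h3 : Tendsto (fun m => |b m - b n|) atTop (𝓝 |l - b n|) := (hl.sub_const _).abs
  rw [abs_sub_comm]
  exact le_of_tendsto h3 (by
    filter_upwards [eventually_ge_atTop n] with m hm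
    exact key2 n h1 h2 m hm)

/-! ### polynomials with nonnegative coefficients -/

theorem poly_bd {p : ℝ[X]} (hp : ∀ i, 0 ≤ p.coeff i) (h0 : p.eval 0 = 1) {h H : ℝ} (hh : 0 ≤ h)
    (hH : h ≤ H) (hH0 : 0 < H) :
    0 ≤ p.eval h - 1 - p.coeff 1 * h ∧ p.eval h - 1 - p.coeff 1 * h ≤ (h / H) ^ 2 * p.eval H ∧
      p.coeff 1 * H ≤ p.eval H ∧ p.eval h ≤ p.eval H ∧ 0 ≤ p.eval h := by
  have e0 : p.coeff 0 = 1 := by rw [Polynomial.coeff_zero_eq_eval_zero, h0]
  have ev : ∀ x : ℝ, p.eval x = (∑ i ∈ Finset.range p.natDegree, p.coeff (i + 2) * x ^ (i + 2)) +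
      p.coeff 1 * x + 1 := by
    intro x
    rw [Polynomial.eval_eq_sum_range' (n := p.natDegree + 1 + 1) (by omega), Finset.sum_range_succ',
      Finset.sum_range_succ', e0]
    simp
  have tn : ∀ x : ℝ, 0 ≤ x → 0 ≤ ∑ i ∈ Finset.range p.natDegree, p.coeff (i + 2) * x ^ (i + 2) :=
    fun x hx => Finset.sum_nonneg fun i _ => mul_nonneg (hp _) (pow_nonneg hx _)
  have tt : ∑ i ∈ Finset.range p.natDegree, p.coeff (i + 2) * h ^ (i + 2) ≤
      (h / H) ^ 2 * ∑ i ∈ Finset.range p.natDegree, p.coeff (i + 2) * H ^ (i + 2) := by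
    rw [Finset.mul_sum]
    refine Finset.sum_le_sum fun i _ => ?_
    have e1 : (h / H) ^ 2 * (p.coeff (i + 2) * H ^ (i + 2)) = p.coeff (i + 2) * (h ^ 2 * H ^ i) := by
      field_simp
      ring
    rw [e1]
    refine mul_le_mul_of_nonneg_left ?_ (hp _)
    rw [pow_add, mul_comm]
    exact mul_le_mul_of_nonneg_left (pow_le_pow_left₀ hh hH i) (sq_nonneg h)
  have q1 := tn h hh
  have q2 := tn H hH0.le
  have q3 : 0 ≤ p.coeff 1 * h := mul_nonneg (hp 1) hh
  have q4 : 0 ≤ p.coeff 1 * H := mul_nonneg (hp 1) hH0.le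
  have q5 : (h / H) ^ 2 ≤ 1 := by
    have : h / H ≤ 1 := (div_le_one hH0).2 hH
    have h2 : 0 ≤ h / H := by positivity
    nlinarith
  have q6 : p.coeff 1 * h ≤ p.coeff 1 * H := mul_le_mul_of_nonneg_left hH (hp 1)
  have q7 : 0 ≤ (h / H) ^ 2 := by positivity
  have eh := ev h
  have eH := ev H
  refine ⟨by linarith, ?_, by linarith, ?_, by linarith⟩
  · rw [eh, eH]
    nlinarith
  · rw [eh, eH]
    have : (h / H) ^ 2 * ∑ i ∈ Finset.range p.natDegree, p.coeff (i + 2) * H ^ (i + 2) ≤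
        ∑ i ∈ Finset.range p.natDegree, p.coeff (i + 2) * H ^ (i + 2) := by nlinarith
    linarith

/-! ### the functions of `η` -/

/-- exponent of the first mode -/
def al (η : ℝ) : ℝ := 2 / 3 * (η - η ^ 2)

/-- exponent of the second mode -/
def be (η : ℝ) : ℝ := 2 / 3 * (η + η ^ 2)

/-- the loop weight -/
def hh (η : ℝ) : ℝ := 2 * Real.sin (Real.pi * η)

theorem al_bd {η : ℝ} (h0 : 0 ≤ η) (h1 : η ≤ 1 / 2) : 0 ≤ al η ∧ al η ≤ η := by
  unfold al
  constructor <;> nlinarith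

theorem be_bd {η : ℝ} (h0 : 0 ≤ η) (h1 : η ≤ 1 / 2) : 0 ≤ be η ∧ be η ≤ η := by
  unfold be
  constructor <;> nlinarith

theorem hh_bd {η : ℝ} (h0 : 0 ≤ η) (h1 : η ≤ 1 / 2) : 4 * η ≤ hh η ∧ hh η ≤ 7 * η := by
  have hp := Real.pi_pos
  unfold hh
  constructor
  · have := Real.mul_le_sin (x := Real.pi * η) (by positivity) (by nlinarith)
    have e : 2 / Real.pi * (Real.pi * η) = 2 * η := by field_simp
    linarith
  · have h2 := Real.sin_le (x := Real.pi * η) (by positivity)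
    have h3 := Real.pi_lt_d2
    nlinarith

theorem hh_mono {η η0 : ℝ} (h0 : 0 ≤ η) (h1 : η ≤ η0) (h2 : η0 ≤ 1 / 2) : hh η ≤ hh η0 := by
  have hp := Real.pi_pos
  unfold hh
  have := Real.sin_le_sin_of_le_of_le_pi_div_two (x := Real.pi * η) (y := Real.pi * η0)
    (by nlinarith) (by nlinarith) (by nlinarith)
  linarith

theorem ratio_bd {η : ℝ} (h0 : 0 < η) (h1 : η ≤ 1 / 4) :
    |al η / hh η - 1 / (3 * Real.pi)| ≤ η := by
  have hp := Real.pi_pos
  have hp3 := Real.pi_gt_three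
  have hp4 := Real.pi_lt_d2
  have hx0 : 0 < Real.pi * η := by positivity
  have hx1 : Real.pi * η ≤ 1 := by nlinarith
  have s1 := Real.sin_gt_sub_cube hx0
  have s2 := Real.sin_le hx0.le
  have s3 := (hh_bd h0.le (by linarith)).1
  have hh0 : 0 < hh η := by linarith
  have e : al η / hh η - 1 / (3 * Real.pi) =
      (2 / 3 * (Real.pi * η - Real.sin (Real.pi * η)) - 2 / 3 * Real.pi * η ^ 2) /
        (Real.pi * hh η) := by
    unfold al
    have hs : Real.sin (Real.pi * η) ≠ 0 := by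
      unfold hh at hh0
      intro h
      rw [h] at hh0
      simp at hh0
    unfold hh
    generalize Real.sin (Real.pi * η) = S at hs
    field_simp
    ring
  rw [e, abs_div, abs_of_pos (by positivity : 0 < Real.pi * hh η), div_le_iff₀ (by positivity), abs_le]
  have k1 : 4 * Real.pi * η * η ≤ η * (Real.pi * hh η) := by nlinarith
  have k2 : (Real.pi * η) ^ 3 / 6 ≤ Real.pi * η ^ 2 := by
    have : (Real.pi * η) ^ 3 / 6 = Real.pi * η ^ 2 * (Real.pi * (Real.pi * η) / 6) := by ring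
    rw [this]
    have h2 : Real.pi * (Real.pi * η) / 6 ≤ 1 := by nlinarith
    have h3 : 0 ≤ Real.pi * η ^ 2 := by positivity
    nlinarith
  constructor <;> nlinarith

/-- powers with a small exponent -/
theorem pow_small {M : ℕ} (hM : 1 ≤ M) {a δ : ℝ} (h : |a * Real.log M| ≤ δ) (hδ : δ ≤ 1) :
    |(M : ℝ) ^ a - 1| ≤ 2 * δ ∧ |(M : ℝ) ^ a - 1 - a * Real.log M| ≤ δ ^ 2 := by
  have hM0 : (0 : ℝ) < M := by exact_mod_cast hM
  have e : (M : ℝ) ^ a = Real.exp (a * Real.log M) := by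
    rw [Real.rpow_def_of_pos hM0]
    congr 1
    ring
  rw [e]
  constructor
  · have := Real.abs_exp_sub_one_le (x := a * Real.log M) (h.trans hδ)
    linarith
  · have := Real.abs_exp_sub_one_sub_id_le (x := a * Real.log M) (h.trans hδ)
    refine this.trans ?_
    rw [← sq_abs]
    exact pow_le_pow_left₀ (abs_nonneg _) h 2

end WXA

end
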