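import Pool.Agent.WX.AmpA

/-!
# Plan X: from the law of the function side to the amplitude, second part (helper96)

* `stepB`: the coefficients of `P N` in terms of the two modes;
* `stepD`: differences of `a_N - log N / (3 π)` in one parity class, `a_N` = coefficient of the first power;
* **`amp`**.
-/

set_option autoImplicit false

noncomputable section

open Filter Topology Polynomial Set

namespace WXA

/-- the two modes -/
def ww (G0 G1 : ℝ → ℝ) (M : ℕ) (η : ℝ) : ℝ :=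
  G0 η * (M : ℝ) ^ al η + (-1) ^ M * G1 η * (M : ℝ) ^ (-be η)

theorem tt0 {K c : ℝ} (hc : 0 < c) : Tendsto (fun N : ℕ => K * (N : ℝ) ^ (-c)) atTop (𝓝 0) := by
  have := ((tendsto_rpow_neg_atTop hc).comp tendsto_natCast_atTop_atTop).const_mul K
  simpa using this

theorem abs_neg_one_pow (M : ℕ) : |((-1 : ℝ)) ^ M| = 1 := by
  rw [abs_pow, abs_neg, abs_one, one_pow]

section core

variable {P : ℕ → ℝ[X]} {v : ℕ → ℝ} {L C c η1 : ℝ} {G0 G1 : ℝ → ℝ}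

/-- **step b** -/
theorem stepB (hL : 0 < L) (nn : ∀ N i, 0 ≤ (P N).coeff i) (one : ∀ N, (P N).eval 0 = 1)
    (hc : 0 < c) (hC : 0 ≤ C) (hη1 : 0 < η1) (hη2 : η1 ≤ 1 / 4)
    (hv : ∀ᶠ N : ℕ in atTop, |v N - L| ≤ C * (N : ℝ) ^ (-(2 * c)))
    (hX : ∀ᶠ N : ℕ in atTop, ∀ η ∈ Icc 0 η1,
      |v N * (P N).eval (hh η) - ww G0 G1 N η| ≤ C * (N : ℝ) ^ (-c)) :
    ∃ η0 K0 K1 : ℝ, 0 < η0 ∧ η0 ≤ 1 / 4 ∧ 0 ≤ K0 ∧ 0 ≤ K1 ∧ ∀ᶠ N : ℕ in atTop, ∀ η ∈ Icc 0 η0,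
      (P N).coeff 1 * hh η ≤ K0 * hh η * (N : ℝ) ^ (c / 8) ∧
      |L + L * (P N).coeff 1 * hh η - ww G0 G1 N η| ≤
        K1 * ((N : ℝ) ^ (-c) + hh η ^ 2 * (N : ℝ) ^ (c / 8)) := by
  obtain ⟨η0, hη0, h01, h02⟩ : ∃ η0 : ℝ, 0 < η0 ∧ η0 ≤ η1 ∧ η0 ≤ 3 / 2 * (c / 8) :=
    ⟨min η1 (3 / 2 * (c / 8)), lt_min hη1 (by positivity), min_le_left _ _, min_le_right _ _⟩
  have hη4 : η0 ≤ 1 / 4 := h01.trans hη2
  obtain ⟨H, hH⟩ : ∃ H, H = hh η0 := ⟨_, rfl⟩
  have hH0 : 0 < H := by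
    have := (hh_bd hη0.le (by linarith)).1
    rw [hH]
    linarith
  obtain ⟨k0, hk0⟩ : ∃ k0, k0 = 2 / L * (|G0 η0| + |G1 η0| + C) := ⟨_, rfl⟩
  have hk00 : 0 ≤ k0 := by rw [hk0]; positivity
  have hvL : ∀ᶠ N : ℕ in atTop, C * (N : ℝ) ^ (-(2 * c)) < L / 2 :=
    (tt0 (K := C) (by linarith : 0 < 2 * c)).eventually (gt_mem_nhds (by linarith))
  -- the a priori bound
  have hA : ∀ᶠ N : ℕ in atTop, (P N).eval H ≤ k0 * (N : ℝ) ^ (c / 8) := by
    filter_upwards [hv, hX, hvL, eventually_ge_atTop 1] with N h1 h2 h3 h4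
    have hN : (1 : ℝ) ≤ N := by exact_mod_cast h4
    have hN0 : (0 : ℝ) < N := by linarith
    have hvN : L / 2 ≤ v N := by
      have := (abs_le.1 h1).1
      linarith
    have h5 := h2 η0 ⟨hη0.le, h01⟩
    rw [← hH] at h5
    have hE := (poly_bd (nn N) (one N) hH0.le le_rfl hH0).2.2.2.2
    obtain ⟨a1, a2⟩ := al_bd hη0.le (by linarith : η0 ≤ 1 / 2)
    obtain ⟨b1, b2⟩ := be_bd hη0.le (by linarith : η0 ≤ 1 / 2)
    have a3 : al η0 ≤ c / 8 := by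
      unfold al
      nlinarith [sq_nonneg η0]
    have w : ww G0 G1 N η0 ≤ (|G0 η0| + |G1 η0|) * (N : ℝ) ^ (c / 8) := by
      unfold ww
      have e1 : G0 η0 * (N : ℝ) ^ al η0 ≤ |G0 η0| * (N : ℝ) ^ (c / 8) :=
        mul_le_mul (le_abs_self _) (Real.rpow_le_rpow_of_exponent_le hN a3) (by positivity)
          (abs_nonneg _)
      have e2 : (-1) ^ N * G1 η0 * (N : ℝ) ^ (-be η0) ≤ |G1 η0| * (N : ℝ) ^ (c / 8) := by
        refine mul_le_mul ?_ (Real.rpow_le_rpow_of_exponent_le hN (by linarith)) (by positivity)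
          (abs_nonneg _)
        refine (le_abs_self _).trans ?_
        rw [abs_mul, abs_neg_one_pow, one_mul]
      linarith
    have e3 : C * (N : ℝ) ^ (-c) ≤ C * (N : ℝ) ^ (c / 8) :=
      mul_le_mul_of_nonneg_left (Real.rpow_le_rpow_of_exponent_le hN (by linarith)) hC
    have e4 := (abs_le.1 h5).2
    have e5 : L / 2 * (P N).eval H ≤ v N * (P N).eval H := mul_le_mul_of_nonneg_right hvN hE
    have e6 : L / 2 * (P N).eval H ≤ (|G0 η0| + |G1 η0| + C) * (N : ℝ) ^ (c / 8) := by linarith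
    rw [hk0]
    have e7 : (P N).eval H = 2 / L * (L / 2 * (P N).eval H) := by field_simp
    rw [e7, mul_assoc]
    exact mul_le_mul_of_nonneg_left e6 (by positivity)
  refine ⟨η0, k0 / H, C + C * k0 + L * k0 / H ^ 2, hη0, hη4, by positivity, by positivity, ?_⟩
  filter_upwards [hv, hX, hA, eventually_ge_atTop 1] with N h1 h2 h3 h4 η hη
  have hN : (1 : ℝ) ≤ N := by exact_mod_cast h4
  have hN0 : (0 : ℝ) < N := by linarith
  obtain ⟨n1, n2⟩ := hη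
  have hle : hh η ≤ H := by
    rw [hH]
    exact hh_mono n1 n2 (by linarith)
  have hge : 0 ≤ hh η := by
    have := (hh_bd n1 (by linarith : η ≤ 1 / 2)).1
    linarith
  obtain ⟨p1, p2, p3, p4, p5⟩ := poly_bd (nn N) (one N) hge hle hH0
  have hNe : 0 ≤ (N : ℝ) ^ (c / 8) := by positivity
  constructor
  · have e1 : (P N).coeff 1 * hh η = (P N).coeff 1 * H * (hh η / H) := by field_simp
    rw [e1, show k0 / H * hh η * (N : ℝ) ^ (c / 8) = k0 * (N : ℝ) ^ (c / 8) * (hh η / H) by ring]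
    exact mul_le_mul_of_nonneg_right (p3.trans h3) (by positivity)
  · have e1 : L + L * (P N).coeff 1 * hh η - ww G0 G1 N η =
        (v N * (P N).eval (hh η) - ww G0 G1 N η) - (v N - L) * (P N).eval (hh η) -
          L * ((P N).eval (hh η) - 1 - (P N).coeff 1 * hh η) := by ring
    have e2 := h2 η ⟨n1, n2.trans h01⟩
    have e3 : |(v N - L) * (P N).eval (hh η)| ≤ C * k0 * (N : ℝ) ^ (-c) := by
      rw [abs_mul, abs_of_nonneg p5]
      calc |v N - L| * (P N).eval (hh η) ≤ C * (N : ℝ) ^ (-(2 * c)) * (k0 * (N : ℝ) ^ (c / 8)) :=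
            mul_le_mul h1 (p4.trans h3) p5 (by positivity)
        _ = C * k0 * (N : ℝ) ^ (-(2 * c) + c / 8) := by
            rw [Real.rpow_add hN0]
            ring
        _ ≤ C * k0 * (N : ℝ) ^ (-c) :=
            mul_le_mul_of_nonneg_left (Real.rpow_le_rpow_of_exponent_le hN (by linarith))
              (by positivity)
    have e4 : |L * ((P N).eval (hh η) - 1 - (P N).coeff 1 * hh η)| ≤
        L * k0 / H ^ 2 * (hh η ^ 2 * (N : ℝ) ^ (c / 8)) := by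
      rw [abs_mul, abs_of_pos hL, abs_of_nonneg p1]
      calc L * ((P N).eval (hh η) - 1 - (P N).coeff 1 * hh η) ≤
            L * ((hh η / H) ^ 2 * (k0 * (N : ℝ) ^ (c / 8))) :=
            mul_le_mul_of_nonneg_left (p2.trans (mul_le_mul_of_nonneg_left h3 (by positivity))) hL.le
        _ = _ := by
            field_simp
    rw [e1]
    have t1 := abs_sub (v N * (P N).eval (hh η) - ww G0 G1 N η - (v N - L) * (P N).eval (hh η))
      (L * ((P N).eval (hh η) - 1 - (P N).coeff 1 * hh η))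
    have t2 := abs_sub (v N * (P N).eval (hh η) - ww G0 G1 N η) ((v N - L) * (P N).eval (hh η))
    have x1 : 0 ≤ (N : ℝ) ^ (-c) := by positivity
    have x2 : 0 ≤ hh η ^ 2 * (N : ℝ) ^ (c / 8) := by positivity
    have x3 : 0 ≤ C * k0 := by positivity
    have x4 : 0 ≤ L * k0 / H ^ 2 := by positivity
    have y1 := mul_nonneg (add_nonneg hC x3) x2
    have y2 := mul_nonneg x4 x1
    nlinarith

/-- the two modes from two consecutive values -/
theorem solve {x y A B A' B' g t k e : ℝ} (hL : 0 ≤ L) (hk : 0 ≤ k) (he : e ≤ 1 / 2)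
    (hx : x = g * A + t * B) (hy : y = g * A' - t * B') (h1 : |x - L| ≤ k) (h2 : |y - L| ≤ k)
    (hA : |A - 1| ≤ e) (hB : |B - 1| ≤ e) (hA' : |A' - 1| ≤ e) (hB' : |B' - 1| ≤ e) :
    |g| ≤ 20 * (L + k) ∧ |t| ≤ 20 * (L + k) ∧ |g - L| ≤ k + 40 * (L + k) * e ∧
      |t| ≤ k + 40 * (L + k) * e := by
  obtain ⟨a1, a2⟩ := abs_le.1 hA
  obtain ⟨b1, b2⟩ := abs_le.1 hB
  obtain ⟨a1', a2'⟩ := abs_le.1 hA'
  obtain ⟨b1', b2'⟩ := abs_le.1 hB'
  have he0 : 0 ≤ e := (abs_nonneg _).trans hA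
  have xa : |x| ≤ L + k := by
    have := abs_add_le (x - L) L
    rw [sub_add_cancel, abs_of_nonneg hL] at this
    linarith
  have ya : |y| ≤ L + k := by
    have := abs_add_le (y - L) L
    rw [sub_add_cancel, abs_of_nonneg hL] at this
    linarith
  have hs : 0 ≤ L + k := by linarith
  have hD : 1 / 2 ≤ A * B' + A' * B := by nlinarith
  have e1 : g * (A * B' + A' * B) = x * B' + y * B := by rw [hx, hy]; ring
  have hg : |g| ≤ 6 * (L + k) := by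
    have e2 : |g| * (A * B' + A' * B) ≤ 3 * (L + k) := by
      have e3 : |g| * (A * B' + A' * B) = |x * B' + y * B| := by
        rw [← e1, abs_mul, abs_of_pos (by linarith : 0 < A * B' + A' * B)]
      rw [e3]
      refine (abs_add_le _ _).trans ?_
      rw [abs_mul, abs_mul, abs_of_pos (by linarith : 0 < B'), abs_of_pos (by linarith : 0 < B)]
      nlinarith [abs_nonneg x, abs_nonneg y]
    nlinarith [abs_nonneg g]
  have ht : |t| ≤ 20 * (L + k) := by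
    have e2 : |t| * B = |x - g * A| := by
      rw [show x - g * A = t * B by rw [hx]; ring, abs_mul, abs_of_pos (by linarith : 0 < B)]
    have e3 : |x - g * A| ≤ (L + k) + 9 * (L + k) := by
      refine (abs_sub _ _).trans ?_
      rw [abs_mul, abs_of_pos (by linarith : 0 < A)]
      nlinarith [abs_nonneg g]
    nlinarith [abs_nonneg t]
  have hg2 : |g| ≤ 20 * (L + k) := by linarith
  have bd : ∀ w z : ℝ, |w| ≤ 20 * (L + k) → |z| ≤ e → |w * z| ≤ 20 * (L + k) * e := fun w z h1 h2 => by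
    rw [abs_mul]
    exact mul_le_mul h1 h2 (abs_nonneg _) (by positivity)
  have c1 := abs_le.1 (bd g _ hg2 hA)
  have c2 := abs_le.1 (bd t _ ht hB)
  have c3 := abs_le.1 (bd g _ hg2 hA')
  have c4 := abs_le.1 (bd t _ ht hB')
  have d1 := abs_le.1 h1
  have d2 := abs_le.1 h2
  have s1 : g + t - L = (x - L) - g * (A - 1) - t * (B - 1) := by rw [hx]; ring
  have s2 : g - t - L = (y - L) - g * (A' - 1) + t * (B' - 1) := by rw [hy]; ring
  refine ⟨hg2, ht, ?_, ?_⟩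
  · rw [abs_le]
    constructor <;> linarith [c1.1, c1.2, c2.1, c2.2, c3.1, c3.2, c4.1, c4.2, d1.1, d1.2, d2.1, d2.2]
  · rw [abs_le]
    constructor <;> linarith [c1.1, c1.2, c2.1, c2.2, c3.1, c3.2, c4.1, c4.2, d1.1, d1.2, d2.1, d2.2]

/-- **step d**: one block -/
theorem stepD (hL : 0 < L) (nn : ∀ N i, 0 ≤ (P N).coeff i) (one : ∀ N, (P N).eval 0 = 1)
    (hc : 0 < c) (hc1 : c ≤ 1) (hC : 0 ≤ C) (hη1 : 0 < η1) (hη2 : η1 ≤ 1 / 4)
    (hv : ∀ᶠ N : ℕ in atTop, |v N - L| ≤ C * (N : ℝ) ^ (-(2 * c)))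
    (hX : ∀ᶠ N : ℕ in atTop, ∀ η ∈ Icc 0 η1,
      |v N * (P N).eval (hh η) - ww G0 G1 N η| ≤ C * (N : ℝ) ^ (-c)) :
    ∃ K : ℝ, 0 ≤ K ∧ ∀ᶠ N : ℕ in atTop, ∀ M : ℕ, N ≤ M → M ≤ 2 * N → (-1 : ℝ) ^ M = (-1) ^ N →
      |((P M).coeff 1 - Real.log M / (3 * Real.pi)) - ((P N).coeff 1 - Real.log N / (3 * Real.pi))| ≤
        K * (N : ℝ) ^ (-(c / 4)) := by
  obtain ⟨η0, K0, K1, hη0, hη4, hK0, hK1, hB⟩ := stepB (G0 := G0) (G1 := G1) hL nn one hc hC hη1 hη2 hv hX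
  obtain ⟨n1, hn1⟩ := eventually_atTop.1 hB
  obtain ⟨K2, hK2⟩ : ∃ K2, K2 = 14 * L * K0 + 99 * K1 := ⟨_, rfl⟩
  have hK20 : 0 ≤ K2 := by rw [hK2]; positivity
  obtain ⟨K3, hK3⟩ : ∃ K3, K3 = K2 + 80 * (L + K2) := ⟨_, rfl⟩
  have hK30 : 0 ≤ K3 := by rw [hK3]; positivity
  obtain ⟨K4, hK4⟩ : ∃ K4, K4 = 40 * (L + K2) + 5 * K3 + 198 * K1 := ⟨_, rfl⟩
  have hK40 : 0 ≤ K4 := by rw [hK4]; positivity
  refine ⟨K4 / (4 * L) + 1, by positivity, ?_⟩
  have ev1 : ∀ᶠ N : ℕ in atTop, 1 * (N : ℝ) ^ (-(c / 2)) < η0 :=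
    (tt0 (K := 1) (by linarith : 0 < c / 2)).eventually (gt_mem_nhds hη0)
  have ev2 : ∀ᶠ N : ℕ in atTop, 1 * (N : ℝ) ^ (-(3 * c / 8)) < 1 / 4 :=
    (tt0 (K := 1) (by linarith : 0 < 3 * c / 8)).eventually (gt_mem_nhds (by norm_num))
  have ev3 : ∀ᶠ N : ℕ in atTop, Real.log N + 1 ≤ (N : ℝ) ^ (c / 8) := by
    have h1 := (isLittleO_log_rpow_atTop (by linarith : 0 < c / 8)).def (c := 1 / 2) (by norm_num)
    have h2 : ∀ᶠ N : ℕ in atTop, (2 : ℝ) ≤ (N : ℝ) ^ (c / 8) :=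
      ((tendsto_rpow_atTop (by linarith : 0 < c / 8)).comp tendsto_natCast_atTop_atTop).eventually_ge_atTop 2
    filter_upwards [tendsto_natCast_atTop_atTop.eventually h1, h2, eventually_ge_atTop 1] with N h3 h4 h5
    have hN : (1 : ℝ) ≤ N := by exact_mod_cast h5
    rw [Real.norm_eq_abs, Real.norm_eq_abs, abs_of_nonneg (Real.log_nonneg hN),
      abs_of_nonneg (by positivity)] at h3
    linarith
  filter_upwards [ev1, ev2, ev3, eventually_ge_atTop 1, eventually_ge_atTop n1] with N g1 g2 g3 g4 g5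
  rw [one_mul] at g1 g2
  have hN : (1 : ℝ) ≤ N := by exact_mod_cast g4
  have hN0 : (0 : ℝ) < N := by linarith
  obtain ⟨η, hη⟩ : ∃ η, η = (N : ℝ) ^ (-(c / 2)) := ⟨_, rfl⟩
  obtain ⟨δ, hδ⟩ : ∃ δ, δ = (N : ℝ) ^ (-(3 * c / 8)) := ⟨_, rfl⟩
  have hη00 : 0 < η := by rw [hη]; positivity
  have hδ0 : 0 < δ := by rw [hδ]; positivity
  have hδ4 : δ ≤ 1 / 4 := by rw [hδ]; exact g2.le
  have hηη : η ≤ η0 := by rw [hη]; exact g1.le
  have hη44 : η ≤ 1 / 4 := hηη.trans hη4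
  have hpe : (N : ℝ) ^ (c / 8) * η = δ := by
    rw [hη, hδ, ← Real.rpow_add hN0]
    congr 1
    ring
  have hηδ : η ≤ δ := by
    rw [hη, hδ]
    exact Real.rpow_le_rpow_of_exponent_le hN (by linarith)
  have hδ2 : δ ^ 2 = (N : ℝ) ^ (-(3 * c / 4)) := by
    rw [hδ, ← Real.rpow_natCast, ← Real.rpow_mul hN0.le]
    congr 1
    push_cast
    ring
  have hNc : (N : ℝ) ^ (-c) ≤ δ ^ 2 := by
    rw [hδ2]
    exact Real.rpow_le_rpow_of_exponent_le hN (by linarith)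
  have hη2 : η * δ ≤ δ ^ 2 := by nlinarith
  obtain ⟨h4, h7⟩ := hh_bd hη00.le (by linarith : η ≤ 1 / 2)
  obtain ⟨a1, a2⟩ := al_bd hη00.le (by linarith : η ≤ 1 / 2)
  obtain ⟨b1, b2⟩ := be_bd hη00.le (by linarith : η ≤ 1 / 2)
  have hh0 : 0 < hh η := by linarith
  -- the facts for `N ≤ M ≤ 2 N`
  have key : ∀ M : ℕ, N ≤ M → M ≤ 2 * N →
      |L + L * (P M).coeff 1 * hh η - ww G0 G1 M η| ≤ 99 * K1 * δ ^ 2 ∧
      |ww G0 G1 M η - L| ≤ K2 * δ ∧ |(M : ℝ) ^ al η - 1| ≤ 2 * δ ∧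
      |(M : ℝ) ^ al η - 1 - al η * Real.log M| ≤ δ ^ 2 ∧ |(M : ℝ) ^ (-be η) - 1| ≤ 2 * δ ∧
      Real.log N ≤ Real.log M ∧ Real.log M ≤ Real.log N + 1 := by
    intro M m1 m2
    have hM1 : 1 ≤ M := g4.trans m1
    have hM : (1 : ℝ) ≤ M := by exact_mod_cast hM1
    have hM0 : (0 : ℝ) < M := by linarith
    have hNM : (N : ℝ) ≤ M := by exact_mod_cast m1
    have hM2 : (M : ℝ) ≤ 2 * N := by exact_mod_cast m2
    have l1 : Real.log N ≤ Real.log M := Real.log_le_log hN0 hNM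
    have l2 : Real.log M ≤ Real.log N + 1 := by
      have h1 := Real.log_le_log hM0 hM2
      rw [Real.log_mul (by norm_num) hN0.ne'] at h1
      have := Real.log_two_lt_d9
      linarith
    have l0 : 0 ≤ Real.log M := Real.log_nonneg hM
    have l3 : η * Real.log M ≤ δ := by
      rw [← hpe, mul_comm]
      exact mul_le_mul_of_nonneg_right (l2.trans g3) hη00.le
    have r1 : |al η * Real.log M| ≤ δ := by
      rw [abs_of_nonneg (by positivity)]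
      exact (mul_le_mul_of_nonneg_right a2 l0).trans l3
    have r2 : |-be η * Real.log M| ≤ δ := by
      rw [neg_mul, abs_neg, abs_of_nonneg (by positivity)]
      exact (mul_le_mul_of_nonneg_right b2 l0).trans l3
    obtain ⟨q1, q2⟩ := pow_small hM1 r1 (by linarith)
    obtain ⟨q3, -⟩ := pow_small hM1 r2 (by linarith)
    obtain ⟨c1, c2⟩ := hn1 M (g5.trans m1) η ⟨hη00.le, hηη⟩
    have hMe : (M : ℝ) ^ (c / 8) ≤ 2 * (N : ℝ) ^ (c / 8) := by
      calc (M : ℝ) ^ (c / 8) ≤ (2 * N : ℝ) ^ (c / 8) :=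
            Real.rpow_le_rpow hM0.le hM2 (by positivity)
        _ = (2 : ℝ) ^ (c / 8) * (N : ℝ) ^ (c / 8) := Real.mul_rpow (by norm_num) hN0.le
        _ ≤ 2 * (N : ℝ) ^ (c / 8) := by
            refine mul_le_mul_of_nonneg_right ?_ (by positivity)
            calc (2 : ℝ) ^ (c / 8) ≤ (2 : ℝ) ^ (1 : ℝ) :=
                  Real.rpow_le_rpow_of_exponent_le (by norm_num) (by linarith)
              _ = 2 := Real.rpow_one 2
    have hMc : (M : ℝ) ^ (-c) ≤ δ ^ 2 := (Real.rpow_le_rpow_of_nonpos hN0 hNM (by linarith)).trans hNc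
    have hD : |L + L * (P M).coeff 1 * hh η - ww G0 G1 M η| ≤ 99 * K1 * δ ^ 2 := by
      refine c2.trans ?_
      have e1 : hh η ^ 2 * (M : ℝ) ^ (c / 8) ≤ 98 * δ ^ 2 := by
        calc hh η ^ 2 * (M : ℝ) ^ (c / 8) ≤ (7 * η) ^ 2 * (2 * (N : ℝ) ^ (c / 8)) :=
              mul_le_mul (pow_le_pow_left₀ hh0.le h7 2) hMe (by positivity) (by positivity)
          _ = 98 * (η * ((N : ℝ) ^ (c / 8) * η)) := by ring
          _ = 98 * (η * δ) := by rw [hpe]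
          _ ≤ 98 * δ ^ 2 := by linarith
      nlinarith
    refine ⟨hD, ?_, q1, q2, q3, l1, l2⟩
    have e2 : |L * (P M).coeff 1 * hh η| ≤ 14 * L * K0 * δ := by
      rw [abs_of_nonneg (mul_nonneg (mul_nonneg hL.le (nn M 1)) hh0.le), mul_assoc]
      calc L * ((P M).coeff 1 * hh η) ≤ L * (K0 * hh η * (M : ℝ) ^ (c / 8)) :=
            mul_le_mul_of_nonneg_left c1 hL.le
        _ ≤ L * (K0 * (7 * η) * (2 * (N : ℝ) ^ (c / 8))) := by gcongr
        _ = 14 * L * K0 * ((N : ℝ) ^ (c / 8) * η) := by ring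
        _ = _ := by rw [hpe]
    have e3 : ww G0 G1 M η - L = L * (P M).coeff 1 * hh η -
        (L + L * (P M).coeff 1 * hh η - ww G0 G1 M η) := by ring
    rw [e3, hK2]
    refine (abs_sub _ _).trans ?_
    have : 99 * K1 * δ ^ 2 ≤ 99 * K1 * δ := by
      refine mul_le_mul_of_nonneg_left ?_ (by positivity)
      nlinarith
    linarith
  obtain ⟨kN1, kN2, kN3, kN4, kN5, -, -⟩ := key N le_rfl (by omega)
  obtain ⟨kM1, kM2, kM3, kM4, kM5, -, -⟩ := key (N + 1) (by omega) (by omega)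
  have hs := solve (x := ww G0 G1 N η) (y := ww G0 G1 (N + 1) η) (A := (N : ℝ) ^ al η)
    (B := (N : ℝ) ^ (-be η)) (A' := ((N + 1 : ℕ) : ℝ) ^ al η) (B' := ((N + 1 : ℕ) : ℝ) ^ (-be η))
    (g := G0 η) (t := (-1) ^ N * G1 η) (k := K2 * δ) (e := 2 * δ) hL.le (by positivity)
    (by linarith) rfl (by
      unfold ww
      rw [pow_succ]
      ring) kN2 kM2 kN3 kN5 kM3 kM5
  obtain ⟨s1, s2, s3, s4⟩ := hs
  have hkδ : K2 * δ ≤ K2 := by nlinarith
  have s1' : |G0 η| ≤ 20 * (L + K2) := by linarith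
  have s34 : K2 * δ + 40 * (L + K2 * δ) * (2 * δ) ≤ K3 * δ := by
    rw [hK3]
    have : 40 * (L + K2 * δ) * (2 * δ) ≤ 80 * (L + K2) * δ := by nlinarith
    nlinarith
  have s3' : |G0 η - L| ≤ K3 * δ := s3.trans s34
  have s4' : |(-1) ^ N * G1 η| ≤ K3 * δ := s4.trans s34
  intro M m1 m2 hpar
  obtain ⟨j1, j2, j3, j4, j5, j6, j7⟩ := key M m1 m2
  obtain ⟨Λ, hΛ⟩ : ∃ Λ, Λ = Real.log M - Real.log N := ⟨_, rfl⟩
  have hΛ0 : 0 ≤ Λ := by linarith
  have hΛ1 : Λ ≤ 1 := by linarith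
  have w1 : ww G0 G1 M η - ww G0 G1 N η = G0 η * ((M : ℝ) ^ al η - (N : ℝ) ^ al η) +
      ((-1) ^ N * G1 η) * ((M : ℝ) ^ (-be η) - (N : ℝ) ^ (-be η)) := by
    unfold ww
    rw [hpar]
    ring
  have w2 : |(M : ℝ) ^ al η - (N : ℝ) ^ al η - al η * Λ| ≤ 2 * δ ^ 2 := by
    have : (M : ℝ) ^ al η - (N : ℝ) ^ al η - al η * Λ =
        ((M : ℝ) ^ al η - 1 - al η * Real.log M) - ((N : ℝ) ^ al η - 1 - al η * Real.log N) := by
      rw [hΛ]
      ring
    rw [this]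
    refine (abs_sub _ _).trans ?_
    linarith
  have w3 : |(M : ℝ) ^ (-be η) - (N : ℝ) ^ (-be η)| ≤ 4 * δ := by
    have : (M : ℝ) ^ (-be η) - (N : ℝ) ^ (-be η) =
        ((M : ℝ) ^ (-be η) - 1) - ((N : ℝ) ^ (-be η) - 1) := by ring
    rw [this]
    refine (abs_sub _ _).trans ?_
    linarith
  have w4 : |al η * Λ| ≤ δ := by
    rw [abs_of_nonneg (mul_nonneg a1 hΛ0)]
    calc al η * Λ ≤ η * 1 := mul_le_mul a2 hΛ1 hΛ0 hη00.le
      _ ≤ δ := by linarith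
  have w5 : L * hh η * ((P M).coeff 1 - (P N).coeff 1) - L * (al η * Λ) =
      G0 η * ((M : ℝ) ^ al η - (N : ℝ) ^ al η - al η * Λ) + (G0 η - L) * (al η * Λ) +
      ((-1) ^ N * G1 η) * ((M : ℝ) ^ (-be η) - (N : ℝ) ^ (-be η)) +
      (L + L * (P M).coeff 1 * hh η - ww G0 G1 M η) -
      (L + L * (P N).coeff 1 * hh η - ww G0 G1 N η) := by
    linear_combination w1
  have w6 : |L * hh η * ((P M).coeff 1 - (P N).coeff 1) - L * (al η * Λ)| ≤ K4 * δ ^ 2 := by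
    rw [w5]
    have f1 : |G0 η * ((M : ℝ) ^ al η - (N : ℝ) ^ al η - al η * Λ)| ≤ 20 * (L + K2) * (2 * δ ^ 2) := by
      rw [abs_mul]
      exact mul_le_mul s1' w2 (abs_nonneg _) (by positivity)
    have f2 : |(G0 η - L) * (al η * Λ)| ≤ K3 * δ * δ := by
      rw [abs_mul]
      exact mul_le_mul s3' w4 (abs_nonneg _) (by positivity)
    have f3 : |((-1) ^ N * G1 η) * ((M : ℝ) ^ (-be η) - (N : ℝ) ^ (-be η))| ≤ K3 * δ * (4 * δ) := by
      rw [abs_mul]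
      exact mul_le_mul s4' w3 (abs_nonneg _) (by positivity)
    have f1' := abs_le.1 f1
    have f2' := abs_le.1 f2
    have f3' := abs_le.1 f3
    have f4' := abs_le.1 j1
    have f5' := abs_le.1 kN1
    have ee : K4 * δ ^ 2 = 20 * (L + K2) * (2 * δ ^ 2) + K3 * δ * δ + K3 * δ * (4 * δ) +
        99 * K1 * δ ^ 2 + 99 * K1 * δ ^ 2 := by
      rw [hK4]
      ring
    rw [ee, abs_le]
    constructor <;> linarith [f1'.1, f1'.2, f2'.1, f2'.2, f3'.1, f3'.2, f4'.1, f4'.2, f5'.1, f5'.2]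
  have w7 : |((P M).coeff 1 - (P N).coeff 1) - al η / hh η * Λ| ≤ K4 / (4 * L) * (N : ℝ) ^ (-(c / 4)) := by
    have e1 : ((P M).coeff 1 - (P N).coeff 1) - al η / hh η * Λ =
        (L * hh η * ((P M).coeff 1 - (P N).coeff 1) - L * (al η * Λ)) / (L * hh η) := by
      field_simp
    rw [e1, abs_div, abs_of_pos (by positivity : 0 < L * hh η), div_le_iff₀ (by positivity)]
    refine w6.trans ?_
    have e2 : δ ^ 2 = η * (N : ℝ) ^ (-(c / 4)) := by
      rw [hδ2, hη, ← Real.rpow_add hN0]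
      congr 1
      ring
    have e3 : K4 / (4 * L) * (N : ℝ) ^ (-(c / 4)) * (L * hh η) =
        K4 * (N : ℝ) ^ (-(c / 4)) * (hh η / 4) := by
      field_simp
    rw [e2, e3]
    have e4 : η ≤ hh η / 4 := by linarith
    have e5 : 0 ≤ K4 * (N : ℝ) ^ (-(c / 4)) := by positivity
    calc K4 * (η * (N : ℝ) ^ (-(c / 4))) = K4 * (N : ℝ) ^ (-(c / 4)) * η := by ring
      _ ≤ _ := mul_le_mul_of_nonneg_left e4 e5
  have w8 : |al η / hh η * Λ - Λ / (3 * Real.pi)| ≤ (N : ℝ) ^ (-(c / 4)) := by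
    have e1 : al η / hh η * Λ - Λ / (3 * Real.pi) = (al η / hh η - 1 / (3 * Real.pi)) * Λ := by ring
    rw [e1, abs_mul, abs_of_nonneg hΛ0]
    calc |al η / hh η - 1 / (3 * Real.pi)| * Λ ≤ η * 1 :=
          mul_le_mul (ratio_bd hη00 hη44) hΛ1 hΛ0 hη00.le
      _ ≤ (N : ℝ) ^ (-(c / 4)) := by
          rw [mul_one, hη]
          exact Real.rpow_le_rpow_of_exponent_le hN (by linarith)
  have e9 : ((P M).coeff 1 - Real.log M / (3 * Real.pi)) - ((P N).coeff 1 - Real.log N / (3 * Real.pi)) =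
      (((P M).coeff 1 - (P N).coeff 1) - al η / hh η * Λ) + (al η / hh η * Λ - Λ / (3 * Real.pi)) := by
    rw [hΛ]
    ring
  rw [e9]
  refine (abs_add_le _ _).trans ?_
  linarith

/-- the sign in terms of the parity -/
theorem parity_cases (N : ℕ) : (∃ n, N = 2 * n) ∨ ∃ n, N = 2 * n + 1 := by
  rcases Nat.even_or_odd N with ⟨n, h⟩ | ⟨n, h⟩
  · exact Or.inl ⟨n, by omega⟩
  · exact Or.inr ⟨n, h⟩

/-- **the amplitude, normalised form** -/
theorem amp0 (hL : 0 < L) (nn : ∀ N i, 0 ≤ (P N).coeff i) (one : ∀ N, (P N).eval 0 = 1)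
    (hc : 0 < c) (hc1 : c ≤ 1) (hC : 0 ≤ C) (hη1 : 0 < η1) (hη2 : η1 ≤ 1 / 4)
    (hv : ∀ᶠ N : ℕ in atTop, |v N - L| ≤ C * (N : ℝ) ^ (-(2 * c)))
    (hX : ∀ᶠ N : ℕ in atTop, ∀ η ∈ Icc 0 η1,
      |v N * (P N).eval (hh η) - ww G0 G1 N η| ≤ C * (N : ℝ) ^ (-c)) :
    ∃ A B K : ℝ, 0 ≤ K ∧ ∀ᶠ N : ℕ in atTop,
      |(P N).coeff 1 - (Real.log N / (3 * Real.pi) + A + (-1) ^ N * B)| ≤ K * (N : ℝ) ^ (-(c / 4)) := by
  obtain ⟨K, hK, hD⟩ := stepD (G0 := G0) (G1 := G1) hL nn one hc hc1 hC hη1 hη2 hv hX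
  obtain ⟨n0, hn0⟩ := eventually_atTop.1 hD
  set e : ℕ → ℝ := fun N => (P N).coeff 1 - Real.log N / (3 * Real.pi) with he
  have c4 : 0 < c / 4 := by linarith
  have dn : ∀ n : ℕ, 1 ≤ n → ∀ k : ℕ, n ≤ k → (k : ℝ) ^ (-(c / 4)) ≤ (n : ℝ) ^ (-(c / 4)) := by
    intro n hn k hk
    exact Real.rpow_le_rpow_of_nonpos (by exact_mod_cast hn) (by exact_mod_cast hk) (by linarith)
  -- even numbers
  obtain ⟨A0, K0, hK0, hA0⟩ := dyad (b := fun n => e (2 * n)) (n0 := n0 + 1) c4 hK (by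
    intro n hn m h1 h2
    have := hn0 (2 * n) (by omega) (2 * m) (by omega) (by omega) (by
      rw [pow_mul, pow_mul]
      simp)
    exact this.trans (mul_le_mul_of_nonneg_left (dn n (by omega) (2 * n) (by omega)) hK))
  -- odd numbers
  obtain ⟨A1, K1, hK1, hA1⟩ := dyad (b := fun n => e (2 * n + 1)) (n0 := n0 + 1) c4 hK (by
    intro n hn m h1 h2
    have := hn0 (2 * n + 1) (by omega) (2 * m + 1) (by omega) (by omega) (by
      rw [pow_succ, pow_succ, pow_mul, pow_mul]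
      simp)
    exact this.trans (mul_le_mul_of_nonneg_left (dn n (by omega) (2 * n + 1) (by omega)) hK))
  refine ⟨(A0 + A1) / 2, (A0 - A1) / 2, 3 * (K0 + K1), by positivity, ?_⟩
  filter_upwards [eventually_ge_atTop (2 * n0 + 4)] with N hN
  have cmp : ∀ n : ℕ, 1 ≤ n → N ≤ 3 * n → (n : ℝ) ^ (-(c / 4)) ≤ 3 * (N : ℝ) ^ (-(c / 4)) := by
    intro n hn hNn
    have hn' : (0 : ℝ) < n := by exact_mod_cast hn
    have hN0 : (0 : ℝ) < N := by
      have : 0 < N := by omega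
      exact_mod_cast this
    have h3 : (N : ℝ) ≤ 3 * n := by exact_mod_cast hNn
    have h4 : (3 * n : ℝ) ^ (-(c / 4)) ≤ (N : ℝ) ^ (-(c / 4)) :=
      Real.rpow_le_rpow_of_nonpos hN0 h3 (by linarith)
    rw [Real.mul_rpow (by norm_num) hn'.le] at h4
    have h5 : (1 : ℝ) ≤ 3 * (3 : ℝ) ^ (-(c / 4)) := by
      have : (3 : ℝ) ^ (-(1 : ℝ)) ≤ (3 : ℝ) ^ (-(c / 4)) :=
        Real.rpow_le_rpow_of_exponent_le (by norm_num) (by linarith)
      rw [Real.rpow_neg_one] at this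
      linarith
    calc (n : ℝ) ^ (-(c / 4)) = 1 * (n : ℝ) ^ (-(c / 4)) := (one_mul _).symm
      _ ≤ 3 * (3 : ℝ) ^ (-(c / 4)) * (n : ℝ) ^ (-(c / 4)) :=
          mul_le_mul_of_nonneg_right h5 (by positivity)
      _ ≤ 3 * (N : ℝ) ^ (-(c / 4)) := by linarith
  have hNn : 0 ≤ (N : ℝ) ^ (-(c / 4)) := by positivity
  rcases parity_cases N with ⟨n, rfl⟩ | ⟨n, rfl⟩
  · have h1 := hA0 n (by omega) (by omega)
    have h2 := cmp n (by omega) (by omega)
    have e1 : (P (2 * n)).coeff 1 - (Real.log ((2 * n : ℕ) : ℝ) / (3 * Real.pi) + (A0 + A1) / 2 +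
        (-1) ^ (2 * n) * ((A0 - A1) / 2)) = e (2 * n) - A0 := by
      rw [he, pow_mul]
      simp
      ring
    rw [e1]
    refine h1.trans ?_
    calc K0 * (n : ℝ) ^ (-(c / 4)) ≤ K0 * (3 * ((2 * n : ℕ) : ℝ) ^ (-(c / 4))) :=
          mul_le_mul_of_nonneg_left h2 hK0
      _ ≤ _ := by nlinarith
  · have h1 := hA1 n (by omega) (by omega)
    have h2 := cmp n (by omega) (by omega)
    have e1 : (P (2 * n + 1)).coeff 1 - (Real.log ((2 * n + 1 : ℕ) : ℝ) / (3 * Real.pi) +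
        (A0 + A1) / 2 + (-1) ^ (2 * n + 1) * ((A0 - A1) / 2)) = e (2 * n + 1) - A1 := by
      rw [he, pow_succ, pow_mul]
      simp
      ring
    rw [e1]
    refine h1.trans ?_
    calc K1 * (n : ℝ) ^ (-(c / 4)) ≤ K1 * (3 * ((2 * n + 1 : ℕ) : ℝ) ^ (-(c / 4))) :=
          mul_le_mul_of_nonneg_left h2 hK1
      _ ≤ _ := by nlinarith

end core

/-- **the amplitude**: from the law near loop weight `0` -/
theorem amp {P : ℕ → ℝ[X]} (nn : ∀ N i, 0 ≤ (P N).coeff i) (one : ∀ N, (P N).eval 0 = 1)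
    {u : ℕ → ℝ} {L C r q p η1 : ℝ} {G0 G1 : ℝ → ℝ} (hL : 0 < L) (hr : 0 < r) (hp : p < q)
    (hη1 : 0 < η1)
    (hu : ∀ᶠ N : ℕ in atTop, |u N / (N : ℝ) ^ q - L| ≤ C * (N : ℝ) ^ (-r))
    (hX : ∀ᶠ N : ℕ in atTop, ∀ η ∈ Icc 0 η1, |u N * (P N).eval (2 * Real.sin (Real.pi * η)) -
      (G0 η * (N : ℝ) ^ (q + 2 / 3 * (η - η ^ 2)) +
        (-1) ^ N * G1 η * (N : ℝ) ^ (q - 2 / 3 * (η + η ^ 2)))| ≤ C * (N : ℝ) ^ p) :
    ∃ c : ℝ, 0 < c ∧ ∃ A B K : ℝ, 0 ≤ K ∧ ∀ᶠ N : ℕ in atTop,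
      |(P N).coeff 1 - (Real.log N / (3 * Real.pi) + A + (-1) ^ N * B)| ≤ K * (N : ℝ) ^ (-c) := by
  obtain ⟨c, hc, hc1, hc2, hc3⟩ : ∃ c : ℝ, 0 < c ∧ c ≤ 1 ∧ c ≤ q - p ∧ 2 * c ≤ r :=
    ⟨min (min 1 (q - p)) (r / 2), lt_min (lt_min one_pos (by linarith)) (by linarith),
      (min_le_left _ _).trans (min_le_left _ _), (min_le_left _ _).trans (min_le_right _ _),
      by have := min_le_right (min 1 (q - p)) (r / 2); linarith⟩
  have h := amp0 (P := P) (v := fun N => u N / (N : ℝ) ^ q) (L := L) (C := |C|) (c := c)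
    (η1 := min η1 (1 / 4)) (G0 := G0) (G1 := G1) hL nn one hc hc1 (abs_nonneg C)
    (lt_min hη1 (by norm_num)) (min_le_right _ _) (by
      filter_upwards [hu, eventually_ge_atTop 1] with N h1 h2
      have hN : (1 : ℝ) ≤ N := by exact_mod_cast h2
      refine h1.trans (mul_le_mul (le_abs_self C) (Real.rpow_le_rpow_of_exponent_le hN (by linarith))
        (by positivity) (abs_nonneg _))) (by
      filter_upwards [hX, eventually_ge_atTop 1] with N h1 h2 η hη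
      have hN : (1 : ℝ) ≤ N := by exact_mod_cast h2
      have hN0 : (0 : ℝ) < N := by linarith
      have h3 := h1 η ⟨hη.1, hη.2.trans (min_le_left _ _)⟩
      have hq := Real.rpow_pos_of_pos hN0 q
      have e1 : u N / (N : ℝ) ^ q * (P N).eval (hh η) - ww G0 G1 N η =
          (u N * (P N).eval (2 * Real.sin (Real.pi * η)) -
            (G0 η * (N : ℝ) ^ (q + 2 / 3 * (η - η ^ 2)) +
            (-1) ^ N * G1 η * (N : ℝ) ^ (q - 2 / 3 * (η + η ^ 2)))) / (N : ℝ) ^ q := by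
        unfold ww hh al be
        rw [Real.rpow_add hN0, sub_eq_add_neg q, Real.rpow_add hN0]
        field_simp
      rw [e1, abs_div, abs_of_pos hq, div_le_iff₀ hq]
      refine h3.trans ?_
      have e2 : |C| * (N : ℝ) ^ (-c) * (N : ℝ) ^ q = |C| * (N : ℝ) ^ (-c + q) := by
        rw [Real.rpow_add hN0]
        ring
      rw [e2]
      exact mul_le_mul (le_abs_self C) (Real.rpow_le_rpow_of_exponent_le hN (by linarith))
        (by positivity) (abs_nonneg _))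
  exact ⟨c / 4, by linarith, h⟩

end WXA

end
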