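import Mathlib

/-!
# Logarithmic limits and power changes of the index (helper61)

`lim_of`: if `A T / log T → a` and `B n` is between `A T - D` (`T ≤ n ^ (p - ε)`) and `A T + D`
(`n ^ (p + ε) ≤ T`) for every `ε > 0`, then `B n / log n → p a`.
-/

set_option autoImplicit false

open Filter Topology

namespace WX

lemma log_ratio {p : ℝ} (c : ℝ) (T : ℕ → ℕ) (hc : 0 < c)
    (h1 : ∀ᶠ n : ℕ in atTop, (n : ℝ) ^ p / c ≤ T n) (h2 : ∀ᶠ n : ℕ in atTop, (T n : ℝ) ≤ c * (n : ℝ) ^ p) :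
    Tendsto (fun n : ℕ => Real.log (T n) / Real.log n) atTop (𝓝 p) := by
  have hl : Tendsto (fun n : ℕ => Real.log n) atTop atTop :=
    Real.tendsto_log_atTop.comp tendsto_natCast_atTop_atTop
  have a1 : Tendsto (fun n : ℕ => p - Real.log c / Real.log n) atTop (𝓝 p) := by
    have h := ((tendsto_const_nhds (x := Real.log c)).div_atTop hl)
    have h3 := (tendsto_const_nhds (x := p)).sub h
    rwa [sub_zero] at h3
  have a2 : Tendsto (fun n : ℕ => p + Real.log c / Real.log n) atTop (𝓝 p) := by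
    have h := ((tendsto_const_nhds (x := Real.log c)).div_atTop hl)
    have h3 := (tendsto_const_nhds (x := p)).add h
    rwa [add_zero] at h3
  refine tendsto_of_tendsto_of_tendsto_of_le_of_le' a1 a2 ?_ ?_
  · filter_upwards [h1, eventually_ge_atTop 2] with n hn h0
    have hn0 : (0 : ℝ) < n := by exact_mod_cast (by omega : 0 < n)
    have hL : 0 < Real.log n := Real.log_pos (by exact_mod_cast (by omega : 1 < n))
    have hp : 0 < (n : ℝ) ^ p := Real.rpow_pos_of_pos hn0 _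
    have h5 := Real.log_le_log (by positivity) hn
    rw [Real.log_div hp.ne' hc.ne', Real.log_rpow hn0] at h5
    rw [le_div_iff₀ hL]
    have e : (p - Real.log c / Real.log n) * Real.log n = p * Real.log n - Real.log c := by
      field_simp
    linarith
  · filter_upwards [h1, h2, eventually_ge_atTop 2] with n hn' hn h0
    have hn0 : (0 : ℝ) < n := by exact_mod_cast (by omega : 0 < n)
    have hL : 0 < Real.log n := Real.log_pos (by exact_mod_cast (by omega : 1 < n))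
    have hp : 0 < (n : ℝ) ^ p := Real.rpow_pos_of_pos hn0 _
    have hT : (0 : ℝ) < T n := lt_of_lt_of_le (by positivity) hn'
    have h5 := Real.log_le_log hT hn
    rw [Real.log_mul hc.ne' hp.ne', Real.log_rpow hn0] at h5
    rw [div_le_iff₀ hL]
    have e : (p + Real.log c / Real.log n) * Real.log n = p * Real.log n + Real.log c := by
      field_simp
    linarith

lemma rpow_large {p : ℝ} (hp : 0 < p) (K : ℝ) : ∀ᶠ n : ℕ in atTop, K ≤ (n : ℝ) ^ p :=
  ((tendsto_rpow_atTop hp).comp tendsto_natCast_atTop_atTop).eventually_ge_atTop K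

lemma ratio_ceil {p : ℝ} (hp : 0 < p) :
    Tendsto (fun n : ℕ => Real.log (⌈(n : ℝ) ^ p⌉₊ : ℕ) / Real.log n) atTop (𝓝 p) := by
  refine log_ratio 2 _ two_pos ?_ ?_
  · filter_upwards [rpow_large hp 0] with n hn
    have := Nat.le_ceil ((n : ℝ) ^ p)
    linarith
  · filter_upwards [rpow_large hp 1] with n hn
    have := Nat.ceil_lt_add_one (show (0 : ℝ) ≤ (n : ℝ) ^ p by linarith)
    linarith

lemma ratio_floor {p : ℝ} (hp : 0 < p) :
    Tendsto (fun n : ℕ => Real.log (⌊(n : ℝ) ^ p⌋₊ : ℕ) / Real.log n) atTop (𝓝 p) := by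
  refine log_ratio 2 _ two_pos ?_ ?_
  · filter_upwards [rpow_large hp 2] with n hn
    have := Nat.lt_floor_add_one ((n : ℝ) ^ p)
    linarith
  · filter_upwards [rpow_large hp 0] with n hn
    have := Nat.floor_le (show (0 : ℝ) ≤ (n : ℝ) ^ p by linarith)
    linarith

lemma seq_lim {A : ℕ → ℝ} {a p : ℝ} (hA : Tendsto (fun T : ℕ => A T / Real.log T) atTop (𝓝 a))
    {T : ℕ → ℕ} (hT : Tendsto T atTop atTop)
    (hr : Tendsto (fun n : ℕ => Real.log (T n) / Real.log n) atTop (𝓝 p)) (D : ℝ) :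
    Tendsto (fun n : ℕ => (A (T n) + D) / Real.log n) atTop (𝓝 (a * p)) := by
  have hl : Tendsto (fun n : ℕ => Real.log n) atTop atTop :=
    Real.tendsto_log_atTop.comp tendsto_natCast_atTop_atTop
  have h1 := ((hA.comp hT).mul hr).add ((tendsto_const_nhds (x := D)).div_atTop hl)
  rw [add_zero] at h1
  refine h1.congr' ?_
  filter_upwards [hT.eventually_ge_atTop 2] with n hn
  have hL : Real.log (T n) ≠ 0 := (Real.log_pos (by exact_mod_cast (by omega : 1 < T n))).ne'
  simp only [Function.comp]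
  rw [div_mul_div_comm, mul_comm (A (T n)), mul_div_mul_left _ _ hL, ← add_div]

/-- **Power change of the index.** -/
theorem lim_of {A B : ℕ → ℝ} {a p : ℝ} (ha : 0 ≤ a) (hp : 0 < p)
    (hA : Tendsto (fun T : ℕ => A T / Real.log T) atTop (𝓝 a))
    (hup : ∀ ε : ℝ, 0 < ε → ∃ D : ℝ, ∀ n T : ℕ, 1 ≤ n → (n : ℝ) ^ (p + ε) ≤ T → B n ≤ A T + D)
    (hlo : ∀ ε : ℝ, 0 < ε → ε < p → ∃ D : ℝ, ∀ n T : ℕ, 1 ≤ n → (T : ℝ) ≤ (n : ℝ) ^ (p - ε) →
      A T - D ≤ B n) :
    Tendsto (fun n : ℕ => B n / Real.log n) atTop (𝓝 (p * a)) := by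
  refine tendsto_order.2 ⟨fun u hu => ?_, fun u hu => ?_⟩
  · -- lower half
    obtain ⟨ε, he, he2, he3⟩ : ∃ ε : ℝ, 0 < ε ∧ ε < p ∧ u < a * (p - ε) := by
      rcases ha.eq_or_lt with h0 | h0
      · refine ⟨p / 2, by positivity, by linarith, ?_⟩
        rw [← h0] at hu ⊢
        simpa using hu
      · have h1 : 0 < (p * a - u) / (2 * a) := div_pos (by linarith) (by positivity)
        refine ⟨min (p / 2) ((p * a - u) / (2 * a)), lt_min (by positivity) h1,
          (min_le_left _ _).trans_lt (by linarith), ?_⟩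
        have h2 := mul_le_mul_of_nonneg_left (min_le_right (p / 2) ((p * a - u) / (2 * a))) ha
        have h3 : a * ((p * a - u) / (2 * a)) = (p * a - u) / 2 := by field_simp
        nlinarith
    obtain ⟨D, hD⟩ := hlo ε he he2
    have hpe : 0 < p - ε := by linarith
    have hT : Tendsto (fun n : ℕ => ⌊(n : ℝ) ^ (p - ε)⌋₊) atTop atTop :=
      tendsto_nat_floor_atTop.comp ((tendsto_rpow_atTop hpe).comp tendsto_natCast_atTop_atTop)
    have h1 := seq_lim hA hT (ratio_floor hpe) (-D)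
    filter_upwards [h1.eventually (lt_mem_nhds he3), eventually_ge_atTop 2] with n hn h2
    have hL : 0 < Real.log n := Real.log_pos (by exact_mod_cast (by omega : 1 < n))
    refine hn.trans_le (div_le_div_of_nonneg_right ?_ hL.le)
    have h4 := hD n ⌊(n : ℝ) ^ (p - ε)⌋₊ (by omega) (Nat.floor_le (by positivity))
    linarith
  · -- upper half
    obtain ⟨ε, he, he3⟩ : ∃ ε : ℝ, 0 < ε ∧ a * (p + ε) < u := by
      rcases ha.eq_or_lt with h0 | h0
      · refine ⟨1, one_pos, ?_⟩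
        rw [← h0] at hu ⊢
        simpa using hu
      · have h1 : 0 < (u - p * a) / (2 * a) := div_pos (by linarith) (by positivity)
        refine ⟨(u - p * a) / (2 * a), h1, ?_⟩
        have h3 : a * ((u - p * a) / (2 * a)) = (u - p * a) / 2 := by field_simp
        rw [mul_add, h3]
        linarith
    obtain ⟨D, hD⟩ := hup ε he
    have hpe : 0 < p + ε := by linarith
    have hT : Tendsto (fun n : ℕ => ⌈(n : ℝ) ^ (p + ε)⌉₊) atTop atTop :=
      tendsto_nat_ceil_atTop.comp ((tendsto_rpow_atTop hpe).comp tendsto_natCast_atTop_atTop)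
    have h1 := seq_lim hA hT (ratio_ceil hpe) D
    filter_upwards [h1.eventually (gt_mem_nhds he3), eventually_ge_atTop 2] with n hn h2
    have hL : 0 < Real.log n := Real.log_pos (by exact_mod_cast (by omega : 1 < n))
    refine (div_le_div_of_nonneg_right ?_ hL.le).trans_lt hn
    exact hD n ⌈(n : ℝ) ^ (p + ε)⌉₊ (by omega) (Nat.le_ceil _)

/-! ### sums over an index type -/

open ENNReal

/-- the sums of a weight by two sizes -/
theorem sums_lim {ι : Type*} {w : ι → ℝ≥0∞} {len row : ι → ℕ} {a p : ℝ} (ha : 0 ≤ a) (hp : 0 < p)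
    (hl : ∀ i, 1 ≤ len i)
    (hbad : ∀ ε : ℝ, 0 < ε → ∑' i : {i // (row i : ℝ) < (len i : ℝ) ^ (p - ε) ∨
      (len i : ℝ) ^ (p + ε) < row i}, w i ≠ ∞)
    (hA0 : ∀ T : ℕ, ∑' i : {i // row i ≤ T}, w i ≠ ∞)
    (hA : Tendsto (fun T : ℕ => (∑' i : {i // row i ≤ T}, w i).toReal / Real.log T) atTop (𝓝 a)) :
    (∀ n : ℕ, ∑' i : {i // len i ≤ n}, w i ≠ ∞) ∧
    Tendsto (fun n : ℕ => (∑' i : {i // len i ≤ n}, w i).toReal / Real.log n) atTop (𝓝 (p * a)) := by
  -- comparison
  have cmp : ∀ {P Q R : ι → Prop}, (∀ i, P i → Q i ∨ R i) → ∑' i : {i // P i}, w i ≤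
      ∑' i : {i // Q i}, w i + ∑' i : {i // R i}, w i := by
    intro P Q R h
    have h1 : ∑' i : ({i | P i} : Set ι), w i ≤ ∑' i : ({i | Q i} ∪ {i | R i} : Set ι), w i :=
      ENNReal.tsum_mono_subtype w fun i hi => h i hi
    exact h1.trans (ENNReal.tsum_union_le w {i | Q i} {i | R i})
  have up : ∀ ε : ℝ, 0 < ε → ∀ n T : ℕ, 1 ≤ n → (n : ℝ) ^ (p + ε) ≤ T →
      ∑' i : {i // len i ≤ n}, w i ≤ ∑' i : {i // row i ≤ T}, w i +
        ∑' i : {i // (row i : ℝ) < (len i : ℝ) ^ (p - ε) ∨ (len i : ℝ) ^ (p + ε) < row i}, w i := by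
    intro ε he n T hn hT
    refine cmp fun i hi => ?_
    rcases Nat.lt_or_ge T (row i) with h | h
    · right; right
      have h1 : (len i : ℝ) ^ (p + ε) ≤ (n : ℝ) ^ (p + ε) :=
        Real.rpow_le_rpow (by positivity) (by exact_mod_cast hi) (by linarith)
      have h2 : (T : ℝ) < row i := by exact_mod_cast h
      linarith
    · exact Or.inl h
  have lo : ∀ ε : ℝ, 0 < ε → ε < p → ∀ n T : ℕ, 1 ≤ n → (T : ℝ) ≤ (n : ℝ) ^ (p - ε) →
      ∑' i : {i // row i ≤ T}, w i ≤ ∑' i : {i // len i ≤ n}, w i +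
        ∑' i : {i // (row i : ℝ) < (len i : ℝ) ^ (p - ε) ∨ (len i : ℝ) ^ (p + ε) < row i}, w i := by
    intro ε he he2 n T hn hT
    refine cmp fun i hi => ?_
    rcases Nat.lt_or_ge n (len i) with h | h
    · right; left
      have h1 : (n : ℝ) ^ (p - ε) < (len i : ℝ) ^ (p - ε) :=
        Real.rpow_lt_rpow (by positivity) (by exact_mod_cast h) (by linarith)
      have h2 : (row i : ℝ) ≤ T := by exact_mod_cast hi
      linarith
    · exact Or.inl h
  have hB0 : ∀ n : ℕ, ∑' i : {i // len i ≤ n}, w i ≠ ∞ := by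
    intro n
    rcases Nat.eq_zero_or_pos n with rfl | hn
    · have : IsEmpty {i // len i ≤ 0} := ⟨fun i => by have := hl i.1; have := i.2; omega⟩
      rw [tsum_empty]
      exact zero_ne_top
    · refine ne_top_of_le_ne_top ?_ (up 1 one_pos n ⌈(n : ℝ) ^ (p + 1)⌉₊ hn (Nat.le_ceil _))
      exact ENNReal.add_ne_top.2 ⟨hA0 _, hbad 1 one_pos⟩
  refine ⟨hB0, lim_of ha hp hA (fun ε he => ?_) fun ε he he2 => ?_⟩
  · refine ⟨(∑' i : {i // (row i : ℝ) < (len i : ℝ) ^ (p - ε) ∨ (len i : ℝ) ^ (p + ε) < row i},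
      w i).toReal, fun n T hn hT => ?_⟩
    have h := ENNReal.toReal_mono (ENNReal.add_ne_top.2 ⟨hA0 T, hbad ε he⟩) (up ε he n T hn hT)
    rwa [ENNReal.toReal_add (hA0 T) (hbad ε he)] at h
  · refine ⟨(∑' i : {i // (row i : ℝ) < (len i : ℝ) ^ (p - ε) ∨ (len i : ℝ) ^ (p + ε) < row i},
      w i).toReal, fun n T hn hT => ?_⟩
    have h := ENNReal.toReal_mono (ENNReal.add_ne_top.2 ⟨hB0 n, hbad ε he⟩) (lo ε he he2 n T hn hT)
    rw [ENNReal.toReal_add (hB0 n) (hbad ε he)] at h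
    linarith

end WX
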