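import Pool.Agent.NUA.AreaF
import Pool.Agent.WX.LogLim

/-!
# The area of the polygons by the number of sites (helper61)

From the area of the polygons in `T` rows (`A T / log T → a`) and the bound for the polygons with
`n` sites and an atypical number of rows: the area of the polygons with at most `n` sites, divided by
`log n`, tends to `3 a / 4`.

* `hgt L`: the highest row; `area_leL`: area at most `(number of sites) ^ 2`;
* **`area_len`**.
-/

set_option autoImplicit false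

open Filter Topology

namespace HexObs

namespace TH

open LP ENNReal

/-- the highest row -/
def hgt (L : List (ℤ × ℤ)) : ℕ := L.foldr (fun p m => max p.2.toNat m) 0

lemma hgt_le {L : List (ℤ × ℤ)} {T : ℕ} : hgt L ≤ T ↔ ∀ p ∈ L, p.2 ≤ (T : ℤ) := by
  induction L with
  | nil => simp [hgt]
  | cons a L ih =>
    have e : hgt (a :: L) = max a.2.toNat (hgt L) := rfl
    rw [e, max_le_iff, ih]
    simp only [List.mem_cons, forall_eq_or_imp]
    refine and_congr ?_ Iff.rfl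
    omega

lemma hgt_mem {L : List (ℤ × ℤ)} (h : L ≠ []) (h1 : ∀ p ∈ L, 1 ≤ p.2) : ∃ p ∈ L, p.2 = (hgt L : ℤ) := by
  by_contra hc
  push Not at hc
  have h2 : ∀ p ∈ L, p.2 ≤ (hgt L : ℤ) := hgt_le.1 le_rfl
  obtain ⟨a, ha⟩ := List.exists_mem_of_ne_nil L h
  have h3 := h1 a ha
  have h4 := h2 a ha
  have h5 : hgt L ≤ hgt L - 1 := hgt_le.2 fun p hp => by
    have := h2 p hp
    have := hc p hp
    omega
  omega

/-- the coordinates of the sites -/
lemma sit_x {L : List (ℤ × ℤ)} (hL : HexPolygon.Polygon L) (j : ℕ) : |(sit L j).1| ≤ j := by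
  induction j with
  | zero =>
    rw [sit_first hL]
    simp
  | succ j ih =>
    have h := sit_edge hL j
    have h1 : |(sit L (j + 1)).1 - (sit L j).1| ≤ 1 := by
      unfold CC.Edge at h
      rcases h with h | h | h | h
      · rw [h]; simp
      · rw [h]; simp
      · rw [h.1]; simp
      · rw [h.1]; simp
    rw [abs_le] at h1 ih ⊢
    push_cast
    constructor <;> linarith [h1.1, h1.2, ih.1, ih.2]

lemma sit_dy {L : List (ℤ × ℤ)} (hL : HexPolygon.Polygon L) (j : ℕ) :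
    |(sit L (j + 1)).2 - (sit L j).2| ≤ 1 := by
  have h := sit_edge hL j
  unfold CC.Edge at h
  rcases h with h | h | h | h
  · rw [h]; simp
  · rw [h]; simp
  · rw [h.1]; simp
  · rw [h.1]; simp

/-- **the area is at most the square of the length** -/
lemma area_leL {L : List (ℤ × ℤ)} (hL : HexPolygon.Polygon L) : area L ≤ L.length ^ 2 := by
  have h3 := hL.2.2.1
  have h1 : |(List.zipWith (fun p q : ℤ × ℤ => p.1 * (q.2 - p.2)) L (L.rotate 1)).sum| ≤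
      (L.length : ℤ) ^ 2 := by
    rw [sum_list L (by omega)]
    refine (Finset.abs_sum_le_sum_abs _ _).trans ?_
    have h2 : ∀ j ∈ Finset.range L.length,
        |(sit L j).1 * ((sit L (j + 1)).2 - (sit L j).2)| ≤ (L.length : ℤ) := by
      intro j hj
      rw [Finset.mem_range] at hj
      rw [abs_mul]
      have a1 := sit_x hL j
      have a2 := sit_dy hL j
      have a3 := abs_nonneg (sit L j).1
      have a4 := abs_nonneg ((sit L (j + 1)).2 - (sit L j).2)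
      have a5 : (j : ℤ) ≤ L.length := by exact_mod_cast hj.le
      nlinarith
    refine (Finset.sum_le_sum h2).trans ?_
    rw [Finset.sum_const, Finset.card_range, nsmul_eq_mul]
    exact le_of_eq (by ring)
  unfold area
  have h4 : ((List.zipWith (fun p q : ℤ × ℤ => p.1 * (q.2 - p.2)) L (L.rotate 1)).sum.natAbs : ℤ) ≤
      ((L.length ^ 2 : ℕ) : ℤ) := by
    rw [Int.natCast_natAbs]
    push_cast
    exact h1
  have h5 : (List.zipWith (fun p q : ℤ × ℤ => p.1 * (q.2 - p.2)) L (L.rotate 1)).sum.natAbs ≤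
      L.length ^ 2 := by exact_mod_cast h4
  omega

/-- a stretched exponential against a square is summable -/
lemma summable_se {C : ℝ} (hC : 0 < C) :
    ∑' n : ℕ, ((n ^ 2 : ℕ) : ℝ≥0∞) * ENNReal.ofReal (C * Real.exp (-(n : ℝ) ^ C⁻¹)) ≠ ∞ := by
  have hc : 0 < C⁻¹ := by positivity
  obtain ⟨k, hk⟩ : ∃ k : ℕ, 4 ≤ C⁻¹ * k := by
    obtain ⟨k, hk⟩ := exists_nat_ge (4 * C)
    exact ⟨k, by rw [inv_mul_eq_div, le_div_iff₀ hC]; linarith⟩
  have ht := Real.tendsto_pow_mul_exp_neg_atTop_nhds_zero k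
  have h1 := ht.comp ((tendsto_rpow_atTop hc).comp tendsto_natCast_atTop_atTop)
  obtain ⟨K, hK⟩ : ∃ K : ℝ, ∀ n : ℕ, ((n : ℝ) ^ C⁻¹) ^ k * Real.exp (-(n : ℝ) ^ C⁻¹) ≤ K := by
    obtain ⟨K, hK⟩ := h1.bddAbove_range
    exact ⟨K, fun n => hK ⟨n, rfl⟩⟩
  have hK0 : 0 ≤ K := le_trans (by positivity) (hK 1)
  have h2 : ∀ n : ℕ, ((n ^ 2 : ℕ) : ℝ≥0∞) * ENNReal.ofReal (C * Real.exp (-(n : ℝ) ^ C⁻¹)) ≤
      ENNReal.ofReal (C * K * (1 / (n : ℝ) ^ 2)) := by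
    intro n
    rcases Nat.eq_zero_or_pos n with rfl | hn
    · simp
    have hnR : (1 : ℝ) ≤ n := by exact_mod_cast hn
    have hn0 : (0 : ℝ) < n := by linarith
    rw [← ENNReal.ofReal_natCast, ← ENNReal.ofReal_mul (by positivity)]
    refine ENNReal.ofReal_le_ofReal ?_
    have h3 : (n : ℝ) ^ 4 ≤ ((n : ℝ) ^ C⁻¹) ^ k := by
      rw [← Real.rpow_natCast, ← Real.rpow_natCast, ← Real.rpow_mul hn0.le]
      exact Real.rpow_le_rpow_of_exponent_le hnR (by exact_mod_cast hk)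
    have h4 : (n : ℝ) ^ 4 * Real.exp (-(n : ℝ) ^ C⁻¹) ≤ K :=
      (mul_le_mul_of_nonneg_right h3 (Real.exp_pos _).le).trans (hK n)
    have h5 : (n : ℝ) ^ 2 * Real.exp (-(n : ℝ) ^ C⁻¹) ≤ K / (n : ℝ) ^ 2 := by
      rw [le_div_iff₀ (by positivity)]
      calc (n : ℝ) ^ 2 * Real.exp (-(n : ℝ) ^ C⁻¹) * (n : ℝ) ^ 2 =
            (n : ℝ) ^ 4 * Real.exp (-(n : ℝ) ^ C⁻¹) := by ring
        _ ≤ K := h4
    push_cast
    calc (n : ℝ) ^ 2 * (C * Real.exp (-(n : ℝ) ^ C⁻¹)) =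
          C * ((n : ℝ) ^ 2 * Real.exp (-(n : ℝ) ^ C⁻¹)) := by ring
      _ ≤ C * (K / (n : ℝ) ^ 2) := mul_le_mul_of_nonneg_left h5 hC.le
      _ = C * K * (1 / (n : ℝ) ^ 2) := by ring
  refine ne_top_of_le_ne_top ?_ (ENNReal.tsum_le_tsum h2)
  have hs : Summable fun n : ℕ => C * K * (1 / (n : ℝ) ^ 2) :=
    (Real.summable_one_div_nat_pow.2 one_lt_two).mul_left _
  rw [← ENNReal.ofReal_tsum_of_nonneg (fun n => by positivity) hs]
  exact ENNReal.ofReal_ne_top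

/-- a polygon up to translation -/
abbrev PL : Type := {L : List (ℤ × ℤ) // HexPolygon.Polygon L}

/-- weight times area -/
noncomputable def wa (L : PL) : ℝ≥0∞ := HexPolygon.wt L.1 * (area L.1 : ℝ≥0∞)

/-- the weight of the polygons with `n` sites and a number of rows outside `[x, y]` -/
noncomputable def qO (n : ℕ) (x y : ℝ) : ℝ≥0∞ :=
  ∑' L : {L : List (ℤ × ℤ) // HexPolygon.Polygon L ∧ L.length = n ∧
    ∃ j : ℕ, ((∀ p ∈ L, p.2 ≤ (j : ℤ)) ∧ ∃ p ∈ L, p.2 = (j : ℤ)) ∧ ((j : ℝ) < x ∨ y < j)},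
    HexPolygon.wt L.1

/-- the polygons with an atypical number of rows -/
lemma bad_ne_top {p ε C : ℝ} (hC : 0 < C) (hQ : ∀ n : ℕ, 1 ≤ n →
      qO n ((n : ℝ) ^ (p - ε)) ((n : ℝ) ^ (p + ε)) ≤ ENNReal.ofReal (C * Real.exp (-(n : ℝ) ^ C⁻¹))) :
    ∑' i : {i : PL // (hgt i.1 : ℝ) < (i.1.length : ℝ) ^ (p - ε) ∨
      (i.1.length : ℝ) ^ (p + ε) < hgt i.1}, wa i.1 ≠ ∞ := by
  set S := {i : PL // (hgt i.1 : ℝ) < (i.1.length : ℝ) ^ (p - ε) ∨
      (i.1.length : ℝ) ^ (p + ε) < hgt i.1} with hS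
  refine ne_top_of_le_ne_top (summable_se hC) ?_
  rw [← (Equiv.sigmaFiberEquiv (fun i : S => i.1.1.length)).tsum_eq, ENNReal.tsum_sigma']
  refine ENNReal.tsum_le_tsum fun n => ?_
  rcases Nat.eq_zero_or_pos n with rfl | hn
  · have : IsEmpty {x : S // x.1.1.length = 0} := ⟨fun x => by
      have h1 := x.1.1.2.2.2.1
      have h2 := x.2
      omega⟩
    rw [tsum_empty]
    exact zero_le
  have h1 : ∀ x : {x : S // x.1.1.length = n}, wa x.1.1 ≤ ((n ^ 2 : ℕ) : ℝ≥0∞) * HexPolygon.wt x.1.1.1 := by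
    intro x
    unfold wa
    rw [mul_comm]
    refine mul_le_mul' ?_ le_rfl
    have h2 := area_leL x.1.1.2
    rw [x.2] at h2
    exact_mod_cast h2
  refine (ENNReal.tsum_le_tsum h1).trans ?_
  rw [ENNReal.tsum_mul_left]
  refine mul_le_mul' le_rfl ((le_trans ?_ (hQ n hn)))
  unfold qO
  have hm : ∀ x : {x : S // x.1.1.length = n}, HexPolygon.Polygon x.1.1.1 ∧ x.1.1.1.length = n ∧
      ∃ j : ℕ, ((∀ q ∈ x.1.1.1, q.2 ≤ (j : ℤ)) ∧ ∃ q ∈ x.1.1.1, q.2 = (j : ℤ)) ∧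
        ((j : ℝ) < (n : ℝ) ^ (p - ε) ∨ (n : ℝ) ^ (p + ε) < j) := by
    intro x
    have hP := x.1.1.2
    have hne : x.1.1.1 ≠ [] := by
      intro h
      have h2 := hP.2.2.1
      rw [h] at h2
      simp at h2
    refine ⟨hP, x.2, hgt x.1.1.1, ⟨hgt_le.1 le_rfl, hgt_mem hne hP.2.2.2.2.2.1⟩, ?_⟩
    have h2 := x.1.2
    rwa [x.2] at h2
  exact ENNReal.tsum_comp_le_tsum_of_injective
    (f := fun x : {x : S // x.1.1.length = n} => (⟨x.1.1.1, hm x⟩ : {L : List (ℤ × ℤ) //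
      HexPolygon.Polygon L ∧ L.length = n ∧
      ∃ j : ℕ, ((∀ q ∈ L, q.2 ≤ (j : ℤ)) ∧ ∃ q ∈ L, q.2 = (j : ℤ)) ∧
        ((j : ℝ) < (n : ℝ) ^ (p - ε) ∨ (n : ℝ) ^ (p + ε) < j)}))
    (fun a b h => Subtype.ext (Subtype.ext (Subtype.ext (by simpa using congrArg Subtype.val h))))
    fun L => HexPolygon.wt L.1

/-- **The area of the polygons by the number of sites.** -/
theorem area_len {a : ℝ} (ha : 0 ≤ a)
    (hA0 : ∀ T : ℕ, ∑' L : {L : List (ℤ × ℤ) // HexPolygon.Polygon L ∧ ∀ p ∈ L, p.2 ≤ (T : ℤ)},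
      HexPolygon.wt L.1 * (area L.1 : ℝ≥0∞) ≠ ∞)
    (hA : Tendsto (fun T : ℕ => (∑' L : {L : List (ℤ × ℤ) // HexPolygon.Polygon L ∧
      ∀ p ∈ L, p.2 ≤ (T : ℤ)}, HexPolygon.wt L.1 * (area L.1 : ℝ≥0∞)).toReal / Real.log T) atTop (𝓝 a))
    (hQ : ∀ ε : ℝ, 0 < ε → ∃ C : ℝ, 0 < C ∧ ∀ n : ℕ, 1 ≤ n →
      qO n ((n : ℝ) ^ (3 / 4 - ε)) ((n : ℝ) ^ (3 / 4 + ε)) ≤
        ENNReal.ofReal (C * Real.exp (-(n : ℝ) ^ C⁻¹))) :
    (∀ n : ℕ, ∑' L : {L : List (ℤ × ℤ) // HexPolygon.Polygon L ∧ L.length ≤ n},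
      HexPolygon.wt L.1 * (area L.1 : ℝ≥0∞) ≠ ∞) ∧
    Tendsto (fun n : ℕ => (∑' L : {L : List (ℤ × ℤ) // HexPolygon.Polygon L ∧ L.length ≤ n},
      HexPolygon.wt L.1 * (area L.1 : ℝ≥0∞)).toReal / Real.log n) atTop (𝓝 (3 / 4 * a)) := by
  have eT : ∀ T : ℕ, ∑' L : {L : List (ℤ × ℤ) // HexPolygon.Polygon L ∧ ∀ p ∈ L, p.2 ≤ (T : ℤ)},
      HexPolygon.wt L.1 * (area L.1 : ℝ≥0∞) = ∑' i : {i : PL // hgt i.1 ≤ T}, wa i.1 := by
    intro T
    rw [← ((Equiv.subtypeSubtypeEquivSubtypeInter HexPolygon.Polygon fun L => hgt L ≤ T).trans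
      (Equiv.subtypeEquivRight fun L => and_congr_right fun _ => hgt_le)).tsum_eq]
    rfl
  have eN : ∀ n : ℕ, ∑' L : {L : List (ℤ × ℤ) // HexPolygon.Polygon L ∧ L.length ≤ n},
      HexPolygon.wt L.1 * (area L.1 : ℝ≥0∞) = ∑' i : {i : PL // i.1.length ≤ n}, wa i.1 := by
    intro n
    rw [← (Equiv.subtypeSubtypeEquivSubtypeInter HexPolygon.Polygon fun L => L.length ≤ n).tsum_eq]
    rfl
  simp only [eT] at hA0 hA
  simp only [eN]
  refine WX.sums_lim ha (by norm_num) (len := fun i : PL => i.1.length) (row := fun i : PL => hgt i.1)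
    (fun i => by have := i.2.2.2.1; omega) (fun ε he => ?_) hA0 hA
  obtain ⟨C, hC, hQ⟩ := hQ ε he
  exact bad_ne_top hC hQ

end TH

end HexObs
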