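import Pool.Agent.WX.AreaL1
import Pool.Agent.NUA.PubA
import Pool.Agent.NUX.HandA2
import Pool.Agent.NUF.FINT
import Pool.Agent.NUCR.Target

/-!
# Cardy's area amplitude by the number of sites (helper61)

* `cardy_len_of`: from `NUI.Target`;
* **`cardy_len`**: honeycomb lattice at the critical point: the total area of the self-avoiding
  polygons with at most `n` sites, up to translation, is finite and divided by `log n` it tends to
  `1 / (8 π)`.
-/

set_option autoImplicit false

open Filter Topology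

namespace NUA

open NUI Pool.Agent.NUF HexObs HexObs.LP Pool.Agent.ZF HexObs.TH ENNReal

/-- the total area of the polygons with at most `n` sites -/
noncomputable def BL (n : ℕ) : ℝ≥0∞ := ∑' L : {L : List (ℤ × ℤ) // HexPolygon.Polygon L ∧ L.length ≤ n},
  HexPolygon.wt L.1 * (area L.1 : ℝ≥0∞)

theorem cardy_len_of (h : Target) : (∀ n : ℕ, BL n ≠ ∞) ∧
    Tendsto (fun n : ℕ => (BL n).toReal / Real.log n) atTop (𝓝 (1 / (8 * Real.pi))) := by
  obtain ⟨h1, h2⟩ := area_main h
  have hπ := Real.pi_pos
  have h3 := area_len (a := 1 / (6 * Real.pi)) (by positivity) h1 h2 fun ε hε => by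
    obtain ⟨C, hC, h4⟩ := HexObs.BrL.main_pol
      (fun _ ha => Pool.Agent.NUF.meanLen_of_ZZ (Pool.Agent.NUF.zzUp_of (NUI.numUp_of_target h)) ha)
      (Pool.Agent.NUF.longWalks_third (NUI.nfLow_of_target Pool.Agent.NUNC.windUp h)) hε
    exact ⟨C, hC, fun n hn => (h4 n hn).2.2⟩
  have e : 3 / 4 * (1 / (6 * Real.pi)) = 1 / (8 * Real.pi) := by
    field_simp
    norm_num
  rw [e] at h3
  exact h3

/-- **Cardy's area amplitude** by the number of sites -/
theorem cardy_len : (∀ n : ℕ, BL n ≠ ∞) ∧
    Tendsto (fun n : ℕ => (BL n).toReal / Real.log n) atTop (𝓝 (1 / (8 * Real.pi))) :=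
  cardy_len_of NUCR.target

end NUA
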