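import Pool.Agent.WX.Planar
import Pool.Agent.NUA.PubA

/-!
# Plan X, the area: `|A T - log T / (6 π)| ≤ C`

`A T` is the total critical area of the self-avoiding polygons of the honeycomb lattice that meet at most `T` rows, up to
translation (the words of `Held46/AreaAmplitude`, = `NUA.A`).
-/

set_option autoImplicit false

namespace NUA

open ENNReal Pool.Agent.NUF HexObs HexObs.LP
open NUI (ZP)

/-- the mass of the polygons around `f0` in at most `T` rows -/
theorem Q_log (hS : ∃ C : ℝ, ∀ N : ℕ, 1 ≤ N → |(ZP N).coeff 1 - 1 / (3 * Real.pi) * Real.log N| ≤ C) :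
    ∃ C : ℝ, ∀ T : ℕ, 1 ≤ T → |(Q T).toReal - 1 / (3 * Real.pi) * Real.log T| ≤ C := by
  obtain ⟨K, hK⟩ := WX.mass_log hS
  obtain ⟨C, hC0, hC⟩ := WW_wide
  have hK0 : 0 ≤ K := (abs_nonneg _).trans (hK 1 1 le_rfl le_rfl)
  have hLW : ∀ T M : ℕ, LL (HexObs.LP.PP T M) f0 = WW (HexObs.LP.PP T M) := fun T M => WX.LL_pf _ _
  have hpi := Real.pi_pos
  obtain ⟨g, hg⟩ : ∃ g : ℝ, g = 1 / (3 * Real.pi) := ⟨_, rfl⟩
  have hg0 : 0 < g := by rw [hg]; positivity
  have hg1 : g ≤ 1 := by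
    rw [hg, div_le_one (by positivity)]
    have := Real.pi_gt_three
    linarith
  rw [← hg] at hK ⊢
  refine ⟨K + C + 2, fun T hT => ?_⟩
  have hT0 : (0 : ℝ) < T := by exact_mod_cast hT
  have hup : (Q T).toReal ≤ WW (HexObs.LP.PP T T) + C := by
    have := ENNReal.toReal_mono ENNReal.ofReal_ne_top (Q_le hC hT)
    rwa [ENNReal.toReal_ofReal (add_nonneg (WW_nonneg _) hC0)] at this
  have h1 := (abs_le.1 (hK T T hT le_rfl)).2
  rw [hLW] at h1
  rw [abs_le]
  constructor
  · rcases Nat.lt_or_ge T 2 with h2 | h2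
    · have e : T = 1 := by omega
      have h3 : (0 : ℝ) ≤ (Q T).toReal := ENNReal.toReal_nonneg
      rw [e] at h3 ⊢
      rw [Nat.cast_one, Real.log_one, mul_zero, sub_zero]
      linarith
    · obtain ⟨m, hm⟩ : ∃ m, m = T / 2 := ⟨_, rfl⟩
      have hm1 : 1 ≤ m := by omega
      have h3 := (ENNReal.ofReal_le_iff_le_toReal (Q_ne_top T)).1 (WW_le_Q (m := m) (T := T) m (by omega))
      have h4 := (abs_le.1 (hK m m hm1 le_rfl)).1
      rw [hLW] at h4
      have hm0 : (0 : ℝ) < m := by exact_mod_cast hm1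
      have h5 : Real.log T ≤ 2 + Real.log m := by
        have e1 : (T : ℝ) ≤ 4 * (m : ℝ) := by exact_mod_cast (by omega : T ≤ 4 * m)
        have e2 := Real.log_le_log hT0 e1
        rw [Real.log_mul (by norm_num) hm0.ne'] at e2
        have e3 : Real.log 4 ≤ 2 := by
          rw [show (4 : ℝ) = 2 ^ 2 by norm_num, Real.log_pow]
          have := Real.log_two_lt_d9
          push_cast
          linarith
        linarith
      have h6 : g * Real.log T ≤ g * (2 + Real.log m) := mul_le_mul_of_nonneg_left h5 hg0.le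
      nlinarith
  · linarith

/-- **the area of the polygons of at most `T` rows is `log T / (6 π) + O(1)`** -/
theorem area_log (hS : ∃ C : ℝ, ∀ N : ℕ, 1 ≤ N → |(ZP N).coeff 1 - 1 / (3 * Real.pi) * Real.log N| ≤ C) :
    (∀ T : ℕ, A T ≠ ∞) ∧
      ∃ C : ℝ, ∀ T : ℕ, 1 ≤ T → |(A T).toReal - Real.log T / (6 * Real.pi)| ≤ C := by
  have hA : ∀ T : ℕ, A T ≠ ∞ := by
    intro T h1
    apply Q_ne_top T
    rw [A_Q, h1]
    exact ENNReal.mul_top (by norm_num)
  refine ⟨hA, ?_⟩
  obtain ⟨C, hC⟩ := Q_log hS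
  refine ⟨C, fun T hT => ?_⟩
  have h1 := hC T hT
  have e2 : (2 : ℝ≥0∞).toReal = 2 := rfl
  rw [A_Q, ENNReal.toReal_mul, e2] at h1
  have hpi := Real.pi_pos
  have e : 2 * (A T).toReal - 1 / (3 * Real.pi) * Real.log T = 2 * ((A T).toReal - Real.log T / (6 * Real.pi)) := by
    field_simp
    ring
  rw [e, abs_mul, abs_two] at h1
  have h3 := abs_nonneg ((A T).toReal - Real.log T / (6 * Real.pi))
  linarith

end NUA
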