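import Pool.Agent.WX.SeqX

/-!
# Plan X: the laws at the rows `0` from the coefficients (helper31)

`b i j k` = coefficients of the function with `j` rows and twist `d i`, `f0 i j` = its value at `0`.

* `ChX p d b f0`: the two-step relation of all coefficients `|k| ≤ K`
  (`1 - 2 (3/8 - (2/3) (k + d i)²) / j`), the parity relation, the crude bound, `f0 = ∑ b`;
* **`ChX.two`**: `2/5 ≤ d i ≤ 3/5`: `f0 i j = g i j^ν(d) + h i (-1)^j j^ν(1 - d) + O(j^(1/10))`;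
* **`ChX.one`**: `|d i| ≤ 2/5`: `f0 i j = g i j^ν(d) + O(j^(3/20))`, `ν(κ) = 3/8 - (2/3) κ²`.
-/

set_option autoImplicit false

noncomputable section

open Filter Topology Set

namespace WX

variable {ι : Type*}

/-- the output of the function side at the rows `0` -/
structure ChX (p : ℝ) (d : ι → ℝ) (b : ι → ℕ → ℤ → ℂ) (f0 : ι → ℕ → ℂ) (K : ℕ) (C : ℝ) : Prop where
  C0 : 0 ≤ C
  two : ∀ᶠ j : ℕ in atTop, ∀ i, ∀ k ∈ Finset.Icc (-(K : ℤ)) K,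
    ‖b i (j + 2) k * (1 - ((2 * (3 / 8 - 2 / 3 * ((k : ℝ) + d i) ^ 2) / j : ℝ) : ℂ)) - b i j k‖ ≤
      C * (j : ℝ) ^ (p - 1)
  par : ∀ᶠ j : ℕ in atTop, ∀ i, ∀ k ∈ Finset.Icc (-(K : ℤ)) K,
    ‖b i (j + 1) k - (-1) ^ k * b i j k‖ ≤ C
  bd : ∀ᶠ j : ℕ in atTop, ∀ i, ∀ k ∈ Finset.Icc (-(K : ℤ)) K, ‖b i j k‖ ≤ C * (j : ℝ) ^ (1 : ℝ)
  sum : ∀ᶠ j : ℕ in atTop, ∀ i, ‖f0 i j - ∑ k ∈ Finset.Icc (-(K : ℤ)) K, b i j k‖ ≤ C

variable {p : ℝ} {d : ι → ℝ} {b : ι → ℕ → ℤ → ℂ} {f0 : ι → ℕ → ℂ} {K : ℕ} {C : ℝ}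

/-- restriction of the index -/
theorem ChX.comp {ι' : Type*} (h : ChX p d b f0 K C) (φ : ι' → ι) :
    ChX p (fun i => d (φ i)) (fun i => b (φ i)) (fun i => f0 (φ i)) K C := by
  refine ⟨h.C0, ?_, ?_, ?_, ?_⟩
  · filter_upwards [h.two] with j hj i
    exact hj (φ i)
  · filter_upwards [h.par] with j hj i
    exact hj (φ i)
  · filter_upwards [h.bd] with j hj i
    exact hj (φ i)
  · filter_upwards [h.sum] with j hj i
    exact hj (φ i)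

/-- the error with a larger exponent -/
theorem ChX.mono (h : ChX p d b f0 K C) {p' : ℝ} (hp : p ≤ p') : ChX p' d b f0 K C := by
  refine ⟨h.C0, ?_, h.par, h.bd, h.sum⟩
  filter_upwards [h.two, eventually_ge_atTop 1] with j hj hj1 i k hk
  refine (hj i k hk).trans (mul_le_mul_of_nonneg_left ?_ h.C0)
  exact Real.rpow_le_rpow_of_exponent_le (by exact_mod_cast hj1) (by linarith)

/-- the coefficients, zero outside of the range -/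
def trX (K : ℕ) (b : ι → ℕ → ℤ → ℂ) (k : ℤ) (i : ι) (j : ℕ) : ℂ :=
  if k ∈ Finset.Icc (-(K : ℤ)) K then b i j k else 0

theorem ChX.two' (h : ChX p d b f0 K C) (k : ℤ) : ∀ᶠ j : ℕ in atTop, ∀ i,
    ‖trX K b k i (j + 2) * (1 - ((2 * (3 / 8 - 2 / 3 * ((k : ℝ) + d i) ^ 2) / j : ℝ) : ℂ)) -
      trX K b k i j‖ ≤ C * (j : ℝ) ^ (p - 1) := by
  filter_upwards [h.two] with j hj i
  unfold trX
  split_ifs with hk
  · exact hj i k hk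
  · rw [zero_mul, sub_zero, norm_zero]
    have := h.C0
    positivity

theorem ChX.par' (h : ChX p d b f0 K C) (hp : 0 ≤ p) (k : ℤ) : ∀ᶠ j : ℕ in atTop, ∀ i,
    ‖trX K b k i (j + 1) - (-1) ^ k * trX K b k i j‖ ≤ C * (j : ℝ) ^ p := by
  filter_upwards [h.par, eventually_ge_atTop 1] with j hj hj1 i
  have hC := h.C0
  have h1 : 1 ≤ (j : ℝ) ^ p := Real.one_le_rpow (by exact_mod_cast hj1) hp
  unfold trX
  split_ifs with hk
  · refine (hj i k hk).trans ?_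
    nlinarith
  · rw [mul_zero, sub_zero, norm_zero]
    positivity

theorem ChX.bd' (h : ChX p d b f0 K C) (k : ℤ) : ∀ᶠ j : ℕ in atTop, ∀ i,
    ‖trX K b k i j‖ ≤ C * (j : ℝ) ^ (1 : ℝ) := by
  filter_upwards [h.bd] with j hj i
  unfold trX
  split_ifs with hk
  · exact hj i k hk
  · rw [norm_zero]
    have := h.C0
    positivity

/-- the value as a sum over the kept modes, up to a contracted rest -/
theorem ChX.rest (h : ChX p d b f0 K C) (hp : 0 ≤ p) {ν' : ℝ} (hν' : 0 ≤ ν') (hνp : ν' < p)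
    (S : Finset ℤ) (hS : ∀ k : ℤ, k ∉ S → ∀ i, 3 / 8 - 2 / 3 * ((k : ℝ) + d i) ^ 2 ≤ ν') :
    ∃ B : ℝ, 0 ≤ B ∧ ∀ᶠ j : ℕ in atTop, ∀ i, ‖f0 i j - ∑ k ∈ S, trX K b k i j‖ ≤ B * (j : ℝ) ^ p := by
  have h1 : ∀ k : ℤ, k ∉ S → ∃ B : ℝ, 0 ≤ B ∧ ∀ᶠ j : ℕ in atTop, ∀ i,
      ‖trX K b k i j‖ ≤ B * (j : ℝ) ^ p := fun k hk =>
    contrX (b := trX K b k) (ν := fun i => 3 / 8 - 2 / 3 * ((k : ℝ) + d i) ^ 2) hν' hνp (hS k hk)
      (h.bd' k) (h.two' k)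
  choose! B hB0 hB using h1
  set T : Finset ℤ := Finset.Icc (-(K : ℤ)) K \ S with hT
  have hT' : ∀ k ∈ T, k ∉ S := fun k hk => (Finset.mem_sdiff.1 hk).2
  have h2 : ∀ᶠ j : ℕ in atTop, ∀ k ∈ T, ∀ i, ‖trX K b k i j‖ ≤ B k * (j : ℝ) ^ p := by
    rw [Filter.eventually_all_finset]
    exact fun k hk => hB k (hT' k hk)
  refine ⟨C + ∑ k ∈ T, B k, ?_, ?_⟩
  · exact add_nonneg h.C0 (Finset.sum_nonneg fun k hk => hB0 k (hT' k hk))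
  filter_upwards [h2, h.sum, eventually_ge_atTop 1] with j a1 a2 a3 i
  have hj1 : (1 : ℝ) ≤ j := by exact_mod_cast a3
  have hjp : 1 ≤ (j : ℝ) ^ p := Real.one_le_rpow hj1 hp
  have e1 : ∑ k ∈ Finset.Icc (-(K : ℤ)) K, b i j k =
      ∑ k ∈ S, trX K b k i j + ∑ k ∈ T, trX K b k i j := by
    have e2 : ∑ k ∈ Finset.Icc (-(K : ℤ)) K, b i j k = ∑ k ∈ Finset.Icc (-(K : ℤ)) K, trX K b k i j :=
      Finset.sum_congr rfl fun k hk => by unfold trX; rw [if_pos hk]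
    have e3 : ∑ k ∈ S, trX K b k i j = ∑ k ∈ Finset.Icc (-(K : ℤ)) K ∩ S, trX K b k i j := by
      symm
      refine Finset.sum_subset Finset.inter_subset_right fun k hk hk' => ?_
      unfold trX
      rw [if_neg]
      intro hk2
      exact hk' (Finset.mem_inter.2 ⟨hk2, hk⟩)
    rw [e2, e3, hT]
    exact (Finset.sum_inter_add_sum_sdiff _ _ _).symm
  have e4 : f0 i j - ∑ k ∈ S, trX K b k i j = (f0 i j - ∑ k ∈ Finset.Icc (-(K : ℤ)) K, b i j k) +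
      ∑ k ∈ T, trX K b k i j := by
    rw [e1]
    ring
  rw [e4]
  refine (norm_add_le _ _).trans ?_
  have e5 : ‖∑ k ∈ T, trX K b k i j‖ ≤ (∑ k ∈ T, B k) * (j : ℝ) ^ p := by
    refine (norm_sum_le _ _).trans ?_
    rw [Finset.sum_mul]
    exact Finset.sum_le_sum fun k hk => a1 k hk i
  have e6 : C ≤ C * (j : ℝ) ^ p := by
    have := h.C0
    nlinarith
  have e7 := a2 i
  rw [add_mul]
  linarith

/-- **two modes**, `2/5 ≤ d ≤ 3/5` -/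
theorem ChX.law_two (h : ChX (1 / 10) d b f0 K C) (hd : ∀ i, d i ∈ Icc (2 / 5 : ℝ) (3 / 5)) :
    ∃ (g h : ι → ℂ) (C' : ℝ), 0 ≤ C' ∧ (∀ i, ‖g i‖ ≤ C') ∧ (∀ i, ‖h i‖ ≤ C') ∧
      ∀ᶠ j : ℕ in atTop, ∀ i, ‖f0 i j - (g i * (((j : ℝ) ^ (3 / 8 - 2 / 3 * (d i) ^ 2) : ℝ) : ℂ) +
        (-1) ^ j * h i * (((j : ℝ) ^ (3 / 8 - 2 / 3 * (1 - d i) ^ 2) : ℝ) : ℂ))‖ ≤
          C' * (j : ℝ) ^ (1 / 10 : ℝ) := by
  obtain ⟨B, hB, h1⟩ := h.rest (ν' := 0) (by norm_num) le_rfl (by norm_num) {0, -1} (by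
    intro k hk i
    simp only [Finset.mem_insert, Finset.mem_singleton, not_or] at hk
    obtain ⟨d1, d2⟩ := hd i
    have h2 : (7 / 5 : ℝ) ^ 2 ≤ ((k : ℝ) + d i) ^ 2 := by
      rcases lt_or_ge k 0 with h3 | h3
      · have h4 : (k : ℝ) ≤ -2 := by
          have : k ≤ -2 := by omega
          exact_mod_cast this
        nlinarith
      · have h4 : (1 : ℝ) ≤ k := by
          have : 1 ≤ k := by omega
          exact_mod_cast this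
        nlinarith
    linarith)
  have hk1 : ∀ i, (1 / 10 : ℝ) + 7 / 200 ≤ 3 / 8 - 2 / 3 * (((0 : ℤ) : ℝ) + d i) ^ 2 := by
    intro i
    obtain ⟨d1, d2⟩ := hd i
    push_cast
    nlinarith
  have hk2 : ∀ i, (1 / 10 : ℝ) + 7 / 200 ≤ 3 / 8 - 2 / 3 * (((-1 : ℤ) : ℝ) + d i) ^ 2 := by
    intro i
    obtain ⟨d1, d2⟩ := hd i
    push_cast
    nlinarith
  have hle : ∀ (k : ℤ) (i : ι), 3 / 8 - 2 / 3 * ((k : ℝ) + d i) ^ 2 ≤ 1 := by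
    intro k i
    nlinarith [sq_nonneg ((k : ℝ) + d i)]
  obtain ⟨g, C1, hC1, hg, h2⟩ := keptX (b := trX K b 0) (σ := 1) (Or.inl rfl) (p := 1 / 10)
    (δ := 7 / 200) (e := 1) (by norm_num) (by norm_num) hk1 (hle 0) (by norm_num) (h.two' 0) (h.bd' 0)
    (by
      have := h.par' (by norm_num) 0
      rw [zpow_zero] at this
      exact this)
  obtain ⟨g', C2, hC2, hg', h3⟩ := keptX (b := trX K b (-1)) (σ := -1) (Or.inr rfl) (p := 1 / 10)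
    (δ := 7 / 200) (e := 1) (by norm_num) (by norm_num) hk2 (hle (-1)) (by norm_num) (h.two' (-1))
    (h.bd' (-1)) (by
      have := h.par' (by norm_num) (-1)
      rw [show ((-1 : ℂ)) ^ (-1 : ℤ) = -1 by norm_num] at this
      exact this)
  refine ⟨g, g', B + C1 + C2, by positivity, fun i => by linarith [hg i], fun i => by linarith [hg' i], ?_⟩
  filter_upwards [h1, h2, h3] with j a1 a2 a3 i
  have b1 := a1 i
  have b2 := a2 i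
  have b3 := a3 i
  rw [Finset.sum_pair (by norm_num)] at b1
  rw [one_pow, mul_one] at b2
  have e1 : (((0 : ℤ) : ℝ) + d i) ^ 2 = d i ^ 2 := by push_cast; ring
  have e2 : (((-1 : ℤ) : ℝ) + d i) ^ 2 = (1 - d i) ^ 2 := by push_cast; ring
  rw [e1] at b2
  rw [e2] at b3
  have e3 : f0 i j - (g i * (((j : ℝ) ^ (3 / 8 - 2 / 3 * (d i) ^ 2) : ℝ) : ℂ) +
        (-1) ^ j * g' i * (((j : ℝ) ^ (3 / 8 - 2 / 3 * (1 - d i) ^ 2) : ℝ) : ℂ)) =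
      (f0 i j - (trX K b 0 i j + trX K b (-1) i j)) +
      (trX K b 0 i j - g i * (((j : ℝ) ^ (3 / 8 - 2 / 3 * (d i) ^ 2) : ℝ) : ℂ)) +
      (trX K b (-1) i j - g' i * (-1) ^ j * (((j : ℝ) ^ (3 / 8 - 2 / 3 * (1 - d i) ^ 2) : ℝ) : ℂ)) := by
    ring
  rw [e3]
  refine (norm_add₃_le).trans ?_
  rw [add_mul, add_mul]
  linarith

/-- **one mode**, `|d| ≤ 2/5` -/
theorem ChX.law_one (h : ChX (1 / 10) d b f0 K C) (hd : ∀ i, |d i| ≤ 2 / 5) :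
    ∃ (g : ι → ℂ) (C' : ℝ), 0 ≤ C' ∧ (∀ i, ‖g i‖ ≤ C') ∧
      ∀ᶠ j : ℕ in atTop, ∀ i, ‖f0 i j - g i * (((j : ℝ) ^ (3 / 8 - 2 / 3 * (d i) ^ 2) : ℝ) : ℂ)‖ ≤
          C' * (j : ℝ) ^ (3 / 20 : ℝ) := by
  have h' : ChX (3 / 20) d b f0 K C := h.mono (by norm_num)
  obtain ⟨B, hB, h1⟩ := h'.rest (ν' := 27 / 200) (by norm_num) (by norm_num) (by norm_num) {0} (by
    intro k hk i
    simp only [Finset.mem_singleton] at hk
    obtain ⟨d1, d2⟩ := abs_le.1 (hd i)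
    have h2 : (3 / 5 : ℝ) ^ 2 ≤ ((k : ℝ) + d i) ^ 2 := by
      rcases lt_or_ge k 0 with h3 | h3
      · have h4 : (k : ℝ) ≤ -1 := by
          have : k ≤ -1 := by omega
          exact_mod_cast this
        nlinarith
      · have h4 : (1 : ℝ) ≤ k := by
          have : 1 ≤ k := by omega
          exact_mod_cast this
        nlinarith
    linarith)
  have hk1 : ∀ i, (3 / 20 : ℝ) + 7 / 200 ≤ 3 / 8 - 2 / 3 * (((0 : ℤ) : ℝ) + d i) ^ 2 := by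
    intro i
    obtain ⟨d1, d2⟩ := abs_le.1 (hd i)
    push_cast
    nlinarith
  have hle : ∀ (i : ι), 3 / 8 - 2 / 3 * (((0 : ℤ) : ℝ) + d i) ^ 2 ≤ 1 := by
    intro i
    nlinarith [sq_nonneg (((0 : ℤ) : ℝ) + d i)]
  obtain ⟨g, C1, hC1, hg, h2⟩ := keptX (b := trX K b 0) (σ := 1) (Or.inl rfl) (p := 3 / 20)
    (δ := 7 / 200) (e := 1) (by norm_num) (by norm_num) hk1 hle (by norm_num) (h'.two' 0) (h'.bd' 0)
    (by
      have := h'.par' (by norm_num) 0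
      rw [zpow_zero] at this
      exact this)
  refine ⟨g, B + C1, by positivity, fun i => by linarith [hg i], ?_⟩
  filter_upwards [h1, h2] with j a1 a2 i
  have b1 := a1 i
  have b2 := a2 i
  rw [Finset.sum_singleton] at b1
  rw [one_pow, mul_one] at b2
  have e1 : (((0 : ℤ) : ℝ) + d i) ^ 2 = d i ^ 2 := by push_cast; ring
  rw [e1] at b2
  have e3 : f0 i j - g i * (((j : ℝ) ^ (3 / 8 - 2 / 3 * (d i) ^ 2) : ℝ) : ℂ) =
      (f0 i j - trX K b 0 i j) +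
      (trX K b 0 i j - g i * (((j : ℝ) ^ (3 / 8 - 2 / 3 * (d i) ^ 2) : ℝ) : ℂ)) := by
    ring
  rw [e3]
  refine (norm_add_le _ _).trans ?_
  rw [add_mul]
  linarith

/-! ### real functions, all sizes -/

theorem div_out {κ X C1 Y : ℝ} (hκ : 0 < κ) (h : κ * X ≤ C1 * Y) : X ≤ C1 / κ * Y := by
  have e : C1 / κ * Y = C1 * Y / κ := by ring
  rw [e, le_div_iff₀ hκ, mul_comm]
  exact h

/-- **the two-mode law of a real function, all sizes** -/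
theorem two_real {F : ℝ → ℕ → ℝ} {κ : ℝ} (hκ : 0 < κ) {b : {d : ℝ // |d| ≤ 3 / 5} → ℕ → ℤ → ℂ}
    (h : ChX (1 / 10) (fun i => i.1) b (fun i j => ((κ * F i.1 j : ℝ) : ℂ)) K C)
    (hF : ∀ N : ℕ, 1 ≤ N → ∃ B : ℝ, ∀ d : ℝ, |F d N| ≤ B) :
    ∃ (G H : ℝ → ℝ) (C' : ℝ), 0 ≤ C' ∧ ∀ N : ℕ, 1 ≤ N → ∀ d ∈ Icc (2 / 5 : ℝ) (3 / 5),
      |F d N - (G d * (N : ℝ) ^ (3 / 8 - 2 / 3 * d ^ 2) +
        (-1) ^ N * H d * (N : ℝ) ^ (3 / 8 - 2 / 3 * (1 - d) ^ 2))| ≤ C' * (N : ℝ) ^ (1 / 10 : ℝ) := by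
  have h1 := h.comp (ι' := Icc (2 / 5 : ℝ) (3 / 5)) (fun i => ⟨i.1, by
    rw [abs_le]
    constructor <;> linarith [i.2.1, i.2.2]⟩)
  obtain ⟨g, g', C1, hC1, hg, hg', h2⟩ := h1.law_two (fun i => i.2)
  have h3 := all_of_evX (ι := Icc (2 / 5 : ℝ) (3 / 5)) (p := 1 / 10) (C := C1 / κ)
    (A := fun i j => F i.1 j - ((g i).re / κ * (j : ℝ) ^ (3 / 8 - 2 / 3 * i.1 ^ 2) +
        (-1) ^ j * ((g' i).re / κ) * (j : ℝ) ^ (3 / 8 - 2 / 3 * (1 - i.1) ^ 2))) ?_ ?_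
  · obtain ⟨C', hC', h4⟩ := h3
    refine ⟨fun d => if hd : d ∈ Icc (2 / 5 : ℝ) (3 / 5) then (g ⟨d, hd⟩).re / κ else 0,
      fun d => if hd : d ∈ Icc (2 / 5 : ℝ) (3 / 5) then (g' ⟨d, hd⟩).re / κ else 0, C', hC',
      fun N hN d hd => ?_⟩
    simp only [dif_pos hd]
    exact h4 N hN ⟨d, hd⟩
  · filter_upwards [h2] with j hj i
    have e1 := hj i
    have e2 := (Complex.abs_re_le_norm _).trans e1
    have e3 : ((((κ * F i.1 j : ℝ) : ℂ)) - (g i * (((j : ℝ) ^ (3 / 8 - 2 / 3 * i.1 ^ 2) : ℝ) : ℂ) +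
        (-1) ^ j * g' i * (((j : ℝ) ^ (3 / 8 - 2 / 3 * (1 - i.1) ^ 2) : ℝ) : ℂ))).re =
        κ * (F i.1 j - ((g i).re / κ * (j : ℝ) ^ (3 / 8 - 2 / 3 * i.1 ^ 2) +
        (-1) ^ j * ((g' i).re / κ) * (j : ℝ) ^ (3 / 8 - 2 / 3 * (1 - i.1) ^ 2))) := by
      have e4 : ((-1 : ℂ) ^ j * g' i * (((j : ℝ) ^ (3 / 8 - 2 / 3 * (1 - i.1) ^ 2) : ℝ) : ℂ)) =
          (((-1 : ℝ) ^ j * (j : ℝ) ^ (3 / 8 - 2 / 3 * (1 - i.1) ^ 2) : ℝ) : ℂ) * g' i := by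
        push_cast
        ring
      rw [e4, Complex.sub_re, Complex.add_re, Complex.ofReal_re, Complex.re_mul_ofReal,
        Complex.re_ofReal_mul]
      field_simp
    rw [e3, abs_mul, abs_of_pos hκ] at e2
    exact div_out hκ e2
  · intro j hj
    obtain ⟨B, hB⟩ := hF j hj
    have hj1 : (1 : ℝ) ≤ j := by exact_mod_cast hj
    refine ⟨B + (C1 / κ * (j : ℝ) ^ (1 : ℝ) + C1 / κ * (j : ℝ) ^ (1 : ℝ)), fun i => ?_⟩
    have p1 : ∀ x : ℝ, 0 ≤ (j : ℝ) ^ (3 / 8 - 2 / 3 * x ^ 2) ∧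
        (j : ℝ) ^ (3 / 8 - 2 / 3 * x ^ 2) ≤ (j : ℝ) ^ (1 : ℝ) := fun x =>
      ⟨by positivity, Real.rpow_le_rpow_of_exponent_le hj1 (by nlinarith [sq_nonneg x])⟩
    have p2 : |(g i).re / κ * (j : ℝ) ^ (3 / 8 - 2 / 3 * i.1 ^ 2)| ≤ C1 / κ * (j : ℝ) ^ (1 : ℝ) := by
      rw [abs_mul, abs_div, abs_of_pos hκ, abs_of_nonneg (p1 i.1).1]
      have := (Complex.abs_re_le_norm (g i)).trans (hg i)
      have := (p1 i.1).2
      gcongr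
    have p3 : |(-1) ^ j * ((g' i).re / κ) * (j : ℝ) ^ (3 / 8 - 2 / 3 * (1 - i.1) ^ 2)| ≤
        C1 / κ * (j : ℝ) ^ (1 : ℝ) := by
      rw [abs_mul, abs_mul, abs_pow, abs_neg, abs_one, one_pow, one_mul, abs_div, abs_of_pos hκ,
        abs_of_nonneg (p1 (1 - i.1)).1]
      have := (Complex.abs_re_le_norm (g' i)).trans (hg' i)
      have := (p1 (1 - i.1)).2
      gcongr
    refine (abs_sub _ _).trans ?_
    exact add_le_add (hB i.1) ((abs_add_le _ _).trans (add_le_add p2 p3))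

/-- **the one-mode law of a real function, all sizes** -/
theorem one_real {F : ℝ → ℕ → ℝ} {κ : ℝ} (hκ : 0 < κ) {b : {d : ℝ // |d| ≤ 3 / 5} → ℕ → ℤ → ℂ}
    (h : ChX (1 / 10) (fun i => i.1) b (fun i j => ((κ * F i.1 j : ℝ) : ℂ)) K C)
    (hF : ∀ N : ℕ, 1 ≤ N → ∃ B : ℝ, ∀ d : ℝ, |F d N| ≤ B) :
    ∃ (G : ℝ → ℝ) (C' : ℝ), 0 ≤ C' ∧ ∀ N : ℕ, 1 ≤ N → ∀ d : ℝ, |d| ≤ 2 / 5 →
      |F d N - G d * (N : ℝ) ^ (3 / 8 - 2 / 3 * d ^ 2)| ≤ C' * (N : ℝ) ^ (3 / 20 : ℝ) := by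
  have h1 := h.comp (ι' := {d : ℝ // |d| ≤ 2 / 5}) (fun i => ⟨i.1, i.2.trans (by norm_num)⟩)
  obtain ⟨g, C1, hC1, hg, h2⟩ := h1.law_one (fun i => i.2)
  have h3 := all_of_evX (ι := {d : ℝ // |d| ≤ 2 / 5}) (p := 3 / 20) (C := C1 / κ)
    (A := fun i j => F i.1 j - (g i).re / κ * (j : ℝ) ^ (3 / 8 - 2 / 3 * i.1 ^ 2)) ?_ ?_
  · obtain ⟨C', hC', h4⟩ := h3
    refine ⟨fun d => if hd : |d| ≤ 2 / 5 then (g ⟨d, hd⟩).re / κ else 0, C', hC', fun N hN d hd => ?_⟩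
    simp only [dif_pos hd]
    exact h4 N hN ⟨d, hd⟩
  · filter_upwards [h2] with j hj i
    have e1 := hj i
    have e2 := (Complex.abs_re_le_norm _).trans e1
    have e3 : ((((κ * F i.1 j : ℝ) : ℂ)) - g i * (((j : ℝ) ^ (3 / 8 - 2 / 3 * i.1 ^ 2) : ℝ) : ℂ)).re =
        κ * (F i.1 j - (g i).re / κ * (j : ℝ) ^ (3 / 8 - 2 / 3 * i.1 ^ 2)) := by
      rw [Complex.sub_re, Complex.ofReal_re, Complex.re_mul_ofReal]
      field_simp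
    rw [e3, abs_mul, abs_of_pos hκ] at e2
    exact div_out hκ e2
  · intro j hj
    obtain ⟨B, hB⟩ := hF j hj
    have hj1 : (1 : ℝ) ≤ j := by exact_mod_cast hj
    refine ⟨B + C1 / κ * (j : ℝ) ^ (1 : ℝ), fun i => ?_⟩
    have p1 : 0 ≤ (j : ℝ) ^ (3 / 8 - 2 / 3 * i.1 ^ 2) := by positivity
    have p1' : (j : ℝ) ^ (3 / 8 - 2 / 3 * i.1 ^ 2) ≤ (j : ℝ) ^ (1 : ℝ) :=
      Real.rpow_le_rpow_of_exponent_le hj1 (by nlinarith [sq_nonneg i.1])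
    have p2 : |(g i).re / κ * (j : ℝ) ^ (3 / 8 - 2 / 3 * i.1 ^ 2)| ≤ C1 / κ * (j : ℝ) ^ (1 : ℝ) := by
      rw [abs_mul, abs_div, abs_of_pos hκ, abs_of_nonneg p1]
      have := (Complex.abs_re_le_norm (g i)).trans (hg i)
      gcongr
    refine (abs_sub _ _).trans ?_
    exact add_le_add (hB i.1) p2

end WX

end
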