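import Pool.Agent.WX.CylPgDef
import Pool.Agent.PB.CylPub
import Pool.Agent.PLW.CylRev

/-!
# Plan X, (d): the polygons of the cylinder, oriented and not (helper39): geometry

`phi E` is the set of the edges (without direction) of an oriented polygon `E` of `PLW`.
* `phi_poly`: it is a polygon of the public definition, with as many edges;
* `phi_surj`: every polygon of the public definition is `phi E`;
* `phi_fib`: `phi E = phi E'` if and only if `E' = E` or `E'` is `E` in the other orientation, and these differ.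
-/

set_option autoImplicit false

namespace Pool.Agent.CylSaw

open HexObs HexObs.LP
open Pool.Agent.NUF.Cyl (Nm Cy ri nmN tr ri_tr CPoly IsCPoly cpe ceg crE ds_per)

variable {N : ℕ}

/-- the edge without direction. -/
def ed (N : ℕ) (q : Pt × Pt) : Sym2 (V N) := s(ps N q.1, ps N (q.1 + q.2))

open Classical in
/-- the edges of an oriented polygon without direction. -/
noncomputable def phi (N : ℕ) (E : Finset (Pt × Pt)) : Finset (Sym2 (V N)) := E.image (ed N)

theorem ps_nm_add (hN : 1 ≤ N) (v d : Pt) : ps N ((Cy N hN).nm v + d) = ps N (v + d) := by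
  rw [← ps_nm hN ((Cy N hN).nm v + d), (Cy N hN).add, ps_nm]

theorem ed_nm (hN : 1 ≤ N) (v d : Pt) : ed N ((Cy N hN).nm v, d) = s(ps N v, ps N (v + d)) := by
  unfold ed
  simp only
  rw [ps_nm, ps_nm_add]

theorem ed_rv (hN : 1 ≤ N) (q : Pt × Pt) : ed N ((Cy N hN).rv q) = ed N q := by
  unfold Nm.rv Nm.nb
  rw [ed_nm, add_neg_cancel_right]
  exact Sym2.eq_swap

theorem De_nm (hN : 1 ≤ N) {v d : Pt} (h : De (v, d)) : De ((Cy N hN).nm v, d) := by
  obtain ⟨h1, h2, h3⟩ := h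
  simp only at h1 h2 h3
  refine ⟨h1, ?_, ?_⟩
  · show Vt ((Cy N hN).nm v)
    unfold Vt at h2 ⊢
    rw [(Cy N hN).cl]
    exact h2
  · show Vt ((Cy N hN).nm v + d)
    unfold Vt at h3 ⊢
    rw [cl_add, (Cy N hN).cl, ← cl_add]
    exact h3

theorem De_rv (hN : 1 ≤ N) {q : Pt × Pt} (h : De q) : De ((Cy N hN).rv q) := by
  have h1 : De (q.1 + q.2, -q.2) := de_back (u := q.1) (d0 := q.2) h
  exact De_nm hN h1

/-- two directed edges over the same edge. -/
theorem ed_inj (hN : 1 ≤ N) (h2 : 2 ≤ N) {q q' : Pt × Pt} (h : De q) (h' : De q')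
    (e : (Cy N hN).nm q.1 = q.1) (e' : (Cy N hN).nm q'.1 = q'.1) (hh : ed N q = ed N q') :
    q = q' ∨ q = (Cy N hN).rv q' := by
  have key : ∀ p p' : Pt × Pt, De p → De p' → (Cy N hN).nm p.1 = p.1 → (Cy N hN).nm p'.1 = p'.1 →
      ps N p.1 = ps N p'.1 → ps N (p.1 + p.2) = ps N (p'.1 + p'.2) → p = p' := by
    intro p p' a a' b b' c c'
    have h3 : p.1 = p'.1 := by
      rw [← b, ← b']
      exact nm_of_ps hN a.2.1 a'.2.1 c
    have h4 : De (p.1, p'.2) := by
      rw [h3]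
      exact a'
    have h5 : p.2 = p'.2 := dir_inj h2 a h4 (by rw [c', h3])
    exact Prod.ext h3 h5
  unfold ed at hh
  rw [Sym2.eq_iff] at hh
  rcases hh with ⟨h3, h4⟩ | ⟨h3, h4⟩
  · exact Or.inl (key _ _ h h' e e' h3 h4)
  · refine Or.inr (key _ _ h (De_rv hN h') e ((Cy N hN).idem _) ?_ ?_)
    · rw [h3]
      unfold Nm.rv Nm.nb
      simp only
      rw [ps_nm]
    · rw [h4]
      unfold Nm.rv Nm.nb
      simp only
      rw [ps_nm_add, add_neg_cancel_right]

/-! ### one oriented polygon -/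

section one

variable {hN : 1 ≤ N} {v d : Pt} {τ : ℕ → Bool} {m : ℕ}

theorem cp_de (h : CPoly (Cy N hN) v d τ m) (i : ℕ) : De (vs v d τ i, ds d τ i) := by
  induction i with
  | zero => exact h.de
  | succ i ih =>
    rw [vs_succ, ds_succ]
    exact de_turn ih _

theorem cp_ds (h : CPoly (Cy N hN) v d τ m) (i : ℕ) : ds d τ (i + m) = ds d τ i := by
  rw [add_comm]
  exact ds_per h.per h.cld i

theorem cp_vs (h : CPoly (Cy N hN) v d τ m) (i : ℕ) :
    (Cy N hN).nm (vs v d τ (i + m)) = (Cy N hN).nm (vs v d τ i) := by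
  induction i with
  | zero =>
    rw [zero_add]
    exact h.clv
  | succ i ih =>
    rw [show i + 1 + m = (i + m) + 1 by ring, vs_succ, vs_succ, ← (Cy N hN).add, ih, cp_ds h,
      (Cy N hN).add]

theorem cp_mod (h : CPoly (Cy N hN) v d τ m) (i : ℕ) :
    (Cy N hN).nm (vs v d τ (i % m)) = (Cy N hN).nm (vs v d τ i) ∧ ds d τ (i % m) = ds d τ i := by
  have key : ∀ a b : ℕ, (Cy N hN).nm (vs v d τ (b + m * a)) = (Cy N hN).nm (vs v d τ b) ∧
      ds d τ (b + m * a) = ds d τ b := by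
    intro a b
    induction a with
    | zero => exact ⟨rfl, rfl⟩
    | succ a ih =>
      rw [show b + m * (a + 1) = (b + m * a) + m by ring, cp_vs h, cp_ds h]
      exact ih
  have h1 := key (i / m) (i % m)
  rw [Nat.mod_add_div] at h1
  exact ⟨h1.1.symm, h1.2.symm⟩

theorem cp_ceg (h : CPoly (Cy N hN) v d τ m) (i : ℕ) :
    ceg (Cy N hN) v d τ (i % m) = ceg (Cy N hN) v d τ i := by
  unfold ceg
  rw [(cp_mod h i).1, (cp_mod h i).2]

theorem cp_mem (h : CPoly (Cy N hN) v d τ m) (i : ℕ) :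
    ceg (Cy N hN) v d τ i ∈ cpe (Cy N hN) v d τ m := by
  unfold cpe
  rw [Finset.mem_image]
  exact ⟨i % m, Finset.mem_range.2 (Nat.mod_lt _ h.pos), cp_ceg h i⟩

theorem cp_inj (h : CPoly (Cy N hN) v d τ m) {i j : ℕ}
    (e : (Cy N hN).nm (vs v d τ i) = (Cy N hN).nm (vs v d τ j)) : i % m = j % m := by
  rw [← (cp_mod h i).1, ← (cp_mod h j).1] at e
  rcases lt_trichotomy (i % m) (j % m) with h1 | h1 | h1
  · exact absurd e (h.inj _ _ h1 (Nat.mod_lt _ h.pos))
  · exact h1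
  · exact absurd e.symm (h.inj _ _ h1 (Nat.mod_lt _ h.pos))

theorem cp_deg (h : CPoly (Cy N hN) v d τ m) (i : ℕ) : De (ceg (Cy N hN) v d τ i) :=
  De_nm hN (cp_de h i)

theorem cp_back (h : CPoly (Cy N hN) v d τ m) {i j : ℕ} :
    ceg (Cy N hN) v d τ i ≠ (Cy N hN).rv (ceg (Cy N hN) v d τ j) := by
  intro e
  unfold ceg Nm.rv Nm.nb at e
  simp only [Prod.mk.injEq] at e
  obtain ⟨e1, e2⟩ := e
  rw [(Cy N hN).add, ← vs_succ] at e1
  have h1 := cp_inj h e1
  have h3 := (cp_mod h i).2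
  have h4 := (cp_mod h (j + 1)).2
  rw [h1] at h3
  rw [← h3, h4, ds_succ] at e2
  exact turn_ne' _ (ds_mem h.de.1 _) _ e2

theorem cp_ed (h : CPoly (Cy N hN) v d τ m) (i : ℕ) :
    ed N (ceg (Cy N hN) v d τ i) = s(ps N (vs v d τ i), ps N (vs v d τ (i + 1))) := by
  unfold ceg
  rw [ed_nm, vs_succ]

theorem cp_psinj (h : CPoly (Cy N hN) v d τ m) {i j : ℕ}
    (e : ps N (vs v d τ i) = ps N (vs v d τ j)) : i % m = j % m :=
  cp_inj h (nm_of_ps hN (cp_de h i).2.1 (cp_de h j).2.1 e)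

theorem cp_ps (h : CPoly (Cy N hN) v d τ m) (i : ℕ) :
    ps N (vs v d τ (i % m)) = ps N (vs v d τ i) := by
  rw [← ps_nm hN (vs v d τ (i % m)), (cp_mod h i).1, ps_nm]

theorem cp_three (h2 : 2 ≤ N) (h : CPoly (Cy N hN) v d τ m) : 3 ≤ m := by
  have hp := h.pos
  by_contra hlt
  have h12 : m = 1 ∨ m = 2 := by omega
  rcases h12 with rfl | rfl
  · have h3 := adj_step N (cp_de h 0)
    have h4 : ps N (vs v d τ 1) = ps N (vs v d τ 0) := by
      rw [← ps_nm hN (vs v d τ 1), h.clv, ps_nm]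
      rfl
    rw [← vs_succ, h4] at h3
    exact (cyl N).loopless.irrefl _ h3
  · have h4 : ps N (vs v d τ 2) = ps N (vs v d τ 0) := by
      rw [← ps_nm hN (vs v d τ 2), h.clv, ps_nm]
      rfl
    have h5 := cp_de h 1
    have h6 : De (vs v d τ 1, -ds d τ 0) := de_back (cp_de h 0)
    have h7 : ds d τ 1 = -ds d τ 0 := by
      refine dir_inj h2 h5 h6 ?_
      have e1 : vs v d τ 1 + ds d τ 1 = vs v d τ 2 := (vs_succ 1).symm
      have e2 : vs v d τ 1 + -ds d τ 0 = vs v d τ 0 := by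
        rw [vs_succ, add_neg_cancel_right]
      rw [e1, e2, h4]
    rw [ds_succ] at h7
    exact turn_ne' _ (ds_mem h.de.1 _) _ h7

/-- the map to the edges is injective on a polygon. -/
theorem cp_edinj (h2 : 2 ≤ N) (h : CPoly (Cy N hN) v d τ m) :
    Set.InjOn (ed N) (cpe (Cy N hN) v d τ m : Set (Pt × Pt)) := by
  intro q hq q' hq' e
  rw [Finset.mem_coe] at hq hq'
  unfold cpe at hq hq'
  rw [Finset.mem_image] at hq hq'
  obtain ⟨i, -, rfl⟩ := hq
  obtain ⟨j, -, rfl⟩ := hq'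
  rcases ed_inj hN h2 (cp_deg h i) (cp_deg h j) ((Cy N hN).idem _) ((Cy N hN).idem _) e with h3 | h3
  · exact h3
  · exact absurd h3 (cp_back h)

theorem cp_card (h : CPoly (Cy N hN) v d τ m) : (cpe (Cy N hN) v d τ m).card = m := by
  unfold cpe
  rw [Finset.card_image_of_injOn, Finset.card_range]
  intro i hi j hj e
  rw [Finset.mem_coe, Finset.mem_range] at hi hj
  have h1 := cp_inj h (i := i) (j := j) (congrArg Prod.fst e)
  rwa [Nat.mod_eq_of_lt hi, Nat.mod_eq_of_lt hj] at h1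

end one

end Pool.Agent.CylSaw
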