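import Pool.Agent.WX.CylPgA

/-!
# Plan X, (d): the polygons of the cylinder, oriented and not (helper39): the dictionary
-/

set_option autoImplicit false

namespace Pool.Agent.CylSaw

open HexObs HexObs.LP
open Pool.Agent.NUF.Cyl (Nm Cy ri nmN tr ri_tr CPoly IsCPoly cpe ceg crE ds_per crE_crE)

variable {N : ℕ}

theorem phi_cp {hN : 1 ≤ N} {v d : Pt} {τ : ℕ → Bool} {m : ℕ} (h : CPoly (Cy N hN) v d τ m) :
    (phi N (cpe (Cy N hN) v d τ m) : Set (Sym2 (V N))) =
      Set.range fun i : ℕ => s(ps N (vs v d τ i), ps N (vs v d τ (i + 1))) := by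
  ext x
  rw [Finset.mem_coe]
  unfold phi
  rw [Finset.mem_image, Set.mem_range]
  constructor
  · rintro ⟨q, hq, rfl⟩
    unfold cpe at hq
    rw [Finset.mem_image] at hq
    obtain ⟨i, -, rfl⟩ := hq
    exact ⟨i, (cp_ed h i).symm⟩
  · rintro ⟨i, rfl⟩
    exact ⟨_, cp_mem h i, cp_ed h i⟩

/-- **the edges of an oriented polygon are a polygon** -/
theorem phi_poly {hN : 1 ≤ N} (h2 : 2 ≤ N) {E : Finset (Pt × Pt)} (h : IsCPoly (Cy N hN) E) :
    Polygon (phi N E) ∧ (phi N E).card = E.card := by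
  obtain ⟨v, d, τ, m, hc, rfl⟩ := h
  have hm := cp_three h2 hc
  haveI : NeZero m := ⟨by omega⟩
  refine ⟨⟨m, hm, fun i => ps N (vs v d τ i.val), ?_, ?_, ?_⟩, ?_⟩
  · intro i j e
    have h1 := cp_psinj hc e
    rw [Nat.mod_eq_of_lt (ZMod.val_lt i), Nat.mod_eq_of_lt (ZMod.val_lt j)] at h1
    exact ZMod.val_injective m h1
  · intro i
    have h1 := adj_step N (cp_de hc i.val)
    rw [← vs_succ] at h1
    have e : ps N (vs v d τ (i + 1).val) = ps N (vs v d τ (i.val + 1)) := by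
      rw [← cp_ps hc (i.val + 1), ZMod.val_add, ZMod.val_one_eq_one_mod, Nat.add_mod_mod]
    simp only [e]
    exact h1
  · rw [phi_cp hc]
    ext x
    rw [Set.mem_range, Set.mem_range]
    constructor
    · rintro ⟨i, rfl⟩
      refine ⟨(i : ZMod m), ?_⟩
      have e1 : ((i : ZMod m)).val = i % m := ZMod.val_natCast m i
      have e2 : ((i : ZMod m) + 1).val = (i + 1) % m := by
        rw [← Nat.cast_one, ← Nat.cast_add, ZMod.val_natCast]
      simp only [e1, e2]
      rw [cp_ps hc, cp_ps hc]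
    · rintro ⟨i, rfl⟩
      refine ⟨i.val, ?_⟩
      have e : ps N (vs v d τ (i + 1).val) = ps N (vs v d τ (i.val + 1)) := by
        rw [← cp_ps hc (i.val + 1), ZMod.val_add, ZMod.val_one_eq_one_mod, Nat.add_mod_mod]
      simp only [e]
  · unfold phi
    exact Finset.card_image_of_injOn (cp_edinj h2 hc)

/-- a vertex of the lattice over a vertex of the cylinder. -/
theorem ps_surj (hN : 1 ≤ N) (x : V N) : ∃ v, Vt v ∧ ps N v = x := by
  haveI : NeZero N := ⟨by omega⟩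
  obtain ⟨j, r, b⟩ := x
  cases b
  · refine ⟨_root_.EXL.A j (r.val : ℤ), Vt_A' _ _, ?_⟩
    rw [ps_A, Int.cast_natCast, ZMod.natCast_zmod_val]
  · refine ⟨_root_.EXL.B j (r.val : ℤ), Vt_B' _ _, ?_⟩
    rw [ps_B, Int.cast_natCast, ZMod.natCast_zmod_val]

/-- the direction of an edge of the cylinder does not depend on the vertex above. -/
theorem dir_ex (hN : 1 ≤ N) (h2 : 2 ≤ N) {x y : V N} (h : (cyl N).Adj x y) :
    ∃ d, ∀ v, Vt v → ps N v = x → De (v, d) ∧ ps N (v + d) = y := by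
  obtain ⟨v0, hv0, rfl⟩ := ps_surj hN x
  obtain ⟨d, hd, rfl⟩ := adj_lift N hv0 h
  refine ⟨d, fun v hv e => ?_⟩
  have h1 := nm_of_ps hN hv hv0 e
  have h3 : De (v, d) := by
    obtain ⟨a1, a2, a3⟩ := hd
    simp only at a1 a2 a3
    refine ⟨a1, hv, ?_⟩
    show Vt (v + d)
    unfold Vt at a3 ⊢
    rw [cl_add] at a3 ⊢
    have e1 := congrArg cl h1
    rw [(Cy N hN).cl, (Cy N hN).cl] at e1
    rw [e1]
    exact a3
  refine ⟨h3, ?_⟩
  rw [← ps_nm_add hN, h1, ps_nm_add]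

/-- **every polygon comes from an oriented polygon** -/
theorem phi_surj {hN : 1 ≤ N} (h2 : 2 ≤ N) {F : Finset (Sym2 (V N))} (h : Polygon F) :
    ∃ E, IsCPoly (Cy N hN) E ∧ phi N E = F := by
  obtain ⟨n, hn, w, hw, ha, hF⟩ := h
  haveI : NeZero n := ⟨by omega⟩
  choose D hD using fun i : ZMod n => dir_ex hN h2 (ha i)
  -- the turns
  have hT : ∀ i : ZMod n, ∃ b : Bool, D (i + 1) = turn b (D i) := by
    intro i
    obtain ⟨v, hv, hvi⟩ := ps_surj hN (w i)
    obtain ⟨h1, h3⟩ := hD i v hv hvi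
    obtain ⟨h4, h5⟩ := hD (i + 1) (v + D i) h1.2.2 h3
    rcases step_cases h1 h4 with h6 | h6
    · exfalso
      rw [h6, add_neg_cancel_right, hvi] at h5
      have h7 := hw h5
      have h8 : ((1 : ZMod n) + 1) = 0 := by linear_combination -h7
      have h9 : ((2 : ℕ) : ZMod n) = 0 := by
        push_cast
        rw [← h8]
        ring
      rw [ZMod.natCast_eq_zero_iff] at h9
      have := Nat.le_of_dvd (by norm_num) h9
      omega
    · exact h6
  choose T hT using hT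
  obtain ⟨v0, hv0, e0⟩ := ps_surj hN (w 0)
  set τ : ℕ → Bool := fun i => T (i : ZMod n) with hτ
  have key : ∀ i : ℕ, ds (D 0) τ i = D (i : ZMod n) ∧ Vt (vs v0 (D 0) τ i) ∧
      ps N (vs v0 (D 0) τ i) = w (i : ZMod n) := by
    intro i
    induction i with
    | zero =>
      rw [Nat.cast_zero]
      exact ⟨rfl, hv0, e0⟩
    | succ i ih =>
      obtain ⟨h1, h3, h4⟩ := ih
      obtain ⟨h5, h6⟩ := hD (i : ZMod n) _ h3 h4
      rw [vs_succ, ds_succ, h1]
      push_cast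
      exact ⟨(hT _).symm, h5.2.2, h6⟩
  have hc : CPoly (Cy N hN) v0 (D 0) τ n := by
    refine ⟨by omega, ?_, ?_, ?_, ?_, ?_⟩
    · have := key 0
      rw [Nat.cast_zero] at this
      exact (hD 0 v0 hv0 e0).1
    · intro i
      simp only [hτ]
      push_cast
      rw [ZMod.natCast_self, add_zero]
    · have h1 := key n
      rw [ZMod.natCast_self] at h1
      refine nm_of_ps hN h1.2.1 hv0 ?_
      rw [h1.2.2, e0]
    · have h1 := (key n).1
      rw [ZMod.natCast_self] at h1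
      exact h1
    · intro i j hij hj e
      have h1 : ps N (vs v0 (D 0) τ i) = ps N (vs v0 (D 0) τ j) := by
        rw [← ps_nm hN, e, ps_nm]
      rw [(key i).2.2, (key j).2.2] at h1
      have h3 := hw h1
      rw [ZMod.natCast_eq_natCast_iff'] at h3
      rw [Nat.mod_eq_of_lt (by omega), Nat.mod_eq_of_lt hj] at h3
      omega
  refine ⟨_, ⟨v0, D 0, τ, n, hc, rfl⟩, ?_⟩
  rw [← Finset.coe_inj, phi_cp hc, hF]
  ext x
  rw [Set.mem_range, Set.mem_range]
  constructor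
  · rintro ⟨i, rfl⟩
    refine ⟨(i : ZMod n), ?_⟩
    have h1 := (key (i + 1)).2.2
    push_cast at h1
    rw [(key i).2.2, h1]
  · rintro ⟨i, rfl⟩
    refine ⟨i.val, ?_⟩
    have h1 := (key (i.val + 1)).2.2
    push_cast at h1
    rw [ZMod.natCast_zmod_val] at h1
    have h3 := (key i.val).2.2
    rw [ZMod.natCast_zmod_val] at h3
    rw [h1, h3]

/-! ### the two orientations -/

theorem phi_rev {hN : 1 ≤ N} (E : Finset (Pt × Pt)) : phi N (crE (Cy N hN) E) = phi N E := by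
  unfold phi crE
  rw [Finset.image_image]
  refine Finset.image_congr fun q _ => ?_
  exact ed_rv hN q

theorem rev_ne {hN : 1 ≤ N} {E : Finset (Pt × Pt)} (h : IsCPoly (Cy N hN) E) : crE (Cy N hN) E ≠ E := by
  obtain ⟨v, d, τ, m, hc, rfl⟩ := h
  intro e
  have h1 : (Cy N hN).rv (ceg (Cy N hN) v d τ 0) ∈ cpe (Cy N hN) v d τ m := by
    rw [← e]
    exact Finset.mem_image_of_mem _ (cp_mem hc 0)
  unfold cpe at h1
  rw [Finset.mem_image] at h1
  obtain ⟨i, -, h2⟩ := h1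
  exact cp_back hc h2

theorem sub_of {hN : 1 ≤ N} (h2 : 2 ≤ N) {v d : Pt} {τ : ℕ → Bool} {m : ℕ} {v' d' : Pt} {τ' : ℕ → Bool}
    {m' : ℕ} (hc : CPoly (Cy N hN) v d τ m) (hc' : CPoly (Cy N hN) v' d' τ' m')
    (he : phi N (cpe (Cy N hN) v' d' τ' m') ⊆ phi N (cpe (Cy N hN) v d τ m))
    (h0 : ceg (Cy N hN) v' d' τ' 0 ∈ cpe (Cy N hN) v d τ m) :
    cpe (Cy N hN) v' d' τ' m' ⊆ cpe (Cy N hN) v d τ m := by
  have key : ∀ i : ℕ, ∃ j : ℕ, ceg (Cy N hN) v' d' τ' i = ceg (Cy N hN) v d τ j := by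
    intro i
    induction i with
    | zero =>
      unfold cpe at h0
      rw [Finset.mem_image] at h0
      obtain ⟨j, -, hj⟩ := h0
      exact ⟨j, hj.symm⟩
    | succ i ih =>
      obtain ⟨j, hj⟩ := ih
      have hj1 : (Cy N hN).nm (vs v' d' τ' i) = (Cy N hN).nm (vs v d τ j) := congrArg Prod.fst hj
      have hj2 : ds d' τ' i = ds d τ j := congrArg Prod.snd hj
      have h3 : (Cy N hN).nm (vs v' d' τ' (i + 1)) = (Cy N hN).nm (vs v d τ (j + 1)) := by
        rw [vs_succ, vs_succ, ← (Cy N hN).add, ← (Cy N hN).add (vs v d τ j), hj1, hj2]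
      have h4 : ed N (ceg (Cy N hN) v' d' τ' (i + 1)) ∈ phi N (cpe (Cy N hN) v d τ m) := by
        refine he ?_
        unfold phi
        exact Finset.mem_image_of_mem _ (cp_mem hc' _)
      unfold phi at h4
      rw [Finset.mem_image] at h4
      obtain ⟨q, hq, hq'⟩ := h4
      unfold cpe at hq
      rw [Finset.mem_image] at hq
      obtain ⟨l, -, rfl⟩ := hq
      rcases ed_inj hN h2 (cp_deg hc' (i + 1)) (cp_deg hc l) ((Cy N hN).idem _) ((Cy N hN).idem _)
        hq'.symm with h5 | h5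
      · exact ⟨l, h5⟩
      · exfalso
        unfold ceg Nm.rv Nm.nb at h5
        simp only [Prod.mk.injEq] at h5
        obtain ⟨h6, h7⟩ := h5
        rw [(Cy N hN).add, ← vs_succ, h3] at h6
        have h8 := cp_inj hc h6
        have h9 : j % m = l % m := by
          have h10 : (j + 1) ≡ (l + 1) [MOD m] := h8
          exact Nat.ModEq.add_right_cancel' 1 h10
        have h11 : ds d τ j = ds d τ l := by
          rw [← (cp_mod hc j).2, ← (cp_mod hc l).2, h9]
        rw [ds_succ, ← h11, ← hj2] at h7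
        exact turn_ne' _ (ds_mem hc'.de.1 _) _ h7
  intro q hq
  unfold cpe at hq
  rw [Finset.mem_image] at hq
  obtain ⟨i, -, rfl⟩ := hq
  obtain ⟨j, hj⟩ := key i
  rw [hj]
  exact cp_mem hc j

/-- **the fibres** -/
theorem phi_fib {hN : 1 ≤ N} (h2 : 2 ≤ N) {E E' : Finset (Pt × Pt)} (h : IsCPoly (Cy N hN) E)
    (h' : IsCPoly (Cy N hN) E') (he : phi N E' = phi N E) : E' = E ∨ E' = crE (Cy N hN) E := by
  have hcard : E'.card = E.card := by
    rw [← (phi_poly h2 h).2, ← (phi_poly h2 h').2, he]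
  obtain ⟨v', d', τ', m', hc', rfl⟩ := h'
  have key : ∀ G : Finset (Pt × Pt), IsCPoly (Cy N hN) G → phi N G = phi N E → G.card = E.card →
      ceg (Cy N hN) v' d' τ' 0 ∈ G → cpe (Cy N hN) v' d' τ' m' = G := by
    intro G hG hG1 hG2 hG3
    obtain ⟨v, d, τ, m, hc, rfl⟩ := hG
    refine Finset.eq_of_subset_of_card_le (sub_of h2 hc hc' ?_ hG3) ?_
    · rw [he, hG1]
    · rw [hG2, hcard]
  have h1 : ed N (ceg (Cy N hN) v' d' τ' 0) ∈ phi N E := by
    rw [← he]
    unfold phi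
    exact Finset.mem_image_of_mem _ (cp_mem hc' _)
  unfold phi at h1
  rw [Finset.mem_image] at h1
  obtain ⟨q, hq, hq'⟩ := h1
  have hqd : De q ∧ (Cy N hN).nm q.1 = q.1 := by
    obtain ⟨v, d, τ, m, hc, rfl⟩ := h
    unfold cpe at hq
    rw [Finset.mem_image] at hq
    obtain ⟨l, -, rfl⟩ := hq
    exact ⟨cp_deg hc l, (Cy N hN).idem _⟩
  rcases ed_inj hN h2 (cp_deg hc' 0) hqd.1 ((Cy N hN).idem _) hqd.2 hq'.symm with h5 | h5
  · exact Or.inl (key E h rfl rfl (by rw [h5]; exact hq))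
  · refine Or.inr (key _ h.rev (phi_rev E) ?_ ?_)
    · rw [← (phi_poly h2 h.rev).2, phi_rev, (phi_poly h2 h).2]
    · rw [h5]
      exact Finset.mem_image_of_mem _ hq

end Pool.Agent.CylSaw
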