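import Pool.Agent.WX.CylPgB
import Pool.Agent.NUNC.Lim

/-!
# Plan X, (d): the polygons of the cylinder (helper39): the label

`lab_sep`: the label of an oriented polygon is 1 if and only if it separates the two antipodal hexagons.
-/

set_option autoImplicit false

namespace Pool.Agent.CylSaw

open HexObs HexObs.LP
open Pool.Agent.NUF.Cyl (Nm Cy ri nmN tr ri_tr CPoly IsCPoly cpe ceg crE)
open Pool.Agent.NUN (fc)
open Pool.Agent.NUNC (labC lC)

variable {k : ℕ}

theorem ri_of_nm {N : ℕ} (hN : 1 ≤ N) {v : Pt} (h : (Cy N hN).nm v = v) : 0 ≤ ri v ∧ ri v < N := by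
  have h0 : (0 : ℤ) < N := by exact_mod_cast hN
  have h1 : ri ((Cy N hN).nm v) = ri v - N * (ri v / N) := by
    show ri (nmN N v) = _
    unfold nmN
    rw [ri_tr]
    ring
  rw [h] at h1
  have h2 := Int.emod_nonneg (ri v) h0.ne'
  have h3 := Int.emod_lt_of_pos (ri v) h0
  rw [Int.emod_def] at h2 h3
  constructor <;> omega

theorem val_ri (hk : 1 ≤ k) {i : ℤ} (h0 : 0 ≤ i) (h1 : i < (2 * k : ℕ)) :
    (((i : ℤ) : ZMod (2 * k)).val : ℤ) = i := by
  haveI : NeZero (2 * k) := ⟨by omega⟩
  rw [ZMod.val_intCast, Int.emod_eq_of_lt h0 h1]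

theorem cut_inj : Function.Injective (cut : ZMod (2 * k) → Sym2 (V (2 * k))) := by
  intro r r' h
  unfold cut at h
  rw [Sym2.eq_iff] at h
  rcases h with ⟨h1, -⟩ | ⟨h1, -⟩
  · exact congrArg (fun p : V (2 * k) => p.2.1) h1
  · have := congrArg (fun p : V (2 * k) => p.2.2) h1
    simp at this

/-- **the label of a directed edge** -/
theorem lab_eq (hk : 1 ≤ k) (hN : 1 ≤ 2 * k) {q : Pt × Pt} (hq : De q) (hn : (Cy (2 * k) hN).nm q.1 = q.1) :
    (labC k q = 1 ∧ ∃ r : ZMod (2 * k), r.val < k ∧ ed (2 * k) q = cut r) ∨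
      (labC k q = 0 ∧ ¬ ∃ r : ZMod (2 * k), r.val < k ∧ ed (2 * k) q = cut r) := by
  obtain ⟨v, d⟩ := q
  obtain ⟨h1, h2, h3⟩ := hq
  simp only at h1 h2 h3 hn
  obtain ⟨i0, i1⟩ := ri_of_nm hN hn
  have hval := val_ri hk i0 i1
  have hcr : labC k (v, d) = ((cr (fc k) (v, d) : ℤ) : ZMod 2) := rfl
  rw [hcr]
  rcases vt_cases h2 with hv | hv
  · generalize co v = j at hv
    generalize ri v = i at hv i0 i1 hval
    subst hv
    rcases dir_A h1 h3 with rfl | rfl | rfl
    · right
      refine ⟨?_, ?_⟩
      · unfold cr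
        simp
      · rintro ⟨r, -, hr⟩
        unfold ed cut at hr
        simp only [A_1, ps_A, ps_B] at hr
        rw [Sym2.eq_iff] at hr
        rcases hr with ⟨h4, -⟩ | ⟨h4, h5⟩
        · exact absurd (congrArg (fun p : V (2 * k) => p.2.2) h4) (by simp)
        · have h6 := congrArg Prod.fst h4
          have h7 := congrArg Prod.fst h5
          simp only at h6 h7
          omega
    · by_cases hc : j = 0 ∧ i < k
      · left
        obtain ⟨rfl, hi⟩ := hc
        refine ⟨?_, ((i : ℤ) : ZMod (2 * k)), ?_, ?_⟩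
        · unfold cr nn lv fc
          simp only [_root_.EXL.A]
          rw [if_neg (fun h => absurd h.1 (by decide)), if_pos (by refine ⟨trivial, ?_, ?_⟩ <;> omega)]
          decide
        · exact_mod_cast (show (((i : ℤ) : ZMod (2 * k)).val : ℤ) < k by rw [hval]; exact hi)
        · unfold ed cut
          simp only [A_2, ps_A, ps_B]
          exact Sym2.eq_swap
      · right
        refine ⟨?_, ?_⟩
        · unfold cr nn lv fc
          simp only [_root_.EXL.A]
          rw [if_neg (fun h => absurd h.1 (by decide)), if_neg (by rintro ⟨-, h4, h5⟩; exact hc ⟨by omega, by omega⟩)]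
          rfl
        · rintro ⟨r, hr0, hr⟩
          unfold ed cut at hr
          simp only [A_2, ps_A, ps_B] at hr
          rw [Sym2.eq_iff] at hr
          rcases hr with ⟨h4, -⟩ | ⟨h4, h5⟩
          · exact absurd (congrArg (fun p : V (2 * k) => p.2.2) h4) (by simp)
          · have h6 := congrArg Prod.fst h4
            have h7 := congrArg (fun p : V (2 * k) => p.2.1) h4
            simp only at h6 h7
            rw [← h7] at hr0
            exact hc ⟨h6, by rw [← hval]; exact_mod_cast hr0⟩
    · right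
      refine ⟨?_, ?_⟩
      · unfold cr
        simp
      · rintro ⟨r, -, hr⟩
        unfold ed cut at hr
        simp only [A_3, ps_A, ps_B] at hr
        rw [Sym2.eq_iff] at hr
        rcases hr with ⟨h4, -⟩ | ⟨h4, h5⟩
        · exact absurd (congrArg (fun p : V (2 * k) => p.2.2) h4) (by simp)
        · have h6 := congrArg Prod.fst h4
          have h7 := congrArg Prod.fst h5
          simp only at h6 h7
          omega
  · generalize co v = j at hv
    generalize ri v = i at hv i0 i1 hval
    subst hv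
    rcases dir_B h1 h3 with rfl | rfl | rfl
    · right
      refine ⟨?_, ?_⟩
      · unfold cr
        simp
      · rintro ⟨r, -, hr⟩
        unfold ed cut at hr
        simp only [B_1, ps_A, ps_B] at hr
        rw [Sym2.eq_iff] at hr
        rcases hr with ⟨h4, h5⟩ | ⟨h4, -⟩
        · have h6 := congrArg Prod.fst h4
          have h7 := congrArg Prod.fst h5
          simp only at h6 h7
          omega
        · exact absurd (congrArg (fun p : V (2 * k) => p.2.2) h4) (by simp)
    · by_cases hc : j = -1 ∧ i < k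
      · left
        obtain ⟨rfl, hi⟩ := hc
        refine ⟨?_, ((i : ℤ) : ZMod (2 * k)), ?_, ?_⟩
        · unfold cr nn lv fc
          simp only [_root_.EXL.B]
          rw [if_pos (by refine ⟨trivial, ?_, ?_⟩ <;> omega)]
          decide
        · exact_mod_cast (show (((i : ℤ) : ZMod (2 * k)).val : ℤ) < k by rw [hval]; exact hi)
        · unfold ed cut
          simp only [B_2, ps_A, ps_B]
          rfl
      · right
        refine ⟨?_, ?_⟩
        · unfold cr nn lv fc
          simp only [_root_.EXL.B]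
          rw [if_neg (by rintro ⟨-, h4, h5⟩; exact hc ⟨by omega, by omega⟩), if_neg (fun h => absurd h.1 (by decide))]
          rfl
        · rintro ⟨r, hr0, hr⟩
          unfold ed cut at hr
          simp only [B_2, ps_A, ps_B] at hr
          rw [Sym2.eq_iff] at hr
          rcases hr with ⟨h4, -⟩ | ⟨h4, -⟩
          · have h6 := congrArg Prod.fst h4
            have h7 := congrArg (fun p : V (2 * k) => p.2.1) h4
            simp only at h6 h7
            rw [← h7] at hr0
            exact hc ⟨h6, by rw [← hval]; exact_mod_cast hr0⟩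
          · exact absurd (congrArg (fun p : V (2 * k) => p.2.2) h4) (by simp)
    · right
      refine ⟨?_, ?_⟩
      · unfold cr
        simp
      · rintro ⟨r, -, hr⟩
        unfold ed cut at hr
        simp only [B_3, ps_A, ps_B] at hr
        rw [Sym2.eq_iff] at hr
        rcases hr with ⟨h4, h5⟩ | ⟨h4, -⟩
        · have h6 := congrArg Prod.fst h4
          have h7 := congrArg Prod.fst h5
          simp only at h6 h7
          omega
        · exact absurd (congrArg (fun p : V (2 * k) => p.2.2) h4) (by simp)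

open Classical in
/-- **the label of a polygon** -/
theorem lab_sep (hk : 1 ≤ k) (hN : 1 ≤ 2 * k) {E : Finset (Pt × Pt)} (h : IsCPoly (Cy (2 * k) hN) E) :
    lC k E = 1 ↔ Separates k (phi (2 * k) E) := by
  have h2 : 2 ≤ 2 * k := by omega
  obtain ⟨v, d, τ, m, hc, rfl⟩ := h
  set E := cpe (Cy (2 * k) hN) v d τ m with hE
  have hq : ∀ q ∈ E, De q ∧ (Cy (2 * k) hN).nm q.1 = q.1 := by
    intro q hq
    rw [hE] at hq
    unfold cpe at hq
    rw [Finset.mem_image] at hq
    obtain ⟨i, -, rfl⟩ := hq
    exact ⟨cp_deg hc i, (Cy (2 * k) hN).idem _⟩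
  have e1 : lC k E = (((E.filter fun q => ∃ r : ZMod (2 * k), r.val < k ∧ ed (2 * k) q = cut r).card : ℕ) : ZMod 2) := by
    unfold lC
    rw [Finset.card_filter]
    push_cast
    refine Finset.sum_congr rfl fun q hqE => ?_
    obtain ⟨a, b⟩ := hq q hqE
    rcases lab_eq hk hN a b with ⟨h3, h4⟩ | ⟨h3, h4⟩
    · rw [h3, if_pos h4]
    · rw [h3, if_neg h4]
  have e2 : (E.filter fun q => ∃ r : ZMod (2 * k), r.val < k ∧ ed (2 * k) q = cut r).card =
      {r : ZMod (2 * k) | r.val < k ∧ cut r ∈ phi (2 * k) E}.ncard := by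
    have e3 : ((E.filter fun q => ∃ r : ZMod (2 * k), r.val < k ∧ ed (2 * k) q = cut r).image (ed (2 * k)) :
        Finset (Sym2 (V (2 * k)))).card = (E.filter fun q => ∃ r : ZMod (2 * k), r.val < k ∧ ed (2 * k) q = cut r).card :=
      Finset.card_image_of_injOn ((cp_edinj h2 hc).mono fun q hq => Finset.mem_of_mem_filter q (Finset.mem_coe.1 hq))
    rw [← e3, ← Set.ncard_image_of_injective _ cut_inj, ← Set.ncard_coe_finset]
    congr 1
    ext x
    rw [Finset.mem_coe, Finset.mem_image, Set.mem_image]
    constructor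
    · rintro ⟨q, hq1, rfl⟩
      rw [Finset.mem_filter] at hq1
      obtain ⟨hq1, r, hr, hr'⟩ := hq1
      refine ⟨r, ⟨hr, ?_⟩, hr'.symm⟩
      rw [← hr']
      unfold phi
      exact Finset.mem_image_of_mem _ hq1
    · rintro ⟨r, ⟨hr, hr'⟩, rfl⟩
      unfold phi at hr'
      rw [Finset.mem_image] at hr'
      obtain ⟨q, hq1, hq2⟩ := hr'
      exact ⟨q, Finset.mem_filter.2 ⟨hq1, r, hr, hq2⟩, hq2⟩
  unfold Separates
  rw [e1, e2]
  exact ZMod.natCast_eq_one_iff_odd
  
end Pool.Agent.CylSaw
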