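import Pool.Agent.WX.CylPgC
import Pool.Agent.WX.Planar
import Pool.Agent.NUNC.ZZlim

/-!
# Plan X, (d): the polygons that separate two antipodal hexagons of the honeycomb cylinder (helper39)

* `Sm_lim`: the mass of the oriented separating polygons in `Om (2 k) m` tends to `2 (ZP k).coeff 1`;
* **`hasSum_sep`**, `sepMass_eq`: the mass of the separating polygons is `(ZP k).coeff 1`;
* **`sep_law`**: `sepMass k = log k / (3 π) + a + (-1)^k b + O(k^(-c))` from the law of `(ZP k).coeff 1`.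
-/

set_option autoImplicit false

noncomputable section

namespace Pool.Agent.CylSaw

open HexObs HexObs.LP Filter Topology
open Pool.Agent.NUF.Cyl (Nm Cy ri CPoly IsCPoly cpe ceg crE GP Shr)
open Pool.Agent.NUN (fc Om)
open Pool.Agent.NUNC (labC lC odd mem_odd GC ZZ_gas_real GC_mono)
open NUI (ZP ZP_nonneg)

variable {k : ℕ}

/-- the families with at most one element. -/
theorem P_ge {W : Type*} {inc : W → W → Prop} (a : W → ℝ) {L : Finset W} (h : ∀ l ∈ L, 0 ≤ a l) :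
    1 + ∑ l ∈ L, a l ≤ NUHC.P inc a L := by
  classical
  have hinj : Set.InjOn (fun l : W => ({l} : Finset W)) (L : Set W) :=
    fun x _ y _ e => Finset.singleton_injective e
  have hn : (∅ : Finset W) ∉ L.image fun l => ({l} : Finset W) := by
    intro he
    obtain ⟨l, -, hl⟩ := Finset.mem_image.1 he
    exact Finset.singleton_ne_empty l hl
  have e : ∑ I ∈ insert ∅ (L.image fun l => ({l} : Finset W)), ∏ l ∈ I, a l = 1 + ∑ l ∈ L, a l := by
    rw [Finset.sum_insert hn, Finset.prod_empty, Finset.sum_image hinj]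
    simp only [Finset.prod_singleton]
  rw [← e]
  unfold NUHC.P
  refine Finset.sum_le_sum_of_subset_of_nonneg ?_ ?_
  · intro I hI
    rw [Finset.mem_insert, Finset.mem_image] at hI
    rw [Finset.mem_filter, Finset.mem_powerset]
    rcases hI with rfl | ⟨l, hl, rfl⟩
    · exact ⟨Finset.empty_subset _, NUHC.Ind_empty⟩
    · refine ⟨Finset.singleton_subset_iff.2 hl, ?_⟩
      intro x hx y hy hxy
      rw [Finset.mem_singleton] at hx hy
      exact absurd (hx.trans hy.symm) hxy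
  · intro I hI _
    rw [Finset.mem_filter, Finset.mem_powerset] at hI
    exact Finset.prod_nonneg fun l hl => h l (hI.1 hl)

/-- the mass of the oriented separating polygons in a finite part. -/
def Sm (hN : 1 ≤ 2 * k) (m : ℕ) : ℝ := ∑ E ∈ odd hN k (Om (2 * k) m), xc ^ E.card

theorem GC_bounds (hN : 1 ≤ 2 * k) {y : ℝ} (hy : 0 ≤ y) (m : ℕ) :
    1 + y * Sm hN m ≤ GC hN k xc y (Om (2 * k) m) ∧
      GC hN k xc y (Om (2 * k) m) ≤ Real.exp (y * Sm hN m) := by
  have h0 : ∀ E ∈ odd hN k (Om (2 * k) m), 0 ≤ y * xc ^ E.card := fun E _ =>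
    mul_nonneg hy (pow_nonneg xc_pos.le _)
  have h1 := P_ge (inc := Shr) (fun E : Finset (Pt × Pt) => y * xc ^ E.card) h0
  have h2 := NUHC.P_le_exp (inc := Shr) (fun E : Finset (Pt × Pt) => y * xc ^ E.card) h0
  rw [← Finset.mul_sum] at h1 h2
  exact ⟨h1, h2⟩

theorem GC_lim (hN : 1 ≤ 2 * k) (w : ℝ) :
    Tendsto (fun m => GC hN k xc (w / 2) (Om (2 * k) m)) atTop (𝓝 ((ZP k).eval w)) := by
  obtain ⟨z, h1, h2⟩ := ZZ_gas_real w hN
  rw [WX.ZZ_real] at h1
  have h3 : (ZP k).eval w = z := by exact_mod_cast h1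
  rw [h3]
  exact h2

theorem GC_le_P (hN : 1 ≤ 2 * k) {w : ℝ} (hw : 0 ≤ w) (m : ℕ) :
    GC hN k xc (w / 2) (Om (2 * k) m) ≤ (ZP k).eval w := by
  refine ge_of_tendsto (GC_lim hN w) ?_
  filter_upwards [eventually_ge_atTop m] with m' hm'
  exact GC_mono hN k (by positivity) (Pool.Agent.GLD.Om_mono hm')

theorem Sm_nonneg (hN : 1 ≤ 2 * k) (m : ℕ) : 0 ≤ Sm hN m :=
  Finset.sum_nonneg fun _ _ => pow_nonneg xc_pos.le _

theorem Sm_mono (hN : 1 ≤ 2 * k) : Monotone (Sm hN) := by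
  intro m m' h
  refine Finset.sum_le_sum_of_subset_of_nonneg ?_ fun _ _ _ => pow_nonneg xc_pos.le _
  intro E hE
  rw [mem_odd] at hE ⊢
  exact ⟨hE.1, hE.2.1.trans (Pool.Agent.GLD.Om_mono h), hE.2.2⟩

theorem Sm_le (hN : 1 ≤ 2 * k) (m : ℕ) : Sm hN m / 2 ≤ (ZP k).coeff 1 := by
  refine WX.le_of_lin (c := (ZP k).eval 1) fun w hw hw1 => ?_
  have h1 := (GC_bounds hN (y := w / 2) (by positivity) m).1.trans (GC_le_P hN hw.le m)
  have h2 := WX.ZP_le k hw.le hw1
  linarith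

theorem exp_sq {x : ℝ} : Real.exp x ≤ 1 + x + x ^ 2 * Real.exp x ∨ x < 0 := by
  by_cases hx : x < 0
  · exact Or.inr hx
  · left
    have hx0 : 0 ≤ x := not_lt.1 hx
    have h1 : (1 - x) * Real.exp x ≤ 1 := by
      have h2 : 1 - x ≤ Real.exp (-x) := by
        have := Real.add_one_le_exp (-x)
        linarith
      calc (1 - x) * Real.exp x ≤ Real.exp (-x) * Real.exp x :=
            mul_le_mul_of_nonneg_right h2 (Real.exp_pos x).le
        _ = 1 := by rw [← Real.exp_add, neg_add_cancel, Real.exp_zero]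
    have h3 : x * ((1 - x) * Real.exp x) ≤ x * 1 := mul_le_mul_of_nonneg_left h1 hx0
    nlinarith

theorem le_Sm (hN : 1 ≤ 2 * k) {B : ℝ} (hB : ∀ m, Sm hN m ≤ B) : (ZP k).coeff 1 ≤ B / 2 := by
  have hB0 : 0 ≤ B := (Sm_nonneg hN 0).trans (hB 0)
  refine WX.le_of_lin (c := (B / 2) ^ 2 * Real.exp (B / 2)) fun w hw hw1 => ?_
  have h1 : (ZP k).eval w ≤ Real.exp (w * (B / 2)) := by
    refine le_of_tendsto' (GC_lim hN w) fun m => ?_
    refine (GC_bounds hN (y := w / 2) (by positivity) m).2.trans (Real.exp_le_exp.2 ?_)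
    have := mul_le_mul_of_nonneg_left (hB m) (by positivity : 0 ≤ w / 2)
    linarith
  have h2 := WX.ZP_ge k hw.le
  have h3 : Real.exp (w * (B / 2)) ≤ 1 + w * (B / 2) + (w * (B / 2)) ^ 2 * Real.exp (w * (B / 2)) := by
    rcases exp_sq (x := w * (B / 2)) with h | h
    · exact h
    · exact absurd h (not_lt.2 (by positivity))
  have h4 : Real.exp (w * (B / 2)) ≤ Real.exp (B / 2) := by
    refine Real.exp_le_exp.2 ?_
    exact mul_le_of_le_one_left (by positivity) hw1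
  have h5 : (w * (B / 2)) ^ 2 * Real.exp (w * (B / 2)) ≤ (w * (B / 2)) ^ 2 * Real.exp (B / 2) :=
    mul_le_mul_of_nonneg_left h4 (by positivity)
  have h6 : (w * (B / 2)) ^ 2 * Real.exp (B / 2) = w ^ 2 * ((B / 2) ^ 2 * Real.exp (B / 2)) := by ring
  linarith

/-! ### the public polygons -/

theorem VE_rev (hN : 1 ≤ 2 * k) {E : Finset (Pt × Pt)} (h : IsCPoly (Cy (2 * k) hN) E) :
    VE (crE (Cy (2 * k) hN) E) = VE E := by
  obtain ⟨v, d, τ, m, hc, rfl⟩ := h
  have hV : ∀ x, x ∈ VE (cpe (Cy (2 * k) hN) v d τ m) ↔ ∃ i : ℕ, (Cy (2 * k) hN).nm (vs v d τ i) = x := by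
    intro x
    unfold VE
    rw [Finset.mem_image]
    constructor
    · rintro ⟨q, hq, rfl⟩
      unfold cpe at hq
      rw [Finset.mem_image] at hq
      obtain ⟨i, -, rfl⟩ := hq
      exact ⟨i, rfl⟩
    · rintro ⟨i, rfl⟩
      exact ⟨_, cp_mem hc i, rfl⟩
  ext x
  rw [hV]
  unfold VE crE
  rw [Finset.mem_image]
  constructor
  · rintro ⟨q, hq, rfl⟩
    rw [Finset.mem_image] at hq
    obtain ⟨q', hq', rfl⟩ := hq
    unfold cpe at hq'
    rw [Finset.mem_image] at hq'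
    obtain ⟨i, -, rfl⟩ := hq'
    refine ⟨i + 1, ?_⟩
    unfold ceg Nm.rv Nm.nb
    simp only
    rw [(Cy (2 * k) hN).add, vs_succ]
  · rintro ⟨i, rfl⟩
    have hm := hc.pos
    refine ⟨(Cy (2 * k) hN).rv (ceg (Cy (2 * k) hN) v d τ (i + (m - 1))), Finset.mem_image_of_mem _ (cp_mem hc _), ?_⟩
    unfold ceg Nm.rv Nm.nb
    simp only
    rw [(Cy (2 * k) hN).add, ← vs_succ, show i + (m - 1) + 1 = i + m by omega, cp_vs hc]

theorem odd_rev (hk : 1 ≤ k) (hN : 1 ≤ 2 * k) {A : Finset Pt} {E : Finset (Pt × Pt)} (h : E ∈ odd hN k A) :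
    crE (Cy (2 * k) hN) E ∈ odd hN k A := by
  rw [mem_odd] at h ⊢
  obtain ⟨h1, h2, h3⟩ := h
  refine ⟨h1.rev, ?_, ?_⟩
  · rw [VE_rev hN h1]
    exact h2
  · rw [lab_sep hk hN h1.rev, phi_rev, ← lab_sep hk hN h1]
    exact h3

open Classical in
/-- the separating polygons in a finite part. -/
def Pm (hN : 1 ≤ 2 * k) (m : ℕ) : Finset (Finset (Sym2 (V (2 * k)))) := (odd hN k (Om (2 * k) m)).image (phi (2 * k))

theorem Pm_prop (hk : 1 ≤ k) (hN : 1 ≤ 2 * k) {m : ℕ} {F : Finset (Sym2 (V (2 * k)))} (h : F ∈ Pm hN m) :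
    Polygon F ∧ Separates k F := by
  unfold Pm at h
  rw [Finset.mem_image] at h
  obtain ⟨E, hE, rfl⟩ := h
  rw [mem_odd] at hE
  exact ⟨(phi_poly (by omega) hE.1).1, (lab_sep hk hN hE.1).1 hE.2.2⟩

theorem Pm_sum (hk : 1 ≤ k) (hN : 1 ≤ 2 * k) (m : ℕ) : ∑ F ∈ Pm hN m, zc ^ F.card = Sm hN m / 2 := by
  classical
  have h2 : 2 ≤ 2 * k := by omega
  have e1 : Sm hN m = ∑ E ∈ odd hN k (Om (2 * k) m), zc ^ (phi (2 * k) E).card := by
    unfold Sm
    refine Finset.sum_congr rfl fun E hE => ?_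
    rw [(phi_poly h2 (mem_odd.1 hE).1).2, zc_eq]
  rw [e1, Finset.sum_comp (fun F : Finset (Sym2 (V (2 * k))) => zc ^ F.card) (phi (2 * k))]
  have e2 : ∀ F ∈ (odd hN k (Om (2 * k) m)).image (phi (2 * k)),
      ((odd hN k (Om (2 * k) m)).filter fun E => phi (2 * k) E = F).card = 2 := by
    intro F hF
    rw [Finset.mem_image] at hF
    obtain ⟨E, hE, rfl⟩ := hF
    have hc := (mem_odd.1 hE).1
    have e3 : (odd hN k (Om (2 * k) m)).filter (fun E' => phi (2 * k) E' = phi (2 * k) E) =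
        {E, crE (Cy (2 * k) hN) E} := by
      ext E'
      rw [Finset.mem_filter, Finset.mem_insert, Finset.mem_singleton]
      constructor
      · rintro ⟨h3, h4⟩
        exact phi_fib h2 hc (mem_odd.1 h3).1 h4
      · rintro (rfl | rfl)
        · exact ⟨hE, rfl⟩
        · exact ⟨odd_rev hk hN hE, phi_rev E⟩
    rw [e3, Finset.card_pair (rev_ne hc).symm]
  have e4 : ∑ b ∈ (odd hN k (Om (2 * k) m)).image (phi (2 * k)),
      ((odd hN k (Om (2 * k) m)).filter fun E => phi (2 * k) E = b).card • zc ^ b.card =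
      2 * ∑ F ∈ Pm hN m, zc ^ F.card := by
    unfold Pm
    rw [Finset.mul_sum]
    refine Finset.sum_congr rfl fun F hF => ?_
    rw [e2 F hF]
    simp
  rw [e4]
  ring

theorem Pm_mono (hN : 1 ≤ 2 * k) {m m' : ℕ} (h : m ≤ m') : Pm hN m ⊆ Pm hN m' := by
  unfold Pm
  refine Finset.image_subset_image fun E hE => ?_
  rw [mem_odd] at hE ⊢
  exact ⟨hE.1, hE.2.1.trans (Pool.Agent.GLD.Om_mono h), hE.2.2⟩

theorem Pm_ex (hk : 1 ≤ k) (hN : 1 ≤ 2 * k) (F : Sep k) : ∃ m, F.1 ∈ Pm hN m := by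
  classical
  obtain ⟨E, hE, hF⟩ := phi_surj (hN := hN) (by omega) F.2.1
  have h1 : ∀ v ∈ VE E, ∃ m, v ∈ Om (2 * k) m := by
    intro v hv
    have h2 := (Nm.isP_iff.2 hE).nm_VE hv
    obtain ⟨i0, i1⟩ := ri_of_nm hN h2.1
    exact ⟨(co v).natAbs + 1, Pool.Agent.NUN.mem_Om_large i0 i1 (vt_cases h2.2) (Nat.lt_succ_self _)⟩
  choose! M hM using h1
  refine ⟨(VE E).sup M, ?_⟩
  unfold Pm
  rw [Finset.mem_image]
  refine ⟨E, ?_, hF⟩
  rw [mem_odd]
  refine ⟨hE, fun v hv => Pool.Agent.GLD.Om_mono (Finset.le_sup (f := M) hv) (hM v hv), ?_⟩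
  rw [lab_sep hk hN hE, hF]
  exact F.2.2

/-- **the mass of the separating polygons is the coefficient of the partition function** -/
theorem hasSum_sep (hk : 1 ≤ k) : HasSum (fun E : Sep k => zc ^ E.1.card) ((ZP k).coeff 1) := by
  classical
  have hN : 1 ≤ 2 * k := by omega
  have hz : 0 < zc := by rw [zc_eq]; exact xc_pos
  have hs : ∀ m : ℕ, ∑ E ∈ (Pm hN m).subtype (fun F => Polygon F ∧ Separates k F), zc ^ E.1.card = Sm hN m / 2 := by
    intro m
    rw [Finset.sum_subtype_of_mem (fun F : Finset (Sym2 (V (2 * k))) => zc ^ F.card) (fun F hF => Pm_prop hk hN hF)]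
    exact Pm_sum hk hN m
  refine hasSum_of_isLUB_of_nonneg _ (fun E => pow_nonneg hz.le _) ⟨?_, ?_⟩
  · rintro _ ⟨u, rfl⟩
    choose M hM using Pm_ex hk hN
    refine le_trans ?_ (Sm_le hN (u.sup M))
    rw [← hs]
    refine Finset.sum_le_sum_of_subset_of_nonneg ?_ fun _ _ _ => pow_nonneg hz.le _
    intro E hE
    rw [Finset.mem_subtype]
    exact Pm_mono hN (Finset.le_sup (f := M) hE) (hM E)
  · intro b hb
    have h1 : ∀ m, Sm hN m ≤ 2 * b := by
      intro m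
      have h2 := hb ⟨(Pm hN m).subtype (fun F => Polygon F ∧ Separates k F), rfl⟩
      simp only [hs] at h2
      linarith
    have h3 := le_Sm hN h1
    linarith

theorem sepMass_eq (hk : 1 ≤ k) : sepMass k = (ZP k).coeff 1 := (hasSum_sep hk).tsum_eq

/-- **the law of the mass of the separating polygons** -/
theorem sep_law {c : ℝ} (h : ∃ a b K : ℝ, 0 ≤ K ∧ ∀ N : ℕ, 1 ≤ N →
      |(ZP N).coeff 1 - (1 / (3 * Real.pi) * Real.log N + a + (-1) ^ N * b)| ≤ K * (N : ℝ) ^ (-c)) :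
    ∃ a b K : ℝ, 0 ≤ K ∧ ∀ k : ℕ, 1 ≤ k → Summable (fun E : Sep k => zc ^ E.1.card) ∧
      |sepMass k - (1 / (3 * Real.pi) * Real.log k + a + (-1) ^ k * b)| ≤ K * (k : ℝ) ^ (-c) := by
  obtain ⟨a, b, K, hK, h⟩ := h
  refine ⟨a, b, K, hK, fun k hk => ⟨(hasSum_sep hk).summable, ?_⟩⟩
  rw [sepMass_eq hk]
  exact h k hk

end Pool.Agent.CylSaw

end
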