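import Pool.Agent.PB.CylDef
import Mathlib.Data.Finset.Card
import Mathlib.Algebra.Group.Nat.Even

/-!
# The self-avoiding polygons of the honeycomb cylinder: the public definitions
-/

set_option autoImplicit false

namespace Pool.Agent.CylSaw

/-- `E` is the set of the edges of a self-avoiding polygon (a cycle) of the honeycomb cylinder with `N` rows. -/
def Polygon {N : ℕ} (E : Finset (Sym2 (V N))) : Prop :=
  ∃ n : ℕ, 3 ≤ n ∧ ∃ w : ZMod n → V N, Function.Injective w ∧ (∀ i, (cyl N).Adj (w i) (w (i + 1))) ∧
    (E : Set (Sym2 (V N))) = Set.range fun i => s(w i, w (i + 1))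

/-- The cylinder with `2 k` rows; the edges `cut r` (row `r` modulo `2 k`) form a ring round the cylinder. The arc
that meets the edges `cut 0, ..., cut (k - 1)` of this ring joins two antipodal hexagons, the one between the edges
`cut (-1), cut 0` and the one between the edges `cut (k - 1), cut k`. A polygon separates these two hexagons if it
crosses the arc an odd number of times. -/
def Separates (k : ℕ) (E : Finset (Sym2 (V (2 * k)))) : Prop :=
  Odd {r : ZMod (2 * k) | r.val < k ∧ cut r ∈ E}.ncard

/-- The polygons of the cylinder with `2 k` rows that separate two antipodal hexagons. -/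
abbrev Sep (k : ℕ) : Type := {E : Finset (Sym2 (V (2 * k))) // Polygon E ∧ Separates k E}

/-- Their total critical weight, `zc ^ n` for a polygon with `n` edges. -/
noncomputable def sepMass (k : ℕ) : ℝ := ∑' E : Sep k, zc ^ E.1.card

end Pool.Agent.CylSaw
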