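import Pool.Agent.WX.TwoC
import Mathlib.Analysis.SpecialFunctions.Pow.Real
import Mathlib.Analysis.SpecificLimits.Basic
import Mathlib.Topology.MetricSpace.Cauchy

/-!
# Plan X: limits of derivatives, with a rate (helper71)

* **`seq_dyad`** : `‖a M - a N‖ ≤ C N^(-θ)` for `1 ≤ N ≤ M ≤ 2 N` gives a limit with the rate `N^(-θ)`;
* **`derlim`** : `Q N` analytic on `ball x0 (2 b)` with `‖Q N‖ ≤ C N^η` there, and
  `‖Q N x - q x‖ ≤ C N^(-κ)` on the real segment `|x - x0| ≤ b`, `η < κ`: the derivatives of `Q N` at `x0`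
  converge with the rate `N^(-(κ - η) / 2)`.
-/

set_option autoImplicit false

noncomputable section

open Complex Set Filter Topology

namespace WX

/-- **dyadic Cauchy sequences** -/
theorem seq_dyad {a : ℕ → ℂ} {C θ : ℝ} (hθ : 0 < θ) (hC : 0 ≤ C)
    (h : ∀ N M : ℕ, 1 ≤ N → N ≤ M → M ≤ 2 * N → ‖a M - a N‖ ≤ C * (N : ℝ) ^ (-θ)) :
    ∃ (α : ℂ) (C' : ℝ), 0 ≤ C' ∧ ∀ N : ℕ, 1 ≤ N → ‖a N - α‖ ≤ C' * (N : ℝ) ^ (-θ) := by
  set q : ℝ := (2 : ℝ) ^ (-θ) with hq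
  have hq0 : 0 < q := by positivity
  have hq1 : q < 1 := by
    rw [hq]
    exact Real.rpow_lt_one_of_one_lt_of_neg (by norm_num) (by linarith)
  set D : ℝ := C / (1 - q) with hD
  have hD0 : 0 ≤ D := div_nonneg hC (by linarith)
  have hDq : D * q + C = D := by
    rw [hD]
    have : 1 - q ≠ 0 := by linarith
    field_simp
    ring
  have key : ∀ j N M : ℕ, 1 ≤ N → N ≤ M → M ≤ 2 ^ j * N → ‖a M - a N‖ ≤ D * (N : ℝ) ^ (-θ) := by
    intro j
    induction j with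
    | zero =>
      intro N M h1 h2 h3
      have e : M = N := by omega
      rw [e, sub_self, norm_zero]
      positivity
    | succ j ih =>
      intro N M h1 h2 h3
      have hN0 : (0 : ℝ) < N := by exact_mod_cast h1
      have hp : 0 ≤ (N : ℝ) ^ (-θ) := by positivity
      rcases le_total M (2 * N) with h4 | h4
      · refine (h N M h1 h2 h4).trans (mul_le_mul_of_nonneg_right ?_ hp)
        have : 0 ≤ D * q := by positivity
        linarith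
      · have e1 := ih (2 * N) M (by omega) h4 (by rw [pow_succ] at h3; linarith)
        have e2 := h N (2 * N) h1 (by omega) le_rfl
        have e3 : (((2 * N : ℕ)) : ℝ) ^ (-θ) = q * (N : ℝ) ^ (-θ) := by
          push_cast
          rw [Real.mul_rpow (by norm_num) hN0.le]
        have e4 : a M - a N = (a M - a (2 * N)) + (a (2 * N) - a N) := by ring
        rw [e4]
        refine (norm_add_le _ _).trans ?_
        rw [e3] at e1
        calc ‖a M - a (2 * N)‖ + ‖a (2 * N) - a N‖ ≤ D * (q * (N : ℝ) ^ (-θ)) + C * (N : ℝ) ^ (-θ) :=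
              add_le_add e1 e2
          _ = (D * q + C) * (N : ℝ) ^ (-θ) := by ring
          _ = _ := by rw [hDq]
  have key' : ∀ N M : ℕ, 1 ≤ N → N ≤ M → ‖a M - a N‖ ≤ D * (N : ℝ) ^ (-θ) := by
    intro N M h1 h2
    refine key M N M h1 h2 ?_
    have h3 : M < 2 ^ M := Nat.lt_two_pow_self
    calc M ≤ 2 ^ M * 1 := by omega
      _ ≤ 2 ^ M * N := Nat.mul_le_mul_left _ h1
  have hlim : Tendsto (fun N : ℕ => D * (N : ℝ) ^ (-θ)) atTop (𝓝 0) := by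
    have h1 := ((tendsto_rpow_neg_atTop hθ).comp tendsto_natCast_atTop_atTop).const_mul D
    rwa [mul_zero] at h1
  have hcau : CauchySeq a := by
    rw [Metric.cauchySeq_iff']
    intro ε hε
    obtain ⟨N, hN⟩ := eventually_atTop.1 ((hlim.eventually_lt_const hε).and (eventually_ge_atTop 1))
    refine ⟨N, fun n hn => ?_⟩
    rw [dist_eq_norm]
    exact (key' N n (hN N le_rfl).2 hn).trans_lt (hN N le_rfl).1
  obtain ⟨α, hα⟩ := cauchySeq_tendsto_of_complete hcau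
  refine ⟨α, D, hD0, fun N hN => ?_⟩
  have h1 : Tendsto (fun M => ‖a M - a N‖) atTop (𝓝 ‖α - a N‖) := (hα.sub_const _).norm
  rw [norm_sub_rev]
  refine le_of_tendsto h1 ?_
  filter_upwards [eventually_ge_atTop N] with M hM
  exact key' N M hN hM

/-- **limits of derivatives** -/
theorem derlim {Q : ℕ → ℂ → ℂ} {q : ℝ → ℂ} {x0 b C η κ : ℝ} (hb : 0 < b) (hη : 0 ≤ η) (hκ : η < κ)
    (hC : 0 ≤ C)
    (hd : ∀ N : ℕ, 1 ≤ N → DifferentiableOn ℂ (Q N) (Metric.ball (x0 : ℂ) (2 * b)))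
    (hM : ∀ N : ℕ, 1 ≤ N → ∀ z ∈ Metric.ball (x0 : ℂ) (2 * b), ‖Q N z‖ ≤ C * (N : ℝ) ^ η)
    (hm : ∀ N : ℕ, 1 ≤ N → ∀ x : ℝ, |x - x0| ≤ b → ‖Q N (x : ℂ) - q x‖ ≤ C * (N : ℝ) ^ (-κ)) :
    ∃ (α : ℂ) (C' : ℝ), 0 ≤ C' ∧ ∀ N : ℕ, 1 ≤ N →
      ‖deriv (Q N) (x0 : ℂ) - α‖ ≤ C' * (N : ℝ) ^ (-((κ - η) / 2)) := by
  have hx0 : (x0 : ℂ) ∈ Metric.ball (x0 : ℂ) (2 * b) := Metric.mem_ball_self (by linarith)
  refine seq_dyad (C := 2 / b * (Real.sqrt (2 * C * (C * (1 + (2 : ℝ) ^ η))))) (by linarith) (by positivity) ?_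
  intro N M h1 h2 h3
  have hN1 : (1 : ℝ) ≤ N := by exact_mod_cast h1
  have hN0 : (0 : ℝ) < N := by linarith
  have hM1 : 1 ≤ M := h1.trans h2
  have hNM : (N : ℝ) ≤ M := by exact_mod_cast h2
  have hM2 : (M : ℝ) ≤ 2 * N := by exact_mod_cast h3
  have hop : (Metric.ball (x0 : ℂ) (2 * b)) ∈ 𝓝 (x0 : ℂ) := Metric.isOpen_ball.mem_nhds hx0
  have e1 : deriv (Q M) (x0 : ℂ) - deriv (Q N) (x0 : ℂ) = deriv (fun z => Q M z - Q N z) (x0 : ℂ) :=
    (deriv_fun_sub ((hd M hM1).differentiableAt hop) ((hd N h1).differentiableAt hop)).symm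
  have hpow : (M : ℝ) ^ η ≤ (2 : ℝ) ^ η * (N : ℝ) ^ η := by
    rw [← Real.mul_rpow (by norm_num) hN0.le]
    exact Real.rpow_le_rpow (by linarith) hM2 hη
  have hpow' : (M : ℝ) ^ (-κ) ≤ (N : ℝ) ^ (-κ) :=
    Real.rpow_le_rpow_of_nonpos hN0 hNM (by linarith)
  have hp1 : 0 < (N : ℝ) ^ η := by positivity
  have hp2 : 0 < (N : ℝ) ^ (-κ) := by positivity
  have h12 : (N : ℝ) ^ (-κ) ≤ (N : ℝ) ^ η := Real.rpow_le_rpow_of_exponent_le hN1 (by linarith)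
  have h2η : (1 : ℝ) ≤ (2 : ℝ) ^ η := Real.one_le_rpow (by norm_num) hη
  rw [e1]
  refine (deriv_two hb (M := C * (1 + (2 : ℝ) ^ η) * (N : ℝ) ^ η) (m := 2 * C * (N : ℝ) ^ (-κ))
    ((hd M hM1).sub (hd N h1)) ?_ ?_ (by positivity) ?_).trans ?_
  · intro z hz
    refine (norm_sub_le _ _).trans ?_
    have a1 := hM M hM1 z hz
    have a2 := hM N h1 z hz
    have a3 := mul_le_mul_of_nonneg_left hpow hC
    calc ‖Q M z‖ + ‖Q N z‖ ≤ C * ((2 : ℝ) ^ η * (N : ℝ) ^ η) + C * (N : ℝ) ^ η := by linarith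
      _ = _ := by ring
  · intro x hx
    have a1 := hm M hM1 x hx
    have a2 := hm N h1 x hx
    have e2 : Q M (x : ℂ) - Q N (x : ℂ) = (Q M (x : ℂ) - q x) - (Q N (x : ℂ) - q x) := by ring
    show ‖Q M (x : ℂ) - Q N (x : ℂ)‖ ≤ _
    rw [e2]
    refine (norm_sub_le _ _).trans ?_
    have a3 := mul_le_mul_of_nonneg_left hpow' hC
    calc ‖Q M (x : ℂ) - q x‖ + ‖Q N (x : ℂ) - q x‖ ≤ C * (N : ℝ) ^ (-κ) + C * (N : ℝ) ^ (-κ) := by linarith
      _ = _ := by ring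
  · calc 2 * C * (N : ℝ) ^ (-κ) = C * 2 * (N : ℝ) ^ (-κ) := by ring
      _ ≤ C * (1 + (2 : ℝ) ^ η) * (N : ℝ) ^ η := by
        refine mul_le_mul (mul_le_mul_of_nonneg_left (by linarith) hC) h12 hp2.le (by positivity)
  · have e3 : 2 * C * (N : ℝ) ^ (-κ) * (C * (1 + (2 : ℝ) ^ η) * (N : ℝ) ^ η) =
        (2 * C * (C * (1 + (2 : ℝ) ^ η))) * ((N : ℝ) ^ (-((κ - η) / 2))) ^ 2 := by
      have e4 : ((N : ℝ) ^ (-((κ - η) / 2))) ^ 2 = (N : ℝ) ^ (-κ) * (N : ℝ) ^ η := by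
        rw [← Real.rpow_natCast ((N : ℝ) ^ (-((κ - η) / 2))) 2, ← Real.rpow_mul hN0.le,
          ← Real.rpow_add hN0]
        congr 1
        push_cast
        ring
      rw [e4]
      ring
    rw [e3, Real.sqrt_mul (by positivity), Real.sqrt_sq (by positivity)]
    exact le_of_eq (by ring)

end WX

end
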