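import Pool.Agent.WX.SMass

/-!
# Plan X: division by the normaliser (helper71)

`W N = L N^(5/24) (1 + O(N^(-1/2)))`, `W N > 0`, `F d N = W N * P N (2 cos (π d))`:
* `div_law` : one division, explicit constants;
* `two_div` : two kept modes for `F` (`2/5 ≤ d ≤ 3/5`, error `N^(1/10)`) give `LawP P g h K (13/120)`;
* `one_div` : one kept mode (`|d| ≤ 2/5`, error `N^(3/20)`) gives the law with error `N^(-7/120)`;
* **`law_all`** : the law with two modes for `0 ≤ d ≤ 1/2`, error `N^(E d - 7/120)`.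
-/

set_option autoImplicit false

noncomputable section

open Complex Set Filter Topology Polynomial

namespace WX

/-- the normaliser is bounded below -/
theorem nrm_low {W : ℕ → ℝ} {L C : ℝ} (hL : 0 < L) (hW0 : ∀ N, 0 < W N)
    (hW : ∀ N : ℕ, 1 ≤ N → |W N / (N : ℝ) ^ (5 / 24 : ℝ) - L| ≤ C * (N : ℝ) ^ (-(1 / 2) : ℝ)) :
    ∃ w0 : ℝ, 0 < w0 ∧ ∀ N : ℕ, 1 ≤ N → w0 ≤ W N / (N : ℝ) ^ (5 / 24 : ℝ) := by
  have h1 : Tendsto (fun N : ℕ => C * (N : ℝ) ^ (-(1 / 2) : ℝ)) atTop (𝓝 0) := by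
    have h := ((tendsto_rpow_neg_atTop (show (0 : ℝ) < 1 / 2 by norm_num)).comp
      tendsto_natCast_atTop_atTop).const_mul C
    simpa using h
  obtain ⟨N0, hN0⟩ := eventually_atTop.1 (h1.eventually_lt_const (show (0 : ℝ) < L / 2 by linarith))
  -- finitely many
  have hfin : ∃ w1 : ℝ, 0 < w1 ∧ ∀ N ∈ Finset.Icc 1 N0, w1 ≤ W N / (N : ℝ) ^ (5 / 24 : ℝ) := by
    induction N0 with
    | zero => exact ⟨1, one_pos, fun N hN => by simp at hN⟩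
    | succ n ih =>
      have key : ∀ m : ℕ, ∃ w1 : ℝ, 0 < w1 ∧ ∀ N ∈ Finset.Icc 1 m, w1 ≤ W N / (N : ℝ) ^ (5 / 24 : ℝ) := by
        intro m
        induction m with
        | zero => exact ⟨1, one_pos, fun N hN => by simp at hN⟩
        | succ m ihm =>
          obtain ⟨w1, hw1, h⟩ := ihm
          have hp : 0 < W (m + 1) / ((m + 1 : ℕ) : ℝ) ^ (5 / 24 : ℝ) := by
            have := hW0 (m + 1)
            positivity
          refine ⟨min w1 (W (m + 1) / ((m + 1 : ℕ) : ℝ) ^ (5 / 24 : ℝ)), lt_min hw1 hp, fun N hN => ?_⟩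
          rw [Finset.mem_Icc] at hN
          rcases Nat.lt_or_ge N (m + 1) with h2 | h2
          · exact (min_le_left _ _).trans (h N (Finset.mem_Icc.2 ⟨hN.1, by omega⟩))
          · have : N = m + 1 := by omega
            rw [this]
            exact min_le_right _ _
      exact key (n + 1)
  obtain ⟨w1, hw1, h2⟩ := hfin
  refine ⟨min w1 (L / 2), lt_min hw1 (by linarith), fun N hN => ?_⟩
  rcases Nat.lt_or_ge N N0 with h3 | h3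
  · exact (min_le_left _ _).trans (h2 N (Finset.mem_Icc.2 ⟨hN, h3.le⟩))
  · refine (min_le_right _ _).trans ?_
    have := (abs_le.1 (hW N hN)).1
    have := hN0 N h3
    linarith

/-- **division** -/
theorem div_law {W : ℕ → ℝ} {L C : ℝ} (hL : 0 < L) (hC : 0 ≤ C) (hW0 : ∀ N, 0 < W N)
    (hW : ∀ N : ℕ, 1 ≤ N → |W N / (N : ℝ) ^ (5 / 24 : ℝ) - L| ≤ C * (N : ℝ) ^ (-(1 / 2) : ℝ)) :
    ∃ D : ℝ, 0 ≤ D ∧ ∀ N : ℕ, 1 ≤ N → ∀ p M C1 C2 a ν : ℝ, 0 ≤ C1 → 0 ≤ C2 →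
      |W N * p - M| ≤ C1 * (N : ℝ) ^ a → |M| ≤ C2 * (N : ℝ) ^ ν →
      |p - M / (L * (N : ℝ) ^ (5 / 24 : ℝ))| ≤
        D * (C1 * (N : ℝ) ^ (a - 5 / 24) + C2 * (N : ℝ) ^ (ν - 5 / 24 - 1 / 2)) := by
  obtain ⟨w0, hw0, hlow⟩ := nrm_low hL hW0 hW
  refine ⟨1 / w0 + C / (w0 * L), by positivity, ?_⟩
  intro N hN p M C1 C2 a ν hC1 hC2 h1 h2
  have hN0 : (0 : ℝ) < N := by exact_mod_cast hN
  set q : ℝ := (N : ℝ) ^ (5 / 24 : ℝ) with hq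
  have hq0 : 0 < q := by positivity
  set w : ℝ := W N / q with hw
  have hww : w0 ≤ w := hlow N hN
  have hwp : 0 < w := hw0.trans_le hww
  have hWw : W N = w * q := by
    rw [hw]
    field_simp
  have hWp : 0 < w * q := mul_pos hwp hq0
  have e1 : p - M / (L * q) = (W N * p - M) / (w * q) + M * (L - w) / (w * L * q) := by
    rw [hWw]
    field_simp
    ring
  have b1 : |(W N * p - M) / (w * q)| ≤ 1 / w0 * (C1 * (N : ℝ) ^ (a - 5 / 24)) := by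
    rw [abs_div, abs_of_pos hWp, div_le_iff₀ hWp]
    refine h1.trans ?_
    have e2 : (N : ℝ) ^ (a - 5 / 24) * q = (N : ℝ) ^ a := by
      rw [hq, ← Real.rpow_add hN0]
      congr 1
      ring
    have e3 : 1 / w0 * (C1 * (N : ℝ) ^ (a - 5 / 24)) * (w * q) = w / w0 * (C1 * ((N : ℝ) ^ (a - 5 / 24) * q)) := by
      ring
    rw [e3, e2]
    exact le_mul_of_one_le_left (by positivity) ((one_le_div hw0).2 hww)
  have b2 : |M * (L - w) / (w * L * q)| ≤ C / (w0 * L) * (C2 * (N : ℝ) ^ (ν - 5 / 24 - 1 / 2)) := by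
    have hp : 0 < w * L * q := by positivity
    rw [abs_div, abs_of_pos hp, div_le_iff₀ hp, abs_mul]
    have h3 : |L - w| ≤ C * (N : ℝ) ^ (-(1 / 2) : ℝ) := by
      rw [abs_sub_comm]
      exact hW N hN
    have e2 : (N : ℝ) ^ (ν - 5 / 24 - 1 / 2) * q = (N : ℝ) ^ ν * (N : ℝ) ^ (-(1 / 2) : ℝ) := by
      rw [hq, ← Real.rpow_add hN0, ← Real.rpow_add hN0]
      congr 1
      ring
    have e3 : C / (w0 * L) * (C2 * (N : ℝ) ^ (ν - 5 / 24 - 1 / 2)) * (w * L * q) =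
        w / w0 * (C * (C2 * ((N : ℝ) ^ (ν - 5 / 24 - 1 / 2) * q))) := by
      field_simp
    rw [e3, e2]
    calc |M| * |L - w| ≤ (C2 * (N : ℝ) ^ ν) * (C * (N : ℝ) ^ (-(1 / 2) : ℝ)) :=
          mul_le_mul h2 h3 (abs_nonneg _) (by positivity)
      _ = C * (C2 * ((N : ℝ) ^ ν * (N : ℝ) ^ (-(1 / 2) : ℝ))) := by ring
      _ ≤ _ := le_mul_of_one_le_left (by positivity) ((one_le_div hw0).2 hww)
  rw [e1]
  refine (abs_add_le _ _).trans ((add_le_add b1 b2).trans ?_)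
  have t1 : 0 ≤ C1 * (N : ℝ) ^ (a - 5 / 24) := by positivity
  have t2 : 0 ≤ C2 * (N : ℝ) ^ (ν - 5 / 24 - 1 / 2) := by positivity
  have t3 : 0 ≤ 1 / w0 := by positivity
  have t4 : 0 ≤ C / (w0 * L) := by positivity
  nlinarith [mul_nonneg t3 t2, mul_nonneg t4 t1]

/-- elementary bounds of a power of two -/
theorem two_pow_bd {e : ℝ} (he : |e| ≤ 1) : 1 / 2 ≤ (2 : ℝ) ^ e ∧ (2 : ℝ) ^ e ≤ 2 := by
  obtain ⟨p1, p2⟩ := abs_le.1 he
  constructor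
  · have := Real.rpow_le_rpow_of_exponent_le (show (1 : ℝ) ≤ 2 by norm_num) p1
    rwa [Real.rpow_neg_one, ← one_div] at this
  · have := Real.rpow_le_rpow_of_exponent_le (show (1 : ℝ) ≤ 2 by norm_num) p2
    rwa [Real.rpow_one] at this

/-- **two kept modes** -/
theorem two_div {W : ℕ → ℝ} {P : ℕ → ℝ[X]} {L C : ℝ} (hL : 0 < L) (hC : 0 ≤ C) (hW0 : ∀ N, 0 < W N)
    (hW : ∀ N : ℕ, 1 ≤ N → |W N / (N : ℝ) ^ (5 / 24 : ℝ) - L| ≤ C * (N : ℝ) ^ (-(1 / 2) : ℝ))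
    (nn : ∀ N i, 0 ≤ (P N).coeff i) (one : ∀ N, (P N).eval 0 = 1) {G H : ℝ → ℝ} {C1 : ℝ}
    (hF : ∀ N : ℕ, 1 ≤ N → ∀ d : ℝ, 2 / 5 ≤ d → d ≤ 3 / 5 →
      |W N * (P N).eval (2 * Real.cos (Real.pi * d)) - (G d * (N : ℝ) ^ (3 / 8 - 2 / 3 * d ^ 2 : ℝ) +
        (-1) ^ N * H d * (N : ℝ) ^ (3 / 8 - 2 / 3 * (1 - d) ^ 2 : ℝ))| ≤ C1 * (N : ℝ) ^ (1 / 10 : ℝ)) :
    ∃ K : ℝ, LawP P (fun d => G d / L) (fun d => H d / L) K (13 / 120) := by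
  have hev : ∀ N d, |(P N).eval (2 * Real.cos (Real.pi * d))| ≤ (P N).eval 2 := by
    intro N d
    refine eval_abs_le (nn N) ?_
    rw [abs_mul, abs_two]
    have := Real.abs_cos_le_one (Real.pi * d)
    linarith
  have hC1 : 0 ≤ C1 := by
    have h1 := hF 1 le_rfl (1 / 2) (by norm_num) (by norm_num)
    have h2 := (abs_nonneg _).trans h1
    have e1 : ((1 : ℕ) : ℝ) = 1 := by norm_num
    rw [e1, Real.one_rpow, mul_one] at h2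
    exact h2
  -- bounds of G, H
  obtain ⟨B, hB, hGH⟩ : ∃ B : ℝ, 0 ≤ B ∧ ∀ d : ℝ, 2 / 5 ≤ d → d ≤ 3 / 5 → |G d| ≤ B ∧ |H d| ≤ B := by
    have hP2 : ∀ N, 0 ≤ (P N).eval 2 := fun N => (abs_nonneg _).trans (hev N 0)
    set X : ℝ := W 1 * (P 1).eval 2 + C1 with hX
    set Y : ℝ := W 2 * (P 2).eval 2 + 2 * C1 with hY
    have hX0 : 0 ≤ X := by have := mul_nonneg (hW0 1).le (hP2 1); linarith
    have hY0 : 0 ≤ Y := by have := mul_nonneg (hW0 2).le (hP2 2); linarith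
    refine ⟨3 * X + Y, by positivity, fun d h1 h2 => ?_⟩
    have a1 := hF 1 le_rfl d h1 h2
    have a2 := hF 2 (by norm_num) d h1 h2
    have b1 : |W 1 * (P 1).eval (2 * Real.cos (Real.pi * d))| ≤ W 1 * (P 1).eval 2 := by
      rw [abs_mul, abs_of_pos (hW0 1)]
      exact mul_le_mul_of_nonneg_left (hev 1 d) (hW0 1).le
    have b2 : |W 2 * (P 2).eval (2 * Real.cos (Real.pi * d))| ≤ W 2 * (P 2).eval 2 := by
      rw [abs_mul, abs_of_pos (hW0 2)]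
      exact mul_le_mul_of_nonneg_left (hev 2 d) (hW0 2).le
    have e1 : ((1 : ℕ) : ℝ) = 1 := by norm_num
    have e2 : ((2 : ℕ) : ℝ) = 2 := by norm_num
    rw [e1, Real.one_rpow, Real.one_rpow, Real.one_rpow, pow_one] at a1
    rw [e2] at a2
    have c2 := (two_pow_bd (e := 1 / 10) (by rw [abs_of_pos] <;> norm_num)).2
    set u : ℝ := (2 : ℝ) ^ (3 / 8 - 2 / 3 * d ^ 2 : ℝ) with hu
    set v : ℝ := (2 : ℝ) ^ (3 / 8 - 2 / 3 * (1 - d) ^ 2 : ℝ) with hv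
    obtain ⟨u1, u2⟩ := two_pow_bd (e := 3 / 8 - 2 / 3 * d ^ 2) (by rw [abs_le]; constructor <;> nlinarith)
    obtain ⟨v1, v2⟩ := two_pow_bd (e := 3 / 8 - 2 / 3 * (1 - d) ^ 2)
      (by rw [abs_le]; constructor <;> nlinarith)
    rw [← hu] at u1 u2
    rw [← hv] at v1 v2
    have f1 : |G d - H d| ≤ X := by
      have e3 : G d * 1 + -1 * H d * 1 = G d - H d := by ring
      rw [e3] at a1
      have := abs_sub_abs_le_abs_sub (G d - H d) (W 1 * (P 1).eval (2 * Real.cos (Real.pi * d)))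
      rw [abs_sub_comm] at a1
      linarith
    have f2 : |G d * u + H d * v| ≤ Y := by
      have e3 : G d * u + (-1) ^ 2 * H d * v = G d * u + H d * v := by ring
      rw [e3] at a2
      have := abs_sub_abs_le_abs_sub (G d * u + H d * v) (W 2 * (P 2).eval (2 * Real.cos (Real.pi * d)))
      rw [abs_sub_comm] at a2
      have h5 : C1 * (2 : ℝ) ^ (1 / 10 : ℝ) ≤ 2 * C1 := by
        rw [mul_comm 2 C1]
        exact mul_le_mul_of_nonneg_left c2 hC1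
      linarith
    have g1 : G d * (u + v) = (G d * u + H d * v) + (G d - H d) * v := by ring
    have g2 : |G d| ≤ Y + 2 * X := by
      have h6 : |G d * (u + v)| ≤ Y + 2 * X := by
        rw [g1]
        refine (abs_add_le _ _).trans (add_le_add f2 ?_)
        rw [abs_mul, abs_of_pos (show 0 < v by linarith), mul_comm 2 X]
        exact mul_le_mul f1 v2 (by linarith) hX0
      rw [abs_mul, abs_of_pos (show 0 < u + v by linarith)] at h6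
      have : |G d| * 1 ≤ |G d| * (u + v) := mul_le_mul_of_nonneg_left (by linarith) (abs_nonneg _)
      linarith
    refine ⟨by linarith, ?_⟩
    have h7 : H d = G d - (G d - H d) := by ring
    have h8 : |H d| ≤ |G d| + |G d - H d| := by
      conv_lhs => rw [h7]
      exact abs_sub _ _
    linarith
  obtain ⟨D, hD, hdiv⟩ := div_law hL hC hW0 hW
  refine ⟨D * (C1 + 2 * B), nn, one, by positivity, by norm_num, by norm_num, fun N hN d h1 h2 => ?_⟩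
  have hN1 : (1 : ℝ) ≤ N := by exact_mod_cast hN
  have hN0 : (0 : ℝ) < N := by linarith
  obtain ⟨g1, g2⟩ := hGH d h1 h2
  have hM : |G d * (N : ℝ) ^ (3 / 8 - 2 / 3 * d ^ 2 : ℝ) +
        (-1) ^ N * H d * (N : ℝ) ^ (3 / 8 - 2 / 3 * (1 - d) ^ 2 : ℝ)| ≤ 2 * B * (N : ℝ) ^ (3 / 8 : ℝ) := by
    have p1 : (N : ℝ) ^ (3 / 8 - 2 / 3 * d ^ 2 : ℝ) ≤ (N : ℝ) ^ (3 / 8 : ℝ) :=
      Real.rpow_le_rpow_of_exponent_le hN1 (by nlinarith)
    have p2 : (N : ℝ) ^ (3 / 8 - 2 / 3 * (1 - d) ^ 2 : ℝ) ≤ (N : ℝ) ^ (3 / 8 : ℝ) :=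
      Real.rpow_le_rpow_of_exponent_le hN1 (by nlinarith)
    refine (abs_add_le _ _).trans ?_
    rw [abs_mul, abs_mul, abs_mul, abs_pow, abs_neg, abs_one, one_pow, one_mul,
      abs_of_nonneg (show 0 ≤ (N : ℝ) ^ (3 / 8 - 2 / 3 * d ^ 2 : ℝ) by positivity),
      abs_of_nonneg (show 0 ≤ (N : ℝ) ^ (3 / 8 - 2 / 3 * (1 - d) ^ 2 : ℝ) by positivity)]
    have q1 := mul_le_mul g1 p1 (by positivity) hB
    have q2 := mul_le_mul g2 p2 (by positivity) hB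
    linarith
  have key := hdiv N hN _ _ C1 (2 * B) (1 / 10) (3 / 8) hC1 (by positivity) (hF N hN d h1 h2) hM
  have e1 : (G d * (N : ℝ) ^ (3 / 8 - 2 / 3 * d ^ 2 : ℝ) +
        (-1) ^ N * H d * (N : ℝ) ^ (3 / 8 - 2 / 3 * (1 - d) ^ 2 : ℝ)) / (L * (N : ℝ) ^ (5 / 24 : ℝ)) =
      G d / L * (N : ℝ) ^ (1 / 6 - 2 / 3 * d ^ 2 : ℝ) +
        (-1) ^ N * (H d / L) * (N : ℝ) ^ (1 / 6 - 2 / 3 * (1 - d) ^ 2 : ℝ) := by
    have e2 : (N : ℝ) ^ (3 / 8 - 2 / 3 * d ^ 2 : ℝ) =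
        (N : ℝ) ^ (1 / 6 - 2 / 3 * d ^ 2 : ℝ) * (N : ℝ) ^ (5 / 24 : ℝ) := by
      rw [← Real.rpow_add hN0]
      congr 1
      ring
    have e3 : (N : ℝ) ^ (3 / 8 - 2 / 3 * (1 - d) ^ 2 : ℝ) =
        (N : ℝ) ^ (1 / 6 - 2 / 3 * (1 - d) ^ 2 : ℝ) * (N : ℝ) ^ (5 / 24 : ℝ) := by
      rw [← Real.rpow_add hN0]
      congr 1
      ring
    have hq0 : (N : ℝ) ^ (5 / 24 : ℝ) ≠ 0 := (Real.rpow_pos_of_pos hN0 _).ne'
    rw [e2, e3]
    field_simp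
  rw [e1] at key
  refine key.trans ?_
  rw [mul_assoc D]
  refine mul_le_mul_of_nonneg_left ?_ hD
  have p1 : (N : ℝ) ^ (1 / 10 - 5 / 24 : ℝ) = (N : ℝ) ^ (-(13 / 120) : ℝ) := by
    congr 1
    norm_num
  have p2 : (N : ℝ) ^ (3 / 8 - 5 / 24 - 1 / 2 : ℝ) ≤ (N : ℝ) ^ (-(13 / 120) : ℝ) :=
    Real.rpow_le_rpow_of_exponent_le hN1 (by norm_num)
  rw [p1, add_mul]
  exact add_le_add le_rfl (mul_le_mul_of_nonneg_left p2 (by positivity))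

/-- **one kept mode** -/
theorem one_div' {W : ℕ → ℝ} {P : ℕ → ℝ[X]} {L C : ℝ} (hL : 0 < L) (hC : 0 ≤ C) (hW0 : ∀ N, 0 < W N)
    (hW : ∀ N : ℕ, 1 ≤ N → |W N / (N : ℝ) ^ (5 / 24 : ℝ) - L| ≤ C * (N : ℝ) ^ (-(1 / 2) : ℝ))
    (nn : ∀ N i, 0 ≤ (P N).coeff i) {G : ℝ → ℝ} {C1 : ℝ}
    (hF : ∀ N : ℕ, 1 ≤ N → ∀ d : ℝ, |d| ≤ 2 / 5 →
      |W N * (P N).eval (2 * Real.cos (Real.pi * d)) - G d * (N : ℝ) ^ (3 / 8 - 2 / 3 * d ^ 2 : ℝ)| ≤
        C1 * (N : ℝ) ^ (3 / 20 : ℝ)) :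
    ∃ K : ℝ, 0 ≤ K ∧ ∀ N : ℕ, 1 ≤ N → ∀ d : ℝ, |d| ≤ 2 / 5 →
      |(P N).eval (2 * Real.cos (Real.pi * d)) - G d / L * (N : ℝ) ^ (1 / 6 - 2 / 3 * d ^ 2 : ℝ)| ≤
        K * (N : ℝ) ^ (-(7 / 120) : ℝ) := by
  have hev : ∀ N d, |(P N).eval (2 * Real.cos (Real.pi * d))| ≤ (P N).eval 2 := by
    intro N d
    refine eval_abs_le (nn N) ?_
    rw [abs_mul, abs_two]
    have := Real.abs_cos_le_one (Real.pi * d)
    linarith
  have hC1 : 0 ≤ C1 := by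
    have h1 := hF 1 le_rfl 0 (by norm_num)
    have h2 := (abs_nonneg _).trans h1
    have e1 : ((1 : ℕ) : ℝ) = 1 := by norm_num
    rw [e1, Real.one_rpow, mul_one] at h2
    exact h2
  set B : ℝ := W 1 * (P 1).eval 2 + C1 with hB'
  have hP2 : 0 ≤ (P 1).eval 2 := (abs_nonneg _).trans (hev 1 0)
  have hB : 0 ≤ B := by have := mul_nonneg (hW0 1).le hP2; linarith
  have hG : ∀ d : ℝ, |d| ≤ 2 / 5 → |G d| ≤ B := by
    intro d hd
    have a1 := hF 1 le_rfl d hd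
    have e1 : ((1 : ℕ) : ℝ) = 1 := by norm_num
    rw [e1, Real.one_rpow, Real.one_rpow, mul_one, mul_one] at a1
    have b1 : |W 1 * (P 1).eval (2 * Real.cos (Real.pi * d))| ≤ W 1 * (P 1).eval 2 := by
      rw [abs_mul, abs_of_pos (hW0 1)]
      exact mul_le_mul_of_nonneg_left (hev 1 d) (hW0 1).le
    have := abs_sub_abs_le_abs_sub (G d) (W 1 * (P 1).eval (2 * Real.cos (Real.pi * d)))
    rw [abs_sub_comm] at a1
    linarith
  clear_value B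
  obtain ⟨D, hD, hdiv⟩ := div_law hL hC hW0 hW
  refine ⟨D * (C1 + B), by positivity, fun N hN d hd => ?_⟩
  have hN1 : (1 : ℝ) ≤ N := by exact_mod_cast hN
  have hN0 : (0 : ℝ) < N := by linarith
  have hM : |G d * (N : ℝ) ^ (3 / 8 - 2 / 3 * d ^ 2 : ℝ)| ≤ B * (N : ℝ) ^ (3 / 8 : ℝ) := by
    have p1 : (N : ℝ) ^ (3 / 8 - 2 / 3 * d ^ 2 : ℝ) ≤ (N : ℝ) ^ (3 / 8 : ℝ) :=
      Real.rpow_le_rpow_of_exponent_le hN1 (by nlinarith [sq_nonneg d])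
    rw [abs_mul, abs_of_nonneg (show 0 ≤ (N : ℝ) ^ (3 / 8 - 2 / 3 * d ^ 2 : ℝ) by positivity)]
    exact mul_le_mul (hG d hd) p1 (by positivity) hB
  have key := hdiv N hN _ _ C1 B (3 / 20) (3 / 8) hC1 hB (hF N hN d hd) hM
  have e1 : (G d * (N : ℝ) ^ (3 / 8 - 2 / 3 * d ^ 2 : ℝ)) / (L * (N : ℝ) ^ (5 / 24 : ℝ)) =
      G d / L * (N : ℝ) ^ (1 / 6 - 2 / 3 * d ^ 2 : ℝ) := by
    have e2 : (N : ℝ) ^ (3 / 8 - 2 / 3 * d ^ 2 : ℝ) =
        (N : ℝ) ^ (1 / 6 - 2 / 3 * d ^ 2 : ℝ) * (N : ℝ) ^ (5 / 24 : ℝ) := by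
      rw [← Real.rpow_add hN0]
      congr 1
      ring
    have hq0 : (N : ℝ) ^ (5 / 24 : ℝ) ≠ 0 := (Real.rpow_pos_of_pos hN0 _).ne'
    rw [e2]
    field_simp
  rw [e1] at key
  refine key.trans ?_
  rw [mul_assoc D]
  refine mul_le_mul_of_nonneg_left ?_ hD
  have p1 : (N : ℝ) ^ (3 / 20 - 5 / 24 : ℝ) = (N : ℝ) ^ (-(7 / 120) : ℝ) := by
    congr 1
    norm_num
  have p2 : (N : ℝ) ^ (3 / 8 - 5 / 24 - 1 / 2 : ℝ) ≤ (N : ℝ) ^ (-(7 / 120) : ℝ) :=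
    Real.rpow_le_rpow_of_exponent_le hN1 (by norm_num)
  rw [p1, add_mul]
  exact add_le_add le_rfl (mul_le_mul_of_nonneg_left p2 hB)

/-- **the law with two modes, all `0 ≤ d ≤ 1/2`** -/
theorem law_all {P : ℕ → ℝ[X]} {g h g1 : ℝ → ℝ} {K K1 : ℝ} (L : LawP P g h K (13 / 120))
    (hK1 : 0 ≤ K1)
    (h1 : ∀ N : ℕ, 1 ≤ N → ∀ d : ℝ, |d| ≤ 2 / 5 →
      |(P N).eval (2 * Real.cos (Real.pi * d)) - g1 d * (N : ℝ) ^ (1 / 6 - 2 / 3 * d ^ 2 : ℝ)| ≤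
        K1 * (N : ℝ) ^ (-(7 / 120) : ℝ)) :
    ∀ N : ℕ, 1 ≤ N → ∀ d ∈ Icc (0 : ℝ) (1 / 2), |(P N).eval (2 * Real.cos (Real.pi * d)) -
      ((if d < 2 / 5 then g1 d else g d) * (N : ℝ) ^ (1 / 6 - 2 / 3 * d ^ 2) +
        (-1) ^ N * (if d < 2 / 5 then 0 else h d) * (N : ℝ) ^ (1 / 6 - 2 / 3 * (1 - d) ^ 2))| ≤
      (K + K1) * (N : ℝ) ^ (1 / 6 - 2 / 3 * d ^ 2 - 7 / 120) := by
  intro N hN d hd
  obtain ⟨d0, d1⟩ := hd
  have hN1 : (1 : ℝ) ≤ N := by exact_mod_cast hN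
  have hK := L.K0
  have p1 : (N : ℝ) ^ (-(7 / 120) : ℝ) ≤ (N : ℝ) ^ (1 / 6 - 2 / 3 * d ^ 2 - 7 / 120) :=
    Real.rpow_le_rpow_of_exponent_le hN1 (by nlinarith)
  have p0 : 0 ≤ (N : ℝ) ^ (1 / 6 - 2 / 3 * d ^ 2 - 7 / 120) := by positivity
  split_ifs with hlt
  · have := h1 N hN d (by rw [abs_of_nonneg d0]; exact hlt.le)
    rw [mul_zero, zero_mul, add_zero]
    refine this.trans ?_
    have a1 := mul_le_mul_of_nonneg_left p1 hK1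
    have a2 := mul_nonneg hK p0
    linarith
  · have := L.law N hN d (not_lt.1 hlt) (by linarith)
    refine this.trans ?_
    have p2 : (N : ℝ) ^ (-(13 / 120) : ℝ) ≤ (N : ℝ) ^ (-(7 / 120) : ℝ) :=
      Real.rpow_le_rpow_of_exponent_le hN1 (by norm_num)
    have a1 := mul_le_mul_of_nonneg_left (p2.trans p1) hK
    have a2 := mul_nonneg hK1 p0
    linarith

end WX

end
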