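import Pool.Agent.WX.RecXF
import Pool.Agent.PB.EPrOf

/-!
# Plan X: the function side of plan V with a twist, uniform in an index (helper12)

`f i j` = the function of plan V with `j` rows at `0`, twist `d i`, without the monodromy; `Psi i j z x` =
the same with one more row at `x` (both groups), anti-legs at `0`.

* `FunHX d C f Psi`: zeros at the rows and crude bound (`FD`), `Psi i j z 0 = f i (j + 1) z`, (A1)
  `Psi i j (x + 3l) x = f i j x`, (V1) `‖Psi i j (i t) x‖ ≤ j^(3/4+ε)`, all uniform in `i`;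
* `EPrX p d Psi`: the first order identity with the twisted derivative;
* **`FunHX.out`**: the two-step relation of ALL the coefficients `|k| ≤ K` (`nuX κ = 3/8 - (2/3) κ²`,
  `κ = k + d i`), the parity relation, the crude bound and the expansion, one constant for all indices.
-/

set_option autoImplicit false

noncomputable section

open Complex MeasureTheory Set Filter Topology
open Pool.Agent.PB.Rec (EL EL_coef EL_add EL_sub EL_le ReR seg Bx)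
open PBV (FD aL σL aL_pos σL_pos σL_lt two_σL pi_div_aL kL log_ev bK aK pow_ev one_le_aL ball_box rP rM
  field_diff mem_seg0)

namespace WXF

variable {ι : Type*}

/-- the exponent of the mode `κ` -/
def nuX (κ : ℝ) : ℝ := 3 / 8 - 2 / 3 * κ ^ 2

/-- the hypotheses of the function side, with a twist -/
structure FunHX (d : ι → ℝ) (C : ℝ) (f : ι → ℕ → ℂ → ℂ) (Psi : ι → ℕ → ℂ → ℂ → ℂ) : Prop where
  dd : ∀ i, |d i| ≤ 1
  ff : ∀ᶠ j : ℕ in atTop, ∀ i, FD aL σL 1 0 C j (f i j)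
  fp : ∀ᶠ j : ℕ in atTop, ∀ i, ∀ x ∈ seg 0, FD aL σL 1 0 C j (fun z => Psi i j z x)
  p0 : ∀ᶠ j : ℕ in atTop, ∀ i z, Psi i j z 0 = f i (j + 1) z
  a1 : ∀ᶠ j : ℕ in atTop, ∀ i, ∀ x ∈ seg 0, Psi i j (x + aL) x = f i j x
  up : ∀ ε : ℝ, 0 < ε → ∀ᶠ j : ℕ in atTop, ∀ i, ∀ x ∈ seg 0, ∀ t ∈ Icc (0 : ℝ) 1,
    ‖Psi i j (I * t) x‖ ≤ (j : ℝ) ^ (3 / 4 + ε)

/-- (E_V) with a twist, first order form, uniform in the index -/
def EPrX (p : ℝ) (d : ι → ℝ) (Psi : ι → ℕ → ℂ → ℂ → ℂ) : Prop :=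
  ∃ C' : ℝ, ∀ᶠ j : ℕ in atTop, ∀ i, ∀ s ∈ Icc (0 : ℝ) 1, ∀ t ∈ Icc (0 : ℝ) 1, ∃ D : ℂ,
    HasDerivAt (fun s : ℝ => Psi i j (I * t) (I * s)) D s ∧
    ‖D - (1 / j : ℝ) * OpX (8 / 3) (1 / 2) (1 / 8) (d i) (fun z => Psi i j z (I * s))
      (exp (I * (8 / 3 : ℝ) * (I * s))) (I * t)‖ ≤ C' * (j : ℝ) ^ (p - 1)

variable {d : ι → ℝ} {C : ℝ} {f : ι → ℕ → ℂ → ℂ} {Psi : ι → ℕ → ℂ → ℂ → ℂ}

/-- K-terms of `f` -/
theorem FunHX.kf (h : FunHX d C f Psi) (e : ℝ) {ρ : ℝ} (hρ : 0 ≤ ρ) (hρσ : ρ < σL) :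
    ∃ K0 : ℕ, ∀ K ≥ K0, ∀ᶠ j : ℕ in atTop, ∀ i, ∀ z : ℂ, |z.re| ≤ aL + ρ → |z.im| ≤ 2 →
      ‖f i j z - EL (8 / 3) K (bK (f i) j) z‖ ≤ (j : ℝ) ^ (-e) := by
  obtain ⟨K0, hK0⟩ := kL C e hρ hρσ
  refine ⟨K0, fun K hK => ?_⟩
  obtain ⟨V, -, hV⟩ := hK0 K hK
  filter_upwards [hV, h.ff, log_ev (25 / 3)] with j h1 h2 h3 i z hz hzi
  exact (h1 _ (h2 i)).1 z hz (by linarith)

/-- K-terms of `Psi (., x)` -/
theorem FunHX.kp (h : FunHX d C f Psi) (e : ℝ) {ρ : ℝ} (hρ : 0 ≤ ρ) (hρσ : ρ < σL) :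
    ∃ K0 : ℕ, ∀ K ≥ K0, ∀ᶠ j : ℕ in atTop, ∀ i, ∀ x ∈ seg 0, ∀ z : ℂ, |z.re| ≤ aL + ρ → |z.im| ≤ 2 →
      ‖Psi i j z x - EL (8 / 3) K (aK (Psi i) j x) z‖ ≤ (j : ℝ) ^ (-e) := by
  obtain ⟨K0, hK0⟩ := kL C e hρ hρσ
  refine ⟨K0, fun K hK => ?_⟩
  obtain ⟨V, -, hV⟩ := hK0 K hK
  filter_upwards [hV, h.fp, log_ev (25 / 3)] with j h1 h2 h3 i x hx z hz hzi
  exact (h1 _ (h2 i x hx)).1 z hz (by linarith)

/-- `Psi` in the box -/
theorem FunHX.bd (h : FunHX d C f Psi) {ε : ℝ} (hε : 0 < ε) : ∀ᶠ j : ℕ in atTop, ∀ i, ∀ x ∈ seg 0,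
    ∀ z : ℂ, |z.re| ≤ aL → |z.im| ≤ 2 → ‖Psi i j z x‖ ≤ (j : ℝ) ^ (3 / 4 + ε) := by
  obtain ⟨K0, hK0⟩ := kL C 1 (ρ := 0) le_rfl σL_pos
  obtain ⟨V, hV0, hV⟩ := hK0 K0 le_rfl
  set E : ℝ := (2 * K0 + 1) * Real.exp (|(8 / 3 : ℝ)| * K0 * 2) with hE
  have hE0 : 0 < E := by positivity
  filter_upwards [hV, h.fp, h.up (ε / 2) (by positivity), log_ev (25 / 3),
    pow_ev (show 0 < ε / 2 by positivity) (1 + E * (V * 2)), eventually_ge_atTop 1]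
    with j h1 h2 h3 h4 h5 h6 i x hx z hz hzi
  have hj1 : (1 : ℝ) ≤ j := by exact_mod_cast h6
  have hj0 : (0 : ℝ) < j := by linarith
  obtain ⟨k1, k2⟩ := h1 _ (h2 i x hx)
  set S : ℝ := (j : ℝ) ^ (3 / 4 + ε / 2) with hS
  have hS1 : 1 ≤ S := Real.one_le_rpow hj1 (by positivity)
  have hm1 : (j : ℝ) ^ (-(1 : ℝ)) ≤ 1 := Real.rpow_le_one_of_one_le_of_nonpos hj1 (by norm_num)
  have e1 := k1 z (by linarith) (by linarith)
  have e2 : ‖EL (8 / 3) K0 (PBV.kc aL σL (1 / 5) j (fun z => Psi i j z x)) z‖ ≤ E * (V * (2 * S)) := by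
    refine (EL_le (fun k hk => (k2 S (h3 i x hx) k hk).trans
      (mul_le_mul_of_nonneg_left (show S + (j : ℝ) ^ (-(1 : ℝ)) ≤ 2 * S by linarith) hV0.le)) z).trans ?_
    rw [hE]
    gcongr
  have e3 : Psi i j z x = (Psi i j z x - EL (8 / 3) K0 (PBV.kc aL σL (1 / 5) j (fun z => Psi i j z x)) z) +
      EL (8 / 3) K0 (PBV.kc aL σL (1 / 5) j (fun z => Psi i j z x)) z := by ring
  have e4 : ‖Psi i j z x‖ ≤ (1 + E * (V * 2)) * S := by
    rw [e3]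
    refine (norm_add_le _ _).trans ?_
    have : E * (V * (2 * S)) = E * (V * 2) * S := by ring
    rw [this] at e2
    rw [add_mul, one_mul]
    linarith
  calc ‖Psi i j z x‖ ≤ (1 + E * (V * 2)) * S := e4
    _ ≤ (j : ℝ) ^ (ε / 2) * S := by gcongr
    _ = (j : ℝ) ^ (3 / 4 + ε) := by
      rw [hS, ← Real.rpow_add hj0]
      congr 1
      ring

/-- the function and its derivatives in the legs -/
theorem FunHX.dbd (h : FunHX d C f Psi) {ε : ℝ} (hε : 0 < ε) : ∀ᶠ j : ℕ in atTop, ∀ i, ∀ x ∈ seg 0,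
    ∀ t ∈ Icc (0 : ℝ) 1, ‖Psi i j (I * t) x‖ ≤ (j : ℝ) ^ (3 / 4 + ε) ∧
      ‖deriv (fun z => Psi i j z x) (I * t)‖ ≤ (j : ℝ) ^ (3 / 4 + ε) ∧
      ‖deriv (deriv fun z => Psi i j z x) (I * t)‖ ≤ (j : ℝ) ^ (3 / 4 + ε) := by
  filter_upwards [h.bd (show 0 < ε / 2 by positivity), h.fp, h.up ε hε, log_ev (20 / 3),
    pow_ev (show 0 < ε / 2 by positivity) 16, eventually_ge_atTop 1] with j h1 h2 h2' h3 h4 h5 i x hx t ht
  have hj1 : (1 : ℝ) ≤ j := by exact_mod_cast h5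
  have hj0 : (0 : ℝ) < j := by linarith
  have key := Pool.Agent.PB.Rec.cauchy2 (f := fun z => Psi i j z x) (z := I * t) (r := 1 / 2)
    (ε := (j : ℝ) ^ (3 / 4 + ε / 2)) (by norm_num)
    (fun z hz => ((h2 i x hx).df z (by
      have := ball_box ht hz
      have := σL_pos
      linarith) (by
      rw [two_σL]
      have := ball_box ht hz
      linarith)).differentiableWithinAt)
    (fun z hz => h1 i x hx z (ball_box ht hz).1 (ball_box ht hz).2)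
  have e0 : 0 < (j : ℝ) ^ (3 / 4 + ε / 2) := by positivity
  have e1 : (j : ℝ) ^ (3 / 4 + ε) = (j : ℝ) ^ (ε / 2) * (j : ℝ) ^ (3 / 4 + ε / 2) := by
    rw [← Real.rpow_add hj0]
    congr 1
    ring
  refine ⟨h2' i x hx t ht, ?_, ?_⟩
  · refine key.1.trans ?_
    rw [e1, div_le_iff₀ (by norm_num)]
    nlinarith
  · refine key.2.trans ?_
    rw [e1, div_le_iff₀ (by norm_num)]
    nlinarith

/-- **the output of the function side of plan V with a twist** -/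
theorem FunHX.out (h : FunHX d C f Psi) {p : ℝ} (hp0 : 0 ≤ p) (hp : p ≤ 1) (hE : EPrX p d Psi) :
    ∃ (K : ℕ) (C' : ℝ), 0 ≤ C' ∧
      (∀ᶠ j : ℕ in atTop, ∀ i, ∀ k ∈ Finset.Icc (-(K : ℤ)) K,
        ‖bK (f i) (j + 2) k * (1 - ((2 * nuX (k + d i) / j : ℝ) : ℂ)) - bK (f i) j k‖ ≤
          C' * (j : ℝ) ^ (p - 1)) ∧
      (∀ᶠ j : ℕ in atTop, ∀ i, ∀ k ∈ Finset.Icc (-(K : ℤ)) K,
        ‖bK (f i) (j + 1) k - (-1) ^ k * bK (f i) j k‖ ≤ C') ∧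
      (∀ᶠ j : ℕ in atTop, ∀ i, ∀ k ∈ Finset.Icc (-(K : ℤ)) K, ‖bK (f i) j k‖ ≤ C' * (j : ℝ) ^ (1 : ℝ)) ∧
      ∀ᶠ j : ℕ in atTop, ∀ i, ∀ z : ℂ, |z.re| ≤ aL → |z.im| ≤ 2 →
        ‖f i j z - EL (8 / 3) K (bK (f i) j) z‖ ≤ (j : ℝ) ^ (-(1 : ℝ)) := by
  have hpi := Real.pi_pos
  obtain ⟨C1, hE⟩ := hE
  set ρ : ℝ := σL / 2 with hρ
  have hρ0 : 0 < ρ := by
    have := σL_pos
    positivity
  have hρ1 : ρ < σL := by
    have := σL_pos
    linarith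
  obtain ⟨K1, hK1⟩ := h.kf 1 hρ0.le hρ1
  obtain ⟨K2, hK2⟩ := h.kp 1 hρ0.le hρ1
  set K := max K1 K2 with hK
  have hk1 := hK1 K (le_max_left _ _)
  have hk2 := hK2 K (le_max_right _ _)
  set C2 : ℝ := max C1 1 with hC2
  have hC21 : 1 ≤ C2 := le_max_right _ _
  have hC2' : C1 ≤ C2 := le_max_left _ _
  have pw1 : ∀ j : ℕ, 1 ≤ j → (j : ℝ) ^ (-(1 : ℝ)) ≤ (j : ℝ) ^ (p - 1) := fun j hj =>
    Real.rpow_le_rpow_of_exponent_le (by exact_mod_cast hj) (by linarith)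
  have key := chainX (w := 8 / 3) (L := aL) (R := aL + ρ) (γ := 1 / 2) (α := 1 / 8) (p := p) (e0 := 1)
    (C := C2) (by norm_num) (by unfold aL; ring)
    (by rw [abs_of_pos aL_pos]; linarith) hp (by norm_num) hp (by linarith)
    K h.dd (n := f) (Psi := Psi) (b := fun i => bK (f i)) (a := fun i => aK (Psi i)) ?_ ?_ ?_ ?_ ?_ ?_ ?_
  · obtain ⟨C', hC'0, h1, h2, h3⟩ := key
    refine ⟨K, C', hC'0, ?_, ?_, h3, ?_⟩
    · filter_upwards [h1] with j hj i k hk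
      have e1 : (1 : ℂ) - ((2 * nuX (k + d i) / j : ℝ) : ℂ) = 1 - 4 * lamX (8 / 3) (1 / 2) (1 / 8) (d i) k / j := by
        unfold lamX nuX
        push_cast
        ring
      rw [e1]
      exact hj i k hk
    · filter_upwards [h2] with j hj i k hk
      have e1 := hj i k hk
      rw [sub_self, Real.rpow_zero, mul_one] at e1
      exact e1
    · filter_upwards [hk1] with j hj i z hz hzi
      exact hj i z (by linarith) hzi
  · -- differentiability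
    filter_upwards [h.fp, log_ev (20 / 3)] with j hj hL i x hx z hz
    refine ((hj i x hx).df z ?_ ?_).differentiableWithinAt
    · linarith [hz.1]
    · rw [two_σL]
      linarith [hz.2]
  · -- K-terms of Psi
    filter_upwards [hk2, eventually_ge_atTop 1] with j hj hj1 i x hx z hz
    refine (hj i x hx z hz.1.le hz.2.le).trans ((pw1 j hj1).trans ?_)
    have : 0 ≤ (j : ℝ) ^ (p - 1) := by positivity
    nlinarith
  · filter_upwards [hk1, eventually_ge_atTop 1] with j hj hj1 i z hz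
    refine (hj i z hz.1.le hz.2.le).trans ((pw1 j hj1).trans ?_)
    have : 0 ≤ (j : ℝ) ^ (p - 1) := by positivity
    nlinarith
  · filter_upwards [h.up (1 / 4) (by norm_num)] with j hj i x hx t ht
    refine (hj i x hx t ht).trans ?_
    rw [show (3 / 4 : ℝ) + 1 / 4 = 1 by norm_num]
    have : 0 ≤ (j : ℝ) ^ (1 : ℝ) := by positivity
    nlinarith
  · filter_upwards [hE] with j hj i s hs t ht
    obtain ⟨D, h1, h2⟩ := hj i s hs t ht
    refine ⟨D, h1, h2.trans ?_⟩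
    have : 0 ≤ (j : ℝ) ^ (p - 1) := by positivity
    gcongr
  · filter_upwards [h.p0] with j hj i z _
    exact hj i z
  · filter_upwards [h.a1] with j hj i x hx
    exact hj i x hx

end WXF
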