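import Pool.Agent.WX.CloseX
import Pool.Agent.WX.NvZ
import Pool.Agent.WND.LevV

/-!
# Plan X: the identities of level two at the sector weight (helper91)

* **`lvX`**: input 4 of `closeXG` (helper38's `levFVZ`);
* `PsiX zz j z x = fVxz (zz j) j x z`;
* `e2x_of`: `PVF.E2V p` of the function with sector weight from the three other inputs.
-/

set_option autoImplicit false

noncomputable section

open Complex Filter Topology Set

namespace WX

theorem cX_eq : cX = WNX.cZV := rfl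

/-- **input 4 of `closeXG`** -/
theorem lvX {cf : ℕ → ℝ → ℝ → ℕ → ℂ} (h : WNX.SNmV cf) : LVX cf := by
  obtain ⟨a0, ha0, H⟩ := WNX.levFVZ
  refine ⟨a0, ha0, fun ep e1 J hp => ?_⟩
  obtain ⟨K, th, dp, C, hC, h1, h2⟩ := H ep e1 J hp
  exact ⟨K, th, dp, C, hC, h1 cf h, h2⟩

/-- the function of plan X, `zz j` at the level `j` -/
abbrev PsiX (zz : ℕ → ℂ) (j : ℕ) (z x : ℂ) : ℂ := fVxz (zz j) j x z

/-- **`(E_V)` with the sector weight**, from the three other inputs -/
theorem e2x_of {zz : ℕ → ℂ} (h : ∀ j, ‖zz j‖ = 1) {p : ℝ} (hp : 1 / 10 ≤ p) (hp1 : p ≤ 1)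
    (hD : HDX (PsiX zz) (cX zz) p) (hO : OneX (PsiX zz) (cX zz)) (hZ : ZLX (PsiX zz) (cX zz) p) :
    PVF.E2V p fun j z x => fVxz (zz j) j x z :=
  closeXG hp hp1 (lvX (WNX.SNmV_cZV h)) hD hO hZ

end WX

end
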