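import Mathlib.Analysis.SpecialFunctions.Trigonometric.Bounds
import Mathlib.Analysis.SpecialFunctions.Trigonometric.Deriv
import Mathlib.Analysis.SpecialFunctions.Trigonometric.Inverse
import Mathlib.Analysis.SpecialFunctions.Log.Deriv
import Mathlib.Analysis.SpecialFunctions.Pow.Real
import Mathlib.Analysis.SpecialFunctions.Log.Basic
import Mathlib.Analysis.SpecialFunctions.Pow.Asymptotics
import Mathlib.Analysis.Real.Pi.Bounds
import Mathlib.Analysis.Complex.ExponentialBounds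
import Mathlib.Tactic

/-!
# Extreme nesting: the coefficients of a gas with the exponents of the nested polygons (helper39)

`a T k ≥ 0`, `Z_T(n) = ∑ a T k n ^ k`, `c T ^ e(θ) ≤ Z_T(2 cos θ) ≤ C T ^ e(θ)`, `e(θ) = 1 / 12 - θ ^ 2 / (3 π ^ 2)`,
and `(k + 1) a T (k + 1) ≤ a T k * a T 1`. Then for `0 < θ < π / 2` and `k / log T → κ(θ) = 2 θ / (3 π ^ 2 tan θ)`:
`log (a T k) / log T → e(θ) - κ(θ) log (2 cos θ)`.
-/

set_option autoImplicit false

noncomputable section

open Filter Topology Real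

namespace WX.NK

/-- the exponent -/
def ee (θ : ℝ) : ℝ := 1 / 12 - θ ^ 2 / (3 * π ^ 2)

/-- the typical number of polygons divided by `log T` -/
def kap (θ : ℝ) : ℝ := 2 * θ * cos θ / (3 * π ^ 2 * sin θ)

/-- the data -/
structure Gas (a : ℕ → ℕ → ℝ) (S : ℕ → ℕ) (c C : ℝ) : Prop where
  hc : 0 < c
  hC : 0 < C
  nn : ∀ T k : ℕ, 0 ≤ a T k
  fin : ∀ T k : ℕ, S T ≤ k → a T k = 0
  rem : ∀ T k : ℕ, ((k : ℝ) + 1) * a T (k + 1) ≤ a T k * a T 1
  low : ∀ T : ℕ, 1 ≤ T → ∀ θ : ℝ, 0 ≤ θ → θ < π / 2 →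
    c * (T : ℝ) ^ ee θ ≤ ∑ k ∈ Finset.range (S T), a T k * (2 * cos θ) ^ k
  up : ∀ T : ℕ, 1 ≤ T → ∀ θ : ℝ, 0 ≤ θ → θ < π / 2 →
    ∑ k ∈ Finset.range (S T), a T k * (2 * cos θ) ^ k ≤ C * (T : ℝ) ^ ee θ

variable {a : ℕ → ℕ → ℝ} {S : ℕ → ℕ} {c C : ℝ}

lemma cos_pos' {θ : ℝ} (h0 : 0 ≤ θ) (h1 : θ < π / 2) : 0 < cos θ :=
  cos_pos_of_mem_Ioo ⟨by linarith [pi_pos], h1⟩

lemma sin_pos' {θ : ℝ} (h0 : 0 < θ) (h1 : θ < π / 2) : 0 < sin θ :=
  sin_pos_of_pos_of_lt_pi h0 (by linarith [pi_pos])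

/-- one coefficient -/
theorem coef_le (G : Gas a S c C) {T : ℕ} (hT : 1 ≤ T) {θ : ℝ} (h0 : 0 ≤ θ) (h1 : θ < π / 2) (k : ℕ) :
    a T k * (2 * cos θ) ^ k ≤ C * (T : ℝ) ^ ee θ := by
  have hn : 0 < 2 * cos θ := by linarith [cos_pos' h0 h1]
  by_cases hk : k < S T
  · refine le_trans ?_ (G.up T hT θ h0 h1)
    exact Finset.single_le_sum (f := fun k => a T k * (2 * cos θ) ^ k)
      (fun j _ => mul_nonneg (G.nn T j) (pow_nonneg hn.le j)) (Finset.mem_range.2 hk)
  · rw [G.fin T k (not_lt.1 hk), zero_mul]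
    exact mul_nonneg G.hC.le (rpow_nonneg (Nat.cast_nonneg T) _)

/-- the mass of one polygon -/
theorem a_one (G : Gas a S c C) {T : ℕ} (hT : 3 ≤ T) : a T 1 ≤ 3 * C * log T := by
  have hp := pi_pos
  have hp3 := pi_gt_three
  have hp4 := pi_le_four
  have hT3 : (3 : ℝ) ≤ T := by exact_mod_cast hT
  have hL : 1 ≤ log T := by
    rw [le_log_iff_exp_le (by linarith)]
    linarith [exp_one_lt_three]
  have hL0 : 0 < log T := by linarith
  set y := 1 / log T with hy
  have hy0 : 0 < y := by positivity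
  have hy1 : y ≤ 1 := by
    rw [hy, div_le_one hL0]
    exact hL
  have h1 := coef_le G (by omega : 1 ≤ T) (θ := π / 2 - y) (by linarith) (by linarith) 1
  rw [cos_pi_div_two_sub, pow_one] at h1
  have h2 : 2 / π * y ≤ sin y := mul_le_sin hy0.le (by linarith)
  have h3 : ee (π / 2 - y) ≤ y / (3 * π) := by
    unfold ee
    have e : 1 / 12 - (π / 2 - y) ^ 2 / (3 * π ^ 2) = y / (3 * π) - y ^ 2 / (3 * π ^ 2) := by
      field_simp
      ring
    rw [e]
    have : 0 ≤ y ^ 2 / (3 * π ^ 2) := by positivity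
    linarith
  have h4 : (T : ℝ) ^ ee (π / 2 - y) ≤ 2 := by
    rw [rpow_def_of_pos (by linarith)]
    have h5 : log T * ee (π / 2 - y) ≤ 1 / 9 := by
      refine (mul_le_mul_of_nonneg_left h3 hL0.le).trans ?_
      have e : log T * (y / (3 * π)) = 1 / (3 * π) := by
        rw [hy]
        field_simp
      rw [e]
      exact one_div_le_one_div_of_le (by norm_num) (by linarith)
    refine (exp_le_exp.2 h5).trans ?_
    have h6 := exp_bound_div_one_sub_of_interval (x := 1 / 9) (by norm_num) (by norm_num)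
    refine h6.trans (by norm_num)
  have h5 : a T 1 * (2 * (2 / π * y)) ≤ C * 2 :=
    (mul_le_mul_of_nonneg_left (mul_le_mul_of_nonneg_left h2 zero_le_two) (G.nn T 1)).trans
      (h1.trans (mul_le_mul_of_nonneg_left h4 G.hC.le))
  have h6 : 1 / log T ≤ 2 * (2 / π * y) := by
    rw [← hy]
    have : 1 ≤ 2 * (2 / π) := by
      rw [← mul_div_assoc, le_div_iff₀ hp]
      linarith
    nlinarith
  have h7 : a T 1 * (1 / log T) ≤ C * 2 := (mul_le_mul_of_nonneg_left h6 (G.nn T 1)).trans h5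
  rw [mul_one_div, div_le_iff₀ hL0] at h7
  refine h7.trans ?_
  nlinarith [mul_pos G.hC hL0]

/-- removing polygons -/
theorem remove (G : Gas a S c C) {T k j : ℕ} {A : ℝ} (hA : a T 1 ≤ A * (k + 1)) (hA0 : 0 < A) :
    a T (k + j) ≤ A ^ j * a T k := by
  induction j with
  | zero => simp
  | succ j ih =>
    have h1 := G.rem T (k + j)
    push_cast at h1
    have hk : (0 : ℝ) < k + j + 1 := by positivity
    have h2 : a T 1 ≤ A * (k + j + 1) := by
      refine hA.trans (mul_le_mul_of_nonneg_left ?_ hA0.le)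
      have : (0 : ℝ) ≤ j := Nat.cast_nonneg j
      linarith
    have h3 : (k + j + 1 : ℝ) * a T (k + j + 1) ≤ (k + j + 1) * (A * a T (k + j)) := by
      refine h1.trans ((mul_le_mul_of_nonneg_left h2 (G.nn T _)).trans (le_of_eq (by ring)))
    have h4 := le_of_mul_le_mul_left h3 hk
    calc a T (k + (j + 1)) = a T (k + j + 1) := by rw [add_assoc]
      _ ≤ A * a T (k + j) := h4
      _ ≤ A * (A ^ j * a T k) := mul_le_mul_of_nonneg_left ih hA0.le
      _ = A ^ (j + 1) * a T k := by ring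

/-! ### the derivative -/

theorem ee_deriv (θ : ℝ) : HasDerivAt ee (-(2 * θ / (3 * π ^ 2))) θ := by
  unfold ee
  have h1 := ((hasDerivAt_pow 2 θ).div_const (3 * π ^ 2)).const_sub (1 / 12)
  refine h1.congr_deriv ?_
  push_cast
  ring

/-- the tilted exponent -/
def tl (θ s : ℝ) (t : ℝ) : ℝ := ee t - s * log (cos t / cos θ)

theorem tl_self {θ : ℝ} (h0 : 0 ≤ θ) (h1 : θ < π / 2) (s : ℝ) : tl θ s θ = ee θ := by
  unfold tl
  rw [div_self (cos_pos' h0 h1).ne', log_one]
  ring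

theorem tl_deriv {θ : ℝ} (h0 : 0 < θ) (h1 : θ < π / 2) (s : ℝ) :
    HasDerivAt (tl θ s) ((s - kap θ) * (sin θ / cos θ)) θ := by
  have hc := cos_pos' h0.le h1
  have hs := sin_pos' h0 h1
  have hp := pi_pos
  have h2 : HasDerivAt (fun t => log (cos t / cos θ)) (-(sin θ / cos θ)) θ := by
    have h3 : HasDerivAt (fun t => cos t / cos θ) (-sin θ / cos θ) θ := (hasDerivAt_cos θ).div_const _
    have h4 := h3.log (by rw [div_self hc.ne']; exact one_ne_zero)
    refine h4.congr_deriv ?_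
    rw [div_self hc.ne', div_one]
    ring
  have h5 := (ee_deriv θ).sub (h2.const_mul s)
  refine h5.congr_deriv ?_
  unfold kap
  field_simp
  ring

theorem up_ex {θ : ℝ} (h0 : 0 < θ) (h1 : θ < π / 2) {δ : ℝ} (hδ : 0 < δ) :
    ∃ t, 0 < t ∧ t < θ ∧ tl θ (kap θ + δ) t < ee θ := by
  have hd := tl_deriv h0 h1 (kap θ + δ)
  have hpos : 0 < (kap θ + δ - kap θ) * (sin θ / cos θ) := by
    rw [add_sub_cancel_left]
    exact mul_pos hδ (div_pos (sin_pos' h0 h1) (cos_pos' h0.le h1))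
  have h2 : ∀ᶠ t in 𝓝[<] θ, tl θ (kap θ + δ) t < tl θ (kap θ + δ) θ := by
    have h3 := (hasDerivAt_iff_tendsto_slope.1 hd).mono_left (nhdsWithin_mono θ (fun t (ht : t < θ) => ne_of_lt ht))
    filter_upwards [h3.eventually (lt_mem_nhds hpos), self_mem_nhdsWithin] with t ht ht'
    rw [slope_def_field] at ht
    have h5 : t - θ < 0 := sub_neg.2 ht'
    have h6 := (div_pos_iff.1 ht)
    rcases h6 with h6 | h6
    · linarith [h6.2]
    · linarith [h6.1]
  have h4 : ∀ᶠ t in 𝓝[<] θ, 0 < t := nhdsWithin_le_nhds (lt_mem_nhds h0)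
  obtain ⟨t, ht, ht0, ht1⟩ := (h2.and (h4.and self_mem_nhdsWithin)).exists
  exact ⟨t, ht0, ht1, by rwa [tl_self h0.le h1] at ht⟩

theorem dn_ex {θ : ℝ} (h0 : 0 < θ) (h1 : θ < π / 2) {δ : ℝ} (hδ : 0 < δ) :
    ∃ t, θ < t ∧ t < π / 2 ∧ tl θ (kap θ - δ) t < ee θ := by
  have hd := tl_deriv h0 h1 (kap θ - δ)
  have hneg : (kap θ - δ - kap θ) * (sin θ / cos θ) < 0 := by
    have : kap θ - δ - kap θ = -δ := by ring
    rw [this, neg_mul]
    exact neg_neg_of_pos (mul_pos hδ (div_pos (sin_pos' h0 h1) (cos_pos' h0.le h1)))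
  have h2 : ∀ᶠ t in 𝓝[>] θ, tl θ (kap θ - δ) t < tl θ (kap θ - δ) θ := by
    have h3 := (hasDerivAt_iff_tendsto_slope.1 hd).mono_left (nhdsWithin_mono θ (fun t (ht : θ < t) => ne_of_gt ht))
    filter_upwards [h3.eventually (gt_mem_nhds hneg), self_mem_nhdsWithin] with t ht ht'
    rw [slope_def_field] at ht
    have h5 : 0 < t - θ := sub_pos.2 ht'
    have h6 := (div_neg_iff.1 ht)
    rcases h6 with h6 | h6
    · linarith [h6.2]
    · linarith [h6.1]
  have h4 : ∀ᶠ t in 𝓝[>] θ, t < π / 2 := nhdsWithin_le_nhds (gt_mem_nhds h1)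
  obtain ⟨t, ht, ht0, ht1⟩ := (h2.and (h4.and self_mem_nhdsWithin)).exists
  exact ⟨t, ht1, ht0, by rwa [tl_self h0.le h1] at ht⟩

/-! ### the tails -/

/-- many polygons -/
theorem up_tail (G : Gas a S c C) {θ t : ℝ} (h0 : 0 ≤ t) (h1 : t < θ) (h2 : θ < π / 2) (s : ℝ) {T : ℕ}
    (hT : 1 ≤ T) :
    ∑ k ∈ (Finset.range (S T)).filter (fun k : ℕ => s * log T ≤ k), a T k * (2 * cos θ) ^ k ≤
      C * (T : ℝ) ^ tl θ s t := by
  have hc := cos_pos' (h0.trans h1.le) h2
  have hc' := cos_pos' h0 (h1.trans h2)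
  have hT0 : (0 : ℝ) < T := by exact_mod_cast hT
  set r := cos t / cos θ with hr
  have hr1 : 1 < r := by
    rw [hr, one_lt_div hc]
    exact cos_lt_cos_of_nonneg_of_le_pi_div_two h0 h2.le h1
  have hr0 : 0 < r := by linarith
  have hlr : 0 < log r := log_pos hr1
  have h3 : ∀ k ∈ (Finset.range (S T)).filter (fun k : ℕ => s * log T ≤ k),
      a T k * (2 * cos θ) ^ k ≤ (T : ℝ) ^ (-(s * log r)) * (a T k * (2 * cos t) ^ k) := by
    intro k hk
    have hk2 := (Finset.mem_filter.1 hk).2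
    have e : 2 * cos θ = (2 * cos t) * r⁻¹ := by
      rw [hr]
      field_simp
    rw [e, mul_pow]
    have h4 : (r⁻¹) ^ k ≤ (T : ℝ) ^ (-(s * log r)) := by
      rw [rpow_def_of_pos hT0, ← rpow_natCast, rpow_def_of_pos (inv_pos.2 hr0), log_inv, exp_le_exp]
      nlinarith
    calc a T k * ((2 * cos t) ^ k * r⁻¹ ^ k) = r⁻¹ ^ k * (a T k * (2 * cos t) ^ k) := by ring
      _ ≤ _ := mul_le_mul_of_nonneg_right h4
        (mul_nonneg (G.nn T k) (pow_nonneg (by linarith) k))
  refine (Finset.sum_le_sum h3).trans ?_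
  rw [← Finset.mul_sum]
  have h5 : ∑ k ∈ (Finset.range (S T)).filter (fun k : ℕ => s * log T ≤ k), a T k * (2 * cos t) ^ k ≤
      C * (T : ℝ) ^ ee t :=
    (Finset.sum_le_sum_of_subset_of_nonneg (Finset.filter_subset _ _)
      (fun k _ _ => mul_nonneg (G.nn T k) (pow_nonneg (by linarith) k))).trans (G.up T hT t h0 (h1.trans h2))
  refine (mul_le_mul_of_nonneg_left h5 (rpow_nonneg hT0.le _)).trans (le_of_eq ?_)
  rw [mul_left_comm, ← rpow_add hT0]
  congr 2
  unfold tl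
  ring

/-- few polygons -/
theorem dn_tail (G : Gas a S c C) {θ t : ℝ} (h0 : 0 ≤ θ) (h1 : θ < t) (h2 : t < π / 2) (s : ℝ) {T : ℕ}
    (hT : 1 ≤ T) :
    ∑ k ∈ (Finset.range (S T)).filter (fun k : ℕ => (k : ℝ) ≤ s * log T), a T k * (2 * cos θ) ^ k ≤
      C * (T : ℝ) ^ tl θ s t := by
  have hc := cos_pos' h0 (h1.trans h2)
  have hc' := cos_pos' (h0.trans h1.le) h2
  have hT0 : (0 : ℝ) < T := by exact_mod_cast hT
  set r := cos t / cos θ with hr
  have hr1 : r < 1 := by
    rw [hr, div_lt_one hc]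
    exact cos_lt_cos_of_nonneg_of_le_pi_div_two h0 h2.le h1
  have hr0 : 0 < r := div_pos hc' hc
  have hlr : log r < 0 := log_neg hr0 hr1
  have h3 : ∀ k ∈ (Finset.range (S T)).filter (fun k : ℕ => (k : ℝ) ≤ s * log T),
      a T k * (2 * cos θ) ^ k ≤ (T : ℝ) ^ (-(s * log r)) * (a T k * (2 * cos t) ^ k) := by
    intro k hk
    have hk2 := (Finset.mem_filter.1 hk).2
    have e : 2 * cos θ = (2 * cos t) * r⁻¹ := by
      rw [hr]
      field_simp
    rw [e, mul_pow]
    have h4 : (r⁻¹) ^ k ≤ (T : ℝ) ^ (-(s * log r)) := by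
      rw [rpow_def_of_pos hT0, ← rpow_natCast, rpow_def_of_pos (inv_pos.2 hr0), log_inv, exp_le_exp]
      nlinarith
    calc a T k * ((2 * cos t) ^ k * r⁻¹ ^ k) = r⁻¹ ^ k * (a T k * (2 * cos t) ^ k) := by ring
      _ ≤ _ := mul_le_mul_of_nonneg_right h4
        (mul_nonneg (G.nn T k) (pow_nonneg (by linarith) k))
  refine (Finset.sum_le_sum h3).trans ?_
  rw [← Finset.mul_sum]
  have h5 : ∑ k ∈ (Finset.range (S T)).filter (fun k : ℕ => (k : ℝ) ≤ s * log T), a T k * (2 * cos t) ^ k ≤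
      C * (T : ℝ) ^ ee t :=
    (Finset.sum_le_sum_of_subset_of_nonneg (Finset.filter_subset _ _)
      (fun k _ _ => mul_nonneg (G.nn T k) (pow_nonneg (by linarith) k))).trans
      (G.up T hT t (h0.trans h1.le) h2)
  refine (mul_le_mul_of_nonneg_left h5 (rpow_nonneg hT0.le _)).trans (le_of_eq ?_)
  rw [mul_left_comm, ← rpow_add hT0]
  congr 2
  unfold tl
  ring

/-! ### the window -/

theorem kap_pos {θ : ℝ} (h0 : 0 < θ) (h1 : θ < π / 2) : 0 < kap θ := by
  have hc := cos_pos' h0.le h1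
  have hs := sin_pos' h0 h1
  have hp := pi_pos
  unfold kap
  positivity

theorem kap_anti {θ t : ℝ} (h0 : 0 < t) (h1 : t < θ) (h2 : θ < π / 2) : kap θ < kap t := by
  have hp := pi_pos
  have key : StrictAntiOn (fun y : ℝ => y * cos y / sin y) (Set.Ioo 0 (π / 2)) := by
    refine strictAntiOn_of_deriv_neg (convex_Ioo _ _) ?_ ?_
    · intro y hy
      have hs := sin_pos' hy.1 hy.2
      exact ((continuous_id.mul continuous_cos).continuousAt.div continuous_sin.continuousAt hs.ne').continuousWithinAt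
    · intro y hy
      rw [interior_Ioo] at hy
      have hs := sin_pos' hy.1 hy.2
      have hc := cos_pos' hy.1.le hy.2
      have h3 : HasDerivAt (fun y : ℝ => y * cos y / sin y)
          (((1 * cos y + y * -sin y) * sin y - y * cos y * cos y) / sin y ^ 2) y :=
        ((hasDerivAt_id y).mul (hasDerivAt_cos y)).div (hasDerivAt_sin y) hs.ne'
      rw [h3.deriv]
      refine div_neg_of_neg_of_pos ?_ (by positivity)
      have h4 : (1 * cos y + y * -sin y) * sin y - y * cos y * cos y = cos y * sin y - y := by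
        have := sin_sq_add_cos_sq y
        linear_combination (-y) * this
      rw [h4]
      have h5 : sin y < y := sin_lt hy.1
      have h6 := cos_le_one y
      nlinarith
  have h3 := key ⟨h0, h1.trans h2⟩ ⟨h0.trans h1, h2⟩ h1
  unfold kap
  have e : ∀ y : ℝ, 2 * y * cos y / (3 * π ^ 2 * sin y) = 2 / (3 * π ^ 2) * (y * cos y / sin y) := by
    intro y
    rw [div_mul_div_comm]
    ring_nf
  rw [e, e]
  exact mul_lt_mul_of_pos_left h3 (by positivity)

lemma log_atTop : Tendsto (fun T : ℕ => log (T : ℝ)) atTop atTop :=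
  tendsto_log_atTop.comp tendsto_natCast_atTop_atTop

lemma ev_pow {C c p e : ℝ} (hc : 0 < c) (hp : p < e) :
    ∀ᶠ T : ℕ in atTop, C * (T : ℝ) ^ p ≤ c * (T : ℝ) ^ e := by
  have h1 : Tendsto (fun T : ℕ => C * (T : ℝ) ^ (-(e - p))) atTop (𝓝 (C * 0)) :=
    ((tendsto_rpow_neg_atTop (sub_pos.2 hp)).comp tendsto_natCast_atTop_atTop).const_mul C
  rw [mul_zero] at h1
  filter_upwards [h1.eventually (gt_mem_nhds hc), eventually_ge_atTop 1] with T hT hT1
  have hT0 : (0 : ℝ) < T := by exact_mod_cast hT1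
  have e1 : (T : ℝ) ^ p = (T : ℝ) ^ (-(e - p)) * (T : ℝ) ^ e := by
    rw [← rpow_add hT0]
    congr 1
    ring
  rw [e1, ← mul_assoc]
  exact mul_le_mul_of_nonneg_right hT.le (rpow_nonneg hT0.le _)

/-- the typical number of polygons -/
theorem window (G : Gas a S c C) {θ : ℝ} (h0 : 0 < θ) (h1 : θ < π / 2) {δ : ℝ} (hδ : 0 < δ) :
    ∀ᶠ T : ℕ in atTop, ∃ k : ℕ, (kap θ - δ) * log T < k ∧ (k : ℝ) < (kap θ + δ) * log T ∧
      c / 2 * (T : ℝ) ^ ee θ ≤ ((kap θ + δ) * log T + 1) * (a T k * (2 * cos θ) ^ k) := by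
  obtain ⟨t1, ht1, ht1', hu⟩ := up_ex h0 h1 hδ
  obtain ⟨t2, ht2, ht2', hd⟩ := dn_ex h0 h1 hδ
  have hc4 : 0 < c / 4 := by linarith [G.hc]
  filter_upwards [ev_pow (C := C) hc4 hu, ev_pow (C := C) hc4 hd, eventually_ge_atTop 1] with T hT1 hT2 hT
  have hT0 : (0 : ℝ) < T := by exact_mod_cast hT
  have hL : 0 ≤ log (T : ℝ) := log_nonneg (by exact_mod_cast hT)
  have hk := kap_pos h0 h1
  have hn : 0 < 2 * cos θ := by linarith [cos_pos' h0.le h1]
  have hx : 0 ≤ (kap θ + δ) * log T := mul_nonneg (by linarith) hL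
  have a1 := up_tail G ht1.le ht1' h1 (kap θ + δ) hT
  have a2 := dn_tail G h0.le ht2 ht2' (kap θ - δ) hT
  have a3 := G.low T hT θ h0.le h1
  set f : ℕ → ℝ := fun k => a T k * (2 * cos θ) ^ k with hf
  have hfn : ∀ k, 0 ≤ f k := fun k => mul_nonneg (G.nn T k) (pow_nonneg hn.le k)
  set W := ((Finset.range (S T)).filter (fun k : ℕ => ¬ ((kap θ + δ) * log T ≤ k))).filter
    (fun k : ℕ => ¬ ((k : ℝ) ≤ (kap θ - δ) * log T)) with hW
  have b1 := Finset.sum_filter_add_sum_filter_not (Finset.range (S T))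
    (fun k : ℕ => (kap θ + δ) * log T ≤ k) f
  have b2 := Finset.sum_filter_add_sum_filter_not
    ((Finset.range (S T)).filter (fun k : ℕ => ¬ ((kap θ + δ) * log T ≤ k)))
    (fun k : ℕ => (k : ℝ) ≤ (kap θ - δ) * log T) f
  have b3 : ∑ k ∈ ((Finset.range (S T)).filter (fun k : ℕ => ¬ ((kap θ + δ) * log T ≤ k))).filter
      (fun k : ℕ => (k : ℝ) ≤ (kap θ - δ) * log T), f k ≤
      ∑ k ∈ (Finset.range (S T)).filter (fun k : ℕ => (k : ℝ) ≤ (kap θ - δ) * log T), f k :=
    Finset.sum_le_sum_of_subset_of_nonneg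
      (Finset.filter_subset_filter _ (Finset.filter_subset _ _)) (fun k _ _ => hfn k)
  have hsum : c / 2 * (T : ℝ) ^ ee θ ≤ ∑ k ∈ W, f k := by
    have a1' : ∑ k ∈ (Finset.range (S T)).filter (fun k : ℕ => (kap θ + δ) * log T ≤ k), f k ≤
        c / 4 * (T : ℝ) ^ ee θ := a1.trans hT1
    have a2' : ∑ k ∈ (Finset.range (S T)).filter (fun k : ℕ => (k : ℝ) ≤ (kap θ - δ) * log T), f k ≤
        c / 4 * (T : ℝ) ^ ee θ := a2.trans hT2
    have a3' : c * (T : ℝ) ^ ee θ ≤ ∑ k ∈ Finset.range (S T), f k := a3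
    have b2' : _ + ∑ k ∈ W, f k = _ := b2
    linarith
  have hcard : (W.card : ℝ) ≤ (kap θ + δ) * log T + 1 := by
    have h3 : W ⊆ Finset.range ⌈(kap θ + δ) * log T⌉₊ := by
      intro k hk
      have h4 := (Finset.mem_filter.1 (Finset.mem_filter.1 hk).1).2
      rw [Finset.mem_range, Nat.lt_ceil]
      exact not_le.1 h4
    have h4 := Finset.card_le_card h3
    rw [Finset.card_range] at h4
    have h5 : (W.card : ℝ) ≤ ⌈(kap θ + δ) * log T⌉₊ := by exact_mod_cast h4
    exact h5.trans (Nat.ceil_lt_add_one hx).le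
  have hX : 0 < c / 2 * (T : ℝ) ^ ee θ := mul_pos (by linarith) (rpow_pos_of_pos hT0 _)
  by_contra hcon
  push Not at hcon
  have hlt : ∀ k ∈ W, ((kap θ + δ) * log T + 1) * f k < c / 2 * (T : ℝ) ^ ee θ := by
    intro k hk
    have h4 := (Finset.mem_filter.1 (Finset.mem_filter.1 hk).1).2
    have h5 := (Finset.mem_filter.1 hk).2
    exact hcon k (not_le.1 h5) (not_le.1 h4)
  have hne : W.Nonempty := by
    by_contra h
    rw [Finset.not_nonempty_iff_eq_empty] at h
    rw [h, Finset.sum_empty] at hsum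
    linarith
  have h6 := Finset.sum_lt_sum_of_nonempty hne hlt
  rw [← Finset.mul_sum, Finset.sum_const, nsmul_eq_mul] at h6
  have h7 : (W.card : ℝ) * (c / 2 * (T : ℝ) ^ ee θ) ≤
      ((kap θ + δ) * log T + 1) * (c / 2 * (T : ℝ) ^ ee θ) := mul_le_mul_of_nonneg_right hcard hX.le
  have h8 := lt_of_mul_lt_mul_left (h6.trans_le h7) (by linarith)
  linarith

/-! ### the coefficients -/

/-- the exponent of the coefficients -/
def II (θ : ℝ) : ℝ := ee θ - kap θ * log (2 * cos θ)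

lemma ev_log {b η : ℝ} (hb : 0 < b) (hη : 0 < η) :
    ∀ᶠ T : ℕ in atTop, log (b * log (T : ℝ) + 1) ≤ η * log (T : ℝ) := by
  have h1 : Tendsto (fun T : ℕ => b * log (T : ℝ) + 1) atTop atTop :=
    tendsto_atTop_add_const_right _ _ (Tendsto.const_mul_atTop hb log_atTop)
  have hη' : 0 < η / (2 * b) := by positivity
  have h2 := (isLittleO_log_id_atTop.bound hη')
  filter_upwards [h1.eventually h2, log_atTop.eventually_ge_atTop (b⁻¹), log_atTop.eventually_ge_atTop 0]
    with T hT hT1 hT0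
  rw [norm_eq_abs, id, norm_eq_abs] at hT
  have h3 : 0 < b * log (T : ℝ) + 1 := by positivity
  rw [abs_of_pos h3] at hT
  refine (le_abs_self _).trans (hT.trans ?_)
  have h4 : 1 ≤ b * log (T : ℝ) := by
    have := mul_le_mul_of_nonneg_left hT1 hb.le
    rwa [mul_inv_cancel₀ hb.ne'] at this
  have h5 : b * log (T : ℝ) + 1 ≤ 2 * b * log (T : ℝ) := by linarith
  refine (mul_le_mul_of_nonneg_left h5 hη'.le).trans (le_of_eq ?_)
  field_simp

lemma ev_const {x η : ℝ} (hη : 0 < η) : ∀ᶠ T : ℕ in atTop, x ≤ η * log (T : ℝ) :=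
  (Tendsto.const_mul_atTop hη log_atTop).eventually_ge_atTop x

lemma ev_ratio {k : ℕ → ℕ} {κ : ℝ} (hk : Tendsto (fun T : ℕ => (k T : ℝ) / log T) atTop (𝓝 κ)) {η : ℝ}
    (hη : 0 < η) : ∀ᶠ T : ℕ in atTop, (κ - η) * log T ≤ k T ∧ (k T : ℝ) ≤ (κ + η) * log T := by
  filter_upwards [hk.eventually (Metric.ball_mem_nhds κ hη), log_atTop.eventually_gt_atTop 0] with T hT hL
  rw [dist_eq, abs_lt] at hT
  have e : (k T : ℝ) = (k T : ℝ) / log T * log T := by
    rw [div_mul_cancel₀ _ hL.ne']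
  constructor
  · rw [e]
    exact mul_le_mul_of_nonneg_right (by linarith) hL.le
  · rw [e]
    exact mul_le_mul_of_nonneg_right (by linarith) hL.le

/-- **lower bound** -/
theorem coef_ge (G : Gas a S c C) {θ : ℝ} (h0 : 0 < θ) (h1 : θ < π / 2) {k : ℕ → ℕ}
    (hk : Tendsto (fun T : ℕ => (k T : ℝ) / log T) atTop (𝓝 (kap θ))) {ε : ℝ} (hε : 0 < ε) :
    ∀ᶠ T : ℕ in atTop, 0 < a T (k T) ∧ (II θ - ε) * log T ≤ log (a T (k T)) := by
  have hκ := kap_pos h0 h1
  set A := max 1 (6 * C / kap θ) with hA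
  have hA1 : 1 ≤ A := le_max_left _ _
  have hA0 : 0 < A := by linarith
  have hlA : 0 ≤ log A := log_nonneg hA1
  set B : ℝ → ℝ := fun t => ee t - kap t * log (2 * cos t) - (kap t - kap θ) / 2 * |log (2 * cos t)| -
    2 * (kap t - kap θ) * log A with hB
  have hcs := cos_pos' h0.le h1
  have hsn := sin_pos' h0 h1
  have hBc : ContinuousAt B θ := by
    have c1 : ContinuousAt ee θ := (ee_deriv θ).continuousAt
    have c2 : ContinuousAt kap θ := by
      unfold kap
      refine ContinuousAt.div (by fun_prop) (by fun_prop) ?_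
      have := pi_pos
      positivity
    have c3 : ContinuousAt (fun t => log (2 * cos t)) θ :=
      ContinuousAt.log (by fun_prop) (by positivity)
    exact ((c1.sub (c2.mul c3)).sub (((c2.sub continuousAt_const).div_const 2).mul c3.abs)).sub
      ((continuousAt_const.mul (c2.sub continuousAt_const)).mul continuousAt_const)
  have hBθ : B θ = II θ := by
    simp only [hB, II]
    ring
  have hex : ∃ t, 0 < t ∧ t < θ ∧ II θ - ε / 2 < B t := by
    have h2 : ∀ᶠ t in 𝓝[<] θ, II θ - ε / 2 < B t := by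
      refine (hBc.mono_left nhdsWithin_le_nhds).eventually (lt_mem_nhds ?_)
      rw [hBθ]
      linarith
    have h4 : ∀ᶠ t in 𝓝[<] θ, 0 < t := nhdsWithin_le_nhds (lt_mem_nhds h0)
    obtain ⟨t, ht, ht0, ht1⟩ := (h2.and (h4.and self_mem_nhdsWithin)).exists
    exact ⟨t, ht0, ht1, ht⟩
  obtain ⟨t, ht0, ht1, htB⟩ := hex
  have ht2 := ht1.trans h1
  have hκt := kap_anti ht0 ht1 h1
  set δ := (kap t - kap θ) / 2 with hδ
  have hδ0 : 0 < δ := by
    rw [hδ]
    linarith
  have hn : 0 < 2 * cos t := by linarith [cos_pos' ht0.le ht2]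
  have hb : 0 < kap t + δ := by linarith
  have hη : 0 < min (δ / 2) (kap θ / 2) := lt_min (by linarith) (by linarith)
  filter_upwards [window G ht0 ht2 hδ0, ev_ratio hk hη, ev_log hb (η := ε / 4) (by linarith),
    ev_const (x := -log (c / 2)) (η := ε / 4) (by linarith), eventually_ge_atTop 3] with T hw hr hlg hcs' hT
  have hT0 : (0 : ℝ) < T := by
    have : 0 < T := by omega
    exact_mod_cast this
  have hL : 0 < log (T : ℝ) := log_pos (by exact_mod_cast (by omega : 1 < T))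
  obtain ⟨m, hm1, hm2, hm3⟩ := hw
  have hmin1 : min (δ / 2) (kap θ / 2) ≤ δ / 2 := min_le_left _ _
  have hmin2 : min (δ / 2) (kap θ / 2) ≤ kap θ / 2 := min_le_right _ _
  have hkm : (k T : ℝ) < m := by
    refine lt_of_le_of_lt (hr.2.trans (mul_le_mul_of_nonneg_right ?_ hL.le)) hm1
    have : kap t - δ = kap θ + δ := by
      rw [hδ]
      ring
    rw [this]
    linarith
  have hkm' : k T ≤ m := by exact_mod_cast hkm.le
  obtain ⟨j, rfl⟩ := Nat.exists_eq_add_of_le hkm'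
  have hj : (j : ℝ) ≤ 2 * (kap t - kap θ) * log T := by
    push_cast at hm2
    have h5 : (kap θ - δ) * log T ≤ k T :=
      (mul_le_mul_of_nonneg_right (by linarith) hL.le).trans hr.1
    have h6 : 2 * (kap t - kap θ) * log (T : ℝ) = (kap t + δ) * log T - (kap θ - δ) * log T := by
      rw [hδ]
      ring
    rw [h6]
    linarith
  have hAk : a T 1 ≤ A * ((k T : ℝ) + 1) := by
    refine (a_one G hT).trans ?_
    have h5 : kap θ / 2 * log T ≤ (k T : ℝ) + 1 := by
      have : kap θ / 2 * log T ≤ k T := (mul_le_mul_of_nonneg_right (by linarith) hL.le).trans hr.1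
      linarith
    have h6 : 3 * C * log (T : ℝ) = 6 * C / kap θ * (kap θ / 2 * log T) := by
      field_simp
      ring
    rw [h6]
    exact mul_le_mul (le_max_right _ _) h5 (by positivity) hA0.le
  have hrm := remove G (j := j) hAk hA0
  set M := (kap t + δ) * log (T : ℝ) + 1 with hM
  have hM0 : 0 < M := by positivity
  have hX : 0 < c / 2 * (T : ℝ) ^ ee t := mul_pos (by linarith [G.hc]) (rpow_pos_of_pos hT0 _)
  have hpos : 0 < a T (k T + j) := by
    refine lt_of_le_of_ne (G.nn _ _) fun h => ?_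
    rw [← h, zero_mul, mul_zero] at hm3
    linarith
  have hpos' : 0 < a T (k T) := by
    refine lt_of_le_of_ne (G.nn _ _) fun h => ?_
    rw [← h, mul_zero] at hrm
    linarith
  refine ⟨hpos', ?_⟩
  have hnm : 0 < (2 * cos t) ^ (k T + j) := pow_pos hn _
  have h7 : c / 2 * (T : ℝ) ^ ee t ≤ M * (A ^ j * a T (k T) * (2 * cos t) ^ (k T + j)) :=
    hm3.trans (mul_le_mul_of_nonneg_left (mul_le_mul_of_nonneg_right hrm hnm.le) hM0.le)
  have h8 := log_le_log hX h7
  have hc2 : 0 < c / 2 := by linarith [G.hc]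
  rw [log_mul hc2.ne' (rpow_pos_of_pos hT0 _).ne', log_rpow hT0, log_mul hM0.ne'
    (mul_pos (mul_pos (pow_pos hA0 _) hpos') hnm).ne', log_mul (mul_pos (pow_pos hA0 _) hpos').ne' hnm.ne',
    log_mul (pow_pos hA0 _).ne' hpos'.ne', log_pow, log_pow] at h8
  have h9 : (j : ℝ) * log A ≤ 2 * (kap t - kap θ) * log T * log A := mul_le_mul_of_nonneg_right hj hlA
  have h10 : ((k T + j : ℕ) : ℝ) * log (2 * cos t) ≤
      kap t * log T * log (2 * cos t) + δ * log T * |log (2 * cos t)| := by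
    have h11 : (((k T + j : ℕ) : ℝ) - kap t * log T) * log (2 * cos t) ≤ δ * log T * |log (2 * cos t)| := by
      refine (le_abs_self _).trans ?_
      rw [abs_mul]
      refine mul_le_mul_of_nonneg_right ?_ (abs_nonneg _)
      rw [abs_le]
      constructor <;> linarith
    linarith
  have h12 : (II θ - ε / 2) * log (T : ℝ) ≤ B t * log T := mul_le_mul_of_nonneg_right htB.le hL.le
  have h13 : B t * log (T : ℝ) = ee t * log T - kap t * log T * log (2 * cos t) -
      δ * log T * |log (2 * cos t)| - 2 * (kap t - kap θ) * log T * log A := by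
    simp only [hB, hδ]
    ring
  rw [h13] at h12
  linarith

/-- **the coefficients** -/
theorem coef_lim (G : Gas a S c C) {θ : ℝ} (h0 : 0 < θ) (h1 : θ < π / 2) {k : ℕ → ℕ}
    (hk : Tendsto (fun T : ℕ => (k T : ℝ) / log T) atTop (𝓝 (kap θ))) :
    Tendsto (fun T : ℕ => log (a T (k T)) / log T) atTop (𝓝 (II θ)) := by
  rw [Metric.tendsto_nhds]
  intro ε hε
  have hcs := cos_pos' h0.le h1
  have hn : 0 < 2 * cos θ := by linarith
  set l := |log (2 * cos θ)| with hl
  have hl0 : 0 ≤ l := abs_nonneg _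
  have hη : 0 < ε / (4 * (l + 1)) := by positivity
  filter_upwards [coef_ge G h0 h1 hk (half_pos hε), ev_ratio hk hη, ev_const (x := log C) (η := ε / 4) (by linarith),
    eventually_ge_atTop 3] with T hlow hr hC hT
  have hT0 : (0 : ℝ) < T := by
    have : 0 < T := by omega
    exact_mod_cast this
  have hL : 0 < log (T : ℝ) := log_pos (by exact_mod_cast (by omega : 1 < T))
  have h2 := log_le_log (mul_pos hlow.1 (pow_pos hn _)) (coef_le G (by omega : 1 ≤ T) h0.le h1 (k T))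
  rw [log_mul hlow.1.ne' (pow_pos hn _).ne', log_pow, log_mul G.hC.ne' (rpow_pos_of_pos hT0 _).ne',
    log_rpow hT0] at h2
  have h3 : (kap θ * log T - (k T : ℝ)) * log (2 * cos θ) ≤ ε / 4 * log T := by
    refine (le_abs_self _).trans ?_
    rw [abs_mul, ← hl]
    have h4 : |kap θ * log T - (k T : ℝ)| ≤ ε / (4 * (l + 1)) * log T := by
      rw [abs_le]
      constructor <;> linarith
    refine (mul_le_mul_of_nonneg_right h4 hl0).trans ?_
    have h5 : ε / (4 * (l + 1)) * l ≤ ε / 4 := by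
      rw [div_mul_eq_mul_div, div_le_div_iff₀ (by positivity) (by norm_num)]
      nlinarith
    have := mul_le_mul_of_nonneg_right h5 hL.le
    linarith
  have h6 : log (a T (k T)) ≤ (II θ + ε / 2) * log T := by
    unfold II
    linarith
  rw [dist_eq, abs_lt]
  constructor
  · have : II θ - ε / 2 ≤ log (a T (k T)) / log T := by
      rw [le_div_iff₀ hL]
      exact hlow.2
    linarith
  · have : log (a T (k T)) / log T ≤ II θ + ε / 2 := by
      rw [div_le_iff₀ hL]
      exact h6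
    linarith

end WX.NK

end
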