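import Pool.Agent.WX.NfTwo
import Pool.Agent.WX.NestK

/-!
# The families of exactly `k` nested polygons (helper39)

* `KF Ω k`: the weight of the families of `k` nested polygons around the hexagon in `Ω`; `NF_KF`: the gas is the
  polynomial with these coefficients; `KF_rem`: `(k + 1) KF (k + 1) ≤ KF k * KF 1`;
* `KZ k T`: the public families; `KZ_eq`;
* **`nested_k`**: their exponent for `k ~ κ log T`.
-/

set_option autoImplicit false

noncomputable section

namespace WX.NT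

open NUI NUA Pool.Agent.NUF HexObs HexObs.LP Pool.Agent.ZF
open Filter Topology
open scoped ENNReal Classical

/-- the weight of the families of `k` polygons -/
def KF (Ω : Finset Pt) (k : ℕ) : ℝ := ∑ C ∈ (fam f0 Ω).filter (fun C => C.card = k), ∏ E ∈ C, wP E

theorem KF_nonneg (Ω : Finset Pt) (k : ℕ) : 0 ≤ KF Ω k :=
  Finset.sum_nonneg fun _ _ => Finset.prod_nonneg fun E _ => wP_nonneg E

theorem card_fam {Ω : Finset Pt} {C : Finset Pg} (hC : C ∈ fam f0 Ω) : C.card ≤ (dm f0 Ω).card := by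
  unfold NUA.fam at hC
  rw [Finset.mem_filter, Finset.mem_powerset] at hC
  exact Finset.card_le_card hC.1

theorem KF_zero {Ω : Finset Pt} {k : ℕ} (hk : (dm f0 Ω).card + 1 ≤ k) : KF Ω k = 0 := by
  unfold KF
  refine Finset.sum_eq_zero fun C hC => ?_
  obtain ⟨h1, h2⟩ := Finset.mem_filter.1 hC
  have := card_fam h1
  omega

theorem NF_fam (n : ℝ) (Ω : Finset Pt) : NF n Ω f0 = ∑ C ∈ fam f0 Ω, ∏ E ∈ C, (n * wP E) := by
  rw [NF_Zf, Zf_fam (n / 2) HexObs.TH.Fc_f0]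
  refine Finset.sum_congr rfl fun C _ => Finset.prod_congr rfl fun E _ => ?_
  ring

/-- **the gas is the polynomial** -/
theorem NF_KF (n : ℝ) (Ω : Finset Pt) :
    NF n Ω f0 = ∑ k ∈ Finset.range ((dm f0 Ω).card + 1), KF Ω k * n ^ k := by
  rw [NF_fam, ← Finset.sum_fiberwise_of_maps_to (g := Finset.card)
    (fun C hC => Finset.mem_range.2 (Nat.lt_succ_of_le (card_fam hC)))]
  refine Finset.sum_congr rfl fun k _ => ?_
  unfold KF
  rw [Finset.sum_mul]
  refine Finset.sum_congr rfl fun C hC => ?_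
  rw [Finset.prod_mul_distrib, Finset.prod_const, (Finset.mem_filter.1 hC).2, mul_comm]

theorem fam_erase {Ω : Finset Pt} {C : Finset Pg} (hC : C ∈ fam f0 Ω) (E : Pg) :
    C.erase E ∈ fam f0 Ω := by
  unfold NUA.fam at hC ⊢
  rw [Finset.mem_filter, Finset.mem_powerset] at hC ⊢
  exact ⟨(Finset.erase_subset _ _).trans hC.1, fun E1 h1 E2 h2 =>
    hC.2 E1 (Finset.mem_of_mem_erase h1) E2 (Finset.mem_of_mem_erase h2)⟩

theorem fam_single {Ω : Finset Pt} {E : Pg} (hE : E ∈ dm f0 Ω) : ({E} : Finset Pg) ∈ fam f0 Ω := by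
  unfold NUA.fam
  rw [Finset.mem_filter, Finset.mem_powerset]
  refine ⟨Finset.singleton_subset_iff.2 hE, fun E1 h1 E2 h2 hne => ?_⟩
  rw [Finset.mem_singleton] at h1 h2
  exact absurd (h1.trans h2.symm) hne

/-- **removing one polygon** -/
theorem KF_rem (Ω : Finset Pt) (k : ℕ) : ((k : ℝ) + 1) * KF Ω (k + 1) ≤ KF Ω k * KF Ω 1 := by
  have e1 : ((k : ℝ) + 1) * KF Ω (k + 1) =
      ∑ x ∈ ((fam f0 Ω).filter (fun C => C.card = k + 1)).sigma (fun C => C),
        (∏ E ∈ x.1.erase x.2, wP E) * ∏ E ∈ ({x.2} : Finset Pg), wP E := by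
    rw [Finset.sum_sigma]
    unfold KF
    rw [Finset.mul_sum]
    refine Finset.sum_congr rfl fun C hC => ?_
    have h1 : ∀ E ∈ C, (∏ E' ∈ C.erase E, wP E') * ∏ E' ∈ ({E} : Finset Pg), wP E' = ∏ E' ∈ C, wP E' := by
      intro E hE
      rw [Finset.prod_singleton]
      exact Finset.prod_erase_mul C _ hE
    rw [Finset.sum_congr rfl h1, Finset.sum_const, (Finset.mem_filter.1 hC).2, nsmul_eq_mul]
    push_cast
    ring
  have e2 : KF Ω k * KF Ω 1 = ∑ y ∈ ((fam f0 Ω).filter (fun C => C.card = k)) ×ˢ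
      ((fam f0 Ω).filter (fun C => C.card = 1)), (∏ E ∈ y.1, wP E) * ∏ E ∈ y.2, wP E := by
    unfold KF
    rw [Finset.sum_mul_sum, ← Finset.sum_product']
  rw [e1, e2]
  let g : (Σ _ : Finset Pg, Pg) → Finset Pg × Finset Pg := fun x => (x.1.erase x.2, {x.2})
  have hinj : Set.InjOn g (((fam f0 Ω).filter (fun C => C.card = k + 1)).sigma (fun C => C) :
      Set (Σ _ : Finset Pg, Pg)) := by
    rintro ⟨C, E⟩ h1 ⟨C', E'⟩ h2 h
    rw [Finset.mem_coe, Finset.mem_sigma] at h1 h2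
    have h3 : ({E} : Finset Pg) = {E'} := (Prod.ext_iff.1 h).2
    have h4 : E = E' := Finset.singleton_injective h3
    subst h4
    have h5 : C.erase E = C'.erase E := (Prod.ext_iff.1 h).1
    have h1E : E ∈ C := h1.2
    have h2E : E ∈ C' := h2.2
    have h6 : C = C' := by
      rw [← Finset.insert_erase h1E, h5]
      exact Finset.insert_erase h2E
    subst h6
    rfl
  have e3 : ∑ x ∈ ((fam f0 Ω).filter (fun C => C.card = k + 1)).sigma (fun C => C),
        (∏ E ∈ x.1.erase x.2, wP E) * ∏ E ∈ ({x.2} : Finset Pg), wP E =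
      ∑ y ∈ (((fam f0 Ω).filter (fun C => C.card = k + 1)).sigma (fun C => C)).image g,
        (∏ E ∈ y.1, wP E) * ∏ E ∈ y.2, wP E := by
    rw [Finset.sum_image hinj]
  rw [e3]
  refine Finset.sum_le_sum_of_subset_of_nonneg ?_ fun y _ _ =>
    mul_nonneg (Finset.prod_nonneg fun E _ => wP_nonneg E) (Finset.prod_nonneg fun E _ => wP_nonneg E)
  intro y hy
  obtain ⟨⟨C, E⟩, h1, rfl⟩ := Finset.mem_image.1 hy
  obtain ⟨h2, h3⟩ := Finset.mem_sigma.1 h1
  obtain ⟨h4, h5⟩ := Finset.mem_filter.1 h2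
  have hE : E ∈ C := h3
  have h6 : E ∈ dm f0 Ω := by
    unfold NUA.fam at h4
    rw [Finset.mem_filter, Finset.mem_powerset] at h4
    exact h4.1 hE
  rw [Finset.mem_product]
  refine ⟨Finset.mem_filter.2 ⟨fam_erase h4 E, ?_⟩, Finset.mem_filter.2 ⟨fam_single h6, Finset.card_singleton E⟩⟩
  show (C.erase E).card = k
  have h7 : C.card = k + 1 := h5
  rw [Finset.card_erase_of_mem hE, h7, Nat.add_sub_cancel]

/-! ### the public families -/

/-- the total weight of the families of `k` polygons -/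
def KZ (k T : ℕ) : ℝ≥0∞ := ∑' F : {F // Nested T F ∧ F.card = k}, ∏ P ∈ F.1, HexPolygon.wt P.2

theorem img_card {T : ℕ} {F : Finset ((ℤ × ℤ) × List (ℤ × ℤ))} (hF : Nested T F) :
    (img F).card = F.card := by
  unfold img
  refine Finset.card_image_of_injOn ?_
  intro P hP P' hP' h
  obtain ⟨h1, h2, _, _⟩ := hF.1 P hP
  obtain ⟨h3, h4, _, _⟩ := hF.1 P' hP'
  exact eP_inj ⟨h1, h2⟩ ⟨h3, h4⟩ h

theorem KZ_eq (k T : ℕ) : KZ k T = ENNReal.ofReal (KF (Bo T) k) := by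
  unfold KF
  rw [ENNReal.ofReal_sum_of_nonneg fun C _ => Finset.prod_nonneg fun E _ => wP_nonneg E]
  let Φ : {F // Nested T F ∧ F.card = k} → {C // C ∈ (fam f0 (Bo T)).filter (fun C => C.card = k)} :=
    fun F => ⟨img F.1, Finset.mem_filter.2 ⟨fam_of F.2.1, (img_card F.2.1).trans F.2.2⟩⟩
  have hΦ : Function.Bijective Φ := by
    constructor
    · intro F F' h
      exact Subtype.ext (img_inj F.2.1 F'.2.1 (congrArg Subtype.val h))
    · rintro ⟨C, hC⟩
      obtain ⟨F, hF, h⟩ := img_surj (Finset.mem_filter.1 hC).1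
      refine ⟨⟨F, hF, ?_⟩, Subtype.ext h⟩
      rw [← img_card hF, h]
      exact (Finset.mem_filter.1 hC).2
  rw [← Finset.sum_coe_sort, ← tsum_fintype (L := SummationFilter.unconditional _),
    ← (Equiv.ofBijective Φ hΦ).tsum_eq]
  unfold KZ
  refine tsum_congr fun F => ?_
  show ∏ P ∈ F.1, HexPolygon.wt P.2 = ENNReal.ofReal (∏ E ∈ img F.1, wP E)
  unfold img
  rw [Finset.prod_image, ENNReal.ofReal_prod_of_nonneg fun P _ => wP_nonneg _]
  · refine Finset.prod_congr rfl fun P hP => ?_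
    obtain ⟨h1, h2, _, _⟩ := F.2.1.1 P hP
    unfold HexPolygon.wt wP
    rw [HexPolygon.x_eq]
    congr 2
    exact (eP_card ⟨h1, h2⟩).symm
  · intro P hP P' hP' h
    obtain ⟨h1, h2, _, _⟩ := F.2.1.1 P hP
    obtain ⟨h3, h4, _, _⟩ := F.2.1.1 P' hP'
    exact eP_inj ⟨h1, h2⟩ ⟨h3, h4⟩ h

/-- the gas of the box -/
theorem gas (h : LawZ) : ∃ c C : ℝ,
    NK.Gas (fun T k => KF (Bo T) k) (fun T => (dm f0 (Bo T)).card + 1) c C := by
  obtain ⟨c, C, hc, hC, hh⟩ := bo_two h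
  have key : ∀ T : ℕ, 1 ≤ T → ∀ θ : ℝ, 0 ≤ θ → θ < Real.pi / 2 →
      c * (T : ℝ) ^ NK.ee θ ≤ ∑ k ∈ Finset.range ((dm f0 (Bo T)).card + 1), KF (Bo T) k * (2 * Real.cos θ) ^ k ∧
      ∑ k ∈ Finset.range ((dm f0 (Bo T)).card + 1), KF (Bo T) k * (2 * Real.cos θ) ^ k ≤
        C * (T : ℝ) ^ NK.ee θ := by
    intro T hT θ h0 h1
    have hp := Real.pi_pos
    have h2 := hh (θ / Real.pi) (by positivity) (by
      rw [div_le_iff₀ hp]
      linarith) T hT
    have e1 : Real.pi * (θ / Real.pi) = θ := by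
      field_simp
    have e2 : eZ (θ / Real.pi) / 2 = NK.ee θ := by
      unfold eZ NK.ee
      field_simp
      ring
    rw [e1, e2, NF_KF] at h2
    exact h2
  exact ⟨c, C, hc, hC, fun T k => KF_nonneg _ k, fun T k hk => KF_zero hk, fun T k => KF_rem _ k,
    fun T hT θ h0 h1 => (key T hT θ h0 h1).1, fun T hT θ h0 h1 => (key T hT θ h0 h1).2⟩

/-- **the families of `k` nested polygons**, `k ~ κ log T`, `0 < κ < 2 / (3 π ^ 2)` -/
theorem nested_k (h : LawZ) {θ : ℝ} (h0 : 0 < θ) (h1 : θ < Real.pi / 2) {k : ℕ → ℕ}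
    (hk : Tendsto (fun T : ℕ => (k T : ℝ) / Real.log T) atTop
      (𝓝 (2 * θ * Real.cos θ / (3 * Real.pi ^ 2 * Real.sin θ)))) :
    Tendsto (fun T : ℕ => Real.log (KZ (k T) T).toReal / Real.log T) atTop
      (𝓝 (1 / 12 - θ ^ 2 / (3 * Real.pi ^ 2) -
        2 * θ * Real.cos θ / (3 * Real.pi ^ 2 * Real.sin θ) * Real.log (2 * Real.cos θ))) := by
  obtain ⟨c, C, G⟩ := gas h
  have h2 := NK.coef_lim G h0 h1 hk
  refine h2.congr fun T => ?_
  rw [KZ_eq, ENNReal.toReal_ofReal (KF_nonneg _ _)]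

end WX.NT

end
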