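import Pool.Agent.NUNC.WindUp

/-!
# Plan X, P1: the loops that wind round the cylinder cost a constant only, every loop weight `0 ≤ w`

* `ring_leG`: the gas of the separating polygons of the cylinder with `4 k` rows, weight `w / 2` for each polygon;
* `GC_leG`: the same in the words of `NUF`;
* `windUpG`: `‖ZZ w (2 k)‖ ≤ exp (C w) * NF w (PP (4 k) k) f0 ^ 2`.
-/

set_option autoImplicit false

namespace WX

open Finset HexObs HexObs.LP Pool.Agent.NUN Pool.Agent.PLW Pool.Agent.NUF Pool.Agent.NUF.Cyl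

open Classical in
/-- **The cylinder against two planar parallelograms, every weight.** -/
theorem ring_leG : ∃ C : ℝ, 0 < C ∧ ∀ (k : ℕ), 1 ≤ k → ∀ (w : ℝ), 0 ≤ w → ∀ (hN : 1 ≤ 4 * k) (A : Finset Pt),
    GP (fun E => w / 2 * xc ^ E.card) (((Cy (4 * k) hN).polys A).filter (Lab1 (2 * k))) ≤
      Real.exp (C * w) * LP.NF w (PP (4 * k) k) f0 ^ 2 := by
  obtain ⟨C, hC, hmid⟩ := mid_sum 2
  refine ⟨C / 2, by positivity, ?_⟩
  intro k hk w hw hN A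
  set Q := ((Cy (4 * k) hN).polys A).filter (Lab1 (2 * k)) with hQ
  set M := Q.filter (fun E =>
    (¬ ∃ E', LP.IsPoly E' ∧ VE E' ⊆ Bq (fc 0) k ∧ Nw E' (fc 0) ≠ 0 ∧ E = imE (Cy (4 * k) hN) E') ∧
    (¬ ∃ E', LP.IsPoly E' ∧ VE E' ⊆ Bq (fc (2 * k)) k ∧ Nw E' (fc (2 * k)) ≠ 0 ∧ E = imE (Cy (4 * k) hN) E')) with hM
  have hy : 0 ≤ w / 2 := by positivity
  have h1 := gas_le (Cy (4 * k) hN) (y := w / 2) hy (Fc_fc 0) (Fc_fc (2 * k))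
    (Bq_inj hN (f := fc 0) (s := k) (by omega)) (Bq_inj hN (f := fc (2 * k)) (s := k) (by omega)) A Q M
    (fun E hE => by
      by_cases c1 : ∃ E', LP.IsPoly E' ∧ VE E' ⊆ Bq (fc 0) k ∧ Nw E' (fc 0) ≠ 0 ∧ E = imE (Cy (4 * k) hN) E'
      · exact Or.inl c1
      · by_cases c2 : ∃ E', LP.IsPoly E' ∧ VE E' ⊆ Bq (fc (2 * k)) k ∧ Nw E' (fc (2 * k)) ≠ 0 ∧
            E = imE (Cy (4 * k) hN) E'
        · exact Or.inr (Or.inl c2)
        · exact Or.inr (Or.inr (mem_filter.2 ⟨hE, c1, c2⟩)))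
    (gasLo hN (2 * k) (w / 2) A)
  have h2 : ∑ E ∈ M, xc ^ E.card ≤ C := by
    refine hmid (4 * k) hN (2 * k) k (Bq (fc 0) k) (Bq (fc (2 * k)) k) M (by omega) (by omega)
      (fun v hv hv2 => mem_Bq.2 ⟨hv, hv2⟩) (fun v hv hv2 => mem_Bq.2 ⟨hv, hv2⟩) fun E hE => ?_
    obtain ⟨h3, h4, h5⟩ := mem_filter.1 hE
    obtain ⟨h6, h7⟩ := mem_filter.1 h3
    refine ⟨(Nm.mem_polys'.1 h6).1, ?_, h4, h5⟩
    have h8 : ∑ q ∈ E, ((cr (fc (2 * k)) q : ℤ) : ZMod 2) = 1 := h7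
    rw [h8]
    decide
  have h3 := NF_Bq (x := w) hw 0 k hk
  have h4 := NF_Bq (x := w) hw (2 * k) k hk
  have h5 : 0 ≤ Pool.Agent.NUN.NF xc (w / 2) (fc (2 * k)) (Bq (fc (2 * k)) k) :=
    le_trans zero_le_one (one_le_NF' hy _ _)
  have h6 : (0 : ℝ) ≤ LP.NF w (PP (4 * k) k) f0 := le_trans zero_le_one (one_le_NF hw _ _)
  refine h1.trans ?_
  rw [mul_comm (Real.exp (C / 2 * w)), sq]
  refine mul_le_mul (mul_le_mul h3 h4 h5 h6) (Real.exp_le_exp.2 ?_) (Real.exp_pos _).le (mul_nonneg h6 h6)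
  calc w / 2 * ∑ E ∈ M, xc ^ E.card ≤ w / 2 * C := mul_le_mul_of_nonneg_left h2 hy
    _ = C / 2 * w := by ring

open Classical in
theorem GC_leG : ∃ C : ℝ, 0 < C ∧ ∀ k : ℕ, 1 ≤ k → ∀ (w : ℝ), 0 ≤ w → ∀ (N : ℕ) (hN : 1 ≤ N), N = 4 * k →
    ∀ A : Finset Pt, Pool.Agent.NUNC.GC hN (2 * k) xc (w / 2) A ≤ Real.exp (C * w) * HexObs.LP.NF w (HexObs.LP.PP (4 * k) k) f0 ^ 2 := by
  obtain ⟨C, hC, h⟩ := ring_leG
  refine ⟨C, hC, ?_⟩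
  rintro k hk w hw N hN rfl A
  refine le_trans (le_of_eq ?_) (h k hk w hw hN A)
  unfold Pool.Agent.NUNC.GC
  congr 1
  ext E
  rw [Pool.Agent.NUNC.mem_odd, Finset.mem_filter, Nm.mem_polys', and_assoc]
  exact Iff.rfl

/-- **The loops that wind round the cylinder cost a constant only.** -/
theorem windUpG : ∃ C : ℝ, 0 < C ∧ ∀ k : ℕ, 1 ≤ k → ∀ w : ℝ, 0 ≤ w →
    ‖Pool.Agent.NUF.ZZ (w : ℂ) (2 * k)‖ ≤ Real.exp (C * w) * HexObs.LP.NF w (HexObs.LP.PP (4 * k) k) f0 ^ 2 := by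
  obtain ⟨C, hC, h⟩ := GC_leG
  refine ⟨C, hC, fun k hk w hw => ?_⟩
  have h1 : 1 ≤ 2 * (2 * k) := by omega
  exact Pool.Agent.NUNC.norm_ZZ_le (n' := w) hw (k := 2 * k) h1 fun m => h k hk w hw _ h1 (by ring) _

end WX
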