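import Pool.Agent.NUA.NestC
import Pool.Agent.WX.WindG

/-!
# Plan X, (i): nested polygons with constants, every loop weight in `[0, 2]` (helper39)

* `LawZ`: the law of the partition function of the sphere lattice, up to constants, uniform in the weight;
* **`nf_two`**: the gas of nested polygons of the strips, one pair of constants for all weights;
* `bo_two`: the boxes; **`nested_two`**: the public families `NUA.NZ`.
-/

set_option autoImplicit false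

noncomputable section

namespace WX.NT

open NUI NUA Pool.Agent.NUF HexObs HexObs.LP
open scoped ENNReal

/-- the exponent of the sphere lattice, `n' = 2 cos (π d)` -/
def eZ (d : ℝ) : ℝ := 1 / 6 - 2 / 3 * d ^ 2

/-- **the law of the partition function up to constants** -/
def LawZ : Prop := ∃ c0 C0 : ℝ, 0 < c0 ∧ 0 < C0 ∧ ∀ N : ℕ, 1 ≤ N → ∀ d : ℝ, 0 ≤ d → d ≤ 1 / 2 →
  c0 * (N : ℝ) ^ eZ d ≤ (ZP N).eval (2 * Real.cos (Real.pi * d)) ∧
    (ZP N).eval (2 * Real.cos (Real.pi * d)) ≤ C0 * (N : ℝ) ^ eZ d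

theorem eZ_nonneg {d : ℝ} (h0 : 0 ≤ d) (h1 : d ≤ 1 / 2) : 0 ≤ eZ d := by
  unfold eZ
  nlinarith

theorem eZ_le (d : ℝ) : eZ d ≤ 1 / 6 := by
  unfold eZ
  nlinarith [sq_nonneg d]

theorem cos_nn {d : ℝ} (h0 : 0 ≤ d) (h1 : d ≤ 1 / 2) : 0 ≤ 2 * Real.cos (Real.pi * d) := by
  have hp := Real.pi_pos
  have := Real.cos_nonneg_of_neg_pi_div_two_le_of_le (x := Real.pi * d) (by nlinarith) (by nlinarith)
  linarith

theorem cos_le2 (d : ℝ) : 2 * Real.cos (Real.pi * d) ≤ 2 := by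
  have := Real.cos_le_one (Real.pi * d)
  linarith

/-- `T^(e/2)` from a bound of the square -/
theorem le_of_sq {x K t e : ℝ} (hK : 0 ≤ K) (ht : 0 < t)
    (h : x ^ 2 ≤ K ^ 2 * t ^ e) : x ≤ K * t ^ (e / 2) := by
  have h1 : 0 ≤ K * t ^ (e / 2) := mul_nonneg hK (Real.rpow_nonneg ht.le _)
  have h2 : (K * t ^ (e / 2)) ^ 2 = K ^ 2 * t ^ e := by
    rw [mul_pow, ← Real.rpow_natCast (t ^ (e / 2)) 2, ← Real.rpow_mul ht.le]
    congr 2
    push_cast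
    ring
  rw [← h2] at h
  exact (le_abs_self x).trans (abs_le_of_sq_le_sq h h1)

theorem ge_of_sq {x K t e : ℝ} (hx : 0 ≤ x) (ht : 0 < t)
    (h : K ^ 2 * t ^ e ≤ x ^ 2) : K * t ^ (e / 2) ≤ x := by
  have h2 : (K * t ^ (e / 2)) ^ 2 = K ^ 2 * t ^ e := by
    rw [mul_pow, ← Real.rpow_natCast (t ^ (e / 2)) 2, ← Real.rpow_mul ht.le]
    congr 2
    push_cast
    ring
  rw [← h2] at h
  exact (le_abs_self _).trans (abs_le_of_sq_le_sq h hx)

/-- powers of comparable numbers, exponent in `[0, 1]` -/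
theorem rpow_cmp {a b r e : ℝ} (ha : 0 ≤ a) (hr : 1 ≤ r) (hb : b ≤ r * a) (hb0 : 0 ≤ b) (h0 : 0 ≤ e)
    (h1 : e ≤ 1) : b ^ e ≤ r * a ^ e := by
  have hr0 : 0 ≤ r := by linarith
  calc b ^ e ≤ (r * a) ^ e := Real.rpow_le_rpow hb0 hb h0
    _ = r ^ e * a ^ e := Real.mul_rpow hr0 ha
    _ ≤ r ^ (1 : ℝ) * a ^ e := mul_le_mul_of_nonneg_right (Real.rpow_le_rpow_of_exponent_le hr h1)
        (Real.rpow_nonneg ha _)
    _ = r * a ^ e := by rw [Real.rpow_one]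

/-- **upper bound**, all strips -/
theorem nf_upper (h : LawZ) : ∃ C : ℝ, 0 < C ∧ ∀ d : ℝ, 0 ≤ d → d ≤ 1 / 2 → ∀ T : ℕ, 1 ≤ T → ∀ M : ℕ,
    NF (2 * Real.cos (Real.pi * d)) (HexObs.LP.PP T M) f0 ≤ C * (T : ℝ) ^ (eZ d / 2) := by
  obtain ⟨c0, C0, hc0, hC0, h⟩ := h
  refine ⟨Real.sqrt (2 * C0), by positivity, fun d h0 h1 T hT M => ?_⟩
  have hT0 : (0 : ℝ) < T := by exact_mod_cast hT
  obtain ⟨x, hx, hx1⟩ := NF_le_ZZ (cos_nn h0 h1) hT M
  have h3 : x = (ZP (2 * T)).eval (2 * Real.cos (Real.pi * d)) := by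
    rw [ZP_eq, aeval_real] at hx
    exact_mod_cast hx.symm
  refine le_of_sq (Real.sqrt_nonneg _) hT0 (hx1.trans ?_)
  rw [h3, Real.sq_sqrt (by positivity)]
  refine (h (2 * T) (by omega) d h0 h1).2.trans ?_
  have h4 : ((2 * T : ℕ) : ℝ) ^ eZ d ≤ 2 * (T : ℝ) ^ eZ d :=
    rpow_cmp hT0.le one_le_two (by push_cast; exact le_rfl) (by positivity) (eZ_nonneg h0 h1)
      ((eZ_le d).trans (by norm_num))
  calc C0 * ((2 * T : ℕ) : ℝ) ^ eZ d ≤ C0 * (2 * (T : ℝ) ^ eZ d) := mul_le_mul_of_nonneg_left h4 hC0.le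
    _ = 2 * C0 * (T : ℝ) ^ eZ d := by ring

/-- **lower bound**, the strip `PP T T` -/
theorem nf_lower (h : LawZ) : ∃ c : ℝ, 0 < c ∧ ∀ d : ℝ, 0 ≤ d → d ≤ 1 / 2 → ∀ T : ℕ, 1 ≤ T →
    c * (T : ℝ) ^ (eZ d / 2) ≤ NF (2 * Real.cos (Real.pi * d)) (HexObs.LP.PP T T) f0 := by
  obtain ⟨c0, C0, hc0, hC0, h⟩ := h
  obtain ⟨C, hC, hw⟩ := windUpG
  refine ⟨min (1 / 4) (Real.sqrt (c0 / 4 * Real.exp (-(C * 2)))), lt_min (by norm_num) (by positivity),
    fun d h0 h1 T hT => ?_⟩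
  have hT1 : (1 : ℝ) ≤ T := by exact_mod_cast hT
  have hT0 : (0 : ℝ) < T := by linarith
  have hw0 := cos_nn h0 h1
  have hE0 := eZ_nonneg h0 h1
  have hE1 := eZ_le d
  have hNF : (1 : ℝ) ≤ NF (2 * Real.cos (Real.pi * d)) (HexObs.LP.PP T T) f0 := one_le_NF hw0 _ _
  have hp : 0 ≤ (T : ℝ) ^ (eZ d / 2) := Real.rpow_nonneg hT0.le _
  by_cases hT4 : T < 4
  · have e1 : (T : ℝ) ^ (eZ d / 2) ≤ 4 := by
      have h2 : (T : ℝ) ^ (eZ d / 2) ≤ (T : ℝ) ^ (1 : ℝ) :=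
        Real.rpow_le_rpow_of_exponent_le hT1 (by linarith)
      rw [Real.rpow_one] at h2
      have h3 : (T : ℝ) ≤ 4 := by exact_mod_cast hT4.le
      linarith
    calc _ ≤ 1 / 4 * (T : ℝ) ^ (eZ d / 2) := mul_le_mul_of_nonneg_right (min_le_left _ _) hp
      _ ≤ 1 := by linarith
      _ ≤ _ := hNF
  · have hT4' : 4 ≤ T := by omega
    refine (mul_le_mul_of_nonneg_right (min_le_right _ _) hp).trans (ge_of_sq (by linarith) hT0 ?_)
    rw [Real.sq_sqrt (by positivity)]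
    set k := T / 4 with hk
    have hk1 : 1 ≤ k := by omega
    have h3 := hw k hk1 _ hw0
    rw [norm_ZZ hw0] at h3
    have h4 : NF (2 * Real.cos (Real.pi * d)) (HexObs.LP.PP (4 * k) k) f0 ≤
        NF (2 * Real.cos (Real.pi * d)) (HexObs.LP.PP T T) f0 :=
      NF_mono hw0 f0 (NUA.PP_mono (by omega) (by omega))
    have h5 : (1 : ℝ) ≤ NF (2 * Real.cos (Real.pi * d)) (HexObs.LP.PP (4 * k) k) f0 := one_le_NF hw0 _ _
    have h6 := (h (2 * k) (by omega) d h0 h1).1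
    have h7 : (T : ℝ) ^ eZ d ≤ 4 * ((2 * k : ℕ) : ℝ) ^ eZ d := by
      refine rpow_cmp (by positivity) (by norm_num) ?_ hT0.le hE0 (hE1.trans (by norm_num))
      have : T ≤ 4 * (2 * k) := by omega
      exact_mod_cast this
    have h8 : Real.exp (C * (2 * Real.cos (Real.pi * d))) ≤ Real.exp (C * 2) :=
      Real.exp_le_exp.2 (mul_le_mul_of_nonneg_left (cos_le2 d) hC.le)
    have h9 : c0 * ((2 * k : ℕ) : ℝ) ^ eZ d ≤
        Real.exp (C * 2) * NF (2 * Real.cos (Real.pi * d)) (HexObs.LP.PP T T) f0 ^ 2 :=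
      h6.trans (h3.trans (mul_le_mul h8 (pow_le_pow_left₀ (by linarith) h4 2) (by positivity)
        (Real.exp_pos _).le))
    calc c0 / 4 * Real.exp (-(C * 2)) * (T : ℝ) ^ eZ d
        ≤ c0 / 4 * Real.exp (-(C * 2)) * (4 * ((2 * k : ℕ) : ℝ) ^ eZ d) :=
          mul_le_mul_of_nonneg_left h7 (by positivity)
      _ = Real.exp (-(C * 2)) * (c0 * ((2 * k : ℕ) : ℝ) ^ eZ d) := by ring
      _ ≤ Real.exp (-(C * 2)) * (Real.exp (C * 2) *
          NF (2 * Real.cos (Real.pi * d)) (HexObs.LP.PP T T) f0 ^ 2) :=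
          mul_le_mul_of_nonneg_left h9 (Real.exp_pos _).le
      _ = _ := by rw [← mul_assoc, ← Real.exp_add, neg_add_cancel, Real.exp_zero, one_mul]

/-- **the gas of nested polygons of the strips, one pair of constants for all weights** -/
theorem nf_two (h : LawZ) : ∃ c C : ℝ, 0 < c ∧ 0 < C ∧ ∀ d : ℝ, 0 ≤ d → d ≤ 1 / 2 → ∀ T : ℕ, 1 ≤ T →
    c * (T : ℝ) ^ (eZ d / 2) ≤ NF (2 * Real.cos (Real.pi * d)) (HexObs.LP.PP T T) f0 ∧
    ∀ M : ℕ, NF (2 * Real.cos (Real.pi * d)) (HexObs.LP.PP T M) f0 ≤ C * (T : ℝ) ^ (eZ d / 2) := by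
  obtain ⟨c, hc, h1⟩ := nf_lower h
  obtain ⟨C, hC, h2⟩ := nf_upper h
  exact ⟨c, C, hc, hC, fun d hd hd' T hT => ⟨h1 d hd hd' T hT, h2 d hd hd' T hT⟩⟩

/-- **the same in the boxes** -/
theorem bo_two (h : LawZ) : ∃ c C : ℝ, 0 < c ∧ 0 < C ∧ ∀ d : ℝ, 0 ≤ d → d ≤ 1 / 2 → ∀ T : ℕ, 1 ≤ T →
    c * (T : ℝ) ^ (eZ d / 2) ≤ NF (2 * Real.cos (Real.pi * d)) (Bo T) f0 ∧
    NF (2 * Real.cos (Real.pi * d)) (Bo T) f0 ≤ C * (T : ℝ) ^ (eZ d / 2) := by
  obtain ⟨c, C, hc, hC, hh⟩ := nf_two h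
  refine ⟨min (1 / 4) (c / 8), 2 * C, lt_min (by norm_num) (by positivity), by positivity,
    fun d h0 h1 T hT => ?_⟩
  have hT1 : (1 : ℝ) ≤ T := by exact_mod_cast hT
  have hT0 : (0 : ℝ) < T := by linarith
  have hw0 := cos_nn h0 h1
  have hE0 := eZ_nonneg h0 h1
  have hE1 := eZ_le d
  have hp : 0 ≤ (T : ℝ) ^ (eZ d / 2) := Real.rpow_nonneg hT0.le _
  constructor
  · have hNF : (1 : ℝ) ≤ NF (2 * Real.cos (Real.pi * d)) (Bo T) f0 := one_le_NF hw0 _ _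
    by_cases hT3 : T < 3
    · have e1 : (T : ℝ) ^ (eZ d / 2) ≤ 4 := by
        have h2 : (T : ℝ) ^ (eZ d / 2) ≤ (T : ℝ) ^ (1 : ℝ) :=
          Real.rpow_le_rpow_of_exponent_le hT1 (by linarith)
        rw [Real.rpow_one] at h2
        have h3 : (T : ℝ) ≤ 4 := by exact_mod_cast (by omega : T ≤ 4)
        linarith
      calc _ ≤ 1 / 4 * (T : ℝ) ^ (eZ d / 2) := mul_le_mul_of_nonneg_right (min_le_left _ _) hp
        _ ≤ 1 := by linarith
        _ ≤ _ := hNF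
    · set m := T / 3 with hm
      have hm1 : 1 ≤ m := by omega
      have h2 := (hh d h0 h1 m hm1).1
      have h3 := NF_mono hw0 f0 (PP_le_Bo (m := m) (T := T) (by omega))
      have h4 : (T : ℝ) ^ (eZ d / 2) ≤ 8 * (m : ℝ) ^ (eZ d / 2) := by
        refine rpow_cmp (by positivity) (by norm_num) ?_ hT0.le (by linarith) (by linarith)
        have : T ≤ 8 * m := by omega
        exact_mod_cast this
      calc _ ≤ c / 8 * (T : ℝ) ^ (eZ d / 2) := mul_le_mul_of_nonneg_right (min_le_right _ _) hp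
        _ ≤ c / 8 * (8 * (m : ℝ) ^ (eZ d / 2)) := mul_le_mul_of_nonneg_left h4 (by positivity)
        _ = c * (m : ℝ) ^ (eZ d / 2) := by ring
        _ ≤ _ := h2.trans h3
  · have h2 := (hh d h0 h1 (T + 1) (by omega)).2 (T + 1)
    have h3 := NF_mono hw0 f0 (Bo_le T)
    have h4 : (((T + 1 : ℕ) : ℝ)) ^ (eZ d / 2) ≤ 2 * (T : ℝ) ^ (eZ d / 2) := by
      refine rpow_cmp hT0.le one_le_two ?_ (by positivity) (by linarith) (by linarith)
      push_cast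
      linarith
    refine h3.trans (h2.trans ?_)
    calc C * ((T + 1 : ℕ) : ℝ) ^ (eZ d / 2) ≤ C * (2 * (T : ℝ) ^ (eZ d / 2)) :=
          mul_le_mul_of_nonneg_left h4 hC.le
      _ = _ := by ring

/-- **the public families of nested polygons**, loop weight `n ∈ (0, 2]` -/
theorem nested_two (h : LawZ) : ∃ c C : ℝ, 0 < c ∧ 0 < C ∧ ∀ n : ℝ, 0 < n → n ≤ 2 → ∀ T : ℕ, 1 ≤ T →
    ENNReal.ofReal (c * (T : ℝ) ^ (1 / 12 - Real.arccos (n / 2) ^ 2 / (3 * Real.pi ^ 2))) ≤ NZ n T ∧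
    NZ n T ≤ ENNReal.ofReal (C * (T : ℝ) ^ (1 / 12 - Real.arccos (n / 2) ^ 2 / (3 * Real.pi ^ 2))) := by
  obtain ⟨c, C, hc, hC, hh⟩ := bo_two h
  refine ⟨c, C, hc, hC, fun n hn hn2 T hT => ?_⟩
  have hp := Real.pi_pos
  have e1 : Real.pi * (Real.arccos (n / 2) / Real.pi) = Real.arccos (n / 2) := by
    field_simp
  have e2 : 2 * Real.cos (Real.arccos (n / 2)) = n := by
    rw [Real.cos_arccos (by linarith) (by linarith)]
    ring
  have e3 : eZ (Real.arccos (n / 2) / Real.pi) / 2 =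
      1 / 12 - Real.arccos (n / 2) ^ 2 / (3 * Real.pi ^ 2) := by
    unfold eZ
    field_simp
    ring
  have h1 := hh (Real.arccos (n / 2) / Real.pi) (div_nonneg (Real.arccos_nonneg _) hp.le) (by
    rw [div_le_iff₀ hp]
    have := Real.arccos_le_pi_div_two.2 (by linarith : 0 ≤ n / 2)
    linarith) T hT
  rw [e1, e2, e3] at h1
  rw [NZ_eq hn.le]
  exact ⟨ENNReal.ofReal_le_ofReal h1.1, ENNReal.ofReal_le_ofReal h1.2⟩

end WX.NT

end
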