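import Pool.Agent.PV.NHatV
import Pool.Agent.WND.NzG

/-!
# Plan X: the function with legs and anti-legs, graded by the number of quanta (helper96)

`nvn n z z' x y` : the part of `PV.nv z z' x y` with `n` quanta in each group (`n ≤ 2 m`).

* `sum_nvn`, `nvn_gen`, `nvn_tendsto`, `nvn_diff`, `nvn_big` (`n > 2 m`), `nvn_perm`;
* **`nvn_leg`** : `nvn n (x₀ + 3 l) z' (x₀, x) (x₀, y) = nvn n x₀ z' x y` (A1);
* **`nvn_neg`** : `nvn (2 m - n) (-z) (-z') (-x) (-y) = nvn n z z' x y` (A2).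
-/

set_option autoImplicit false
set_option linter.unusedSectionVars false

noncomputable section

open Complex Filter Topology

namespace WX

open NUP1 (l lpos St sta nq crq qu)
open PBR (rh)
open PBX (DZ Lg Rws SpA pull K3 DZ_eq DZ_tendsto pull_ne pull_re pull_Rws pull_tendsto)
open Pool.Agent.PB (cn Pf Lp Nu LS LS_open Hgt Lg_unif Lg_tendsto bd_im pull_Hgt DS_eq_zero cn_succ
  sub_re_le sin_hgt mem_LS mem_LS3 pull_cons DZ_perm diff_of_joint gn_im gc_re den_row mem_LS_neg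
  pre_Nu)
open PV (LV PfV AV nv hV DTV DSV_neg DSV_bridge DSV_leg LV_SpA PfV_tendsto PfV_diff PfV_leg PfV_perm
  Ga_bd staV_diff den_rowV)
open PVN (LL LL_flip LL_eq sta_div LVs RR2 RR2_neg Nu_PN DS_cn Th_div)
open WND (mem_St sum_flip)

variable {m : ℕ}

/-- **the part with `n` quanta** -/
def nvn (n : ℕ) (z z' : ℂ) (x y : Fin m → ℂ) : ℂ :=
  PfV z z' x y * DZ (cn m) (cn m) (LV z z') (LV z z') x y n

theorem sum_nvn (z z' : ℂ) (x y : Fin m → ℂ) :
    ∑ n ∈ Finset.range (2 * m + 1), nvn n z z' x y = nv z z' x y := by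
  unfold nvn PV.nv
  rw [Finset.mul_sum]

/-- pairwise different heights -/
theorem nvn_gen (n : ℕ) {z z' : ℂ} {x y : Fin m → ℂ} (hz : z ∈ LS) (hz' : |z'.re| < 7 / 10 * l)
    (hx : Rws x) (hy : Rws y) (ix : Hgt x) (iy : Hgt y) :
    nvn n z z' x y = PfV z z' x y *
      Pool.Agent.PB.DS n x y (hV (cn m) z z' x y) (hV (cn m) z z' y x) := by
  unfold nvn
  rw [DZ_eq ix iy hx hy (LV_SpA hz hz') (LV_SpA hz hz'), DSV_bridge]

/-- joint continuity -/
theorem nvn_tendsto (n : ℕ) {E : Type*} {F : Filter E} [F.IsCountablyGenerated] {z : E → ℂ}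
    {x y : E → Fin m → ℂ} {z0 z' : ℂ} {x0 y0 : Fin m → ℂ} (tz : Tendsto z F (𝓝 z0))
    (tx : ∀ i, Tendsto (fun e => x e i) F (𝓝 (x0 i)))
    (ty : ∀ i, Tendsto (fun e => y e i) F (𝓝 (y0 i))) (hx : ∀ᶠ e in F, Rws (x e))
    (hy : ∀ᶠ e in F, Rws (y e)) (hx0 : Rws x0) (hy0 : Rws y0) (hz : z0 ∈ LS)
    (hz' : |z'.re| < 7 / 10 * l) :
    Tendsto (fun e => nvn n (z e) z' (x e) (y e)) F (𝓝 (nvn n z0 z' x0 y0)) := by
  have h1 := PfV_tendsto tz tx ty hx0 hy0 hz hz'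
  obtain ⟨D, hD, hb⟩ := Lg_unif tz hz
  obtain ⟨D', hD', hb'⟩ := Ga_bd hz'
  have tl : ∀ u : ℂ, u.re ∈ K3 → Tendsto (fun e => LV (z e) z' u) F (𝓝 (LV z0 z' u)) :=
    fun u hu => (Lg_tendsto tz hz hu).mul_const _
  have h2 : Tendsto (fun e => DZ (cn m) (cn m) (LV (z e) z') (LV (z e) z') (x e) (y e) n) F
      (𝓝 (DZ (cn m) (cn m) (LV z0 z') (LV z0 z') x0 y0 n)) := by
    refine DZ_tendsto (R := (∑ j, |(x0 j).im| + 1) + (∑ j, |(y0 j).im| + 1)) (cn m) (cn m) ?_ hx0 hy0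
      tx ty (s := fun e => LV (z e) z') (t := fun e => LV (z e) z') (s0 := LV z0 z')
      (t0 := LV z0 z') (D := D * D') (by positivity) ?_ tl tl n
    · filter_upwards [hx, hy, bd_im tx, bd_im ty] with e h1 h2 h3 h4
      have s1 : 0 ≤ ∑ j, |(x0 j).im| := Finset.sum_nonneg fun _ _ => abs_nonneg _
      have s2 : 0 ≤ ∑ j, |(y0 j).im| := Finset.sum_nonneg fun _ _ => abs_nonneg _
      exact ⟨h1, h2, fun i => (h3 i).trans (by linarith), fun i => (h4 i).trans (by linarith)⟩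
    · filter_upwards [hb] with e he
      have hm : Measurable (LV (z e) z') := (PBX.Lg_meas _ _).mul (PBX.Lg_meas _ _)
      have hn : ∀ u : ℂ, u.re ∈ K3 → ‖LV (z e) z' u‖ ≤ D * D' := fun u hu => by
        rw [PV.LV_Ga, norm_mul]
        exact mul_le_mul (he u hu) (hb' u hu) (norm_nonneg _) hD
      exact ⟨hm, hm, fun u hu => ⟨hn u hu, hn u hu⟩⟩
  exact h1.mul h2

theorem DSVn_diff (n : ℕ) (c c' z' : ℂ) {x y : Fin m → ℂ} {z : ℂ} (hz : z ∈ LS) (hx : Rws x)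
    (hy : Rws y) : DifferentiableAt ℂ
      (fun z => Pool.Agent.PB.DS n x y (hV c z z' x y) (hV c' z z' y x)) z := by
  unfold Pool.Agent.PB.DS
  refine DifferentiableAt.fun_sum fun a _ => DifferentiableAt.fun_sum fun b _ => ?_
  exact ((staV_diff c z' y a hz hx).mul (staV_diff c' z' x b hz hy)).mul_const _

/-- **analyticity in the legs** -/
theorem nvn_diff (n : ℕ) {z' : ℂ} (hz' : |z'.re| < 7 / 10 * l) {x y : Fin m → ℂ} (hx : Rws x)
    (hy : Rws y) : DifferentiableOn ℂ (fun z => nvn n z z' x y) LS := by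
  refine diff_of_joint (F := 𝓝[>] (0 : ℝ)) (D := fun z e => nvn n z z' (pull x e) (pull y e))
    (fun z hz => ?_) LS_open ?_
  · have t2 : ∀ (x : Fin m → ℂ) (i : Fin m), Tendsto (fun p : ℂ × ℝ => pull x p.2 i)
        (𝓝 z ×ˢ 𝓝[>] 0) (𝓝 (x i)) := fun x i => (pull_tendsto x i).comp tendsto_snd
    exact nvn_tendsto n (F := 𝓝 z ×ˢ 𝓝[>] (0 : ℝ)) (z := fun p => p.1) (x := fun p => pull x p.2)
      (y := fun p => pull y p.2) tendsto_fst (t2 x) (t2 y)
      (Eventually.of_forall fun p => pull_Rws hx p.2) (Eventually.of_forall fun p => pull_Rws hy p.2)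
      hx hy hz hz'
  · filter_upwards [pull_Hgt x, pull_Hgt y] with e h1 h2
    have rx := pull_Rws hx e
    have ry := pull_Rws hy e
    have : DifferentiableOn ℂ (fun z => PfV z z' (pull x e) (pull y e) *
        Pool.Agent.PB.DS n (pull x e) (pull y e) (hV (cn m) z z' (pull x e) (pull y e))
          (hV (cn m) z z' (pull y e) (pull x e))) LS := fun z hz =>
      ((PfV_diff rx ry hz hz').mul (DSVn_diff n (cn m) (cn m) z' hz rx ry)).differentiableWithinAt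
    exact this.congr fun z hz => nvn_gen n hz hz' rx ry h1 h2

/-- more than `2 m` quanta -/
theorem nvn_big {n : ℕ} (hn : 2 * m < n) {z z' : ℂ} {x y : Fin m → ℂ} (hz : z ∈ LS)
    (hz' : |z'.re| < 7 / 10 * l) (hx : Rws x) (hy : Rws y) : nvn n z z' x y = 0 := by
  have t : Tendsto (fun e => nvn n z z' (pull x e) (pull y e)) (𝓝[>] (0 : ℝ))
      (𝓝 (nvn n z z' x y)) :=
    nvn_tendsto n (z := fun _ => z) tendsto_const_nhds (pull_tendsto x) (pull_tendsto y)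
      (Eventually.of_forall fun e => pull_Rws hx e) (Eventually.of_forall fun e => pull_Rws hy e)
      hx hy hz hz'
  refine tendsto_nhds_unique (t.congr' ?_) tendsto_const_nhds
  filter_upwards [pull_Hgt x, pull_Hgt y] with e h1 h2
  rw [nvn_gen n hz hz' (pull_Rws hx e) (pull_Rws hy e) h1 h2, DS_eq_zero hn, mul_zero]

theorem nvn_perm (n : ℕ) (z z' : ℂ) (x : Fin m → ℂ) (σ : Equiv.Perm (Fin m)) :
    nvn n z z' (fun i => x (σ i)) (fun i => x (σ i)) = nvn n z z' x x := by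
  unfold nvn
  rw [PfV_perm, DZ_perm]

/-! ### (A1) -/

theorem cnV_sgn (n k : ℕ) (z z' : ℂ) (x y : Fin m → ℂ) :
    Pool.Agent.PB.DS n x y (hV (cn k) z z' x y) (hV (cn k) z z' y x) =
      Pool.Agent.PB.DS n x y (hV (sin (2 * l) / sin l) z z' x y)
        (hV (sin (2 * l) / sin l) z z' y x) := by
  induction k with
  | zero => simp [Pool.Agent.PB.cn]
  | succ k ih => rw [cn_succ, DSV_neg, ih]

theorem nvn_leg_gen (n : ℕ) {x0 z' : ℂ} {x y : Fin m → ℂ} (hz' : |z'.re| < 7 / 10 * l)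
    (h0 : |x0.re| ≤ l / 2) (hx : Rws x)
    (hy : Rws y) (ix : Hgt (Fin.cons x0 x : Fin (m + 1) → ℂ))
    (iy : Hgt (Fin.cons x0 y : Fin (m + 1) → ℂ)) :
    nvn n (x0 + 3 * l) z' (Fin.cons x0 x : Fin (m + 1) → ℂ) (Fin.cons x0 y : Fin (m + 1) → ℂ) =
      nvn n x0 z' x y := by
  have ix' : Hgt x := fun i j hij => by
    simpa using ix i.succ j.succ fun h => hij (Fin.succ_injective _ h)
  have iy' : Hgt y := fun i j hij => by
    simpa using iy i.succ j.succ fun h => hij (Fin.succ_injective _ h)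
  have kx : ∀ i, (x i).im ≠ x0.im := fun i => by simpa using ix i.succ 0 (Fin.succ_ne_zero i)
  have ky : ∀ i, (y i).im ≠ x0.im := fun i => by simpa using iy i.succ 0 (Fin.succ_ne_zero i)
  have key := DSV_leg n (cn m) (cn m) x0 z' (x := x) (y := y) (fun i => (sin_hgt (kx i)).1)
    (fun i => (sin_hgt (kx i)).2) (fun i => (sin_hgt (ky i)).1) (fun i => (sin_hgt (ky i)).2)
  rw [nvn_gen n (mem_LS3 h0) hz' (Pool.Agent.PB.Rws.cons h0 hx) (Pool.Agent.PB.Rws.cons h0 hy) ix iy,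
    nvn_gen n (mem_LS h0) hz' hx hy ix' iy', cn_succ, DSV_neg, key,
    PfV_leg hz' h0 hx hy]

/-- **(A1), `n` quanta, all rows** -/
theorem nvn_leg (n : ℕ) {x0 z' : ℂ} {x y : Fin m → ℂ} (hz' : |z'.re| < 7 / 10 * l)
    (h0 : |x0.re| ≤ l / 2) (hx : Rws x) (hy : Rws y) :
    nvn n (x0 + 3 * l) z' (Fin.cons x0 x : Fin (m + 1) → ℂ) (Fin.cons x0 y : Fin (m + 1) → ℂ) =
      nvn n x0 z' x y := by
  have rx := Pool.Agent.PB.Rws.cons h0 hx
  have ry := Pool.Agent.PB.Rws.cons h0 hy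
  set px : ℝ → Fin m → ℂ := fun e i => pull (Fin.cons x0 x : Fin (m + 1) → ℂ) e i.succ with hpx
  set py : ℝ → Fin m → ℂ := fun e i => pull (Fin.cons x0 y : Fin (m + 1) → ℂ) e i.succ with hpy
  have rpx : ∀ e, Rws (px e) := fun e i => pull_Rws rx e i.succ
  have rpy : ∀ e, Rws (py e) := fun e i => pull_Rws ry e i.succ
  have t1 : Tendsto (fun e => nvn n (x0 + 3 * l) z' (pull (Fin.cons x0 x : Fin (m + 1) → ℂ) e)
      (pull (Fin.cons x0 y : Fin (m + 1) → ℂ) e)) (𝓝[>] (0 : ℝ))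
      (𝓝 (nvn n (x0 + 3 * l) z' (Fin.cons x0 x : Fin (m + 1) → ℂ)
        (Fin.cons x0 y : Fin (m + 1) → ℂ))) :=
    nvn_tendsto n (z := fun _ => x0 + 3 * l) tendsto_const_nhds (pull_tendsto _) (pull_tendsto _)
      (Eventually.of_forall fun e => pull_Rws rx e) (Eventually.of_forall fun e => pull_Rws ry e)
      rx ry (mem_LS3 h0) hz'
  have t2 : Tendsto (fun e => nvn n x0 z' (px e) (py e)) (𝓝[>] (0 : ℝ)) (𝓝 (nvn n x0 z' x y)) :=
    nvn_tendsto n (z := fun _ => x0) tendsto_const_nhds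
      (fun i => by simpa using pull_tendsto (Fin.cons x0 x : Fin (m + 1) → ℂ) i.succ)
      (fun i => by simpa using pull_tendsto (Fin.cons x0 y : Fin (m + 1) → ℂ) i.succ)
      (Eventually.of_forall rpx) (Eventually.of_forall rpy) hx hy (mem_LS h0) hz'
  refine tendsto_nhds_unique (t1.congr' ?_) t2
  filter_upwards [pull_Hgt (Fin.cons x0 x : Fin (m + 1) → ℂ),
    pull_Hgt (Fin.cons x0 y : Fin (m + 1) → ℂ)] with e h1 h2
  rw [pull_cons x0 x e] at h1 ⊢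
  rw [pull_cons x0 y e] at h2 ⊢
  exact nvn_leg_gen n hz' h0 (rpx e) (rpy e) h1 h2

/-! ### (A2) -/

/-- the part of the state sum with `n` quanta in each group -/
def SVn (n : ℕ) (z z' : ℂ) (x y : Fin m → ℂ) : ℂ :=
  ∑ a ∈ St m n, ∑ b ∈ St m n, PBS.tm z x y a b / (LL z' x a * LL z' y b)

theorem SVn_neg {n : ℕ} (hn : n ≤ 2 * m) (z z' : ℂ) (x y : Fin m → ℂ) :
    SVn (2 * m - n) (-z) (-z') (-x) (-y) = SVn n z z' x y := by
  unfold SVn
  rw [sum_flip hn]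
  refine Finset.sum_congr rfl fun a _ => ?_
  rw [sum_flip hn]
  exact Finset.sum_congr rfl fun b _ => by rw [PBS.tm_flip, LL_flip, LL_flip]

/-- generic rows: the part of the state sum in terms of quanta -/
theorem SVn_eq (n : ℕ) {z z' : ℂ} {x y : Fin m → ℂ} (hx : ∀ i j, i ≠ j → NUP1.Mu.Gn (x i - x j))
    (hy : ∀ i j, i ≠ j → NUP1.Mu.Gn (y i - y j)) (hxy : ∀ i j, NUP1.Mu.Gc (x i - y j))
    (zx : ∀ i, sin (z - x i + 2 * l) ≠ 0 ∧ sin (z - x i + 3 * l) ≠ 0)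
    (zy : ∀ i, sin (z - y i + 2 * l) ≠ 0 ∧ sin (z - y i + 3 * l) ≠ 0)
    (wx : ∀ i, sin (z' - x i + 2 * l) ≠ 0 ∧ sin (z' - x i + 3 * l) ≠ 0)
    (wy : ∀ i, sin (z' - y i + 2 * l) ≠ 0 ∧ sin (z' - y i + 3 * l) ≠ 0) :
    SVn n z z' x y = Nu z x * Nu z y / ((∏ i, Lp z' (x i)) * ∏ i, Lp z' (y i)) *
      PBX.DS (cn m) (cn m) (LVs z z') (LVs z z') x y n := by
  have s1 := NUP1.Mu.sin1_ne
  have hh : ∀ u v : Fin m → ℂ, (fun w => NUP1.Leg.hr (-(sin (2 * l) / sin l)) u v w * LVs z z' w) =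
      fun w => NUP1.Mu.hrow (2 * sin l) u v w * PBS.Th z w / PBS.Th z' w := by
    intro u v
    funext w
    rw [mul_div_assoc, Th_div, NUP1.Mu.hrow_eq]
    unfold NUP1.Leg.hr NUP1.hh
    have : -2 * sin (2 * (l : ℂ)) / (2 * sin l) = -(sin (2 * l) / sin l) := by
      field_simp
    rw [this]
  rw [DS_cn]
  unfold PBX.DS SVn
  rw [hh, hh, Finset.mul_sum]
  refine Finset.sum_congr rfl fun a ha => ?_
  rw [Finset.mul_sum]
  refine Finset.sum_congr rfl fun b hb => ?_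
  rw [mem_St] at ha hb
  have hab : ∑ i, (a i : ℤ) = ∑ j, (b j : ℤ) := by
    have h1 := NUP1.Mu.sum_nq a
    have h2 := NUP1.Mu.sum_nq b
    simp only [NUP1.Mu.nq_eq] at h1 h2
    rw [ha] at h1
    rw [hb] at h2
    linarith
  rw [PBS.tm_eq hx hy hxy zx zy a b hab, pre_Nu, pre_Nu, LL_eq wx, LL_eq wy,
    sta_div x (fun w => NUP1.Mu.hrow (2 * sin l) x y w * PBS.Th z w) (PBS.Th z') a,
    sta_div y (fun w => NUP1.Mu.hrow (2 * sin l) y x w * PBS.Th z w) (PBS.Th z') b]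
  simp only [div_eq_mul_inv, mul_inv]
  ring

/-- generic rows: the part of the normalised state sum -/
theorem nvn_SVn (n : ℕ) {z z' : ℂ} {x y : Fin m → ℂ} (hz : z ∈ LS) (hz' : |z'.re| < 7 / 10 * l)
    (hx : Rws x) (hy : Rws y) (ix : Hgt x) (iy : Hgt y) : nvn n z z' x y =
      rh (z - z') ^ 2 * (SVn n z z' x y * (2 / 3 * rh 0 * (RR2 z' x * RR2 z' y)) / PBS.PN z x y) := by
  have g1 : ∀ i j, i ≠ j → NUP1.Mu.Gn (x i - x j) := fun i j hij =>
    gn_im (by rw [sub_im]; exact sub_ne_zero.2 (ix i j hij))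
  have g2 : ∀ i j, i ≠ j → NUP1.Mu.Gn (y i - y j) := fun i j hij =>
    gn_im (by rw [sub_im]; exact sub_ne_zero.2 (iy i j hij))
  have g3 : ∀ i j, NUP1.Mu.Gc (x i - y j) := fun i j => gc_re (sub_re_le (hx i) (hy j))
  have den : ∀ {u : Fin m → ℂ}, Rws u → ∀ i, sin (z - u i + 2 * l) ≠ 0 ∧
      sin (z - u i + 3 * l) ≠ 0 := by
    intro u hu i
    obtain ⟨h1, h2⟩ := den_row hz (hu i)
    refine ⟨h1, ?_⟩
    rwa [show z - (u i - (l : ℂ)) + 2 * l = z - u i + 3 * l by ring] at h2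
  have e : nvn n z z' x y = PfV z z' x y *
      PBX.DS (cn m) (cn m) (LVs z z') (LVs z z') x y n := by
    unfold nvn
    rw [DZ_eq ix iy hx hy (LV_SpA hz hz') (LV_SpA hz hz') n]
    rfl
  have h := Nu_PN z x y
  rw [e, SVn_eq n g1 g2 g3 (den hx) (den hy) (fun i => den_rowV hz' (hx i))
    (fun i => den_rowV hz' (hy i))]
  unfold PV.PfV PV.AV PVN.RR2
  rw [Finset.prod_div_distrib, Finset.prod_div_distrib]
  generalize PBX.DS (cn m) (cn m) (LVs z z') (LVs z z') x y n = S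
  generalize (∏ i, Lp z' (x i)) = A
  generalize (∏ i, Lp z' (y i)) = B
  generalize (∏ i, rh (z' - x i) ^ 2) = A'
  generalize (∏ i, rh (z' - y i) ^ 2) = B'
  rw [show rh (z - z') ^ 2 * (Nu z x * Nu z y / (A * B) * S * (2 / 3 * rh 0 * (A' * B')) /
      PBS.PN z x y) = rh (z - z') ^ 2 * (2 / 3 * rh 0) * (A' / A * (B' / B)) *
      (Nu z x * Nu z y / PBS.PN z x y) * S by
    rw [div_mul_div_comm A' A]
    ring, h]
  ring

/-- **(A2), `n` quanta, all rows** -/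
theorem nvn_neg {n : ℕ} (hn : n ≤ 2 * m) {z z' : ℂ} (hz : |z.re| < 7 / 5 * l)
    (hz' : |z'.re| < 7 / 10 * l) {x y : Fin m → ℂ}
    (hx : Rws x) (hy : Rws y) : nvn (2 * m - n) (-z) (-z') (-x) (-y) = nvn n z z' x y := by
  obtain ⟨h1, h2⟩ := mem_LS_neg hz
  have hz2 : |(-z').re| < 7 / 10 * l := by rwa [neg_re, abs_neg]
  have t1 : Tendsto (fun e => nvn (2 * m - n) (-z) (-z') (-pull x e) (-pull y e)) (𝓝[>] (0 : ℝ))
      (𝓝 (nvn (2 * m - n) (-z) (-z') (-x) (-y))) :=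
    nvn_tendsto (2 * m - n) (z := fun _ => -z) (x := fun e => -pull x e) (y := fun e => -pull y e)
      tendsto_const_nhds
      (fun i => (pull_tendsto x i).neg) (fun i => (pull_tendsto y i).neg)
      (Eventually.of_forall fun e => Pool.Agent.PB.Rws.neg (pull_Rws hx e))
      (Eventually.of_forall fun e => Pool.Agent.PB.Rws.neg (pull_Rws hy e))
      (Pool.Agent.PB.Rws.neg hx) (Pool.Agent.PB.Rws.neg hy) h2 hz2
  have t2 : Tendsto (fun e => nvn n z z' (pull x e) (pull y e)) (𝓝[>] (0 : ℝ))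
      (𝓝 (nvn n z z' x y)) :=
    nvn_tendsto n (z := fun _ => z) tendsto_const_nhds (pull_tendsto x) (pull_tendsto y)
      (Eventually.of_forall fun e => pull_Rws hx e) (Eventually.of_forall fun e => pull_Rws hy e)
      hx hy h1 hz'
  refine tendsto_nhds_unique (t1.congr' ?_) t2
  filter_upwards [pull_Hgt x, pull_Hgt y] with e ex ey
  have rx := pull_Rws hx e
  have ry := pull_Rws hy e
  rw [nvn_SVn _ h2 hz2 (Pool.Agent.PB.Rws.neg rx) (Pool.Agent.PB.Rws.neg ry)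
    (Pool.Agent.PB.Hgt.neg ex) (Pool.Agent.PB.Hgt.neg ey), nvn_SVn _ h1 hz' rx ry ex ey, SVn_neg hn,
    PBS.PN_neg, RR2_neg, RR2_neg, show -z - -z' = -(z - z') by ring, PBR.rh_neg]

end WX

end
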