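import Pool.Agent.PB.Rec2

/-!
# Plan X: the recursion by the legs of plan V with a twist `d` (helper12)

As `PV/RecV`, with the derivatives in the legs twisted, `∂ → ∂ + i w d`:
  `d/ds Psi (i t) (x0 + i s) = (κ / j) (y⁻¹ - y) (γ Psi + α (∂ + i w d)² Psi)`, `y = exp (i w (x0 + i s))`.
`rec_modeX`: one step, first order in `1 / j`, all coefficients, one constant for `|d| ≤ 1`; the
multiplier after the integration is `lamX k = (γ - α w² (k + d)²) / w`.
-/

set_option autoImplicit false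

noncomputable section

open Complex Filter Topology Set
open Pool.Agent.PB.Rec (EL EL_coef EL_add EL_sub EL_le EL_deriv EL_diff EL_smul EL_add' tr tr_mem tr_not EL_tr
  EL_succ EL_dn EL_up cauchy2 Bx Bx_open exp_seg y_le It_ball seg exp_L)

namespace WXF

/-- the right side of the first order identity -/
def OpX (w γ α d : ℝ) (f : ℂ → ℂ) (y z : ℂ) : ℂ :=
  (y⁻¹ - y) * (γ * f z +
    α * (deriv (deriv f) z + 2 * (I * w * d) * deriv f z + (I * w * d) ^ 2 * f z))

/-- its multiplier on `exp (i w k z)` -/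
def MkX (w γ α d : ℝ) (y : ℂ) (k : ℤ) : ℂ := (y⁻¹ - y) * (γ + α * (I * w * (k + d)) ^ 2)

theorem OpX_EL (w γ α d : ℝ) (K : ℕ) (a : ℤ → ℂ) (y z : ℂ) :
    OpX w γ α d (EL w K a) y z = EL w K (fun k => MkX w γ α d y k * a k) z := by
  unfold OpX
  rw [EL_deriv, EL_deriv]
  unfold EL MkX
  rw [Finset.mul_sum (s := Finset.Icc (-(K : ℤ)) K) (a := 2 * (I * (w : ℂ) * d)),
    Finset.mul_sum (s := Finset.Icc (-(K : ℤ)) K) (a := (I * (w : ℂ) * d) ^ 2),
    ← Finset.sum_add_distrib, ← Finset.sum_add_distrib, Finset.mul_sum, Finset.mul_sum,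
    ← Finset.sum_add_distrib, Finset.mul_sum]
  exact Finset.sum_congr rfl fun k _ => by ring

theorem OpX_sub {w γ α d : ℝ} {f g : ℂ → ℂ} {U : Set ℂ} (hU : IsOpen U)
    (hf : DifferentiableOn ℂ f U) (hg : DifferentiableOn ℂ g U) {y z : ℂ} (hz : z ∈ U) :
    OpX w γ α d (fun u => f u - g u) y z = OpX w γ α d f y z - OpX w γ α d g y z := by
  unfold OpX
  have h1 : ∀ u ∈ U, deriv (fun u => f u - g u) u = deriv f u - deriv g u := fun u hu =>
    deriv_fun_sub (hf.differentiableAt (hU.mem_nhds hu)) (hg.differentiableAt (hU.mem_nhds hu))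
  have h2 : deriv (deriv (fun u => f u - g u)) z = deriv (fun u => deriv f u - deriv g u) z := by
    refine Filter.EventuallyEq.deriv_eq ?_
    filter_upwards [hU.mem_nhds hz] with u hu
    exact h1 u hu
  have h3 : deriv (fun u => deriv f u - deriv g u) z = deriv (deriv f) z - deriv (deriv g) z :=
    deriv_fun_sub ((hf.deriv hU).differentiableAt (hU.mem_nhds hz))
      ((hg.deriv hU).differentiableAt (hU.mem_nhds hz))
  rw [h2, h3, h1 z hz]
  ring

theorem nIwd {w d : ℝ} (hw : 0 ≤ w) (hd : |d| ≤ 1) : ‖I * (w : ℂ) * (d : ℂ)‖ ≤ w := by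
  rw [norm_mul, norm_mul, norm_I, one_mul, norm_real, norm_real, Real.norm_eq_abs, Real.norm_eq_abs,
    abs_of_nonneg hw]
  exact mul_le_of_le_one_right hw hd

theorem OpX_le {w γ α d : ℝ} (hw : 0 ≤ w) (hd : |d| ≤ 1) {f : ℂ → ℂ} {y z : ℂ} {r ε Y : ℝ}
    (hr : 0 < r) (hr1 : r ≤ 1)
    (hf : DifferentiableOn ℂ f (Metric.ball z (2 * r))) (h : ∀ u ∈ Metric.ball z (2 * r), ‖f u‖ ≤ ε)
    (hy : ‖y‖ ≤ Y) (hy' : ‖y⁻¹‖ ≤ Y) :
    ‖OpX w γ α d f y z‖ ≤ 8 * Y * (|γ| + |α| * (1 + w) ^ 2) / r ^ 2 * ε := by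
  obtain ⟨h1, h2⟩ := cauchy2 hr hf h
  have h0 := h z (Metric.mem_ball_self (by linarith))
  have hε : 0 ≤ ε := (norm_nonneg _).trans h0
  have hY : 0 ≤ Y := (norm_nonneg _).trans hy
  have hs1 : ‖y⁻¹ - y‖ ≤ 2 * Y := (norm_sub_le _ _).trans (by linarith)
  have h0' : ‖f z‖ ≤ 4 * ε / r ^ 2 := by
    refine h0.trans ?_
    rw [le_div_iff₀ (by positivity)]
    have : r ^ 2 ≤ 1 := by nlinarith
    nlinarith
  have h1' : ‖deriv f z‖ ≤ 4 * ε / r ^ 2 := by
    refine h1.trans ?_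
    rw [div_le_div_iff₀ hr (by positivity)]
    have : ε * r ^ 2 ≤ ε * r := by
      refine mul_le_mul_of_nonneg_left ?_ hε
      nlinarith
    nlinarith [mul_nonneg hε hr.le]
  set T : ℝ := 4 * ε / r ^ 2 with hT
  have hT0 : 0 ≤ T := by positivity
  have hD := nIwd hw hd
  unfold OpX
  have a1 : ‖deriv (deriv f) z + 2 * (I * w * d) * deriv f z + (I * w * d) ^ 2 * f z‖ ≤ (1 + w) ^ 2 * T := by
    refine (norm_add_le _ _).trans ((add_le_add (norm_add_le _ _) le_rfl).trans ?_)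
    rw [norm_mul (2 * (I * (w : ℂ) * d)), norm_mul (2 : ℂ), norm_mul ((I * (w : ℂ) * d) ^ 2), norm_pow]
    have e2 : ‖(2 : ℂ)‖ = 2 := by norm_num
    rw [e2]
    calc ‖deriv (deriv f) z‖ + 2 * ‖I * (w : ℂ) * d‖ * ‖deriv f z‖ + ‖I * (w : ℂ) * d‖ ^ 2 * ‖f z‖
        ≤ T + 2 * w * T + w ^ 2 * T := by gcongr
      _ = _ := by ring
  have a2 : ‖(γ : ℂ) * f z + α * (deriv (deriv f) z + 2 * (I * w * d) * deriv f z +
      (I * w * d) ^ 2 * f z)‖ ≤ |γ| * T + |α| * ((1 + w) ^ 2 * T) := by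
    refine (norm_add_le _ _).trans ?_
    rw [norm_mul (γ : ℂ), norm_mul (α : ℂ), norm_real, norm_real, Real.norm_eq_abs, Real.norm_eq_abs]
    gcongr
  rw [norm_mul]
  calc _ ≤ 2 * Y * (|γ| * T + |α| * ((1 + w) ^ 2 * T)) :=
        mul_le_mul hs1 a2 (norm_nonneg _) (by positivity)
    _ = 8 * Y * (|γ| + |α| * (1 + w) ^ 2) / r ^ 2 * ε := by
      rw [hT]
      ring

/-! ### the multipliers after integration -/

/-- multiplier of `y⁻¹` and of `y` -/
def lamX (w γ α d : ℝ) (k : ℤ) : ℂ := (γ - α * w ^ 2 * ((k : ℂ) + d) ^ 2) / w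

/-- the primitive of `MkX` along the segment -/
def LkX (w γ α d : ℝ) (y0 y : ℂ) (k : ℤ) : ℂ := lamX w γ α d k * (y⁻¹ - y0⁻¹) + lamX w γ α d k * (y - y0)

theorem LkX_deriv {w : ℝ} (hw : w ≠ 0) (γ α d : ℝ) (y0 x0 : ℂ) (k : ℤ) (s : ℝ) :
    HasDerivAt (fun s : ℝ => LkX w γ α d y0 (exp (I * w * (x0 + I * s))) k)
      (MkX w γ α d (exp (I * w * (x0 + I * s))) k) s := by
  have h0 : HasDerivAt (fun s : ℝ => I * (w : ℂ) * (x0 + I * (s : ℂ))) (-(w : ℂ)) s := by
    have h1 : HasDerivAt (fun s : ℝ => x0 + I * (s : ℂ)) I s := by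
      have := ((hasDerivAt_id s).ofReal_comp.const_mul I).const_add x0
      simpa using this
    refine (h1.const_mul (I * (w : ℂ))).congr_deriv ?_
    linear_combination (w : ℂ) * I_mul_I
  have h1 : HasDerivAt (fun s : ℝ => exp (I * w * (x0 + I * s))) (exp (I * w * (x0 + I * s)) * -(w : ℂ)) s := h0.cexp
  have h2 : HasDerivAt (fun s : ℝ => (exp (I * w * (x0 + I * s)))⁻¹) ((exp (I * w * (x0 + I * s)))⁻¹ * w) s := by
    have h3 : HasDerivAt (fun s : ℝ => exp (-(I * w * (x0 + I * s))))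
        (exp (-(I * w * (x0 + I * s))) * -(-(w : ℂ))) s := h0.neg.cexp
    have e : (fun s : ℝ => (exp (I * w * (x0 + I * s)))⁻¹) = fun s : ℝ => exp (-(I * w * (x0 + I * s))) := by
      funext s
      rw [exp_neg]
    rw [e, ← exp_neg]
    refine h3.congr_deriv ?_
    ring
  have hw' : (w : ℂ) ≠ 0 := by exact_mod_cast hw
  unfold LkX
  refine (((h2.sub_const y0⁻¹).const_mul (lamX w γ α d k)).add
    ((h1.sub_const y0).const_mul (lamX w γ α d k))).congr_deriv ?_
  unfold lamX MkX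
  set y := exp (I * w * (x0 + I * s))
  have e1 : (I * (w : ℂ) * (k + d)) ^ 2 = -((w : ℂ) ^ 2 * ((k : ℂ) + d) ^ 2) := by
    linear_combination ((w : ℂ) ^ 2 * ((k : ℂ) + d) ^ 2) * I_sq
  rw [e1]
  field_simp
  ring

/-- one step: the change of the coefficients of first order, `q = κ / j` -/
def EEX (w γ α d : ℝ) (q : ℝ) (y0 : ℂ) (a : ℤ → ℂ) (k : ℤ) : ℂ :=
  -(q * (lamX w γ α d k * y0⁻¹ + lamX w γ α d k * y0) * a k) -
    q * (lamX w γ α d (k + 1) * a (k + 1) + lamX w γ α d (k - 1) * a (k - 1))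

theorem MkX_le {w γ α d : ℝ} (hw : 0 < w) (hd : |d| ≤ 1) {K : ℕ} {k : ℤ}
    (hk : k ∈ Finset.Icc (-(K : ℤ)) K) {y : ℂ} {Y : ℝ} (hy : ‖y‖ ≤ Y) (hy' : ‖y⁻¹‖ ≤ Y) :
    ‖MkX w γ α d y k‖ ≤ 2 * Y * (|γ| + |α| * (w * (K + 1)) ^ 2) := by
  have hY : 0 ≤ Y := (norm_nonneg _).trans hy
  have hs1 : ‖y⁻¹ - y‖ ≤ 2 * Y := (norm_sub_le _ _).trans (by linarith)
  have hk' : ‖I * (w : ℂ) * ((k : ℂ) + d)‖ ≤ w * (K + 1) := by
    rw [norm_mul, norm_mul, norm_I, one_mul, norm_real, Real.norm_eq_abs, abs_of_pos hw]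
    refine mul_le_mul_of_nonneg_left ((norm_add_le _ _).trans (add_le_add ?_ ?_)) hw.le
    · rw [Complex.norm_intCast]
      rw [Finset.mem_Icc] at hk
      rw [abs_le]
      exact ⟨by exact_mod_cast hk.1, by exact_mod_cast hk.2⟩
    · rw [norm_real, Real.norm_eq_abs]
      exact hd
  unfold MkX
  calc ‖(y⁻¹ - y) * (γ + α * (I * w * (k + d)) ^ 2)‖
      ≤ ‖y⁻¹ - y‖ * (|γ| + |α| * ‖I * (w : ℂ) * (k + d)‖ ^ 2) := by
        rw [norm_mul]
        refine mul_le_mul_of_nonneg_left ((norm_add_le _ _).trans (le_of_eq ?_)) (norm_nonneg _)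
        rw [norm_mul, norm_pow, norm_real, norm_real, Real.norm_eq_abs, Real.norm_eq_abs]
    _ ≤ 2 * Y * (|γ| + |α| * (w * (K + 1)) ^ 2) := by gcongr

/-- **One step to first order.** -/
theorem rec_modeX {w L R X : ℝ} (hw : 0 < w) (hL : w * L = Real.pi) (hX : 0 ≤ X) (hR : |L| + X < R) (K : ℕ)
    (γ α : ℝ) :
    ∃ C : ℝ, 0 < C ∧ ∀ (d : ℝ), |d| ≤ 1 → ∀ (Psi : ℂ → ℂ → ℂ) (m : ℂ → ℂ) (x0 : ℂ) (b : ℤ → ℂ) (a : ℂ → ℤ → ℂ) (q ε δ A : ℝ),
      |x0.re| ≤ X → x0.im = 0 → 0 ≤ q → q ≤ 1 →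
      (∀ x ∈ seg x0, DifferentiableOn ℂ (fun z => Psi z x) (Bx R)) →
      (∀ x ∈ seg x0, ∀ z ∈ Bx R, ‖Psi z x - EL w K (a x) z‖ ≤ ε) →
      (∀ z ∈ Bx R, ‖m z - EL w K b z‖ ≤ ε) →
      (∀ x ∈ seg x0, ∀ k ∈ Finset.Icc (-(K : ℤ)) K, ‖a x k‖ ≤ A) →
      (∀ s ∈ Icc (0 : ℝ) 1, ∀ t ∈ Icc (0 : ℝ) 1, ∃ D : ℂ,
        HasDerivAt (fun s : ℝ => Psi (I * t) (x0 + I * s)) D s ∧
        ‖D - q * OpX w γ α d (fun z => Psi z (x0 + I * s)) (exp (I * w * (x0 + I * s))) (I * t)‖ ≤ δ) →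
      (∀ x ∈ seg x0, Psi (x + L) x = m x) →
      ∀ k ∈ Finset.Icc (-((K + 1 : ℕ) : ℤ)) ((K + 1 : ℕ) : ℤ),
        ‖tr K b k - (-1) ^ k * (tr K (a x0) k + EEX w γ α d q (exp (I * w * x0)) (tr K (a x0)) k)‖ ≤
          C * (ε + δ + q ^ 2 * A) := by
  obtain ⟨V, hV0, hV⟩ := EL_coef hw K
  obtain ⟨V1, hV10, hV1⟩ := EL_coef hw (K + 1)
  have hLR : |L| < R := by linarith
  have hR0 : 0 < R := (abs_nonneg _).trans_lt hLR
  set r : ℝ := min (R / 2) (1 / 2) with hr
  have hr0 : 0 < r := lt_min (by linarith) (by norm_num)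
  have hrR : 2 * r ≤ R := by have := min_le_left (R / 2) (1 / 2 : ℝ); linarith
  have hr1 : 2 * r ≤ 1 := by have := min_le_right (R / 2) (1 / 2 : ℝ); linarith
  set E : ℝ := (2 * K + 1) * Real.exp (|w| * K * 2) with hE
  have hE0 : 0 < E := by positivity
  set Y : ℝ := Real.exp w with hY
  have hY0 : 0 < Y := Real.exp_pos _
  set B2 : ℝ := 8 * Y * (|γ| + |α| * (1 + w) ^ 2) / r ^ 2 with hB2
  have hB20 : 0 ≤ B2 := by positivity
  set Mb : ℝ := 2 * Y * (|γ| + |α| * (w * (K + 1)) ^ 2) with hMb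
  have hMb0 : 0 ≤ Mb := by positivity
  -- the constant
  set C1 : ℝ := V * (3 + B2 + E * Mb) + 1 with hC1
  have hC10 : 0 < C1 := by positivity
  set C2 : ℝ := 1 + B2 + E * Mb * C1 with hC2
  have hC20 : 0 < C2 := by positivity
  set C3 : ℝ := V * (2 + C2) with hC3
  have hC30 : 0 < C3 := by positivity
  refine ⟨V1 * (2 + E * C3) + 1, by positivity, ?_⟩
  intro d hd1 Psi m x0 b a q ε δ A hx0 hx0i hq0 hq1 hdf ha hb hA hd hrel
  have hmem0 : x0 ∈ seg x0 := ⟨0, ⟨le_rfl, zero_le_one⟩, by simp⟩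
  have hIt : ∀ t ∈ Icc (0 : ℝ) 1, I * (t : ℂ) ∈ Bx R := by
    intro t ht
    refine ⟨by simpa using hR0, ?_⟩
    simp only [mul_im, I_re, ofReal_im, mul_zero, I_im, ofReal_re, one_mul, zero_add]
    rw [abs_of_nonneg ht.1]
    linarith [ht.2]
  have hε : 0 ≤ ε := (norm_nonneg _).trans (hb (I * (0 : ℝ)) (hIt 0 ⟨le_rfl, zero_le_one⟩))
  have hδ : 0 ≤ δ := by
    obtain ⟨D, _, h⟩ := hd 0 ⟨le_rfl, zero_le_one⟩ 0 ⟨le_rfl, zero_le_one⟩
    exact (norm_nonneg _).trans h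
  have hA0 : 0 ≤ A := (norm_nonneg _).trans (hA x0 hmem0 0 (by simp))
  have hsg : ∀ s ∈ Icc (0 : ℝ) 1, x0 + I * s ∈ seg x0 := fun s hs => ⟨s, hs, rfl⟩
  have hIt' : ∀ (a : ℤ → ℂ) (B : ℝ), (∀ k ∈ Finset.Icc (-(K : ℤ)) K, ‖a k‖ ≤ B) → ∀ z ∈ Bx R,
      ‖EL w K a z‖ ≤ E * B := by
    intro a B h z hz
    have hB0 : 0 ≤ B := (norm_nonneg _).trans (h 0 (by simp))
    refine (EL_le h z).trans ?_
    rw [hE]
    have : |z.im| ≤ 2 := hz.2.le
    gcongr
  -- the operator on Psi and on the expansion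
  have hop : ∀ s ∈ Icc (0 : ℝ) 1, ∀ t ∈ Icc (0 : ℝ) 1,
      ‖OpX w γ α d (fun z => Psi z (x0 + I * s)) (exp (I * w * (x0 + I * s))) (I * t) -
        EL w K (fun k => MkX w γ α d (exp (I * w * (x0 + I * s))) k * a (x0 + I * s) k) (I * t)‖ ≤ B2 * ε := by
    intro s hs t ht
    obtain ⟨hy, hy'⟩ := y_le hw hx0i hs
    rw [← OpX_EL, ← OpX_sub (Bx_open R) (hdf _ (hsg s hs)) ((EL_diff w K _).differentiableOn) (hIt t ht)]
    refine OpX_le hw.le hd1 hr0 (by linarith) ?_ ?_ hy hy'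
    · exact ((hdf _ (hsg s hs)).mono (It_ball hrR hr1 ht)).sub (EL_diff w K _).differentiableOn
    · intro u hu
      exact ha _ (hsg s hs) u (It_ball hrR hr1 ht hu)
  -- step 1: crude dependence on x
  have h1 : ∀ s ∈ Icc (0 : ℝ) 1, ∀ t ∈ Icc (0 : ℝ) 1,
      ‖Psi (I * t) (x0 + I * s) - Psi (I * t) x0‖ ≤ δ + q * (B2 * ε + E * (Mb * A)) := by
    intro s hs t ht
    choose! D hD hDδ using hd
    have hbd : ∀ s' ∈ Icc (0 : ℝ) 1, ‖D s' t‖ ≤ δ + q * (B2 * ε + E * (Mb * A)) := by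
      intro s' hs'
      have e1 := hDδ s' hs' t ht
      have e2 := hop s' hs' t ht
      obtain ⟨hy, hy'⟩ := y_le hw hx0i hs'
      have e3 : ‖EL w K (fun k => MkX w γ α d (exp (I * w * (x0 + I * s'))) k * a (x0 + I * s') k) (I * t)‖ ≤
          E * (Mb * A) := by
        refine hIt' _ _ (fun k hk => ?_) _ (hIt t ht)
        rw [norm_mul]
        exact mul_le_mul (MkX_le hw hd1 hk hy hy') (hA _ (hsg s' hs') k hk) (norm_nonneg _) hMb0
      have e4 : ‖OpX w γ α d (fun z => Psi z (x0 + I * s')) (exp (I * w * (x0 + I * s'))) (I * t)‖ ≤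
          B2 * ε + E * (Mb * A) := by
        have := norm_add_le (OpX w γ α d (fun z => Psi z (x0 + I * s')) (exp (I * w * (x0 + I * s'))) (I * t) -
          EL w K (fun k => MkX w γ α d (exp (I * w * (x0 + I * s'))) k * a (x0 + I * s') k) (I * t))
          (EL w K (fun k => MkX w γ α d (exp (I * w * (x0 + I * s'))) k * a (x0 + I * s') k) (I * t))
        rw [sub_add_cancel] at this
        linarith
      have e5 := norm_add_le (D s' t - q * OpX w γ α d (fun z => Psi z (x0 + I * s')) (exp (I * w * (x0 + I * s'))) (I * t))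
        (q * OpX w γ α d (fun z => Psi z (x0 + I * s')) (exp (I * w * (x0 + I * s'))) (I * t))
      rw [sub_add_cancel, norm_mul, norm_real, Real.norm_eq_abs, abs_of_nonneg hq0] at e5
      have := mul_le_mul_of_nonneg_left e4 hq0
      linarith
    have h2 := (convex_Icc (0 : ℝ) 1).norm_image_sub_le_of_norm_hasDerivWithin_le
      (f := fun s : ℝ => Psi (I * t) (x0 + I * s)) (C := δ + q * (B2 * ε + E * (Mb * A)))
      (fun s' hs' => (hD s' hs' t ht).hasDerivWithinAt) hbd (⟨le_rfl, zero_le_one⟩ : (0 : ℝ) ∈ Icc (0 : ℝ) 1) hs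
    simp only [ofReal_zero, mul_zero, add_zero, sub_zero, Real.norm_eq_abs] at h2
    rw [abs_of_nonneg hs.1] at h2
    refine h2.trans ?_
    have hnn : 0 ≤ δ + q * (B2 * ε + E * (Mb * A)) := by positivity
    exact mul_le_of_le_one_right hnn hs.2
  -- step 2: crude coefficients
  have h2 : ∀ s ∈ Icc (0 : ℝ) 1, ∀ k ∈ Finset.Icc (-(K : ℤ)) K,
      ‖a (x0 + I * s) k - a x0 k‖ ≤ C1 * (ε + δ + q * A) := by
    intro s hs k hk
    have h3 : ‖a (x0 + I * s) k - a x0 k‖ ≤ V * (2 * ε + (δ + q * (B2 * ε + E * (Mb * A)))) := by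
      refine hV (fun k => a (x0 + I * s) k - a x0 k) _ (fun t ht => ?_) k hk
      rw [EL_sub]
      have e1 := ha _ (hsg s hs) _ (hIt t ht)
      have e2 := ha x0 hmem0 _ (hIt t ht)
      have e3 := h1 s hs t ht
      have e : EL w K (a (x0 + I * s)) (I * t) - EL w K (a x0) (I * t) =
          -(Psi (I * t) (x0 + I * s) - EL w K (a (x0 + I * s)) (I * t)) +
            (Psi (I * t) x0 - EL w K (a x0) (I * t)) +
            (Psi (I * t) (x0 + I * s) - Psi (I * t) x0) := by ring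
      rw [e]
      refine (norm_add_le _ _).trans ((add_le_add (norm_add_le _ _) le_rfl).trans ?_)
      rw [norm_neg]
      linarith
    refine h3.trans ?_
    have hqε : q * (B2 * ε) ≤ B2 * ε := mul_le_of_le_one_left (mul_nonneg hB20 hε) hq1
    have hqA : q * (E * (Mb * A)) = E * Mb * (q * A) := by ring
    have hqA0 : 0 ≤ q * A := mul_nonneg hq0 hA0
    have hEM : 0 ≤ E * Mb := by positivity
    have this : 2 * ε + (δ + q * (B2 * ε + E * (Mb * A))) ≤ (3 + B2 + E * Mb) * (ε + δ + q * A) := by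
      have g1 : (3 + B2 + E * Mb) * (ε + δ + q * A) = 3 * ε + 3 * δ + 3 * (q * A) + B2 * ε + B2 * δ + B2 * (q * A) +
        E * Mb * ε + E * Mb * δ + E * Mb * (q * A) := by ring
      rw [mul_add q, hqA, g1]
      linarith [mul_nonneg hB20 hδ, mul_nonneg hB20 hqA0, mul_nonneg hEM hε, mul_nonneg hEM hδ]
    have h4 := mul_le_mul_of_nonneg_left this hV0.le
    have h5 : 0 ≤ ε + δ + q * A := by positivity
    have h6 : C1 * (ε + δ + q * A) = V * ((3 + B2 + E * Mb) * (ε + δ + q * A)) + (ε + δ + q * A) := by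
      rw [hC1]
      ring
    rw [h6]
    linarith
  -- step 3, 4: refined dependence
  have h3 : ∀ s ∈ Icc (0 : ℝ) 1, ∀ t ∈ Icc (0 : ℝ) 1,
      ‖Psi (I * t) (x0 + I * s) - Psi (I * t) x0 -
        q * EL w K (fun k => LkX w γ α d (exp (I * w * x0)) (exp (I * w * (x0 + I * s))) k * a x0 k) (I * t)‖ ≤
        C2 * (ε + δ + q ^ 2 * A) := by
    intro s hs t ht
    choose! D hD hDδ using hd
    set F : ℝ → ℂ := fun s => Psi (I * t) (x0 + I * s) -
      q * EL w K (fun k => LkX w γ α d (exp (I * w * x0)) (exp (I * w * (x0 + I * s))) k * a x0 k) (I * t) with hF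
    have hFd : ∀ s' ∈ Icc (0 : ℝ) 1, HasDerivWithinAt F (D s' t -
        q * EL w K (fun k => MkX w γ α d (exp (I * w * (x0 + I * s'))) k * a x0 k) (I * t)) (Icc 0 1) s' := by
      intro s' hs'
      have g1 : HasDerivAt (fun s : ℝ =>
          EL w K (fun k => LkX w γ α d (exp (I * w * x0)) (exp (I * w * (x0 + I * s))) k * a x0 k) (I * t))
          (EL w K (fun k => MkX w γ α d (exp (I * w * (x0 + I * s'))) k * a x0 k) (I * t)) s' := by
        unfold EL
        exact HasDerivAt.fun_sum fun k _ =>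
          ((LkX_deriv hw.ne' γ α d (exp (I * w * x0)) x0 k s').mul_const (a x0 k)).mul_const _
      exact ((hD s' hs' t ht).sub (g1.const_mul (q : ℂ))).hasDerivWithinAt
    have hbd : ∀ s' ∈ Icc (0 : ℝ) 1, ‖D s' t -
        q * EL w K (fun k => MkX w γ α d (exp (I * w * (x0 + I * s'))) k * a x0 k) (I * t)‖ ≤
        δ + q * (B2 * ε + E * (Mb * (C1 * (ε + δ + q * A)))) := by
      intro s' hs'
      obtain ⟨hy, hy'⟩ := y_le hw hx0i hs'
      have e1 := hDδ s' hs' t ht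
      have e2 := hop s' hs' t ht
      have e3 : ‖EL w K (fun k => MkX w γ α d (exp (I * w * (x0 + I * s'))) k * (a (x0 + I * s') k - a x0 k)) (I * t)‖ ≤
          E * (Mb * (C1 * (ε + δ + q * A))) := by
        refine hIt' _ _ (fun k hk => ?_) _ (hIt t ht)
        rw [norm_mul]
        exact mul_le_mul (MkX_le hw hd1 hk hy hy') (h2 s' hs' k hk) (norm_nonneg _) hMb0
      have e4 : EL w K (fun k => MkX w γ α d (exp (I * w * (x0 + I * s'))) k * (a (x0 + I * s') k - a x0 k)) (I * t) =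
          EL w K (fun k => MkX w γ α d (exp (I * w * (x0 + I * s'))) k * a (x0 + I * s') k) (I * t) -
          EL w K (fun k => MkX w γ α d (exp (I * w * (x0 + I * s'))) k * a x0 k) (I * t) := by
        rw [← EL_sub]
        congr 1
        funext k
        ring
      rw [e4] at e3
      set P := OpX w γ α d (fun z => Psi z (x0 + I * s')) (exp (I * w * (x0 + I * s'))) (I * t)
      set Q := EL w K (fun k => MkX w γ α d (exp (I * w * (x0 + I * s'))) k * a (x0 + I * s') k) (I * t)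
      set S := EL w K (fun k => MkX w γ α d (exp (I * w * (x0 + I * s'))) k * a x0 k) (I * t)
      have e5 : D s' t - q * S = (D s' t - q * P) + q * ((P - Q) + (Q - S)) := by ring
      rw [e5]
      refine (norm_add_le _ _).trans ?_
      rw [norm_mul, norm_real, Real.norm_eq_abs, abs_of_nonneg hq0]
      exact add_le_add e1 (mul_le_mul_of_nonneg_left ((norm_add_le _ _).trans (add_le_add e2 e3)) hq0)
    have h4 := (convex_Icc (0 : ℝ) 1).norm_image_sub_le_of_norm_hasDerivWithin_le (f := F) hFd hbd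
      (⟨le_rfl, zero_le_one⟩ : (0 : ℝ) ∈ Icc (0 : ℝ) 1) hs
    have hF0 : F 0 = Psi (I * t) x0 := by
      simp only [hF, ofReal_zero, mul_zero, add_zero]
      have : EL w K (fun k => LkX w γ α d (exp (I * w * x0)) (exp (I * w * x0)) k * a x0 k) (I * t) = 0 := by
        unfold EL
        refine Finset.sum_eq_zero fun k _ => ?_
        simp [LkX]
      rw [this, mul_zero, sub_zero]
    rw [hF0, sub_zero, Real.norm_eq_abs, abs_of_nonneg hs.1] at h4
    have e : Psi (I * t) (x0 + I * s) - Psi (I * t) x0 -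
        q * EL w K (fun k => LkX w γ α d (exp (I * w * x0)) (exp (I * w * (x0 + I * s))) k * a x0 k) (I * t) =
        F s - Psi (I * t) x0 := by
      simp only [hF]
      ring
    rw [e]
    refine h4.trans ?_
    have hnn : 0 ≤ δ + q * (B2 * ε + E * (Mb * (C1 * (ε + δ + q * A)))) := by positivity
    have hle1 : (δ + q * (B2 * ε + E * (Mb * (C1 * (ε + δ + q * A))))) * s ≤
        δ + q * (B2 * ε + E * (Mb * (C1 * (ε + δ + q * A)))) := mul_le_of_le_one_right hnn hs.2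
    refine hle1.trans ?_
    have hqε : q * (B2 * ε) ≤ B2 * ε := mul_le_of_le_one_left (mul_nonneg hB20 hε) hq1
    have hqe : q * (ε + δ + q * A) ≤ ε + δ + q ^ 2 * A := by
      have g1 : q * (ε + δ + q * A) = q * ε + q * δ + q ^ 2 * A := by ring
      rw [g1]
      linarith [mul_le_of_le_one_left hε hq1, mul_le_of_le_one_left hδ hq1]
    have hEMC : 0 ≤ E * Mb * C1 := by positivity
    have h6 : q * (E * (Mb * (C1 * (ε + δ + q * A)))) = E * Mb * C1 * (q * (ε + δ + q * A)) := by ring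
    have h7 := mul_le_mul_of_nonneg_left hqe hEMC
    have hq2A : 0 ≤ q ^ 2 * A := by positivity
    have h8 : C2 * (ε + δ + q ^ 2 * A) = ε + δ + q ^ 2 * A + B2 * ε + B2 * δ + B2 * (q ^ 2 * A) +
        E * Mb * C1 * (ε + δ + q ^ 2 * A) := by
      rw [hC2]
      ring
    rw [mul_add q, h6, h8]
    linarith [mul_nonneg hB20 hδ, mul_nonneg hB20 hq2A]
  -- step 5: refined coefficients
  have h5 : ∀ s ∈ Icc (0 : ℝ) 1, ∀ k ∈ Finset.Icc (-(K : ℤ)) K,
      ‖a (x0 + I * s) k - (a x0 k + q * (LkX w γ α d (exp (I * w * x0)) (exp (I * w * (x0 + I * s))) k * a x0 k))‖ ≤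
        C3 * (ε + δ + q ^ 2 * A) := by
    intro s hs k hk
    have h6 : ‖a (x0 + I * s) k -
        (a x0 k + q * (LkX w γ α d (exp (I * w * x0)) (exp (I * w * (x0 + I * s))) k * a x0 k))‖ ≤
        V * (2 * ε + C2 * (ε + δ + q ^ 2 * A)) := by
      refine hV (fun k => a (x0 + I * s) k -
        (a x0 k + q * (LkX w γ α d (exp (I * w * x0)) (exp (I * w * (x0 + I * s))) k * a x0 k))) _ (fun t ht => ?_) k hk
      rw [EL_sub, EL_add', EL_smul]
      have e1 := ha _ (hsg s hs) _ (hIt t ht)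
      have e2 := ha x0 hmem0 _ (hIt t ht)
      have e3 := h3 s hs t ht
      set S := EL w K (fun k => LkX w γ α d (exp (I * w * x0)) (exp (I * w * (x0 + I * s))) k * a x0 k) (I * t)
      have e : EL w K (a (x0 + I * s)) (I * t) - (EL w K (a x0) (I * t) + q * S) =
          -(Psi (I * t) (x0 + I * s) - EL w K (a (x0 + I * s)) (I * t)) +
            (Psi (I * t) x0 - EL w K (a x0) (I * t)) +
            (Psi (I * t) (x0 + I * s) - Psi (I * t) x0 - q * S) := by ring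
      rw [e]
      refine (norm_add_le _ _).trans ((add_le_add (norm_add_le _ _) le_rfl).trans ?_)
      rw [norm_neg]
      linarith
    refine h6.trans ?_
    have hq2A : 0 ≤ q ^ 2 * A := by positivity
    rw [hC3, mul_assoc]
    refine mul_le_mul_of_nonneg_left ?_ hV0.le
    have g1 : (2 + C2) * (ε + δ + q ^ 2 * A) = 2 * ε + 2 * δ + 2 * (q ^ 2 * A) + C2 * (ε + δ + q ^ 2 * A) := by ring
    rw [g1]
    linarith
  -- step 6: comparison at x + L
  set y0 : ℂ := exp (I * w * x0) with hy0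
  set a0 : ℤ → ℂ := tr K (a x0) with ha0
  have h6 : ∀ t ∈ Icc (0 : ℝ) 1, ‖EL w (K + 1) (fun k => (tr K b k - (-1) ^ k * (a0 k + EEX w γ α d q y0 a0 k)) *
      exp (I * w * k * x0)) (I * t)‖ ≤ (2 + E * C3) * (ε + δ + q ^ 2 * A) := by
    intro t ht
    set x : ℂ := x0 + I * t with hx
    have hxs : x ∈ seg x0 := ⟨t, ht, rfl⟩
    have hxre : x.re = x0.re := by simp [hx]
    have hxim : x.im = t := by simp [hx, hx0i]
    have hzR : x + L ∈ Bx R := by
      constructor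
      · rw [add_re, hxre, ofReal_re]
        exact (abs_add_le _ _).trans_lt (by linarith)
      · rw [add_im, hxim, ofReal_im, add_zero, abs_of_nonneg ht.1]
        linarith [ht.2]
    have hxR : x ∈ Bx R := by
      constructor
      · rw [hxre]
        have := abs_nonneg L
        linarith
      · rw [hxim, abs_of_nonneg ht.1]
        linarith [ht.2]
    have e1 := ha x hxs _ hzR
    have e2 := hb x hxR
    set y : ℂ := exp (I * w * x) with hy
    have e3 : ‖EL w K (fun k => a x k - (a x0 k + q * (LkX w γ α d y0 y k * a x0 k))) (x + L)‖ ≤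
        E * (C3 * (ε + δ + q ^ 2 * A)) := hIt' _ _ (h5 t ht) _ hzR
    rw [EL_sub] at e3
    -- the expansion at x + L
    have hyy : y ≠ 0 := exp_ne_zero _
    have hyinv : y⁻¹ = exp (-(I * w * x)) := by rw [hy, exp_neg]
    have e4 : EL w K (fun k => a x0 k + q * (LkX w γ α d y0 y k * a x0 k)) (x + L) =
        EL w (K + 1) (fun k => (-1) ^ k * (a0 k + EEX w γ α d q y0 a0 k)) x := by
      have g1 : EL w K (fun k => a x0 k + q * (LkX w γ α d y0 y k * a x0 k)) (x + L) =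
          EL w K (fun k => (-1) ^ k * a x0 k * (1 - q * (lamX w γ α d k * y0⁻¹ + lamX w γ α d k * y0))) x +
          q * (y⁻¹ * EL w K (fun k => (-1) ^ k * (lamX w γ α d k * a x0 k)) x) +
          q * (y * EL w K (fun k => (-1) ^ k * (lamX w γ α d k * a x0 k)) x) := by
        rw [EL_add]
        unfold EL
        rw [Finset.mul_sum, Finset.mul_sum, Finset.mul_sum, Finset.mul_sum, ← Finset.sum_add_distrib,
          ← Finset.sum_add_distrib]
        refine Finset.sum_congr rfl fun k _ => ?_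
        beta_reduce
        rw [exp_L hL]
        unfold LkX
        ring
      rw [g1, hyinv, EL_dn, EL_up, ← EL_succ, ← EL_smul, ← EL_smul, ← EL_add', ← EL_add']
      congr 1
      funext k
      have t1 : ∀ k : ℤ, tr K (fun k => (-1) ^ k * (lamX w γ α d k * a x0 k)) k = (-1) ^ k * (lamX w γ α d k * a0 k) := by
        intro k
        by_cases hk : k ∈ Finset.Icc (-(K : ℤ)) K
        · rw [tr_mem hk, ha0, tr_mem hk]
        · rw [tr_not hk, ha0, tr_not hk, mul_zero, mul_zero]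
      have t2 : ∀ k : ℤ, tr K (fun k => (-1) ^ k * (lamX w γ α d k * a x0 k)) k = (-1) ^ k * (lamX w γ α d k * a0 k) := by
        intro k
        by_cases hk : k ∈ Finset.Icc (-(K : ℤ)) K
        · rw [tr_mem hk, ha0, tr_mem hk]
        · rw [tr_not hk, ha0, tr_not hk, mul_zero, mul_zero]
      have t3 : tr K (fun k => (-1) ^ k * a x0 k * (1 - q * (lamX w γ α d k * y0⁻¹ + lamX w γ α d k * y0))) k =
          (-1) ^ k * a0 k * (1 - q * (lamX w γ α d k * y0⁻¹ + lamX w γ α d k * y0)) := by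
        by_cases hk : k ∈ Finset.Icc (-(K : ℤ)) K
        · rw [tr_mem hk, ha0, tr_mem hk]
        · rw [tr_not hk, ha0, tr_not hk, mul_zero, zero_mul]
      rw [t1, t2, t3]
      have p1 : ((-1 : ℂ)) ^ (k + 1) = -(-1) ^ k := by
        rw [zpow_add₀ (by norm_num), zpow_one]
        ring
      have p2 : ((-1 : ℂ)) ^ (k - 1) = -(-1) ^ k := by
        rw [zpow_sub₀ (by norm_num), zpow_one]
        ring
      rw [p1, p2]
      unfold EEX
      ring
    have e5 : EL w (K + 1) (fun k => (tr K b k - (-1) ^ k * (a0 k + EEX w γ α d q y0 a0 k)) *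
        exp (I * w * k * x0)) (I * t) =
        EL w K b x - EL w (K + 1) (fun k => (-1) ^ k * (a0 k + EEX w γ α d q y0 a0 k)) x := by
      rw [← EL_add, add_comm (I * (t : ℂ)) x0, ← hx, EL_sub, EL_succ]
    rw [e5, ← e4]
    have e : EL w K b x - EL w K (fun k => a x0 k + q * (LkX w γ α d y0 y k * a x0 k)) (x + L) =
        (EL w K (a x) (x + L) - EL w K (fun k => a x0 k + q * (LkX w γ α d y0 y k * a x0 k)) (x + L)) +
          (Psi (x + L) x - EL w K (a x) (x + L)) - (m x - EL w K b x) := by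
      rw [hrel x hxs]
      ring
    rw [e]
    refine (norm_sub_le _ _).trans ((add_le_add (norm_add_le _ _) le_rfl).trans ?_)
    have hq2A : 0 ≤ q ^ 2 * A := by positivity
    have g1 : (2 + E * C3) * (ε + δ + q ^ 2 * A) = 2 * ε + 2 * δ + 2 * (q ^ 2 * A) +
        E * (C3 * (ε + δ + q ^ 2 * A)) := by ring
    rw [g1]
    linarith
  intro k hk
  have h7 := hV1 _ _ h6 k (by simpa using hk)
  have h8 : ‖exp (I * w * k * x0)‖ = 1 := by
    rw [norm_exp]
    have : (I * (w : ℂ) * k * x0).re = 0 := by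
      have e : I * (w : ℂ) * (k : ℂ) * x0 = I * (((w * k : ℝ) : ℂ) * x0) := by push_cast; ring
      rw [e, I_mul_re, im_ofReal_mul, hx0i]
      simp
    rw [this, Real.exp_zero]
  rw [norm_mul, h8, mul_one] at h7
  refine h7.trans ?_
  have h9 : 0 ≤ ε + δ + q ^ 2 * A := by positivity
  have g9 : (V1 * (2 + E * C3) + 1) * (ε + δ + q ^ 2 * A) = V1 * ((2 + E * C3) * (ε + δ + q ^ 2 * A)) +
      (ε + δ + q ^ 2 * A) := by ring
  rw [g9]
  linarith

end WXF
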