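import Pool.Agent.WX.RecX
import Pool.Agent.PB.Rec2F

/-!
# Plan X: the chain of plan V with a twist (helper12)

`n i j` = the function with `j` rows, `Psi i j (., x)` = the same with one more row at `x`, coefficients
`b i j`, `a i j x`, `i` = an index, `d i` = the twist, `|d i| ≤ 1`;
`d/ds Psi i j (i t) (i s) = (1 / j) OpX (d i) + O(j^(p-1))`, `|Psi| ≤ C j^e0`, one constant for all `i`.
**`chainX`**, for ALL modes `|k| ≤ K`, one constant for all `i`: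
* `‖b i (j + 2) k (1 - 4 lamX (d i) k / j) - b i j k‖ ≤ C' j^(p-1)` (the cross terms cancel);
* `‖b i (j + 1) k - (-1)^k b i j k‖ ≤ C' j^(e0-1)`, `‖b i j k‖ ≤ C' j^e0`.
-/

set_option autoImplicit false

noncomputable section

open Complex Filter Topology Set
open Pool.Agent.PB.Rec (EL EL_coef EL_add EL_sub EL_le EL_deriv EL_diff EL_smul EL_add' tr tr_mem tr_not EL_tr
  EL_succ EL_dn EL_up Bx Bx_open seg exp_L norm_neg_one_zpow sq_neg_one)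

namespace WXF

theorem EEX_sub (w γ α d : ℝ) (q : ℝ) (y0 : ℂ) (a b : ℤ → ℂ) (k : ℤ) :
    EEX w γ α d q y0 (fun m => a m - b m) k = EEX w γ α d q y0 a k - EEX w γ α d q y0 b k := by
  unfold EEX
  ring

/-- bound of the multipliers -/
def LLX (w γ α : ℝ) (K : ℕ) : ℝ := (|γ| + |α| * w ^ 2 * ((K : ℝ) + 3) ^ 2) / |w|

theorem LLX_nonneg (w γ α : ℝ) (K : ℕ) : 0 ≤ LLX w γ α K := by
  unfold LLX
  positivity

theorem lamX_le {w γ α d : ℝ} (hd : |d| ≤ 1) {K : ℕ} {k : ℤ} (hk : |(k : ℝ)| ≤ (K : ℝ) + 2) :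
    ‖lamX w γ α d k‖ ≤ LLX w γ α K := by
  have hk' : ‖(k : ℂ) + d‖ ≤ (K : ℝ) + 3 := by
    refine (norm_add_le _ _).trans ?_
    rw [Complex.norm_intCast, norm_real, Real.norm_eq_abs]
    linarith
  unfold lamX LLX
  rw [norm_div, norm_real, Real.norm_eq_abs]
  refine div_le_div_of_nonneg_right ?_ (abs_nonneg _)
  refine (norm_sub_le _ _).trans ?_
  rw [norm_real, Real.norm_eq_abs, norm_mul, norm_mul, norm_real, Real.norm_eq_abs, norm_pow, norm_pow,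
    norm_real, Real.norm_eq_abs, sq_abs]
  gcongr

theorem EEX_le {w γ α d : ℝ} (hd : |d| ≤ 1) {q : ℝ} (hq : 0 ≤ q) {a : ℤ → ℂ} {K : ℕ} {k : ℤ}
    {A : ℝ} (hk : k ∈ Finset.Icc (-((K + 1 : ℕ) : ℤ)) ((K + 1 : ℕ) : ℤ))
    (h0 : ‖a k‖ ≤ A) (h1 : ‖a (k + 1)‖ ≤ A) (h2 : ‖a (k - 1)‖ ≤ A) :
    ‖EEX w γ α d q 1 a k‖ ≤ 4 * LLX w γ α K * q * A := by
  have hA : 0 ≤ A := (norm_nonneg _).trans h0
  have hLL := LLX_nonneg w γ α K
  rw [Finset.mem_Icc] at hk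
  push_cast at hk
  have hkr1 : (-((K : ℝ) + 1)) ≤ (k : ℝ) := by exact_mod_cast (by omega : -((K : ℤ) + 1) ≤ k)
  have hkr2 : (k : ℝ) ≤ (K : ℝ) + 1 := by exact_mod_cast hk.2
  have c0 : |(k : ℝ)| ≤ (K : ℝ) + 2 := by rw [abs_le]; constructor <;> linarith
  have c1 : |((k + 1 : ℤ) : ℝ)| ≤ (K : ℝ) + 2 := by push_cast; rw [abs_le]; constructor <;> linarith
  have c2 : |((k - 1 : ℤ) : ℝ)| ≤ (K : ℝ) + 2 := by push_cast; rw [abs_le]; constructor <;> linarith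
  have t0 : ‖(q : ℂ) * (lamX w γ α d k * 1⁻¹ + lamX w γ α d k * 1) * a k‖ ≤ 2 * LLX w γ α K * q * A := by
    have g : ‖lamX w γ α d k * 1⁻¹ + lamX w γ α d k * 1‖ ≤ 2 * LLX w γ α K := by
      rw [inv_one, mul_one]
      refine (norm_add_le _ _).trans ?_
      linarith [lamX_le (w := w) (γ := γ) (α := α) hd c0]
    rw [norm_mul, norm_mul, norm_real, Real.norm_eq_abs, abs_of_nonneg hq]
    calc q * ‖lamX w γ α d k * 1⁻¹ + lamX w γ α d k * 1‖ * ‖a k‖ ≤ q * (2 * LLX w γ α K) * A := by gcongr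
      _ = _ := by ring
  have t1 : ‖lamX w γ α d (k + 1) * a (k + 1)‖ ≤ LLX w γ α K * A := by
    rw [norm_mul]
    exact mul_le_mul (lamX_le hd c1) h1 (norm_nonneg _) hLL
  have t2 : ‖lamX w γ α d (k - 1) * a (k - 1)‖ ≤ LLX w γ α K * A := by
    rw [norm_mul]
    exact mul_le_mul (lamX_le hd c2) h2 (norm_nonneg _) hLL
  unfold EEX
  refine (norm_sub_le _ _).trans ?_
  rw [norm_neg]
  have t3 : ‖(q : ℂ) * (lamX w γ α d (k + 1) * a (k + 1) + lamX w γ α d (k - 1) * a (k - 1))‖ ≤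
      2 * LLX w γ α K * q * A := by
    rw [norm_mul, norm_real, Real.norm_eq_abs, abs_of_nonneg hq]
    calc q * ‖lamX w γ α d (k + 1) * a (k + 1) + lamX w γ α d (k - 1) * a (k - 1)‖
        ≤ q * (LLX w γ α K * A + LLX w γ α K * A) := by
          refine mul_le_mul_of_nonneg_left ((norm_add_le _ _).trans (add_le_add t1 t2)) hq
      _ = _ := by ring
  linarith

/-- two steps: the cross terms cancel -/
theorem two_stepX {w γ α d p e0 C4 C5 : ℝ} (hd : |d| ≤ 1) (hp : p ≤ 1) (hpe : p ≤ e0) (he : e0 ≤ p + 1)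
    (hC4 : 0 ≤ C4) (hC5 : 0 ≤ C5) (K : ℕ) {B : ℕ → ℤ → ℂ} {j : ℕ} (hj : 1 ≤ j)
    (h : ∀ i ∈ ({j, j + 1} : Set ℕ), ∀ k ∈ Finset.Icc (-((K + 1 : ℕ) : ℤ)) ((K + 1 : ℕ) : ℤ),
      ‖B i k - (-1) ^ k * (B (i + 1) k + EEX w γ α d (1 / i) 1 (B (i + 1)) k)‖ ≤ C4 * (i : ℝ) ^ (p - 1))
    (hB : ∀ k, ‖B (j + 2) k‖ ≤ C5 * (j : ℝ) ^ e0) {k : ℤ} (hk : k ∈ Finset.Icc (-(K : ℤ)) K) :
    ‖B j k - B (j + 2) k * (1 - 4 * lamX w γ α d k / j)‖ ≤
      (2 * C4 + 4 * LLX w γ α K * (C4 + 4 * LLX w γ α K * C5) + 4 * LLX w γ α K * C5) *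
        (j : ℝ) ^ (p - 1) := by
  have hLL := LLX_nonneg w γ α K
  have hj1 : (1 : ℝ) ≤ (j : ℝ) := by exact_mod_cast hj
  have hj0 : (0 : ℝ) < (j : ℝ) := by linarith
  set Λ : ℝ := LLX w γ α K with hΛ
  have hpp : 0 ≤ (j : ℝ) ^ (p - 1) := Real.rpow_nonneg hj0.le _
  have hmono : ((j + 1 : ℕ) : ℝ) ^ (p - 1) ≤ (j : ℝ) ^ (p - 1) := by
    refine Real.rpow_le_rpow_of_nonpos hj0 ?_ (by linarith)
    push_cast
    linarith
  have hK1 : k ∈ Finset.Icc (-((K + 1 : ℕ) : ℤ)) ((K + 1 : ℕ) : ℤ) := by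
    rw [Finset.mem_Icc] at hk ⊢
    push_cast
    omega
  have hKp : k + 1 ∈ Finset.Icc (-((K + 1 : ℕ) : ℤ)) ((K + 1 : ℕ) : ℤ) := by
    rw [Finset.mem_Icc] at hk ⊢
    push_cast
    omega
  have hKm : k - 1 ∈ Finset.Icc (-((K + 1 : ℕ) : ℤ)) ((K + 1 : ℕ) : ℤ) := by
    rw [Finset.mem_Icc] at hk ⊢
    push_cast
    omega
  have hq1 : 0 ≤ 1 / ((j + 1 : ℕ) : ℝ) := by positivity
  have hq : 0 ≤ 1 / (j : ℝ) := by positivity
  have hqle : 1 / ((j + 1 : ℕ) : ℝ) ≤ 1 / (j : ℝ) := by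
    push_cast
    gcongr
    linarith
  have hA5 : 0 ≤ C5 * (j : ℝ) ^ e0 := mul_nonneg hC5 (Real.rpow_nonneg hj0.le _)
  -- powers of j
  have pw1 : (j : ℝ)⁻¹ * (j : ℝ) ^ e0 = (j : ℝ) ^ (e0 - 1) := by
    rw [← Real.rpow_neg_one, ← Real.rpow_add hj0]
    congr 1
    ring
  have pw2 : (j : ℝ) ^ (p - 1) ≤ (j : ℝ) ^ (e0 - 1) :=
    Real.rpow_le_rpow_of_exponent_le hj1 (by linarith)
  have pw3 : (j : ℝ)⁻¹ * (j : ℝ) ^ (e0 - 1) ≤ (j : ℝ) ^ (p - 1) := by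
    rw [← Real.rpow_neg_one, ← Real.rpow_add hj0]
    exact Real.rpow_le_rpow_of_exponent_le hj1 (by linarith)
  have pw0 : 0 ≤ (j : ℝ) ^ (e0 - 1) := Real.rpow_nonneg hj0.le _
  -- crude relation between j + 1 and j + 2
  have hcr : ∀ m ∈ Finset.Icc (-((K + 1 : ℕ) : ℤ)) ((K + 1 : ℕ) : ℤ),
      ‖B (j + 1) m - (-1) ^ m * B (j + 2) m‖ ≤ (C4 + 4 * Λ * C5) * (j : ℝ) ^ (e0 - 1) := by
    intro m hm
    have e1 := h (j + 1) (by simp) m hm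
    have e2 : ‖EEX w γ α d (1 / ((j + 1 : ℕ) : ℝ)) 1 (B (j + 2)) m‖ ≤
        4 * Λ * (1 / ((j + 1 : ℕ) : ℝ)) * (C5 * (j : ℝ) ^ e0) :=
      EEX_le hd hq1 hm (hB _) (hB _) (hB _)
    have e3 : B (j + 1) m - (-1) ^ m * B (j + 2) m =
        (B (j + 1) m - (-1) ^ m * (B (j + 1 + 1) m + EEX w γ α d (1 / ((j + 1 : ℕ) : ℝ)) 1 (B (j + 1 + 1)) m)) +
          (-1) ^ m * EEX w γ α d (1 / ((j + 1 : ℕ) : ℝ)) 1 (B (j + 2)) m := by
      rw [show j + 1 + 1 = j + 2 by ring]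
      ring
    rw [e3]
    refine (norm_add_le _ _).trans ?_
    rw [norm_mul, norm_neg_one_zpow, one_mul]
    have e4 : C4 * ((j + 1 : ℕ) : ℝ) ^ (p - 1) ≤ C4 * (j : ℝ) ^ (e0 - 1) :=
      mul_le_mul_of_nonneg_left (hmono.trans pw2) hC4
    have e5 : 4 * Λ * (1 / ((j + 1 : ℕ) : ℝ)) * (C5 * (j : ℝ) ^ e0) ≤ 4 * Λ * C5 * (j : ℝ) ^ (e0 - 1) := by
      rw [← pw1]
      calc 4 * Λ * (1 / ((j + 1 : ℕ) : ℝ)) * (C5 * (j : ℝ) ^ e0) ≤ 4 * Λ * (1 / (j : ℝ)) * (C5 * (j : ℝ) ^ e0) := by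
            gcongr
        _ = _ := by
            rw [one_div]
            ring
    rw [add_mul]
    linarith [e1.trans e4, e2.trans e5]
  -- EE at step j applied to B (j + 1)
  have hEE : ‖EEX w γ α d (1 / (j : ℝ)) 1 (fun m => B (j + 1) m - (-1) ^ m * B (j + 2) m) k‖ ≤
      4 * Λ * (C4 + 4 * Λ * C5) * (j : ℝ) ^ (p - 1) := by
    have e1 := EEX_le (w := w) (γ := γ) (α := α) hd hq
      (a := fun m => B (j + 1) m - (-1) ^ m * B (j + 2) m) (K := K) hK1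
      (hcr k hK1) (hcr _ hKp) (hcr _ hKm)
    refine e1.trans ?_
    have e2 : 4 * LLX w γ α K * (1 / (j : ℝ)) * ((C4 + 4 * Λ * C5) * (j : ℝ) ^ (e0 - 1)) =
        4 * Λ * (C4 + 4 * Λ * C5) * ((j : ℝ)⁻¹ * (j : ℝ) ^ (e0 - 1)) := by
      rw [one_div]
      ring
    rw [e2]
    exact mul_le_mul_of_nonneg_left pw3 (by positivity)
  rw [EEX_sub] at hEE
  -- difference of 1 / j and 1 / (j + 1)
  have hdq : ‖EEX w γ α d (1 / ((j + 1 : ℕ) : ℝ)) 1 (B (j + 2)) k -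
      EEX w γ α d (1 / (j : ℝ)) 1 (B (j + 2)) k‖ ≤ 4 * Λ * C5 * (j : ℝ) ^ (p - 1) := by
    have e1 : EEX w γ α d (1 / ((j + 1 : ℕ) : ℝ)) 1 (B (j + 2)) k -
        EEX w γ α d (1 / (j : ℝ)) 1 (B (j + 2)) k =
        -EEX w γ α d (1 / (j : ℝ) - 1 / ((j + 1 : ℕ) : ℝ)) 1 (B (j + 2)) k := by
      unfold EEX
      push_cast
      ring
    rw [e1, norm_neg]
    have hd0 : 0 ≤ 1 / (j : ℝ) - 1 / ((j + 1 : ℕ) : ℝ) := by linarith
    have e2 := EEX_le (w := w) (γ := γ) (α := α) hd hd0 (a := B (j + 2)) (K := K) hK1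
      (hB k) (hB (k + 1)) (hB (k - 1))
    refine e2.trans ?_
    have e3 : 1 / (j : ℝ) - 1 / ((j + 1 : ℕ) : ℝ) ≤ (j : ℝ)⁻¹ * (j : ℝ)⁻¹ := by
      push_cast
      have : 1 / (j : ℝ) - 1 / ((j : ℝ) + 1) = (j : ℝ)⁻¹ * ((j : ℝ) + 1)⁻¹ := by
        field_simp
        ring
      rw [this]
      gcongr
      linarith
    calc 4 * LLX w γ α K * (1 / (j : ℝ) - 1 / ((j + 1 : ℕ) : ℝ)) * (C5 * (j : ℝ) ^ e0)
        ≤ 4 * LLX w γ α K * ((j : ℝ)⁻¹ * (j : ℝ)⁻¹) * (C5 * (j : ℝ) ^ e0) := by gcongr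
      _ = 4 * Λ * C5 * ((j : ℝ)⁻¹ * ((j : ℝ)⁻¹ * (j : ℝ) ^ e0)) := by ring
      _ ≤ 4 * Λ * C5 * (j : ℝ) ^ (p - 1) := by
          rw [pw1]
          exact mul_le_mul_of_nonneg_left pw3 (by positivity)
  -- the sum
  have e1 := h j (by simp) k hK1
  have e2 := h (j + 1) (by simp) k hK1
  rw [show j + 1 + 1 = j + 2 by ring] at e2
  have e2' := e2.trans (mul_le_mul_of_nonneg_left hmono hC4)
  have p1 : ((-1 : ℂ)) ^ (k + 1) = -(-1) ^ k := by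
    rw [zpow_add₀ (by norm_num), zpow_one]
    ring
  have p2 : ((-1 : ℂ)) ^ (k - 1) = -(-1) ^ k := by
    rw [zpow_sub₀ (by norm_num), zpow_one]
    ring
  have key : B (j + 2) k * (1 - 4 * lamX w γ α d k / j) =
      (-1) ^ k * ((-1) ^ k * (B (j + 2) k + EEX w γ α d (1 / (j : ℝ)) 1 (B (j + 2)) k) +
        EEX w γ α d (1 / (j : ℝ)) 1 (fun m => (-1) ^ m * B (j + 2) m) k) := by
    have hs := sq_neg_one k
    have hjc : (j : ℂ) ≠ 0 := by exact_mod_cast hj0.ne'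
    have e3 : (-1) ^ k * ((-1) ^ k * (B (j + 2) k + EEX w γ α d (1 / (j : ℝ)) 1 (B (j + 2)) k) +
        EEX w γ α d (1 / (j : ℝ)) 1 (fun m => (-1) ^ m * B (j + 2) m) k) =
        ((-1) ^ k * (-1) ^ k) * (B (j + 2) k * (1 - (1 / j) * (4 * lamX w γ α d k))) := by
      unfold EEX
      beta_reduce
      rw [p1, p2]
      push_cast
      simp only [div_eq_mul_inv, inv_one]
      ring
    rw [e3, hs, one_mul]
    field_simp
  rw [key]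
  have e4 : B j k - (-1) ^ k * ((-1) ^ k * (B (j + 2) k + EEX w γ α d (1 / (j : ℝ)) 1 (B (j + 2)) k) +
        EEX w γ α d (1 / (j : ℝ)) 1 (fun m => (-1) ^ m * B (j + 2) m) k) =
      (B j k - (-1) ^ k * (B (j + 1) k + EEX w γ α d (1 / (j : ℝ)) 1 (B (j + 1)) k)) +
      (-1) ^ k * ((B (j + 1) k - (-1) ^ k * (B (j + 2) k +
        EEX w γ α d (1 / ((j + 1 : ℕ) : ℝ)) 1 (B (j + 2)) k)) +
        (EEX w γ α d (1 / (j : ℝ)) 1 (B (j + 1)) k -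
          EEX w γ α d (1 / (j : ℝ)) 1 (fun m => (-1) ^ m * B (j + 2) m) k) +
        (-1) ^ k * (EEX w γ α d (1 / ((j + 1 : ℕ) : ℝ)) 1 (B (j + 2)) k -
          EEX w γ α d (1 / (j : ℝ)) 1 (B (j + 2)) k)) := by ring
  rw [e4]
  refine (norm_add_le _ _).trans ?_
  rw [norm_mul, norm_neg_one_zpow, one_mul]
  have e5 := (norm_add_le ((B (j + 1) k - (-1) ^ k * (B (j + 2) k +
        EEX w γ α d (1 / ((j + 1 : ℕ) : ℝ)) 1 (B (j + 2)) k)) +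
        (EEX w γ α d (1 / (j : ℝ)) 1 (B (j + 1)) k -
          EEX w γ α d (1 / (j : ℝ)) 1 (fun m => (-1) ^ m * B (j + 2) m) k))
        ((-1) ^ k * (EEX w γ α d (1 / ((j + 1 : ℕ) : ℝ)) 1 (B (j + 2)) k -
          EEX w γ α d (1 / (j : ℝ)) 1 (B (j + 2)) k))).trans
    (add_le_add (norm_add_le _ _) le_rfl)
  rw [norm_mul, norm_neg_one_zpow, one_mul] at e5
  linarith

/-- **The chain, all modes, uniform in the index.** -/
theorem chainX {ι : Type*} {w L R γ α p e0 C : ℝ} (hw : 0 < w) (hL : w * L = Real.pi) (hR : |L| < R)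
    (hp : p ≤ 1) (he0 : 0 ≤ e0) (hpe : p ≤ e0) (he : e0 ≤ p + 1) (K : ℕ)
    {d : ι → ℝ} (hd : ∀ i, |d i| ≤ 1)
    {n : ι → ℕ → ℂ → ℂ} {Psi : ι → ℕ → ℂ → ℂ → ℂ} {b : ι → ℕ → ℤ → ℂ} {a : ι → ℕ → ℂ → ℤ → ℂ}
    (hdf : ∀ᶠ j : ℕ in atTop, ∀ i, ∀ x ∈ seg 0, DifferentiableOn ℂ (fun z => Psi i j z x) (Bx R))
    (ha : ∀ᶠ j : ℕ in atTop, ∀ i, ∀ x ∈ seg 0, ∀ z ∈ Bx R,
      ‖Psi i j z x - EL w K (a i j x) z‖ ≤ C * (j : ℝ) ^ (p - 1))
    (hb : ∀ᶠ j : ℕ in atTop, ∀ i, ∀ z ∈ Bx R, ‖n i j z - EL w K (b i j) z‖ ≤ C * (j : ℝ) ^ (p - 1))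
    (hA : ∀ᶠ j : ℕ in atTop, ∀ i, ∀ x ∈ seg 0, ∀ t ∈ Icc (0 : ℝ) 1, ‖Psi i j (I * t) x‖ ≤ C * (j : ℝ) ^ e0)
    (hE : ∀ᶠ j : ℕ in atTop, ∀ i, ∀ s ∈ Icc (0 : ℝ) 1, ∀ t ∈ Icc (0 : ℝ) 1, ∃ D : ℂ,
      HasDerivAt (fun s : ℝ => Psi i j (I * t) (I * s)) D s ∧
      ‖D - (1 / j : ℝ) * OpX w γ α (d i) (fun z => Psi i j z (I * s)) (exp (I * w * (I * s))) (I * t)‖ ≤
        C * (j : ℝ) ^ (p - 1))
    (h0 : ∀ᶠ j : ℕ in atTop, ∀ i, ∀ z ∈ Bx R, Psi i j z 0 = n i (j + 1) z)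
    (h1 : ∀ᶠ j : ℕ in atTop, ∀ i, ∀ x ∈ seg 0, Psi i j (x + L) x = n i j x) :
    ∃ C' : ℝ, 0 ≤ C' ∧
      (∀ᶠ j : ℕ in atTop, ∀ i, ∀ k ∈ Finset.Icc (-(K : ℤ)) K,
        ‖b i (j + 2) k * (1 - 4 * lamX w γ α (d i) k / j) - b i j k‖ ≤ C' * (j : ℝ) ^ (p - 1)) ∧
      (∀ᶠ j : ℕ in atTop, ∀ i, ∀ k ∈ Finset.Icc (-(K : ℤ)) K,
        ‖b i (j + 1) k - (-1) ^ k * b i j k‖ ≤ C' * (j : ℝ) ^ (e0 - 1)) ∧
      (∀ᶠ j : ℕ in atTop, ∀ i, ∀ k ∈ Finset.Icc (-(K : ℤ)) K, ‖b i j k‖ ≤ C' * (j : ℝ) ^ e0) := by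
  obtain ⟨V, hV0, hV⟩ := EL_coef hw K
  obtain ⟨D1, hD10, hD1⟩ := rec_modeX (X := 0) hw hL le_rfl (by rw [add_zero]; exact hR) K γ α
  have hR0 : 0 < R := (abs_nonneg _).trans_lt hR
  have hd1 : ∀ i, |d i| ≤ 1 := hd
  have hIt : ∀ t ∈ Icc (0 : ℝ) 1, I * (t : ℂ) ∈ Bx R := by
    intro t ht
    refine ⟨by simpa using hR0, ?_⟩
    simp only [mul_im, I_re, ofReal_im, mul_zero, I_im, ofReal_re, one_mul, zero_add]
    rw [abs_of_nonneg ht.1]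
    linarith [ht.2]
  set Λ : ℝ := LLX w γ α K with hΛ
  have hLL : 0 ≤ Λ := LLX_nonneg w γ α K
  set Cp : ℝ := |C| with hCp
  have hCp0 : 0 ≤ Cp := abs_nonneg _
  set B : ι → ℕ → ℤ → ℂ := fun i j => tr K (b i j) with hB
  -- constants
  set CA : ℝ := 2 * V * Cp with hCA
  have hCA0 : 0 ≤ CA := by positivity
  set C4 : ℝ := D1 * (2 * Cp + CA) + (1 + 4 * Λ) * CA with hC4
  have hC40 : 0 ≤ C4 := by positivity
  -- all j large
  have hall : ∀ᶠ j : ℕ in atTop, ∀ i, (∀ k, ‖B i (j + 1) k‖ ≤ 2 * CA * (j : ℝ) ^ e0) ∧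
      ∀ k ∈ Finset.Icc (-((K + 1 : ℕ) : ℤ)) ((K + 1 : ℕ) : ℤ),
      ‖B i j k - (-1) ^ k * (B i (j + 1) k + EEX w γ α (d i) (1 / j) 1 (B i (j + 1)) k)‖ ≤
        C4 * (j : ℝ) ^ (p - 1) := by
    filter_upwards [hdf, ha, hb, (tendsto_add_atTop_nat 1).eventually hb, hA, hE, h0, h1,
      eventually_ge_atTop 1] with j hdfj haj hbj hbj1 hAj hEj h0j h1j hj i
    have hj1 : (1 : ℝ) ≤ (j : ℝ) := by exact_mod_cast hj
    have hj0 : (0 : ℝ) < (j : ℝ) := by linarith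
    have hpp : 0 ≤ (j : ℝ) ^ (p - 1) := Real.rpow_nonneg hj0.le _
    have hpe1 : 1 ≤ (j : ℝ) ^ e0 := Real.one_le_rpow hj1 he0
    have hple : (j : ℝ) ^ (p - 1) ≤ 1 := Real.rpow_le_one_of_one_le_of_nonpos hj1 (by linarith)
    have hCj : C * (j : ℝ) ^ (p - 1) ≤ Cp * (j : ℝ) ^ (p - 1) :=
      mul_le_mul_of_nonneg_right (le_abs_self C) hpp
    have hCe : C * (j : ℝ) ^ e0 ≤ Cp * (j : ℝ) ^ e0 := by
      gcongr
      exact le_abs_self C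
    have hmono : ((j + 1 : ℕ) : ℝ) ^ (p - 1) ≤ (j : ℝ) ^ (p - 1) := by
      refine Real.rpow_le_rpow_of_nonpos hj0 ?_ (by linarith)
      push_cast
      linarith
    have hCj1 : C * ((j + 1 : ℕ) : ℝ) ^ (p - 1) ≤ Cp * (j : ℝ) ^ (p - 1) :=
      (mul_le_mul_of_nonneg_right (le_abs_self C) (Real.rpow_nonneg (Nat.cast_nonneg _) _)).trans
        (mul_le_mul_of_nonneg_left hmono hCp0)
    have hmem0 : (0 : ℂ) ∈ seg 0 := ⟨0, ⟨le_rfl, zero_le_one⟩, by simp⟩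
    -- size of the coefficients
    have hcoef : ∀ x ∈ seg 0, ∀ k ∈ Finset.Icc (-(K : ℤ)) K, ‖a i j x k‖ ≤ CA * (j : ℝ) ^ e0 := by
      intro x hx k hk
      have e1 : ‖a i j x k‖ ≤ V * (Cp * (j : ℝ) ^ e0 + Cp * (j : ℝ) ^ (p - 1)) := by
        refine hV _ _ (fun t ht => ?_) k hk
        have f1 := (haj i x hx _ (hIt t ht)).trans hCj
        have f2 := (hAj i x hx t ht).trans hCe
        have e : EL w K (a i j x) (I * t) = Psi i j (I * t) x -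
          (Psi i j (I * t) x - EL w K (a i j x) (I * t)) := by ring
        rw [e]
        exact (norm_sub_le _ _).trans (add_le_add f2 f1)
      refine e1.trans ?_
      have : Cp * (j : ℝ) ^ (p - 1) ≤ Cp * (j : ℝ) ^ e0 := mul_le_mul_of_nonneg_left (hple.trans hpe1) hCp0
      rw [hCA]
      nlinarith [mul_le_mul_of_nonneg_left this hV0.le]
    -- two expansions of n (j + 1)
    have hab : ∀ k ∈ Finset.Icc (-(K : ℤ)) K, ‖b i (j + 1) k - a i j 0 k‖ ≤ CA * (j : ℝ) ^ (p - 1) := by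
      intro k hk
      have e1 : ‖b i (j + 1) k - a i j 0 k‖ ≤ V * (Cp * (j : ℝ) ^ (p - 1) + Cp * (j : ℝ) ^ (p - 1)) := by
        refine hV (fun k => b i (j + 1) k - a i j 0 k) _ (fun t ht => ?_) k hk
        rw [EL_sub]
        have f1 := (haj i _ hmem0 _ (hIt t ht)).trans hCj
        have f2 := (hbj1 i _ (hIt t ht)).trans hCj1
        rw [h0j i _ (hIt t ht)] at f1
        have e : EL w K (b i (j + 1)) (I * t) - EL w K (a i j 0) (I * t) =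
            (n i (j + 1) (I * t) - EL w K (a i j 0) (I * t)) -
              (n i (j + 1) (I * t) - EL w K (b i (j + 1)) (I * t)) := by ring
        rw [e]
        exact (norm_sub_le _ _).trans (add_le_add f1 f2)
      refine e1.trans (le_of_eq ?_)
      rw [hCA]
      ring
    have hbig : ∀ k, ‖B i (j + 1) k‖ ≤ 2 * CA * (j : ℝ) ^ e0 := by
      intro k
      by_cases hk : k ∈ Finset.Icc (-(K : ℤ)) K
      · have e1 : B i (j + 1) k = b i (j + 1) k := tr_mem hk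
        rw [e1]
        have e2 := hab k hk
        have e3 := hcoef _ hmem0 k hk
        have e4 := norm_add_le (b i (j + 1) k - a i j 0 k) (a i j 0 k)
        rw [sub_add_cancel] at e4
        have e5 : CA * (j : ℝ) ^ (p - 1) ≤ CA * (j : ℝ) ^ e0 := mul_le_mul_of_nonneg_left (hple.trans hpe1) hCA0
        linarith
      · have e1 : B i (j + 1) k = 0 := tr_not hk
        rw [e1, norm_zero]
        positivity
    refine ⟨hbig, ?_⟩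
    -- the step
    have hq0 : 0 ≤ 1 / (j : ℝ) := by positivity
    have hq1 : 1 / (j : ℝ) ≤ 1 := by
      rw [div_le_one hj0]
      exact hj1
    have hstep := hD1 (d i) (hd1 i) (Psi i j) (n i j) 0 (b i j) (a i j) (1 / j) (Cp * (j : ℝ) ^ (p - 1))
      (Cp * (j : ℝ) ^ (p - 1)) (CA * (j : ℝ) ^ e0) (by simp) (by simp) hq0 hq1 (hdfj i)
      (fun x hx z hz => (haj i x hx z hz).trans hCj) (fun z hz => (hbj i z hz).trans hCj) hcoef
      (fun s hs t ht => by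
        obtain ⟨D, hD, hDle⟩ := hEj i s hs t ht
        refine ⟨D, by simpa using hD, ?_⟩
        simp only [zero_add]
        exact hDle.trans hCj) (h1j i)
    simp only [mul_zero, exp_zero] at hstep
    intro k hk
    have e1 := hstep k hk
    set a0 : ℤ → ℂ := tr K (a i j 0) with ha0
    have hdiff : ∀ m, ‖B i (j + 1) m - a0 m‖ ≤ CA * (j : ℝ) ^ (p - 1) := by
      intro m
      by_cases hm : m ∈ Finset.Icc (-(K : ℤ)) K
      · have f1 : B i (j + 1) m = b i (j + 1) m := tr_mem hm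
        have f2 : a0 m = a i j 0 m := tr_mem hm
        rw [f1, f2]
        exact hab m hm
      · have f1 : B i (j + 1) m = 0 := tr_not hm
        have f2 : a0 m = 0 := tr_not hm
        rw [f1, f2, sub_zero, norm_zero]
        positivity
    have e2 : ‖EEX w γ α (d i) (1 / j) 1 (B i (j + 1)) k - EEX w γ α (d i) (1 / j) 1 a0 k‖ ≤
        4 * Λ * CA * (j : ℝ) ^ (p - 1) := by
      rw [← EEX_sub]
      refine (EEX_le (hd1 i) hq0 hk (hdiff k) (hdiff (k + 1)) (hdiff (k - 1))).trans ?_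
      calc 4 * LLX w γ α K * (1 / (j : ℝ)) * (CA * (j : ℝ) ^ (p - 1))
          ≤ 4 * LLX w γ α K * 1 * (CA * (j : ℝ) ^ (p - 1)) := by gcongr
        _ = _ := by ring
    have e3 : B i j k - (-1) ^ k * (B i (j + 1) k + EEX w γ α (d i) (1 / j) 1 (B i (j + 1)) k) =
        (tr K (b i j) k - (-1) ^ k * (a0 k + EEX w γ α (d i) (1 / j) 1 a0 k)) -
          (-1) ^ k * ((B i (j + 1) k - a0 k) +
            (EEX w γ α (d i) (1 / j) 1 (B i (j + 1)) k - EEX w γ α (d i) (1 / j) 1 a0 k)) := by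
      simp only [hB]
      ring
    rw [e3]
    refine (norm_sub_le _ _).trans ?_
    rw [norm_mul, norm_neg_one_zpow, one_mul]
    have e4 : (1 / (j : ℝ)) ^ 2 * (CA * (j : ℝ) ^ e0) ≤ CA * (j : ℝ) ^ (p - 1) := by
      have g1 : (1 / (j : ℝ)) ^ 2 * (CA * (j : ℝ) ^ e0) = CA * ((j : ℝ) ^ (-2 : ℝ) * (j : ℝ) ^ e0) := by
        have : (j : ℝ) ^ (-2 : ℝ) = ((j : ℝ) ^ 2)⁻¹ := by
          rw [Real.rpow_neg hj0.le]
          norm_cast
        rw [this, div_pow]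
        field_simp
      rw [g1, ← Real.rpow_add hj0]
      exact mul_le_mul_of_nonneg_left (Real.rpow_le_rpow_of_exponent_le hj1 (by linarith)) hCA0
    have e5 := norm_add_le (B i (j + 1) k - a0 k)
      (EEX w γ α (d i) (1 / j) 1 (B i (j + 1)) k - EEX w γ α (d i) (1 / j) 1 a0 k)
    have e6 := hdiff k
    have e7 : D1 * (Cp * (j : ℝ) ^ (p - 1) + Cp * (j : ℝ) ^ (p - 1) +
        (1 / (j : ℝ)) ^ 2 * (CA * (j : ℝ) ^ e0)) ≤ D1 * (2 * Cp + CA) * (j : ℝ) ^ (p - 1) := by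
      rw [mul_assoc D1]
      refine mul_le_mul_of_nonneg_left ?_ hD10.le
      linarith
    have e8 := e1.trans e7
    rw [hC4]
    nlinarith
  -- two steps
  have htwo : ∀ᶠ j : ℕ in atTop, ∀ i, ∀ k ∈ Finset.Icc (-(K : ℤ)) K,
      ‖B i j k - B i (j + 2) k * (1 - 4 * lamX w γ α (d i) k / j)‖ ≤
      (2 * C4 + 4 * Λ * (C4 + 4 * Λ * (2 * 2 ^ e0 * CA)) + 4 * Λ * (2 * 2 ^ e0 * CA)) *
        (j : ℝ) ^ (p - 1) := by
    filter_upwards [hall, (tendsto_add_atTop_nat 1).eventually hall, eventually_ge_atTop 1]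
      with j hj hj1 hj3 i k hk
    have hj1' : (1 : ℝ) ≤ (j : ℝ) := by exact_mod_cast hj3
    refine two_stepX (hd1 i) hp hpe he hC40 (by positivity) K hj3 ?_ ?_ hk
    · intro m hm
      rcases hm with rfl | hm
      · exact (hj i).2
      · rw [Set.mem_singleton_iff] at hm
        subst hm
        exact (hj1 i).2
    · intro m
      have e1 := (hj1 i).1 m
      refine e1.trans ?_
      have e2 : ((j + 1 : ℕ) : ℝ) ^ e0 ≤ 2 ^ e0 * (j : ℝ) ^ e0 := by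
        calc ((j + 1 : ℕ) : ℝ) ^ e0 ≤ (2 * (j : ℝ)) ^ e0 := by
              refine Real.rpow_le_rpow (Nat.cast_nonneg _) ?_ he0
              push_cast
              linarith
          _ = 2 ^ e0 * (j : ℝ) ^ e0 := Real.mul_rpow (by norm_num) (by linarith)
      calc 2 * CA * ((j + 1 : ℕ) : ℝ) ^ e0 ≤ 2 * CA * (2 ^ e0 * (j : ℝ) ^ e0) := by gcongr
        _ = 2 * 2 ^ e0 * CA * (j : ℝ) ^ e0 := by ring
  set C6 : ℝ := 2 * C4 + 4 * Λ * (C4 + 4 * Λ * (2 * 2 ^ e0 * CA)) + 4 * Λ * (2 * 2 ^ e0 * CA) with hC6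
  refine ⟨C6 + (C4 + 4 * Λ * (2 * CA)) + 2 * CA, by positivity, ?_, ?_, ?_⟩
  · filter_upwards [htwo] with j hj i k hk
    have e1 := hj i k hk
    have e2 : B i j k = b i j k := tr_mem hk
    have e3 : B i (j + 2) k = b i (j + 2) k := tr_mem hk
    rw [e2, e3, norm_sub_rev] at e1
    have hpp : 0 ≤ (j : ℝ) ^ (p - 1) := Real.rpow_nonneg (Nat.cast_nonneg _) _
    have : 0 ≤ ((C4 + 4 * Λ * (2 * CA)) + 2 * CA) * (j : ℝ) ^ (p - 1) := by positivity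
    have e4 : (C6 + (C4 + 4 * Λ * (2 * CA)) + 2 * CA) * (j : ℝ) ^ (p - 1) = C6 * (j : ℝ) ^ (p - 1) +
        ((C4 + 4 * Λ * (2 * CA)) + 2 * CA) * (j : ℝ) ^ (p - 1) := by ring
    rw [e4]
    linarith
  · filter_upwards [hall, eventually_ge_atTop 1] with j hj hj3 i k hk
    have hj1 : (1 : ℝ) ≤ (j : ℝ) := by exact_mod_cast hj3
    have hj0 : (0 : ℝ) < (j : ℝ) := by linarith
    have hK1 : k ∈ Finset.Icc (-((K + 1 : ℕ) : ℤ)) ((K + 1 : ℕ) : ℤ) := by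
      rw [Finset.mem_Icc] at hk ⊢
      push_cast
      omega
    have e1 := (hj i).2 k hK1
    have e2 : B i j k = b i j k := tr_mem hk
    have e3 : B i (j + 1) k = b i (j + 1) k := tr_mem hk
    have hq : 0 ≤ 1 / (j : ℝ) := by positivity
    have e4 := EEX_le (w := w) (γ := γ) (α := α) (hd1 i) hq hK1 ((hj i).1 k) ((hj i).1 (k + 1))
      ((hj i).1 (k - 1))
    have e5 : b i (j + 1) k - (-1) ^ k * b i j k =
        -((-1) ^ k * (B i j k - (-1) ^ k * (B i (j + 1) k + EEX w γ α (d i) (1 / j) 1 (B i (j + 1)) k))) -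
          EEX w γ α (d i) (1 / j) 1 (B i (j + 1)) k := by
      rw [e2, e3]
      have hs := sq_neg_one k
      linear_combination (-(b i (j + 1) k) - EEX w γ α (d i) (1 / j) 1 (B i (j + 1)) k) * hs
    rw [e5]
    refine (norm_sub_le _ _).trans ?_
    rw [norm_neg, norm_mul, norm_neg_one_zpow, one_mul]
    have pw2 : (j : ℝ) ^ (p - 1) ≤ (j : ℝ) ^ (e0 - 1) :=
      Real.rpow_le_rpow_of_exponent_le hj1 (by linarith)
    have pw0 : 0 ≤ (j : ℝ) ^ (e0 - 1) := Real.rpow_nonneg hj0.le _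
    have e6 : 4 * LLX w γ α K * (1 / (j : ℝ)) * (2 * CA * (j : ℝ) ^ e0) =
        4 * Λ * (2 * CA) * (j : ℝ) ^ (e0 - 1) := by
      rw [Real.rpow_sub hj0, Real.rpow_one]
      ring
    rw [e6] at e4
    have e7 : C4 * (j : ℝ) ^ (p - 1) ≤ C4 * (j : ℝ) ^ (e0 - 1) := mul_le_mul_of_nonneg_left pw2 hC40
    have hC60 : 0 ≤ C6 := by positivity
    have e8 : 0 ≤ (C6 + 2 * CA) * (j : ℝ) ^ (e0 - 1) := by positivity
    have e9 : (C6 + (C4 + 4 * Λ * (2 * CA)) + 2 * CA) * (j : ℝ) ^ (e0 - 1) =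
        C4 * (j : ℝ) ^ (e0 - 1) + 4 * Λ * (2 * CA) * (j : ℝ) ^ (e0 - 1) +
        (C6 + 2 * CA) * (j : ℝ) ^ (e0 - 1) := by ring
    rw [e9]
    linarith [e1.trans e7]
  · obtain ⟨J, hJ⟩ := eventually_atTop.1 hall
    refine eventually_atTop.2 ⟨J + 1, fun j hj i k hk => ?_⟩
    obtain ⟨m, rfl⟩ := Nat.exists_eq_add_of_le' (show 1 ≤ j by omega)
    have e3 : B i (m + 1) k = b i (m + 1) k := tr_mem hk
    have e1 := (hJ m (by omega) i).1 k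
    rw [e3] at e1
    have e2 : (m : ℝ) ^ e0 ≤ ((m + 1 : ℕ) : ℝ) ^ e0 :=
      Real.rpow_le_rpow (Nat.cast_nonneg _) (by push_cast; linarith) he0
    have hC60 : 0 ≤ C6 := by positivity
    have hp0 : 0 ≤ ((m + 1 : ℕ) : ℝ) ^ e0 := by positivity
    have e4 : 0 ≤ (C6 + (C4 + 4 * Λ * (2 * CA))) * ((m + 1 : ℕ) : ℝ) ^ e0 := by positivity
    have e5 : 2 * CA * (m : ℝ) ^ e0 ≤ 2 * CA * ((m + 1 : ℕ) : ℝ) ^ e0 := by gcongr
    have e6 : (C6 + (C4 + 4 * Λ * (2 * CA)) + 2 * CA) * ((m + 1 : ℕ) : ℝ) ^ e0 =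
        2 * CA * ((m + 1 : ℕ) : ℝ) ^ e0 + (C6 + (C4 + 4 * Λ * (2 * CA))) * ((m + 1 : ℕ) : ℝ) ^ e0 := by ring
    rw [e6]
    linarith [e1.trans e5]

end WXF
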