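import Pool.Agent.WX.AmpB
import Pool.Agent.PB.SBC
import Pool.Agent.PB.SB3

/-!
# Plan X: the mass of the separating polygons (helper96)

`S_N := (NUI.ZP N).coeff 1`, the coefficient of the loop weight in `ZZ_N`.

* `TwoM`: the law with two modes for `2/5 ≤ d ≤ 1/2` (loop weights `2 cos (π d) ≥ 0`);
* **`sLaw_of`**: `S_N = log N / (3 π) + a + (-1)^N b + O(N^-c)` for all `N ≥ 1`.
-/

set_option autoImplicit false

noncomputable section

open Filter Topology Set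

namespace WX

/-- the law of the function side, one-sided -/
def TwoM (d1 p : ℝ) : Prop := ∃ G H : ℝ → ℝ, ∃ C : ℝ, ∀ᶠ N : ℕ in atTop, ∀ d ∈ Icc d1 (1 / 2 : ℝ),
  |NUI.W0 N * (NUI.ZP N).eval (2 * Real.cos (Real.pi * d)) / Pool.Agent.NUF.bulk N -
    (G d * (N : ℝ) ^ (3 / 8 - 2 / 3 * d ^ 2) +
      (-1) ^ N * H d * (N : ℝ) ^ (3 / 8 - 2 / 3 * (1 - d) ^ 2))| ≤ C * (N : ℝ) ^ p

theorem ZP_eval_zero (N : ℕ) : (NUI.ZP N).eval 0 = 1 := by
  have h1 := NUI.ZP_eq 0 N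
  have h2 : Pool.Agent.NUF.ZZ 0 N = 1 := div_self (Pool.Agent.NUF.Wd_ne N)
  rw [h2] at h1
  have h3 : Polynomial.aeval (0 : ℂ) (NUI.ZP N) = (((NUI.ZP N).eval 0 : ℝ) : ℂ) := by
    simpa using (Polynomial.aeval_algebraMap_apply ℂ (0 : ℝ) (NUI.ZP N))
  rw [h3] at h1
  exact_mod_cast h1.symm

/-- **the mass of the separating polygons**, eventually -/
theorem sLaw_ev {d1 p : ℝ} (hd : d1 < 1 / 2) (hp : p < 5 / 24) (h : TwoM d1 p) :
    ∃ c : ℝ, 0 < c ∧ ∃ A B K : ℝ, 0 ≤ K ∧ ∀ᶠ N : ℕ in atTop,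
      |(NUI.ZP N).coeff 1 - (Real.log N / (3 * Real.pi) + A + (-1) ^ N * B)| ≤
        K * (N : ℝ) ^ (-c) := by
  obtain ⟨G, H, C, hC⟩ := h
  obtain ⟨L, C2, hL, hC2, hW⟩ := SB.Wd_sharp SB.quot_main
  refine WXA.amp (P := NUI.ZP) (u := fun N => NUI.W0 N / Pool.Agent.NUF.bulk N) (L := L)
    (C := |C| + C2) (r := 1 / 2) (q := 5 / 24) (p := p) (η1 := 1 / 2 - d1)
    (G0 := fun η => G (1 / 2 - η)) (G1 := fun η => H (1 / 2 - η)) NUI.ZP_nonneg ZP_eval_zero hL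
    (by norm_num) hp (by linarith) ?_ ?_
  · filter_upwards [eventually_ge_atTop 1] with N hN
    have h1 := hW N hN
    rw [div_div]
    refine h1.trans (mul_le_mul_of_nonneg_right ?_ (by positivity))
    have := abs_nonneg C
    linarith
  · filter_upwards [hC, eventually_ge_atTop 1] with N h1 h2 η hη
    have h3 := h1 (1 / 2 - η) ⟨by linarith [hη.2], by linarith [hη.1]⟩
    have e1 : Real.cos (Real.pi * (1 / 2 - η)) = Real.sin (Real.pi * η) := by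
      rw [← Real.cos_pi_div_two_sub]
      congr 1
      ring
    have e2 : (3 / 8 - 2 / 3 * (1 / 2 - η) ^ 2 : ℝ) = 5 / 24 + 2 / 3 * (η - η ^ 2) := by ring
    have e3 : (3 / 8 - 2 / 3 * (1 - (1 / 2 - η)) ^ 2 : ℝ) = 5 / 24 - 2 / 3 * (η + η ^ 2) := by ring
    rw [e1, e2, e3] at h3
    rw [div_mul_eq_mul_div]
    refine h3.trans (mul_le_mul_of_nonneg_right ?_ (by positivity))
    have := le_abs_self C
    linarith

/-- from a bound for large `N` to a bound for all `N ≥ 1` -/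
theorem all_ev {f : ℕ → ℝ} {K c : ℝ} (hK : 0 ≤ K) (h : ∀ᶠ N : ℕ in atTop, |f N| ≤ K * (N : ℝ) ^ (-c)) :
    ∃ K' : ℝ, 0 ≤ K' ∧ ∀ N : ℕ, 1 ≤ N → |f N| ≤ K' * (N : ℝ) ^ (-c) := by
  obtain ⟨n0, hn0⟩ := eventually_atTop.1 h
  refine ⟨K + ∑ n ∈ Finset.range n0, |f n| * (n : ℝ) ^ c,
    add_nonneg hK (Finset.sum_nonneg fun n _ => by positivity), fun N hN => ?_⟩
  have hN0 : (0 : ℝ) < N := by exact_mod_cast hN
  have hs : 0 ≤ ∑ n ∈ Finset.range n0, |f n| * (n : ℝ) ^ c :=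
    Finset.sum_nonneg fun n _ => by positivity
  rcases le_or_gt n0 N with h1 | h1
  · exact (hn0 N h1).trans (mul_le_mul_of_nonneg_right (by linarith) (by positivity))
  · have h2 : |f N| * (N : ℝ) ^ c ≤ ∑ n ∈ Finset.range n0, |f n| * (n : ℝ) ^ c :=
      Finset.single_le_sum (f := fun n : ℕ => |f n| * (n : ℝ) ^ c) (fun n _ => by positivity)
        (Finset.mem_range.2 h1)
    calc |f N| = |f N| * (N : ℝ) ^ c * (N : ℝ) ^ (-c) := by
          rw [mul_assoc, ← Real.rpow_add hN0, add_neg_cancel, Real.rpow_zero, mul_one]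
      _ ≤ _ := mul_le_mul_of_nonneg_right (by linarith) (by positivity)

/-- **the mass of the separating polygons** -/
theorem sLaw_of {d1 p : ℝ} (hd : d1 < 1 / 2) (hp : p < 5 / 24) (h : TwoM d1 p) :
    ∃ c : ℝ, 0 < c ∧ ∃ A B K : ℝ, 0 ≤ K ∧ ∀ N : ℕ, 1 ≤ N →
      |(NUI.ZP N).coeff 1 - (Real.log N / (3 * Real.pi) + A + (-1) ^ N * B)| ≤
        K * (N : ℝ) ^ (-c) := by
  obtain ⟨c, hc, A, B, K, hK, h1⟩ := sLaw_ev hd hp h
  obtain ⟨K', hK', h2⟩ := all_ev hK h1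
  exact ⟨c, hc, A, B, K', hK', h2⟩

end WX

end
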