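import Pool.Agent.PV.SeqV
import Pool.Agent.WND.SeqW

/-!
# Plan X: the scalar sequences with a twist, uniform in an index (helper31)

`b i j`, `ν i`; two steps: `‖b i (j + 2) (1 - 2 ν i / j) - b i j‖ ≤ C j^(p-1)`.

* `contrX`: `ν i ≤ ν' < p`: `‖b i j‖ ≤ B j^p`, one `B`;
* `keptX`: `p + δ ≤ ν i ≤ 1`, `‖b i (j + 1) - σ b i j‖ ≤ C j^p`, `σ = ±1`:
  `‖b i j - g i σ^j j^(ν i)‖ ≤ C' j^p`, `‖g i‖ ≤ C'`, one `C'`;
* `all_of_evX`: from all large sizes to all sizes.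
-/

set_option autoImplicit false

open Filter Topology

namespace WX

variable {ι : Type*}

/-! ### a contracted mode -/

/-- one step -/
theorem contr_step {g g' ν p C B x : ℝ} (hx : 2 ≤ x) (hν : 0 ≤ ν) (hνp : ν < p) (hB : 0 ≤ B)
    (hBC : C ≤ B * (p - ν)) (hx2 : 4 * p * (1 + ν) ≤ (p - ν) * x) (hνx : 2 * ν < x)
    (h : g' * (1 - 2 * ν / x) ≤ g + C * x ^ (p - 1)) (hg : g ≤ B * x ^ p) :
    g' ≤ B * (x + 2) ^ p := by
  have hx0 : 0 < x := by linarith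
  have hp : 0 < p := by linarith
  set y : ℝ := 2 / x with hy
  have hy0 : 0 < y := by positivity
  have hyx : x * y = 2 := by
    rw [hy]
    field_simp
  have hy1 : y ≤ 1 := by
    rw [hy, div_le_one hx0]
    exact hx
  have e0 : 2 * ν / x = ν * y := by
    rw [hy]
    ring
  have h0 : 0 < 1 - ν * y := by
    rw [← e0, sub_pos, div_lt_one hx0]
    exact hνx
  have hxp : 0 < x ^ p := Real.rpow_pos_of_pos hx0 _
  have e1 : x ^ (p - 1) = x ^ p * (y / 2) := by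
    rw [Real.rpow_sub hx0, Real.rpow_one, hy]
    field_simp
  have e2 : (x + 2) ^ p = x ^ p * (1 + y) ^ p := by
    rw [← Real.mul_rpow hx0.le (by positivity)]
    congr 1
    rw [hy]
    field_simp
  -- the lower bound of the power
  have hl : 0 < 1 + y := by linarith
  have hlog2 : y - y ^ 2 ≤ Real.log (1 + y) := by
    have h5 := Real.one_sub_inv_le_log_of_pos hl
    have h6 : y - y ^ 2 ≤ 1 - (1 + y)⁻¹ := by
      have h7 : 1 - (1 + y)⁻¹ - (y - y ^ 2) = y ^ 3 / (1 + y) := by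
        field_simp
        ring
      have : 0 ≤ y ^ 3 / (1 + y) := by positivity
      linarith
    linarith
  have e3 : 1 + p * (y - y ^ 2) ≤ (1 + y) ^ p := by
    rw [Real.rpow_def_of_pos hl]
    have h1 := Real.add_one_le_exp (Real.log (1 + y) * p)
    have h2 : p * (y - y ^ 2) ≤ Real.log (1 + y) * p := by
      rw [mul_comm (Real.log (1 + y))]
      exact mul_le_mul_of_nonneg_left hlog2 hp.le
    linarith
  have e4 : 1 + (p - ν) * (y / 2) ≤ (1 + y) ^ p * (1 - ν * y) := by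
    refine le_trans ?_ (mul_le_mul_of_nonneg_right e3 h0.le)
    have h1 : (1 + p * (y - y ^ 2)) * (1 - ν * y) - (1 + (p - ν) * (y / 2)) =
        y * ((p - ν) / 2 - p * (1 + ν) * y) + p * ν * y ^ 3 := by ring
    have h2 : p * (1 + ν) * y ≤ (p - ν) / 2 := by
      have h3 : 4 * p * (1 + ν) * y ≤ (p - ν) * x * y := mul_le_mul_of_nonneg_right hx2 hy0.le
      rw [mul_assoc (p - ν), hyx] at h3
      linarith
    have h4 : 0 ≤ y * ((p - ν) / 2 - p * (1 + ν) * y) := mul_nonneg hy0.le (by linarith)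
    have h5 : 0 ≤ p * ν * y ^ 3 := by positivity
    linarith
  rw [e0] at h
  refine le_of_mul_le_mul_right (le_trans h ?_) h0
  rw [e1, e2]
  calc g + C * (x ^ p * (y / 2)) ≤ B * x ^ p + B * (p - ν) * (x ^ p * (y / 2)) := by
        have : 0 ≤ x ^ p * (y / 2) := by positivity
        gcongr
    _ = B * x ^ p * (1 + (p - ν) * (y / 2)) := by ring
    _ ≤ B * x ^ p * ((1 + y) ^ p * (1 - ν * y)) := by gcongr
    _ = _ := by ring

/-- **a contracted mode, real, uniform in the index** -/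
theorem contr_real {g : ι → ℕ → ℝ} {ν p e C : ℝ} (hν : 0 ≤ ν) (hνp : ν < p)
    (hg : ∀ᶠ j : ℕ in atTop, ∀ i, g i j ≤ C * (j : ℝ) ^ e)
    (h : ∀ᶠ j : ℕ in atTop, ∀ i, g i (j + 2) * (1 - 2 * ν / j) ≤ g i j + C * (j : ℝ) ^ (p - 1)) :
    ∃ B : ℝ, 0 ≤ B ∧ ∀ᶠ j : ℕ in atTop, ∀ i, g i j ≤ B * (j : ℝ) ^ p := by
  have hp : 0 < p := by linarith
  have hev : ∀ᶠ j : ℕ in atTop, max 2 (max (4 * p * (1 + ν) / (p - ν)) (2 * ν + 1)) ≤ (j : ℝ) :=
    tendsto_natCast_atTop_atTop.eventually_ge_atTop _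
  obtain ⟨J, hJ⟩ := eventually_atTop.1 ((h.and hev).and hg)
  set B : ℝ := max (max (|C| * (J : ℝ) ^ e * (J : ℝ) ^ (-p))
    (|C| * ((J + 1 : ℕ) : ℝ) ^ e * ((J + 1 : ℕ) : ℝ) ^ (-p))) (|C| / (p - ν)) with hB
  have hpν : 0 < p - ν := by linarith
  have hB2 : |C| / (p - ν) ≤ B := le_max_right _ _
  have hB0 : 0 ≤ B := le_trans (by positivity) hB2
  have hBC : C ≤ B * (p - ν) := by
    rw [div_le_iff₀ hpν] at hB2
    exact (le_abs_self C).trans hB2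
  have hpos : ∀ j ≥ J, (2 : ℝ) ≤ (j : ℝ) := fun j hj => le_trans (le_max_left _ _) (hJ j hj).1.2
  have base : ∀ (i : ι) (m : ℕ), J ≤ m → |C| * (m : ℝ) ^ e * (m : ℝ) ^ (-p) ≤ B →
      g i m ≤ B * (m : ℝ) ^ p := by
    intro i m hm hh
    have hi0 : (0 : ℝ) < m := by linarith [hpos m hm]
    have h1 := (hJ m hm).2 i
    have h2 : (m : ℝ) ^ (-p) * (m : ℝ) ^ p = 1 := by
      rw [← Real.rpow_add hi0, neg_add_cancel, Real.rpow_zero]
    have h3 : 0 ≤ (m : ℝ) ^ e := by positivity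
    calc g i m ≤ C * (m : ℝ) ^ e := h1
      _ ≤ |C| * (m : ℝ) ^ e := mul_le_mul_of_nonneg_right (le_abs_self C) h3
      _ = |C| * (m : ℝ) ^ e * (m : ℝ) ^ (-p) * (m : ℝ) ^ p := by rw [mul_assoc, h2, mul_one]
      _ ≤ B * (m : ℝ) ^ p := mul_le_mul_of_nonneg_right hh (by positivity)
  refine ⟨B, hB0, eventually_atTop.2 ⟨J, fun j hj i => ?_⟩⟩
  have key : ∀ n : ℕ, g i (J + n) ≤ B * ((J + n : ℕ) : ℝ) ^ p ∧
      g i (J + n + 1) ≤ B * ((J + n + 1 : ℕ) : ℝ) ^ p := by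
    intro n
    induction n with
    | zero =>
      refine ⟨?_, ?_⟩
      · rw [Nat.add_zero]
        exact base i J le_rfl ((le_max_left _ _).trans (le_max_left _ _))
      · rw [Nat.add_zero]
        exact base i (J + 1) (by omega) ((le_max_right _ _).trans (le_max_left _ _))
    | succ n ih =>
      refine ⟨by rw [← Nat.add_assoc]; exact ih.2, ?_⟩
      obtain ⟨⟨a1, a2⟩, -⟩ := hJ (J + n) (by omega)
      have b1 : (2 : ℝ) ≤ ((J + n : ℕ) : ℝ) := (le_max_left _ _).trans a2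
      have b2 : 4 * p * (1 + ν) ≤ (p - ν) * ((J + n : ℕ) : ℝ) := by
        have := ((le_max_left _ _).trans (le_max_right _ _)).trans a2
        rw [div_le_iff₀ hpν] at this
        linarith
      have b3 : 2 * ν < ((J + n : ℕ) : ℝ) := by
        have := ((le_max_right _ _).trans (le_max_right _ _)).trans a2
        linarith
      have := contr_step b1 hν hνp hB0 hBC b2 b3 (a1 i) ih.1
      have e : ((J + (n + 1) + 1 : ℕ) : ℝ) = ((J + n : ℕ) : ℝ) + 2 := by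
        push_cast
        ring
      rw [e, show J + (n + 1) + 1 = J + n + 2 by ring]
      exact this
  obtain ⟨n, rfl⟩ := Nat.exists_eq_add_of_le hj
  exact (key n).1

/-- **a contracted mode, uniform in the index** -/
theorem contrX {b : ι → ℕ → ℂ} {ν : ι → ℝ} {ν' p e C : ℝ} (hν' : 0 ≤ ν') (hp : ν' < p)
    (hν : ∀ i, ν i ≤ ν') (hb : ∀ᶠ j : ℕ in atTop, ∀ i, ‖b i j‖ ≤ C * (j : ℝ) ^ e)
    (h2 : ∀ᶠ j : ℕ in atTop, ∀ i, ‖b i (j + 2) * (1 - ((2 * ν i / j : ℝ) : ℂ)) - b i j‖ ≤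
      C * (j : ℝ) ^ (p - 1)) :
    ∃ B : ℝ, 0 ≤ B ∧ ∀ᶠ j : ℕ in atTop, ∀ i, ‖b i j‖ ≤ B * (j : ℝ) ^ p := by
  refine contr_real (g := fun i j => ‖b i j‖) hν' hp hb ?_
  filter_upwards [h2, eventually_ge_atTop 1] with j hj hj1 i
  have hj0 : (0 : ℝ) < j := by exact_mod_cast hj1
  have h3 : 1 - 2 * ν' / j ≤ ‖(1 - ((2 * ν i / j : ℝ) : ℂ))‖ := by
    have e : (1 - ((2 * ν i / j : ℝ) : ℂ)) = ((1 - 2 * ν i / j : ℝ) : ℂ) := by push_cast; ring
    rw [e, Complex.norm_real, Real.norm_eq_abs]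
    refine le_trans ?_ (le_abs_self _)
    have : 2 * ν i / j ≤ 2 * ν' / j := by
      have := hν i
      gcongr
    linarith
  have h4 : ‖b i (j + 2)‖ * ‖(1 - ((2 * ν i / j : ℝ) : ℂ))‖ ≤ ‖b i j‖ + C * (j : ℝ) ^ (p - 1) := by
    rw [← norm_mul]
    have h5 := norm_sub_norm_le (b i (j + 2) * (1 - ((2 * ν i / j : ℝ) : ℂ))) (b i j)
    linarith [hj i]
  exact (mul_le_mul_of_nonneg_left h3 (norm_nonneg _)).trans h4

/-! ### a kept mode -/

/-- the second order error of the power, two steps -/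
theorem pow_step2 {x μ : ℝ} (hx : 2 ≤ x) (hμ : 0 ≤ μ) (hμ1 : μ ≤ 1) :
    |(x + 2) ^ (-μ) - (1 - 2 * μ / x) * x ^ (-μ)| ≤ 8 * x ^ (-μ - 2) := by
  have hx0 : 0 < x := by linarith
  have h := PVF.pow_step (x := x / 2) (μ := μ) (by linarith) hμ hμ1
  have h2 : (0 : ℝ) < 2 ^ (-μ) := by positivity
  have e1 : (x + 2) ^ (-μ) = 2 ^ (-μ) * (x / 2 + 1) ^ (-μ) := by
    rw [← Real.mul_rpow (by norm_num) (by positivity)]
    congr 1
    ring
  have e2 : x ^ (-μ) = 2 ^ (-μ) * (x / 2) ^ (-μ) := by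
    rw [← Real.mul_rpow (by norm_num) (by positivity)]
    congr 1
    ring
  have e3 : x ^ (-μ - 2) = 2 ^ (-μ) * (x / 2) ^ (-μ - 2) / 4 := by
    have : x ^ (-μ - 2) = 2 ^ (-μ - 2) * (x / 2) ^ (-μ - 2) := by
      rw [← Real.mul_rpow (by norm_num) (by positivity)]
      congr 1
      ring
    rw [this, Real.rpow_sub (by norm_num : (0 : ℝ) < 2) (-μ) 2]
    norm_num
    ring
  have e4 : (x + 2) ^ (-μ) - (1 - 2 * μ / x) * x ^ (-μ) =
      2 ^ (-μ) * ((x / 2 + 1) ^ (-μ) - (1 - μ / (x / 2)) * (x / 2) ^ (-μ)) := by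
    rw [e1, e2]
    have : 2 * μ / x = μ / (x / 2) := by
      field_simp
    rw [this]
    ring
  rw [e4, abs_mul, abs_of_pos h2, e3]
  calc 2 ^ (-μ) * |(x / 2 + 1) ^ (-μ) - (1 - μ / (x / 2)) * (x / 2) ^ (-μ)| ≤
      2 ^ (-μ) * (2 * (x / 2) ^ (-μ - 2)) := by gcongr
    _ = _ := by ring

/-- the mode divided by its power -/
noncomputable def nrm (b : ι → ℕ → ℂ) (ν : ι → ℝ) (i : ι) (j : ℕ) : ℂ :=
  b i j * (((j : ℝ) ^ (-ν i) : ℝ) : ℂ)

theorem nrm_step {b : ι → ℕ → ℂ} {ν : ι → ℝ} {p e C : ℝ} (hν : ∀ i, 0 ≤ ν i) (hν1 : ∀ i, ν i ≤ 1)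
    (he : e ≤ p + 1)
    (h2 : ∀ᶠ j : ℕ in atTop, ∀ i, ‖b i (j + 2) * (1 - ((2 * ν i / j : ℝ) : ℂ)) - b i j‖ ≤
      C * (j : ℝ) ^ (p - 1))
    (hb : ∀ᶠ j : ℕ in atTop, ∀ i, ‖b i j‖ ≤ C * (j : ℝ) ^ e) :
    ∃ C' : ℝ, 0 ≤ C' ∧ ∀ᶠ j : ℕ in atTop, ∀ i, ‖nrm b ν i (j + 2) - nrm b ν i j‖ ≤
      C' * (j : ℝ) ^ (-(1 + (ν i - p))) := by
  refine ⟨8 * (2 ^ |e| * |C|) + |C|, by positivity, ?_⟩
  filter_upwards [h2, (tendsto_add_atTop_nat 2).eventually hb, eventually_ge_atTop 2] with j h1 h4 h3 i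
  have hj2 : (2 : ℝ) ≤ j := by exact_mod_cast h3
  have hj1 : (1 : ℝ) ≤ j := by linarith
  have hj0 : (0 : ℝ) < j := by linarith
  have e1 : nrm b ν i (j + 2) - nrm b ν i j =
      b i (j + 2) * ((((j : ℝ) + 2) ^ (-ν i) - (1 - 2 * ν i / j) * (j : ℝ) ^ (-ν i) : ℝ) : ℂ) +
      (b i (j + 2) * (1 - ((2 * ν i / j : ℝ) : ℂ)) - b i j) * (((j : ℝ) ^ (-ν i) : ℝ) : ℂ) := by
    unfold nrm
    push_cast
    ring
  rw [e1]
  refine (norm_add_le _ _).trans ?_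
  rw [norm_mul, norm_mul, Complex.norm_real, Complex.norm_real, Real.norm_eq_abs, Real.norm_eq_abs,
    abs_of_pos (Real.rpow_pos_of_pos hj0 (-ν i))]
  have h5 := pow_step2 hj2 (hν i) (hν1 i)
  have hbj : ‖b i (j + 2)‖ ≤ 2 ^ |e| * |C| * (j : ℝ) ^ e := by
    have h6 : ‖b i (j + 2)‖ ≤ C * ((j + 2 : ℕ) : ℝ) ^ e := h4 i
    have h7 : ((j + 2 : ℕ) : ℝ) ^ e ≤ 2 ^ |e| * (j : ℝ) ^ e := by
      have h8 : ((j + 2 : ℕ) : ℝ) = (((j + 2 : ℕ) : ℝ) / j) * j := by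
        field_simp
      have h9 : 1 ≤ ((j + 2 : ℕ) : ℝ) / j := by
        rw [one_le_div hj0]
        push_cast
        linarith
      have h10 : ((j + 2 : ℕ) : ℝ) / j ≤ 2 := by
        rw [div_le_iff₀ hj0]
        push_cast
        linarith
      calc ((j + 2 : ℕ) : ℝ) ^ e = (((j + 2 : ℕ) : ℝ) / j) ^ e * (j : ℝ) ^ e := by
            rw [← Real.mul_rpow (by positivity) hj0.le, ← h8]
        _ ≤ (((j + 2 : ℕ) : ℝ) / j) ^ |e| * (j : ℝ) ^ e := by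
            gcongr
            exact le_abs_self e
        _ ≤ 2 ^ |e| * (j : ℝ) ^ e := by gcongr
    have h11 : 0 ≤ ((j + 2 : ℕ) : ℝ) ^ e := by positivity
    calc ‖b i (j + 2)‖ ≤ C * ((j + 2 : ℕ) : ℝ) ^ e := h6
      _ ≤ |C| * ((j + 2 : ℕ) : ℝ) ^ e := mul_le_mul_of_nonneg_right (le_abs_self C) h11
      _ ≤ |C| * (2 ^ |e| * (j : ℝ) ^ e) := by gcongr
      _ = _ := by ring
  have g1 : ‖b i (j + 2)‖ * |((j : ℝ) + 2) ^ (-ν i) - (1 - 2 * ν i / j) * (j : ℝ) ^ (-ν i)| ≤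
      (2 ^ |e| * |C| * (j : ℝ) ^ e) * (8 * (j : ℝ) ^ (-ν i - 2)) := by gcongr
  have g2 : ‖b i (j + 2) * (1 - ((2 * ν i / j : ℝ) : ℂ)) - b i j‖ * (j : ℝ) ^ (-ν i) ≤
      (|C| * (j : ℝ) ^ (p - 1)) * (j : ℝ) ^ (-ν i) := by
    have h6 : ‖b i (j + 2) * (1 - ((2 * ν i / j : ℝ) : ℂ)) - b i j‖ ≤ |C| * (j : ℝ) ^ (p - 1) :=
      (h1 i).trans (mul_le_mul_of_nonneg_right (le_abs_self C) (by positivity))
    gcongr
  have g3 : (j : ℝ) ^ e * (j : ℝ) ^ (-ν i - 2) ≤ (j : ℝ) ^ (-(1 + (ν i - p))) := by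
    rw [← Real.rpow_add hj0]
    exact Real.rpow_le_rpow_of_exponent_le hj1 (by linarith)
  have g4 : (j : ℝ) ^ (p - 1) * (j : ℝ) ^ (-ν i) = (j : ℝ) ^ (-(1 + (ν i - p))) := by
    rw [← Real.rpow_add hj0]
    congr 1
    ring
  have g5 : (2 ^ |e| * |C| * (j : ℝ) ^ e) * (8 * (j : ℝ) ^ (-ν i - 2)) ≤
      8 * (2 ^ |e| * |C|) * (j : ℝ) ^ (-(1 + (ν i - p))) := by
    calc _ = 8 * (2 ^ |e| * |C|) * ((j : ℝ) ^ e * (j : ℝ) ^ (-ν i - 2)) := by ring
      _ ≤ _ := by gcongr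
  have g6 : (|C| * (j : ℝ) ^ (p - 1)) * (j : ℝ) ^ (-ν i) = |C| * (j : ℝ) ^ (-(1 + (ν i - p))) := by
    rw [mul_assoc, g4]
  rw [g6] at g2
  linarith

/-- **limits along the two parities, with a rate, uniform in the index** -/
theorem nrm_lim {G : ι → ℕ → ℂ} {c : ι → ℝ} {c0 C : ℝ} (hc0 : 0 < c0) (hc : ∀ i, c0 ≤ c i)
    (hc1 : ∀ i, c i ≤ 1)
    (h : ∀ᶠ j : ℕ in atTop, ∀ i, ‖G i (j + 2) - G i j‖ ≤ C * (j : ℝ) ^ (-(1 + c i))) :
    ∃ (g : ι → ℕ → ℂ) (C' : ℝ), 0 ≤ C' ∧ ∀ᶠ j : ℕ in atTop, ∀ i,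
      ‖G i j - g i (j % 2)‖ ≤ C' * (j : ℝ) ^ (-(c i)) := by
  obtain ⟨J, hJ⟩ := eventually_atTop.1 h
  have h1 := WNDF.seq_limW (ι := ι × Fin 2) (G := fun i m => G i.1 (2 * m + i.2)) (c := fun i => c i.1)
    (c0 := c0) (C := |C|) hc0 (fun i => hc i.1) (fun i => hc1 i.1) (by
      filter_upwards [eventually_ge_atTop J, eventually_ge_atTop 1] with m hm hm1 i
      have hm0 : (0 : ℝ) < m := by exact_mod_cast hm1
      have h2 := hJ (2 * m + i.2) (by omega) i.1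
      have e : 2 * (m + 1) + (i.2 : ℕ) = 2 * m + i.2 + 2 := by ring
      rw [e]
      refine h2.trans ?_
      have h3 : ((2 * m + i.2 : ℕ) : ℝ) ^ (-(1 + c i.1)) ≤ (m : ℝ) ^ (-(1 + c i.1)) := by
        refine Real.rpow_le_rpow_of_nonpos hm0 ?_ (by linarith [hc i.1])
        have : m ≤ 2 * m + (i.2 : ℕ) := by omega
        exact_mod_cast this
      have h4 : 0 ≤ ((2 * m + i.2 : ℕ) : ℝ) ^ (-(1 + c i.1)) := by positivity
      calc C * ((2 * m + i.2 : ℕ) : ℝ) ^ (-(1 + c i.1)) ≤ |C| * ((2 * m + i.2 : ℕ) : ℝ) ^ (-(1 + c i.1)) :=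
            mul_le_mul_of_nonneg_right (le_abs_self C) h4
        _ ≤ _ := by gcongr)
  obtain ⟨g, C', hC', hg⟩ := h1
  obtain ⟨M, hM⟩ := eventually_atTop.1 hg
  refine ⟨fun i r => if hr : r < 2 then g (i, ⟨r, hr⟩) else 0, 3 * C', by positivity,
    eventually_atTop.2 ⟨2 * M + 2, fun j hj i => ?_⟩⟩
  have hr : j % 2 < 2 := Nat.mod_lt _ (by norm_num)
  have h5 := hM (j / 2) (by omega) (i, ⟨j % 2, hr⟩)
  have e : 2 * (j / 2) + j % 2 = j := Nat.div_add_mod j 2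
  simp only [e] at h5
  simp only [hr, dif_pos]
  refine h5.trans ?_
  have hj0 : (0 : ℝ) < j := by
    have : 0 < j := by omega
    exact_mod_cast this
  have h6 : (j : ℝ) / 3 ≤ ((j / 2 : ℕ) : ℝ) := by
    have h7 : j ≤ 3 * (j / 2) := by omega
    have h8 : (j : ℝ) ≤ 3 * ((j / 2 : ℕ) : ℝ) := by exact_mod_cast h7
    linarith
  have h9 : ((j / 2 : ℕ) : ℝ) ^ (-(c i)) ≤ 3 * (j : ℝ) ^ (-(c i)) := by
    calc ((j / 2 : ℕ) : ℝ) ^ (-(c i)) ≤ ((j : ℝ) / 3) ^ (-(c i)) :=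
          Real.rpow_le_rpow_of_nonpos (by positivity) h6 (by linarith [hc i])
      _ = (j : ℝ) ^ (-(c i)) * 3 ^ (c i) := by
          rw [Real.div_rpow hj0.le (by norm_num), Real.rpow_neg (by norm_num : (0 : ℝ) ≤ 3), div_inv_eq_mul]
      _ ≤ (j : ℝ) ^ (-(c i)) * 3 := by
          have : (3 : ℝ) ^ (c i) ≤ 3 ^ (1 : ℝ) :=
            Real.rpow_le_rpow_of_exponent_le (by norm_num) (hc1 i)
          rw [Real.rpow_one] at this
          gcongr
      _ = _ := by ring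
  calc C' * ((j / 2 : ℕ) : ℝ) ^ (-(c i)) ≤ C' * (3 * (j : ℝ) ^ (-(c i))) := by gcongr
    _ = _ := by ring

/-- **a kept mode, uniform in the index** -/
theorem keptX {b : ι → ℕ → ℂ} {ν : ι → ℝ} {σ : ℂ} (hσ : σ = 1 ∨ σ = -1) {p δ e C : ℝ} (hp : 0 ≤ p)
    (hδ : 0 < δ) (hν : ∀ i, p + δ ≤ ν i) (hν1 : ∀ i, ν i ≤ 1) (he : e ≤ p + 1)
    (h2 : ∀ᶠ j : ℕ in atTop, ∀ i, ‖b i (j + 2) * (1 - ((2 * ν i / j : ℝ) : ℂ)) - b i j‖ ≤
      C * (j : ℝ) ^ (p - 1))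
    (hb : ∀ᶠ j : ℕ in atTop, ∀ i, ‖b i j‖ ≤ C * (j : ℝ) ^ e)
    (hj : ∀ᶠ j : ℕ in atTop, ∀ i, ‖b i (j + 1) - σ * b i j‖ ≤ C * (j : ℝ) ^ p) :
    ∃ (g : ι → ℂ) (C' : ℝ), 0 ≤ C' ∧ (∀ i, ‖g i‖ ≤ C') ∧ ∀ᶠ j : ℕ in atTop, ∀ i,
      ‖b i j - g i * σ ^ j * (((j : ℝ) ^ (ν i) : ℝ) : ℂ)‖ ≤ C' * (j : ℝ) ^ p := by
  have hσ1 : ‖σ‖ = 1 := by
    rcases hσ with rfl | rfl <;> simp
  have hσ2 : σ * σ = 1 := by
    rcases hσ with rfl | rfl <;> simp
  have hν0 : ∀ i, 0 ≤ ν i := fun i => by linarith [hν i]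
  obtain ⟨C1, hC1, h3⟩ := nrm_step hν0 hν1 he h2 hb
  obtain ⟨g, C2, hC2, h4⟩ := nrm_lim (G := nrm b ν) (c := fun i => ν i - p) (c0 := δ) (C := C1) hδ
    (fun i => by linarith [hν i]) (fun i => by linarith [hν1 i]) h3
  -- the value with the power put back
  have h5 : ∀ᶠ j : ℕ in atTop, ∀ i, ‖b i j - g i (j % 2) * (((j : ℝ) ^ (ν i) : ℝ) : ℂ)‖ ≤
      C2 * (j : ℝ) ^ p := by
    filter_upwards [h4, eventually_ge_atTop 1] with j a1 a2 i
    have hj0 : (0 : ℝ) < j := by exact_mod_cast a2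
    have hne : (j : ℝ) ^ (-ν i) * (j : ℝ) ^ (ν i) = 1 := by
      rw [← Real.rpow_add hj0, neg_add_cancel, Real.rpow_zero]
    have e1 : b i j - g i (j % 2) * (((j : ℝ) ^ (ν i) : ℝ) : ℂ) =
        (nrm b ν i j - g i (j % 2)) * (((j : ℝ) ^ (ν i) : ℝ) : ℂ) := by
      have : (((j : ℝ) ^ (-ν i) : ℝ) : ℂ) * (((j : ℝ) ^ (ν i) : ℝ) : ℂ) = 1 := by
        rw [← Complex.ofReal_mul, hne, Complex.ofReal_one]
      unfold nrm
      rw [sub_mul, mul_assoc, this, mul_one]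
    rw [e1, norm_mul, Complex.norm_real, Real.norm_of_nonneg (by positivity)]
    have h6 := a1 i
    calc _ ≤ C2 * (j : ℝ) ^ (-(ν i - p)) * (j : ℝ) ^ (ν i) := by gcongr
      _ = C2 * (j : ℝ) ^ p := by
        rw [mul_assoc, ← Real.rpow_add hj0]
        congr 2
        ring
  -- the constants are bounded
  have h6 : ∃ C3 : ℝ, 0 ≤ C3 ∧ ∀ i, ‖g i 0‖ ≤ C3 ∧ ‖g i 1‖ ≤ C3 := by
    obtain ⟨J, hJ⟩ := eventually_atTop.1 ((h4.and hb).and (eventually_ge_atTop 1))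
    have hgen : ∀ j ≥ J, ∀ i, ‖g i (j % 2)‖ ≤ |C| * (j : ℝ) ^ e + C2 := by
      intro j hjJ i
      obtain ⟨⟨a1, a2⟩, a3⟩ := hJ j hjJ
      have hj1 : (1 : ℝ) ≤ j := by exact_mod_cast a3
      have e1 : g i (j % 2) = nrm b ν i j - (nrm b ν i j - g i (j % 2)) := by ring
      rw [e1]
      refine (norm_sub_le _ _).trans ?_
      have e2 : ‖nrm b ν i j‖ ≤ |C| * (j : ℝ) ^ e := by
        unfold nrm
        rw [norm_mul, Complex.norm_real, Real.norm_of_nonneg (by positivity)]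
        have e3 : (j : ℝ) ^ (-ν i) ≤ 1 := Real.rpow_le_one_of_one_le_of_nonpos hj1 (by linarith [hν0 i])
        have e4 : ‖b i j‖ ≤ |C| * (j : ℝ) ^ e :=
          (a2 i).trans (mul_le_mul_of_nonneg_right (le_abs_self C) (by positivity))
        calc ‖b i j‖ * (j : ℝ) ^ (-ν i) ≤ ‖b i j‖ * 1 := by gcongr
          _ ≤ _ := by rw [mul_one]; exact e4
      have e5 : ‖nrm b ν i j - g i (j % 2)‖ ≤ C2 := by
        refine (a1 i).trans ?_
        have : (j : ℝ) ^ (-(ν i - p)) ≤ 1 :=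
          Real.rpow_le_one_of_one_le_of_nonpos hj1 (by linarith [hν i])
        calc _ ≤ C2 * 1 := by gcongr
          _ = C2 := mul_one _
      linarith
    refine ⟨max (|C| * ((2 * J : ℕ) : ℝ) ^ e + C2) (|C| * ((2 * J + 1 : ℕ) : ℝ) ^ e + C2), ?_, fun i => ⟨?_, ?_⟩⟩
    · exact le_max_of_le_left (by positivity)
    · have h7 := hgen (2 * J) (by omega) i
      rw [show 2 * J % 2 = 0 by omega] at h7
      exact le_max_of_le_left h7
    · have h7 := hgen (2 * J + 1) (by omega) i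
      rw [show (2 * J + 1) % 2 = 1 by omega] at h7
      exact le_max_of_le_right h7
  obtain ⟨C3, hC3, h7⟩ := h6
  have hgle : ∀ i j, ‖g i (j % 2)‖ ≤ C3 := by
    intro i j
    rcases Nat.mod_two_eq_zero_or_one j with h | h <;> rw [h]
    · exact (h7 i).1
    · exact (h7 i).2
  -- the parities are joined
  have h8 : ∀ i, g i 1 = σ * g i 0 := by
    intro i
    have hT : ∀ᶠ m : ℕ in atTop, ‖g i 1 - σ * g i 0‖ ≤
        (4 * C2 + C3 + |C|) * ((2 * m : ℕ) : ℝ) ^ (-δ) := by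
      obtain ⟨J, hJ⟩ := eventually_atTop.1 ((h5.and hj).and (eventually_ge_atTop 1))
      filter_upwards [eventually_ge_atTop (J + 1)] with m hm
      obtain ⟨⟨a1, a2⟩, a3⟩ := hJ (2 * m) (by omega)
      obtain ⟨⟨c1, -⟩, -⟩ := hJ (2 * m + 1) (by omega)
      have b1 := a1 i
      have b2 := a2 i
      have b3 := c1 i
      rw [show 2 * m % 2 = 0 by omega] at b1
      rw [show (2 * m + 1) % 2 = 1 by omega] at b3
      set x : ℝ := ((2 * m : ℕ) : ℝ) with hx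
      have hx2 : 2 ≤ x := by
        rw [hx]
        have : 2 ≤ 2 * m := by omega
        exact_mod_cast this
      have hx1 : 1 ≤ x := by linarith
      have hx0 : 0 < x := by linarith
      have ex : ((2 * m + 1 : ℕ) : ℝ) = x + 1 := by
        rw [hx]
        push_cast
        ring
      rw [ex] at b3
      set X : ℝ := x ^ (ν i) with hX
      set X' : ℝ := (x + 1) ^ (ν i) with hX'
      have hX0 : 0 < X := by positivity
      have hxp : 1 ≤ x ^ p := Real.one_le_rpow hx1 hp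
      have hXX : |X' - X| ≤ x ^ p := by
        have h9 : X ≤ X' := Real.rpow_le_rpow hx0.le (by linarith) (hν0 i)
        have h10 : X' ≤ X + 1 ^ (ν i) :=
          Real.rpow_add_le_add_rpow hx0.le zero_le_one (hν0 i) (hν1 i)
        rw [Real.one_rpow] at h10
        rw [abs_of_nonneg (by linarith)]
        linarith
      have hp1 : p ≤ 1 := by linarith [hν i, hν1 i]
      have hxp2 : (x + 1) ^ p ≤ 2 * x ^ p := by
        calc (x + 1) ^ p ≤ (2 * x) ^ p := Real.rpow_le_rpow (by linarith) (by linarith) hp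
          _ = 2 ^ p * x ^ p := Real.mul_rpow (by norm_num) hx0.le
          _ ≤ 2 ^ (1 : ℝ) * x ^ p := by
            have : (2 : ℝ) ^ p ≤ 2 ^ (1 : ℝ) := Real.rpow_le_rpow_of_exponent_le (by norm_num) hp1
            gcongr
          _ = _ := by rw [Real.rpow_one]
      have e1 : (g i 1 - σ * g i 0) * (X : ℂ) = (b i (2 * m + 1) - σ * b i (2 * m)) -
          (b i (2 * m + 1) - g i 1 * (X' : ℂ)) + σ * (b i (2 * m) - g i 0 * (X : ℂ)) -
          g i 1 * ((X' - X : ℝ) : ℂ) := by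
        push_cast
        ring
      have h11 : ‖g i 1 - σ * g i 0‖ * X ≤ (4 * C2 + C3 + |C|) * x ^ p := by
        have h12 : ‖(g i 1 - σ * g i 0) * (X : ℂ)‖ = ‖g i 1 - σ * g i 0‖ * X := by
          rw [norm_mul, Complex.norm_real, Real.norm_of_nonneg hX0.le]
        rw [← h12, e1]
        have h13 : ‖g i 1 * ((X' - X : ℝ) : ℂ)‖ ≤ C3 * x ^ p := by
          rw [norm_mul, Complex.norm_real, Real.norm_eq_abs]
          exact mul_le_mul (h7 i).2 hXX (abs_nonneg _) hC3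
        have h14 : ‖σ * (b i (2 * m) - g i 0 * (X : ℂ))‖ ≤ C2 * x ^ p := by
          rw [norm_mul, hσ1, one_mul]
          exact b1
        have h15 : ‖b i (2 * m + 1) - g i 1 * (X' : ℂ)‖ ≤ C2 * (2 * x ^ p) :=
          b3.trans (mul_le_mul_of_nonneg_left hxp2 hC2)
        have h16 : ‖b i (2 * m + 1) - σ * b i (2 * m)‖ ≤ |C| * x ^ p :=
          b2.trans (mul_le_mul_of_nonneg_right (le_abs_self C) (by positivity))
        refine (norm_sub_le _ _).trans ?_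
        refine (add_le_add ((norm_add_le _ _).trans (add_le_add (norm_sub_le _ _) le_rfl)) le_rfl).trans ?_
        have h17 : 0 ≤ C2 * x ^ p := by positivity
        linarith
      have h18 : x ^ p = x ^ (-(ν i - p)) * X := by
        rw [hX, ← Real.rpow_add hx0]
        congr 1
        ring
      have h19 : x ^ (-(ν i - p)) ≤ x ^ (-δ) :=
        Real.rpow_le_rpow_of_exponent_le hx1 (by linarith [hν i])
      have h20 : ‖g i 1 - σ * g i 0‖ * X ≤ (4 * C2 + C3 + |C|) * x ^ (-(ν i - p)) * X := by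
        rw [mul_assoc, ← h18]
        exact h11
      refine (le_of_mul_le_mul_right h20 hX0).trans ?_
      gcongr
    have hlim : Tendsto (fun m : ℕ => (4 * C2 + C3 + |C|) * ((2 * m : ℕ) : ℝ) ^ (-δ)) atTop (𝓝 0) := by
      have h9 : Tendsto (fun m : ℕ => ((2 * m : ℕ) : ℝ)) atTop atTop :=
        tendsto_natCast_atTop_atTop.comp (tendsto_id.const_mul_atTop' (by norm_num))
      have h10 := ((tendsto_rpow_neg_atTop hδ).comp h9).const_mul (4 * C2 + C3 + |C|)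
      rw [mul_zero] at h10
      exact h10
    have h9 : ‖g i 1 - σ * g i 0‖ ≤ 0 := ge_of_tendsto hlim hT
    exact sub_eq_zero.1 (norm_le_zero_iff.1 h9)
  refine ⟨fun i => g i 0, max C2 C3, le_max_of_le_left hC2, fun i => le_max_of_le_right (h7 i).1, ?_⟩
  filter_upwards [h5] with j hjj i
  have hpar : g i (j % 2) = g i 0 * σ ^ j := by
    rcases Nat.even_or_odd' j with ⟨m, rfl | rfl⟩
    · rw [show 2 * m % 2 = 0 by omega, pow_mul, pow_two, hσ2, one_pow, mul_one]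
    · rw [show (2 * m + 1) % 2 = 1 by omega, pow_succ, pow_mul, pow_two, hσ2, one_pow, one_mul, h8 i,
        mul_comm]
  rw [← hpar]
  exact (hjj i).trans (mul_le_mul_of_nonneg_right (le_max_left _ _) (by positivity))

/-! ### from all large sizes to all sizes -/

/-- **one constant for all sizes** -/
theorem all_of_evX {A : ι → ℕ → ℝ} {p C : ℝ} (h : ∀ᶠ j : ℕ in atTop, ∀ i, |A i j| ≤ C * (j : ℝ) ^ p)
    (hb : ∀ j : ℕ, 1 ≤ j → ∃ B : ℝ, ∀ i, |A i j| ≤ B) :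
    ∃ C' : ℝ, 0 ≤ C' ∧ ∀ j : ℕ, 1 ≤ j → ∀ i, |A i j| ≤ C' * (j : ℝ) ^ p := by
  obtain ⟨J, hJ⟩ := eventually_atTop.1 h
  have h1 : ∀ n : ℕ, ∃ C' : ℝ, 0 ≤ C' ∧ ∀ j : ℕ, 1 ≤ j → j ≤ n → ∀ i, |A i j| ≤ C' * (j : ℝ) ^ p := by
    intro n
    induction n with
    | zero => exact ⟨0, le_rfl, fun j h1 h2 => absurd h1 (by omega)⟩
    | succ n ih =>
      obtain ⟨C1, hC1, h1⟩ := ih
      obtain ⟨B, hB⟩ := hb (n + 1) (by omega)
      have hn0 : (0 : ℝ) < ((n + 1 : ℕ) : ℝ) := by positivity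
      have hnp : 0 < ((n + 1 : ℕ) : ℝ) ^ p := Real.rpow_pos_of_pos hn0 _
      refine ⟨max C1 (|B| / ((n + 1 : ℕ) : ℝ) ^ p), le_max_of_le_left hC1, fun j h2 h3 i => ?_⟩
      have hj0 : 0 ≤ (j : ℝ) ^ p := by positivity
      rcases Nat.lt_or_ge j (n + 1) with h4 | h4
      · exact (h1 j h2 (by omega) i).trans (mul_le_mul_of_nonneg_right (le_max_left _ _) hj0)
      · obtain rfl : j = n + 1 := by omega
        refine ((hB i).trans (le_abs_self B)).trans ?_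
        rw [← div_le_iff₀ hnp]
        exact le_max_right _ _
  obtain ⟨C1, hC1, h2⟩ := h1 J
  refine ⟨max C1 C, le_max_of_le_left hC1, fun j hj i => ?_⟩
  have hj0 : 0 ≤ (j : ℝ) ^ p := by positivity
  rcases Nat.lt_or_ge j J with h4 | h4
  · exact (h2 j hj h4.le i).trans (mul_le_mul_of_nonneg_right (le_max_left _ _) hj0)
  · exact (hJ j h4 i).trans (mul_le_mul_of_nonneg_right (le_max_right _ _) hj0)

end WX
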