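import Mathlib.Analysis.Complex.Hadamard
import Mathlib.Analysis.Complex.Liouville
import Mathlib.Analysis.SpecialFunctions.Trigonometric.DerivHyp
import Mathlib.Analysis.Complex.ExponentialBounds

/-!
# Plan X: a two constants estimate for the derivative (helper71)

**`deriv_two`** : `f` analytic on `ball x0 (2 b)`, `‖f‖ ≤ M` there and `‖f‖ ≤ m` on the real segment
`[x0 - b, x0 + b]`, `0 ≤ m ≤ M`: `‖f' x0‖ ≤ (2 / b) √(m M)`.
-/

set_option autoImplicit false

noncomputable section

open Complex Set Filter Topology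
open Complex.HadamardThreeLines

namespace WX

/-- `‖cosh z‖ < 2` in the strip `|Re z| ≤ 1` -/
theorem norm_cosh_lt {z : ℂ} (hz : |z.re| ≤ 1) : ‖Complex.cosh z‖ < 2 := by
  have h1 : ‖Complex.cosh z‖ ≤ Real.cosh z.re := by
    rw [Complex.cosh, norm_div, Real.cosh_eq]
    have h2 := norm_add_le (cexp z) (cexp (-z))
    rw [norm_exp, norm_exp, neg_re] at h2
    have h3 : ‖(2 : ℂ)‖ = 2 := by norm_num
    rw [h3]
    gcongr
  refine h1.trans_lt ?_
  have h2 : Real.cosh z.re ≤ Real.cosh 1 := by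
    rw [← Real.cosh_abs]
    refine (Real.cosh_le_cosh).2 ?_
    rw [abs_abs, abs_one]
    exact hz
  refine h2.trans_lt ?_
  rw [Real.cosh_eq]
  have h3 : Real.exp 1 < 2.7182818286 := Real.exp_one_lt_d9
  have h4 : Real.exp (-1) < 1 := by
    rw [Real.exp_lt_one_iff]
    norm_num
  linarith

/-- **two constants, derivative at the centre** -/
theorem deriv_two {f : ℂ → ℂ} {x0 b M m : ℝ} (hb : 0 < b)
    (hf : DifferentiableOn ℂ f (Metric.ball (x0 : ℂ) (2 * b)))
    (hM : ∀ z ∈ Metric.ball (x0 : ℂ) (2 * b), ‖f z‖ ≤ M)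
    (hm : ∀ x : ℝ, |x - x0| ≤ b → ‖f (x : ℂ)‖ ≤ m) (hm0 : 0 ≤ m) (hmM : m ≤ M) :
    ‖deriv f (x0 : ℂ)‖ ≤ 2 / b * Real.sqrt (m * M) := by
  have hM0 : 0 ≤ M := hm0.trans hmM
  set G : ℂ → ℂ := fun z => f (x0 + b * Complex.cosh z) with hG
  -- the strip goes into the ball
  have hin : ∀ z : ℂ, |z.re| ≤ 1 → (x0 : ℂ) + b * Complex.cosh z ∈ Metric.ball (x0 : ℂ) (2 * b) := by
    intro z hz
    rw [Metric.mem_ball, dist_eq_norm, add_sub_cancel_left, norm_mul, norm_real, Real.norm_eq_abs,
      abs_of_pos hb, mul_comm 2 b]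
    exact mul_lt_mul_of_pos_left (norm_cosh_lt hz) hb
  have hin' : ∀ z : ℂ, |z.re| ≤ 1 → DifferentiableAt ℂ f ((x0 : ℂ) + b * Complex.cosh z) := fun z hz =>
    hf.differentiableAt (Metric.isOpen_ball.mem_nhds (hin z hz))
  have hGd : ∀ z : ℂ, |z.re| ≤ 1 → HasDerivAt G
      (deriv f (x0 + b * Complex.cosh z) * (b * Complex.sinh z)) z := by
    intro z hz
    have h1 : HasDerivAt (fun z : ℂ => (x0 : ℂ) + b * Complex.cosh z) (b * Complex.sinh z) z :=
      ((Complex.hasDerivAt_cosh z).const_mul (b : ℂ)).const_add _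
    exact (hin' z hz).hasDerivAt.comp z h1
  -- three lines
  have key : ∀ z : ℂ, z ∈ verticalClosedStrip 0 1 → ‖G z‖ ≤ m ^ (1 - z.re) * M ^ z.re := by
    intro z hz
    refine norm_le_interp_of_mem_verticalClosedStrip₀₁' G hz ?_ ?_ ?_ ?_
    · refine ⟨fun w hw => ?_, ?_⟩
      · have hw' : 0 < w.re ∧ w.re < 1 := hw
        exact (hGd w (by rw [abs_le]; constructor <;> linarith [hw'.1, hw'.2])).differentiableAt.differentiableWithinAt
      · have e : closure (verticalStrip 0 1) = verticalClosedStrip 0 1 := by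
          rw [verticalClosedStrip, ← closure_Ioo zero_ne_one, ← closure_preimage_re]
          rfl
        rw [e]
        intro w hw
        have hw' : 0 ≤ w.re ∧ w.re ≤ 1 := hw
        exact (hGd w (by rw [abs_le]; constructor <;> linarith [hw'.1, hw'.2])).continuousAt.continuousWithinAt
    · refine ⟨M, ?_⟩
      rintro _ ⟨w, hw, rfl⟩
      have hw' : 0 ≤ w.re ∧ w.re ≤ 1 := hw
      exact hM _ (hin w (by rw [abs_le]; constructor <;> linarith [hw'.1, hw'.2]))
    · intro w hw
      have hw' : w.re = 0 := hw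
      have e1 : w = (w.im : ℂ) * I := by
        conv_lhs => rw [← re_add_im w, hw', ofReal_zero, zero_add]
      have e2 : (x0 : ℂ) + b * Complex.cosh w = ((x0 + b * Real.cos w.im : ℝ) : ℂ) := by
        rw [e1, Complex.cosh_mul_I, ← Complex.ofReal_cos]
        push_cast
        simp
      show ‖f (x0 + b * Complex.cosh w)‖ ≤ m
      rw [e2]
      refine hm _ ?_
      rw [add_sub_cancel_left, abs_mul, abs_of_pos hb]
      exact mul_le_of_le_one_right hb.le (Real.abs_cos_le_one _)
    · intro w hw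
      have hw' : w.re = 1 := hw
      exact hM _ (hin w (by rw [hw', abs_one]))
  have key2 : ∀ z : ℂ, |z.re| ≤ 1 / 2 → ‖G z‖ ≤ Real.sqrt (m * M) := by
    have h0 : ∀ z : ℂ, 0 ≤ z.re → z.re ≤ 1 / 2 → ‖G z‖ ≤ Real.sqrt (m * M) := by
      intro z h0 h1
      refine (key z ⟨h0, by linarith⟩).trans ?_
      rcases hm0.eq_or_lt with hm' | hm'
      · rw [← hm', Real.zero_rpow (by linarith), zero_mul]
        exact Real.sqrt_nonneg _
      · have hMp : 0 < M := hm'.trans_le hmM
        have e1 : Real.sqrt (m * M) = m ^ (1 - z.re) * M ^ z.re * (M / m) ^ (1 / 2 - z.re) := by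
          rw [Real.sqrt_eq_rpow, Real.mul_rpow hm0 hM0, Real.div_rpow hM0 hm0, mul_div_assoc']
          rw [eq_div_iff (Real.rpow_pos_of_pos hm' _).ne']
          have a1 : m ^ (1 / 2 : ℝ) * m ^ (1 / 2 - z.re) = m ^ (1 - z.re) := by
            rw [← Real.rpow_add hm']
            congr 1
            ring
          have a2 : M ^ z.re * M ^ (1 / 2 - z.re) = M ^ (1 / 2 : ℝ) := by
            rw [← Real.rpow_add hMp]
            congr 1
            ring
          calc m ^ (1 / 2 : ℝ) * M ^ (1 / 2 : ℝ) * m ^ (1 / 2 - z.re)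
              = (m ^ (1 / 2 : ℝ) * m ^ (1 / 2 - z.re)) * M ^ (1 / 2 : ℝ) := by ring
            _ = m ^ (1 - z.re) * (M ^ z.re * M ^ (1 / 2 - z.re)) := by rw [a1, a2]
            _ = _ := by ring
        rw [e1]
        refine le_mul_of_one_le_right (by positivity) ?_
        exact Real.one_le_rpow ((one_le_div hm').2 hmM) (by linarith)
    intro z hz
    rw [abs_le] at hz
    rcases le_total 0 z.re with h | h
    · exact h0 z h hz.2
    · have e1 : G z = G (-z) := by
        simp only [hG, Complex.cosh_neg]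
      rw [e1]
      exact h0 (-z) (by rw [neg_re]; linarith) (by rw [neg_re]; linarith [hz.1])
  -- Cauchy
  set z0 : ℂ := ((Real.pi / 2 : ℝ) : ℂ) * I with hz0
  have hz0r : z0.re = 0 := by simp [hz0]
  have hre : ∀ z : ℂ, z ∈ Metric.closedBall z0 (1 / 2) → |z.re| ≤ 1 / 2 := by
    intro z hz
    rw [Metric.mem_closedBall, dist_eq_norm] at hz
    have h1 := (Complex.abs_re_le_norm (z - z0)).trans hz
    rwa [sub_re, hz0r, sub_zero] at h1
  have hC := Complex.norm_deriv_le_of_forall_mem_sphere_norm_le (f := G) (c := z0) (R := 1 / 2)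
    (C := Real.sqrt (m * M)) (by norm_num) ?_ (fun z hz => key2 z (hre z (Metric.sphere_subset_closedBall hz)))
  · have hd := (hGd z0 (by rw [hz0r, abs_zero]; norm_num)).deriv
    have e3 : Complex.cosh z0 = 0 := by
      rw [hz0, Complex.cosh_mul_I, ← Complex.ofReal_cos, Real.cos_pi_div_two, ofReal_zero]
    have e4 : Complex.sinh z0 = I := by
      rw [hz0, Complex.sinh_mul_I, ← Complex.ofReal_sin, Real.sin_pi_div_two, ofReal_one, one_mul]
    rw [e3, e4, mul_zero, add_zero] at hd
    rw [hd, norm_mul, norm_mul, norm_I, mul_one, norm_real, Real.norm_eq_abs, abs_of_pos hb] at hC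
    rw [div_mul_eq_mul_div, le_div_iff₀ hb]
    refine hC.trans (le_of_eq ?_)
    ring
  · refine ⟨fun z hz => ?_, fun z hz => ?_⟩
    · have h1 := hre z (Metric.ball_subset_closedBall hz)
      exact (hGd z (by linarith)).differentiableAt.differentiableWithinAt
    · have h1 := hre z (Metric.closure_ball_subset_closedBall hz)
      exact (hGd z (by linarith)).continuousAt.continuousWithinAt

end WX

end
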