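import Mathlib

/-!
# Two constants theorem on a disc with its real diameter (helper5)

* **`two_const`**: `f` analytic on `|w| < r`, `|f| ≤ M` there, `|f| ≤ m` on the real segment: then
  `|f w| ≤ m ^ (3 / 4) * M ^ (1 / 4)` for `|w| ≤ r / 8`.
-/

set_option autoImplicit false

noncomputable section

open Complex Metric Set
open Complex.HadamardThreeLines

namespace WX

/-- the map of the strip `0 ≤ Re s ≤ 1` into the upper half of the disc -/
def tcM (r : ℝ) (s : ℂ) : ℂ := r * ((exp (I * (3 / 2) * s) - 1) / (exp (I * (3 / 2) * s) + 1))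

theorem tc_re {s : ℂ} (h0 : 0 ≤ s.re) (h1 : s.re ≤ 1) : 0 < (exp (I * (3 / 2) * s)).re := by
  rw [exp_re]
  have e : (I * (3 / 2) * s).im = 3 / 2 * s.re := by simp
  rw [e]
  refine mul_pos (Real.exp_pos _) (Real.cos_pos_of_mem_Ioo ⟨?_, ?_⟩)
  · linarith [Real.pi_pos]
  · linarith [Real.pi_gt_three]

theorem q_lt {q : ℂ} (h : 0 < q.re) : ‖(q - 1) / (q + 1)‖ < 1 := by
  have h1 : q + 1 ≠ 0 := fun e => by
    have := congrArg Complex.re e
    simp at this
    linarith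
  rw [norm_div, div_lt_one (norm_pos_iff.2 h1)]
  refine (sq_lt_sq₀ (norm_nonneg _) (norm_nonneg _)).1 ?_
  rw [← Complex.normSq_eq_norm_sq, ← Complex.normSq_eq_norm_sq, Complex.normSq_apply,
    Complex.normSq_apply]
  simp
  nlinarith

theorem tc_mem {r : ℝ} (hr : 0 < r) {s : ℂ} (h0 : 0 ≤ s.re) (h1 : s.re ≤ 1) :
    tcM r s ∈ ball (0 : ℂ) r := by
  rw [mem_ball, dist_zero_right]
  unfold tcM
  rw [norm_mul, Complex.norm_real, Real.norm_of_nonneg hr.le]
  have := q_lt (tc_re h0 h1)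
  nlinarith [norm_nonneg ((exp (I * (3 / 2) * s) - 1) / (exp (I * (3 / 2) * s) + 1))]

theorem tc_ne {s : ℂ} (h0 : 0 ≤ s.re) (h1 : s.re ≤ 1) : exp (I * (3 / 2) * s) + 1 ≠ 0 := fun e => by
  have h := tc_re h0 h1
  have := congrArg Complex.re e
  simp at this
  linarith

theorem tc_diff (r : ℝ) {s : ℂ} (h0 : 0 ≤ s.re) (h1 : s.re ≤ 1) : DifferentiableAt ℂ (tcM r) s := by
  unfold tcM
  have h := tc_ne h0 h1
  have d : DifferentiableAt ℂ (fun s : ℂ => exp (I * (3 / 2) * s)) s := by fun_prop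
  exact (DifferentiableAt.div (d.sub_const 1) (d.add_const 1) h).const_mul _

/-- on the line `Re s = 0` the map is real -/
theorem tc_real {r : ℝ} (hr : 0 < r) {s : ℂ} (h : s.re = 0) :
    ∃ x : ℝ, |x| < r ∧ tcM r s = x := by
  obtain ⟨t, ht⟩ : ∃ t : ℝ, t = Real.exp (-(3 / 2 * s.im)) := ⟨_, rfl⟩
  have ht0 : 0 < t := by rw [ht]; exact Real.exp_pos _
  have e1 : exp (I * (3 / 2) * s) = (t : ℂ) := by
    rw [ht, Complex.ofReal_exp]
    congr 1
    apply Complex.ext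
    · simp
    · simp [h]
  refine ⟨r * ((t - 1) / (t + 1)), ?_, ?_⟩
  · rw [abs_mul, abs_of_pos hr, abs_div, abs_of_pos (by linarith : 0 < t + 1)]
    have h2 : |t - 1| < t + 1 := by
      rw [abs_lt]
      constructor <;> linarith
    have h3 : |t - 1| / (t + 1) < 1 := by
      rw [div_lt_one (by linarith)]
      exact h2
    nlinarith [div_nonneg (abs_nonneg (t - 1)) (by linarith : 0 ≤ t + 1)]
  · unfold tcM
    rw [e1]
    push_cast
    rfl

/-- the inverse map -/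
theorem tc_inv {r : ℝ} (hr : 0 < r) {w : ℂ} (hw : ‖w‖ ≤ r / 8) (hi : 0 ≤ w.im) :
    ∃ s : ℂ, 0 ≤ s.re ∧ s.re ≤ 1 / 4 ∧ tcM r s = w := by
  obtain ⟨u, hu⟩ : ∃ u : ℂ, u = w / r := ⟨_, rfl⟩
  have hr' : (r : ℂ) ≠ 0 := Complex.ofReal_ne_zero.2 hr.ne'
  have hu1 : ‖u‖ ≤ 1 / 8 := by
    rw [hu, norm_div, Complex.norm_real, Real.norm_of_nonneg hr.le, div_le_iff₀ hr]
    linarith
  have hui : 0 ≤ u.im := by
    rw [hu, Complex.div_ofReal_im]
    exact div_nonneg hi hr.le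
  have hwu : w = r * u := by rw [hu]; field_simp
  have h1 : ‖1 - u‖ ≥ 7 / 8 := by
    have := norm_sub_norm_le (1 : ℂ) u
    rw [norm_one] at this
    linarith
  have h1' : (1 : ℂ) - u ≠ 0 := fun e => by
    rw [e, norm_zero] at h1
    linarith
  obtain ⟨v, hv⟩ : ∃ v : ℂ, v = 2 * u / (1 - u) := ⟨_, rfl⟩
  have hv1 : ‖v‖ ≤ 2 / 7 := by
    rw [hv, norm_div, norm_mul]
    rw [div_le_iff₀ (by linarith)]
    simp
    linarith
  have hq : (1 : ℂ) + v = (1 + u) / (1 - u) := by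
    rw [hv]
    field_simp
    ring
  have hvi : 0 ≤ v.im := by
    have e : v = 2 / (1 - u) - 2 := by
      rw [hv]
      field_simp
      ring
    have e2 : v.im = 2 * u.im / Complex.normSq (1 - u) := by
      rw [e, Complex.sub_im, Complex.div_im]
      simp
      ring
    rw [e2]
    exact div_nonneg (by linarith) (Complex.normSq_nonneg _)
  have hq0 : (1 : ℂ) + v ≠ 0 := fun e => by
    have h2 : v = -1 := by linear_combination e
    rw [h2, norm_neg, norm_one] at hv1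
    norm_num at hv1
  obtain ⟨L, hL⟩ : ∃ L : ℂ, L = log (1 + v) := ⟨_, rfl⟩
  have hLe : exp L = 1 + v := by rw [hL, Complex.exp_log hq0]
  have hLi : 0 ≤ L.im := by
    rw [hL, Complex.log_im, Complex.arg_nonneg_iff]
    simpa using hvi
  have hLn : L.im ≤ 3 / 8 := by
    have h2 := Complex.norm_log_one_add_le (z := v) (by linarith)
    rw [← hL] at h2
    have h3 : L.im ≤ ‖L‖ := (le_abs_self _).trans (Complex.abs_im_le_norm _)
    have h4 : (1 - ‖v‖)⁻¹ ≤ 7 / 5 := by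
      rw [inv_le_comm₀ (by linarith) (by norm_num)]
      linarith
    have h5 : ‖v‖ ^ 2 * (1 - ‖v‖)⁻¹ ≤ (2 / 7) ^ 2 * (7 / 5) := by
      have h6 : ‖v‖ ^ 2 ≤ (2 / 7) ^ 2 := pow_le_pow_left₀ (norm_nonneg _) hv1 2
      have h7 : 0 ≤ (1 - ‖v‖)⁻¹ := inv_nonneg.2 (by linarith)
      nlinarith
    linarith
  refine ⟨-(I * (2 / 3)) * L, ?_, ?_, ?_⟩
  · simp
    linarith
  · simp
    linarith
  · unfold tcM
    have e1 : I * (3 / 2) * (-(I * (2 / 3)) * L) = L := by
      linear_combination (-L) * Complex.I_sq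
    rw [e1, hLe, hwu]
    congr 1
    rw [hq]
    have h2 : (1 + u) / (1 - u) + 1 ≠ 0 := by
      have : (1 + u) / (1 - u) + 1 = 2 / (1 - u) := by
        field_simp
        ring
      rw [this]
      exact div_ne_zero two_ne_zero h1'
    rw [div_eq_iff h2]
    field_simp
    ring

theorem two_const_up {f : ℂ → ℂ} {r m M : ℝ} (hr : 0 < r) (hf : DifferentiableOn ℂ f (ball 0 r))
    (hM : ∀ w ∈ ball (0 : ℂ) r, ‖f w‖ ≤ M) (hm : ∀ x : ℝ, |x| < r → ‖f x‖ ≤ m) (h0 : 0 < m)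
    (hmM : m ≤ M) {w : ℂ} (hw : ‖w‖ ≤ r / 8) (hi : 0 ≤ w.im) :
    ‖f w‖ ≤ m ^ (3 / 4 : ℝ) * M ^ (1 / 4 : ℝ) := by
  have hM0 : 0 < M := h0.trans_le hmM
  obtain ⟨s, s0, s1, hs⟩ := tc_inv hr hw hi
  have hcl : closure (verticalStrip 0 1) ⊆ verticalClosedStrip 0 1 := by
    refine closure_minimal (fun z hz => ⟨hz.1.le, hz.2.le⟩) ?_
    exact isClosed_Icc.preimage Complex.continuous_re
  have hd : DiffContOnCl ℂ (fun s => f (tcM r s)) (verticalStrip 0 1) := by
    refine DifferentiableOn.diffContOnCl fun z hz => ?_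
    obtain ⟨z0, z1⟩ := hcl hz
    have h1 := tc_mem hr z0 z1
    exact (DifferentiableAt.comp z ((hf _ h1).differentiableAt (isOpen_ball.mem_nhds h1))
      (tc_diff r z0 z1)).differentiableWithinAt
  have key := norm_le_interp_of_mem_verticalClosedStrip₀₁' (fun s => f (tcM r s)) (z := s)
    (a := m) (b := M) ⟨s0, by linarith⟩ hd ⟨M, by
      rintro _ ⟨z, hz, rfl⟩
      exact hM _ (tc_mem hr hz.1 hz.2)⟩
    (fun z hz => by
      obtain ⟨x, hx, e⟩ := tc_real hr (s := z) hz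
      show ‖f (tcM r z)‖ ≤ m
      rw [e]
      exact hm x hx)
    (fun z hz => by
      have hz' : z.re = 1 := hz
      exact hM _ (tc_mem hr (by rw [hz']; exact zero_le_one) hz'.le))
  simp only [hs] at key
  refine key.trans ?_
  have e1 : m ^ (1 - s.re) * M ^ s.re = m * (M / m) ^ s.re := by
    rw [Real.rpow_sub h0, Real.rpow_one, Real.div_rpow hM0.le h0.le]
    field_simp
  have e2 : m ^ (3 / 4 : ℝ) * M ^ (1 / 4 : ℝ) = m * (M / m) ^ (1 / 4 : ℝ) := by
    rw [show (3 / 4 : ℝ) = 1 - 1 / 4 by norm_num, Real.rpow_sub h0, Real.rpow_one,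
      Real.div_rpow hM0.le h0.le]
    field_simp
  rw [e1, e2]
  refine mul_le_mul_of_nonneg_left ?_ h0.le
  exact Real.rpow_le_rpow_of_exponent_le ((one_le_div h0).2 hmM) s1

/-- **two constants theorem**, a disc and its real diameter -/
theorem two_const {f : ℂ → ℂ} {r m M : ℝ} (hr : 0 < r) (hf : DifferentiableOn ℂ f (ball 0 r))
    (hM : ∀ w ∈ ball (0 : ℂ) r, ‖f w‖ ≤ M) (hm : ∀ x : ℝ, |x| < r → ‖f x‖ ≤ m) (h0 : 0 < m)
    (hmM : m ≤ M) {w : ℂ} (hw : ‖w‖ ≤ r / 8) : ‖f w‖ ≤ m ^ (3 / 4 : ℝ) * M ^ (1 / 4 : ℝ) := by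
  rcases le_total 0 w.im with hi | hi
  · exact two_const_up hr hf hM hm h0 hmM hw hi
  · have hb : ∀ z ∈ ball (0 : ℂ) r, -z ∈ ball (0 : ℂ) r := fun z hz => by
      rw [mem_ball, dist_zero_right] at hz ⊢
      rwa [norm_neg]
    have h := two_const_up (f := fun z => f (-z)) hr
      (hf.comp differentiable_neg.differentiableOn fun z hz => hb z hz)
      (fun z hz => hM _ (hb z hz)) (fun x hx => by
        have := hm (-x) (by rwa [abs_neg])
        simpa using this) h0 hmM (w := -w) (by rwa [norm_neg]) (by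
        rw [Complex.neg_im]
        linarith)
    simpa using h

end WX

end
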