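import Pool.Agent.WX.DivX
import Pool.Agent.WX.PosG

/-!
# Plan X: the laws of the partition functions, all loop weights in `[0, 2]` (helper71)

From the two laws of the function side (two kept modes, one kept mode; literals of `WX/TwoXof`) and the
sharp normaliser, abstract in the sequences:
* **`laws`** : one law with two modes for `0 ≤ d ≤ 1/2`, `g` continuous and positive on `[0, 1/2]`, and the
  mass `(P N).coeff 1 = log N / (3π) + a + (-1)^N b + O(N^-c)`;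
* `sharp_at` : at a fixed loop weight `0 ≤ d < 1/2`: `P N = g N^(E d) (1 + O(N^-c))`.
-/

set_option autoImplicit false

noncomputable section

open Complex Set Filter Topology Polynomial

namespace WX

/-- **all the laws**, abstract -/
theorem laws {W : ℕ → ℝ} {P : ℕ → ℝ[X]} {L C : ℝ} (hL : 0 < L) (hC : 0 ≤ C) (hW0 : ∀ N, 0 < W N)
    (hW : ∀ N : ℕ, 1 ≤ N → |W N / (N : ℝ) ^ (5 / 24 : ℝ) - L| ≤ C * (N : ℝ) ^ (-(1 / 2) : ℝ))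
    (nn : ∀ N i, 0 ≤ (P N).coeff i) (one : ∀ N, (P N).eval 0 = 1)
    (h2 : ∃ (G H : ℝ → ℝ) (C' : ℝ), 0 ≤ C' ∧ ∀ N : ℕ, 1 ≤ N → ∀ d ∈ Icc (2 / 5 : ℝ) (3 / 5),
      |W N * (P N).eval (2 * Real.cos (Real.pi * d)) - (G d * (N : ℝ) ^ (3 / 8 - 2 / 3 * d ^ 2) +
        (-1) ^ N * H d * (N : ℝ) ^ (3 / 8 - 2 / 3 * (1 - d) ^ 2))| ≤ C' * (N : ℝ) ^ (1 / 10 : ℝ))
    (h1 : ∃ (G : ℝ → ℝ) (C' : ℝ), 0 ≤ C' ∧ ∀ N : ℕ, 1 ≤ N → ∀ d : ℝ, |d| ≤ 2 / 5 →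
      |W N * (P N).eval (2 * Real.cos (Real.pi * d)) - G d * (N : ℝ) ^ (3 / 8 - 2 / 3 * d ^ 2)| ≤
        C' * (N : ℝ) ^ (3 / 20 : ℝ)) :
    (∃ a b K : ℝ, 0 ≤ K ∧ ∀ N : ℕ, 1 ≤ N →
      |(P N).coeff 1 - (1 / (3 * Real.pi) * Real.log N + a + (-1) ^ N * b)| ≤
        K * (N : ℝ) ^ (-(13 / 120 / 4) : ℝ)) ∧
    ∃ (g h : ℝ → ℝ) (K : ℝ), 0 ≤ K ∧ ContinuousOn g (Icc 0 (1 / 2)) ∧
      (∀ d ∈ Icc (0 : ℝ) (1 / 2), 0 < g d) ∧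
      (∀ N : ℕ, 1 ≤ N → ∀ d ∈ Icc (0 : ℝ) (1 / 2), |(P N).eval (2 * Real.cos (Real.pi * d)) -
        (g d * (N : ℝ) ^ (1 / 6 - 2 / 3 * d ^ 2) +
          (-1) ^ N * h d * (N : ℝ) ^ (1 / 6 - 2 / 3 * (1 - d) ^ 2))| ≤
        K * (N : ℝ) ^ (1 / 6 - 2 / 3 * d ^ 2 - 7 / 120)) ∧
      ∃ c0 C0 : ℝ, 0 < c0 ∧ 0 < C0 ∧ ∀ N : ℕ, 1 ≤ N → ∀ d ∈ Icc (0 : ℝ) (1 / 2),
        c0 * (N : ℝ) ^ (1 / 6 - 2 / 3 * d ^ 2) ≤ (P N).eval (2 * Real.cos (Real.pi * d)) ∧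
        (P N).eval (2 * Real.cos (Real.pi * d)) ≤ C0 * (N : ℝ) ^ (1 / 6 - 2 / 3 * d ^ 2) := by
  obtain ⟨G, H, C1, -, hG⟩ := h2
  obtain ⟨G1, C2, -, hG1⟩ := h1
  obtain ⟨K, hLaw⟩ := two_div hL hC hW0 hW nn one (G := G) (H := H) (C1 := C1)
    (fun N hN d h3 h4 => hG N hN d ⟨h3, h4⟩)
  obtain ⟨K1, hK1, hOne⟩ := one_div' hL hC hW0 hW nn hG1
  obtain ⟨a, b, K2, hK2, hmass⟩ := smass hLaw
  refine ⟨⟨a, b, K2, hK2, hmass⟩, ?_⟩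
  have hall := law_all hLaw hK1 hOne
  obtain ⟨c1, c2, c3⟩ := PG.law_two (P := P) (fun N m => nn N m) (fun N _ => one N)
    (show (0 : ℝ) < 7 / 120 by norm_num) hall
  exact ⟨_, _, K + K1, by have := hLaw.K0; positivity, c1, c2, hall, c3⟩

/-- **the sharp law at a fixed loop weight** -/
theorem sharp_at {P : ℕ → ℝ[X]} {g h : ℝ → ℝ} {K : ℝ} (hK : 0 ≤ K) {d : ℝ} (hd0 : 0 ≤ d) (hd : d < 1 / 2)
    (hL : ∀ N : ℕ, 1 ≤ N → |(P N).eval (2 * Real.cos (Real.pi * d)) -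
        (g d * (N : ℝ) ^ (1 / 6 - 2 / 3 * d ^ 2) +
          (-1) ^ N * h d * (N : ℝ) ^ (1 / 6 - 2 / 3 * (1 - d) ^ 2))| ≤
        K * (N : ℝ) ^ (1 / 6 - 2 / 3 * d ^ 2 - 7 / 120)) :
    ∃ c K' : ℝ, 0 < c ∧ ∀ N : ℕ, 1 ≤ N →
      |(P N).eval (2 * Real.cos (Real.pi * d)) / (N : ℝ) ^ (1 / 6 - 2 / 3 * d ^ 2) - g d| ≤
        K' * (N : ℝ) ^ (-c) := by
  refine ⟨min (7 / 120) (2 / 3 * (1 - 2 * d)), |h d| + K, lt_min (by norm_num) (by linarith), fun N hN => ?_⟩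
  have hN1 : (1 : ℝ) ≤ N := by exact_mod_cast hN
  have hN0 : (0 : ℝ) < N := by linarith
  set E : ℝ := 1 / 6 - 2 / 3 * d ^ 2 with hE
  set c : ℝ := min (7 / 120) (2 / 3 * (1 - 2 * d)) with hc
  have hp : 0 < (N : ℝ) ^ E := Real.rpow_pos_of_pos hN0 _
  have h1 := hL N hN
  have e1 : (P N).eval (2 * Real.cos (Real.pi * d)) / (N : ℝ) ^ E - g d =
      (((P N).eval (2 * Real.cos (Real.pi * d)) - (g d * (N : ℝ) ^ E +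
          (-1) ^ N * h d * (N : ℝ) ^ (1 / 6 - 2 / 3 * (1 - d) ^ 2))) +
        (-1) ^ N * h d * (N : ℝ) ^ (1 / 6 - 2 / 3 * (1 - d) ^ 2)) / (N : ℝ) ^ E := by
    field_simp
    ring
  rw [e1, abs_div, abs_of_pos hp, div_le_iff₀ hp]
  refine (abs_add_le _ _).trans ?_
  have e2 : |(-1) ^ N * h d * (N : ℝ) ^ (1 / 6 - 2 / 3 * (1 - d) ^ 2)| =
      |h d| * (N : ℝ) ^ (1 / 6 - 2 / 3 * (1 - d) ^ 2) := by
    rw [abs_mul, abs_mul, abs_pow, abs_neg, abs_one, one_pow, one_mul, abs_of_pos (Real.rpow_pos_of_pos hN0 _)]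
  have p1 : (N : ℝ) ^ (E - 7 / 120) ≤ (N : ℝ) ^ (-c) * (N : ℝ) ^ E := by
    rw [← Real.rpow_add hN0]
    exact Real.rpow_le_rpow_of_exponent_le hN1 (by have := min_le_left (7 / 120) (2 / 3 * (1 - 2 * d)); linarith)
  have p2 : (N : ℝ) ^ (1 / 6 - 2 / 3 * (1 - d) ^ 2) ≤ (N : ℝ) ^ (-c) * (N : ℝ) ^ E := by
    rw [← Real.rpow_add hN0]
    refine Real.rpow_le_rpow_of_exponent_le hN1 ?_
    have := min_le_right (7 / 120) (2 / 3 * (1 - 2 * d))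
    rw [hE]
    nlinarith
  rw [e2]
  have q1 := mul_le_mul_of_nonneg_left p1 hK
  have q2 := mul_le_mul_of_nonneg_left p2 (abs_nonneg (h d))
  calc _ ≤ K * (N : ℝ) ^ (E - 7 / 120) + |h d| * (N : ℝ) ^ (1 / 6 - 2 / 3 * (1 - d) ^ 2) := by linarith
    _ ≤ K * ((N : ℝ) ^ (-c) * (N : ℝ) ^ E) + |h d| * ((N : ℝ) ^ (-c) * (N : ℝ) ^ E) := add_le_add q1 q2
    _ = _ := by ring

end WX

end
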